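import Pool.Agent.H.MP_53e2a7_pr.h81.Defs

/-!
Module Basic: deterministic facts about `travel`, `cost` and `T`.
-/

namespace Frog81

open MeasureTheory ProbabilityTheory Filter
open scoped ENNReal NNReal

theorem T_le_travel {d : ℕ} (ω : Env d) (x y : Site d) : T ω x y ≤ travel ω x y := by
  unfold T
  refine (iInf_le _ []).trans ?_
  simp [cost]

theorem cost_append {d : ℕ} (ω : Env d) (x y : Site d) (l₁ l₂ : List (Site d)) :
    cost ω x (l₁ ++ y :: l₂) = cost ω x (l₁ ++ [y]) + cost ω y l₂ := by
  induction l₁ generalizing x with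
  | nil => simp [cost]
  | cons a l ih =>
    rw [List.cons_append, List.cons_append, cost, cost, ih, add_assoc]

theorem T_triangle {d : ℕ} (ω : Env d) (x y z : Site d) : T ω x z ≤ T ω x y + T ω y z := by
  refine ENNReal.le_iInf_add_iInf fun l₁ l₂ => ?_
  rw [← cost_append]
  unfold T
  refine (iInf_le _ (l₁ ++ y :: l₂)).trans (le_of_eq ?_)
  rw [List.append_assoc, List.cons_append]

theorem T_self {d : ℕ} (ω : Env d) (x : Site d) (h : 1 ≤ (ω x).1) : T ω x x = 0 := by
  refine le_antisymm ((T_le_travel ω x x).trans ?_) zero_le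
  unfold travel
  refine (iInf₂_le 0 (by omega)).trans ?_
  unfold hit
  refine (iInf₂_le 0 (by simp [pos])).trans ?_
  simp [clock]

theorem travel_eq_top {d : ℕ} (ω : Env d) (x y : Site d) (h : (ω x).1 = 0) :
    travel ω x y = ⊤ := by
  unfold travel
  rw [iInf_eq_top]
  intro j
  rw [iInf_eq_top]
  intro hj
  omega

theorem T_eq_top {d : ℕ} (ω : Env d) (x y : Site d) (h : (ω x).1 = 0) : T ω x y = ⊤ := by
  unfold T
  rw [iInf_eq_top]
  intro l
  cases l with
  | nil => rw [List.nil_append, cost, travel_eq_top ω x y h, top_add]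
  | cons a l => rw [List.cons_append, cost, travel_eq_top ω x a h, top_add]

theorem le_add_T {d : ℕ} (ω : Env d) (f : Site d → ℝ≥0∞)
    (hf : ∀ a b, f b ≤ f a + travel ω a b) (x y : Site d) : f y ≤ f x + T ω x y := by
  unfold T
  rw [ENNReal.add_iInf]
  refine le_iInf fun l => ?_
  induction l generalizing x with
  | nil =>
    rw [List.nil_append, cost, cost, add_zero]
    exact hf x y
  | cons a l ih =>
    rw [List.cons_append, cost, ← add_assoc]
    exact (ih a).trans (add_le_add (hf x a) le_rfl)

/-- A bijection of the sites which preserves `travel` preserves `T`. -/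
private theorem basic_T_congr {d : ℕ} (ω ω' : Env d) (e : Site d → Site d)
    (he : Function.Surjective e) (h : ∀ x y, travel ω' x y = travel ω (e x) (e y))
    (x y : Site d) : T ω' x y = T ω (e x) (e y) := by
  have h1 : ∀ (l : List (Site d)) (x : Site d), cost ω' x l = cost ω (e x) (l.map e) := by
    intro l
    induction l with
    | nil =>
      intro x
      simp [cost]
    | cons a l ih =>
      intro x
      rw [List.map_cons, cost, cost, h, ih]
  unfold T
  refine Function.Surjective.iInf_congr (List.map e) (List.map_surjective_iff.2 he) fun l => ?_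
  rw [h1, List.map_append, List.map_cons, List.map_nil]

private theorem basic_hit_add {d : ℕ} (x y v : Site d) (w : Walk d) :
    hit (x + v) (y + v) w = hit x y w := by
  unfold hit
  refine iInf_congr fun k => iInf_congr_Prop ?_ fun _ => rfl
  have h1 : pos (x + v) w k = pos x w k + v := by
    unfold pos
    abel
  rw [h1]
  exact add_left_inj v

theorem travel_shift {d : ℕ} (v : Site d) (ω : Env d) (x y : Site d) :
    travel (shift v ω) x y = travel ω (x + v) (y + v) := by
  unfold travel
  refine iInf_congr fun j => iInf_congr fun _ => ?_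
  rw [basic_hit_add]
  rfl

theorem T_shift {d : ℕ} (v : Site d) (ω : Env d) (x y : Site d) :
    T (shift v ω) x y = T ω (x + v) (y + v) :=
  basic_T_congr ω (shift v ω) (fun x => x + v) (fun x => ⟨x - v, sub_add_cancel x v⟩)
    (fun x y => travel_shift v ω x y) x y

private theorem basic_unit_flip {d : ℕ} (s : Dir d) : unit (s.1, !s.2) = - unit s := by
  funext i
  obtain ⟨s1, s2⟩ := s
  cases s2 <;> simp [unit] <;> split_ifs <;> simp

private theorem basic_hit_flip {d : ℕ} (x y : Site d) (w : Walk d) :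
    hit x y (flipWalk w) = hit (-x) (-y) w := by
  unfold hit
  refine iInf_congr fun k => iInf_congr_Prop ?_ fun _ => rfl
  have h3 : pos x (flipWalk w) k = - pos (-x) w k := by
    unfold pos
    rw [neg_add, neg_neg, ← Finset.sum_neg_distrib]
    congr 1
    exact Finset.sum_congr rfl fun i _ => basic_unit_flip (w i).2
  rw [h3]
  exact neg_eq_iff_eq_neg

theorem travel_reflect {d : ℕ} (ω : Env d) (x y : Site d) :
    travel (reflect ω) x y = travel ω (-x) (-y) := by
  unfold travel
  refine iInf_congr fun j => iInf_congr fun _ => ?_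
  rw [← basic_hit_flip]
  rfl

theorem T_reflect {d : ℕ} (ω : Env d) (x y : Site d) :
    T (reflect ω) x y = T ω (-x) (-y) :=
  basic_T_congr ω (reflect ω) (fun x => -x) (fun x => ⟨-x, neg_neg x⟩)
    (fun x y => travel_reflect ω x y) x y

/-- Cut at the first visit of `y`. -/
private theorem basic_cut {d : ℕ} (ω : Env d) (y : Site d) (l : List (Site d)) (a : Site d)
    (ha : a ≠ y) : ∃ x, x ≠ y ∧ T ω a x + travel ω x y ≤ cost ω a (l ++ [y]) := by
  have h0 : ∀ (b : Site d) (c : ℝ≥0∞), T ω b b + travel ω b y ≤ travel ω b y + c := by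
    intro b c
    by_cases h : (ω b).1 = 0
    · rw [travel_eq_top ω b y h, add_top, top_add]
    · rw [T_self ω b (by omega), zero_add]
      exact le_self_add
  induction l generalizing a with
  | nil => exact ⟨a, ha, by rw [List.nil_append, cost]; exact h0 a _⟩
  | cons b l ih =>
    rw [List.cons_append, cost]
    by_cases hb : b = y
    · subst hb
      exact ⟨a, ha, h0 a _⟩
    · obtain ⟨x, hx, h⟩ := ih b hb
      refine ⟨x, hx, ?_⟩
      calc T ω a x + travel ω x y ≤ (T ω a b + T ω b x) + travel ω x y :=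
            add_le_add (T_triangle ω a b x) le_rfl
        _ = T ω a b + (T ω b x + travel ω x y) := add_assoc _ _ _
        _ ≤ travel ω a b + cost ω b (l ++ [y]) := add_le_add (T_le_travel ω a b) h

theorem T_parent {d : ℕ} (ω : Env d) (a y : Site d)
    (hfin : ∀ s : ℝ≥0, {x | T ω a x ≤ (s : ℝ≥0∞)}.Finite) (hy : y ≠ a) (htop : T ω a y ≠ ⊤) :
    ∃ x, x ≠ y ∧ T ω a y = T ω a x + travel ω x y := by
  have hlt : T ω a y < T ω a y + 1 := ENNReal.lt_add_right htop one_ne_zero
  have hne : T ω a y + 1 ≠ ⊤ := ENNReal.add_ne_top.2 ⟨htop, ENNReal.one_ne_top⟩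
  set G : Set (Site d) := {x | x ≠ y ∧ T ω a x ≤ T ω a y + 1} with hG
  have hGf : G.Finite := by
    refine (hfin (T ω a y + 1).toNNReal).subset ?_
    rintro x ⟨_, hx⟩
    rw [Set.mem_setOf_eq, ENNReal.coe_toNNReal hne]
    exact hx
  -- a short list gives an element of `G`
  have hshort : ∀ c : ℝ≥0∞, T ω a y < c → ∃ x ∈ G, T ω a x + travel ω x y < c := by
    intro c hc
    have h1 : T ω a y < min c (T ω a y + 1) := lt_min hc hlt
    have h2 : ∃ l : List (Site d), cost ω a (l ++ [y]) < min c (T ω a y + 1) := iInf_lt_iff.1 h1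
    obtain ⟨l, hl⟩ := h2
    obtain ⟨x, hx, h⟩ := basic_cut ω y l a (Ne.symm hy)
    refine ⟨x, ⟨hx, ?_⟩, h.trans_lt (hl.trans_le (min_le_left _ _))⟩
    exact (le_self_add.trans h).trans (hl.le.trans (min_le_right _ _))
  obtain ⟨x₁, hx₁, _⟩ := hshort _ hlt
  obtain ⟨x₀, hx₀, hmin⟩ := Set.exists_min_image G (fun x => T ω a x + travel ω x y) hGf ⟨x₁, hx₁⟩
  refine ⟨x₀, hx₀.1, le_antisymm ?_ ?_⟩
  · exact (T_triangle ω a x₀ y).trans (add_le_add le_rfl (T_le_travel ω x₀ y))
  · by_contra hcon
    rw [not_le] at hcon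
    obtain ⟨x, hx, h⟩ := hshort _ hcon
    exact absurd (hmin x hx) (not_le.2 h)

end Frog81
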