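import Pool.Agent.H.MP_53e2a7_pr.h81.Defs

/-!
Module Disc: discreteness in a regular environment.  If `∀ i, 0 < (w i).1` then `clock w` is
strictly increasing, and with `Tendsto (clock w) atTop atTop` the infimum in `hit x y w` is attained
at the first `k` with `pos x w k = y` (if there is one), and `{y | hit x y w ≤ s}` is contained in
the finite set of the positions `pos x w k` with `clock w k ≤ s`.  `hit x y w = 0` only if `y = x`.
For `travel` take the minimum over the finitely many `j < (ω x).1`.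
-/

namespace Frog81

open MeasureTheory ProbabilityTheory Filter
open scoped ENNReal NNReal

private theorem Disc_clock_mono {d : ℕ} (w : Walk d) (hw : ∀ i, 0 < (w i).1) :
    StrictMono (clock w) := by
  refine strictMono_nat_of_lt_succ fun k => ?_
  unfold clock
  rw [Finset.sum_range_succ]
  linarith [hw k]

private theorem Disc_clock_zero {d : ℕ} (w : Walk d) : clock w 0 = 0 := by
  simp [clock]

theorem hit_attained {d : ℕ} (x y : Site d) (w : Walk d) (hw : ∀ i, 0 < (w i).1)
    (h : hit x y w ≠ ⊤) : ∃ k, pos x w k = y ∧ hit x y w = ENNReal.ofReal (clock w k) := by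
  classical
  have hex : ∃ k, pos x w k = y := by
    by_contra hno
    apply h
    unfold hit
    rw [iInf_eq_top]
    intro k
    rw [iInf_eq_top]
    intro hk
    exact absurd ⟨k, hk⟩ hno
  refine ⟨Nat.find hex, Nat.find_spec hex, le_antisymm ?_ ?_⟩
  · unfold hit
    exact iInf₂_le (Nat.find hex) (Nat.find_spec hex)
  · refine le_iInf₂ fun k hk => ?_
    exact ENNReal.ofReal_le_ofReal ((Disc_clock_mono w hw).monotone (Nat.find_min' hex hk))

theorem travel_attained {d : ℕ} (ω : Env d) (hreg : Regular ω) (x y : Site d)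
    (h : travel ω x y ≠ ⊤) : ∃ j < (ω x).1, ∃ k, pos x ((ω x).2 j) k = y ∧
      travel ω x y = ENNReal.ofReal (clock ((ω x).2 j) k) ∧
      hit x y ((ω x).2 j) = ENNReal.ofReal (clock ((ω x).2 j) k) := by
  classical
  have hne : (Finset.range (ω x).1).Nonempty := by
    by_contra hno
    rw [Finset.not_nonempty_iff_eq_empty, Finset.range_eq_empty_iff] at hno
    apply h
    unfold travel
    rw [iInf_eq_top]
    intro j
    rw [iInf_eq_top]
    intro hj
    omega
  obtain ⟨j, hj, hmin⟩ := Finset.exists_min_image _ (fun j => hit x y ((ω x).2 j)) hne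
  rw [Finset.mem_range] at hj
  have htr : travel ω x y = hit x y ((ω x).2 j) := by
    refine le_antisymm (iInf₂_le j hj) (le_iInf₂ fun i hi => hmin i (Finset.mem_range.2 hi))
  rw [htr] at h
  obtain ⟨k, hk, hk2⟩ := hit_attained x y ((ω x).2 j) (hreg x j).1 h
  exact ⟨j, hj, k, hk, htr.trans hk2, hk2⟩

theorem travel_pos {d : ℕ} (ω : Env d) (hreg : Regular ω) (x y : Site d) (h : x ≠ y) :
    0 < travel ω x y := by
  by_cases htop : travel ω x y = ⊤
  · rw [htop]
    exact ENNReal.zero_lt_top
  · obtain ⟨j, hj, k, hk, hk2, -⟩ := travel_attained ω hreg x y htop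
    rw [hk2, ENNReal.ofReal_pos, ← Disc_clock_zero ((ω x).2 j)]
    refine Disc_clock_mono _ (hreg x j).1 (Nat.pos_of_ne_zero ?_)
    rintro rfl
    apply h
    rw [← hk]
    simp [pos]

theorem finite_travel_le {d : ℕ} (ω : Env d) (hreg : Regular ω) (x : Site d) (s : ℝ≥0) :
    {y | travel ω x y ≤ (s : ℝ≥0∞)}.Finite := by
  classical
  have hfin : ∀ j, {k | clock ((ω x).2 j) k ≤ s}.Finite := by
    intro j
    have h1 := ((hreg x j).2.eventually_gt_atTop (s : ℝ))
    obtain ⟨K, hK⟩ := eventually_atTop.1 h1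
    refine (Set.finite_lt_nat K).subset fun k hk => ?_
    by_contra hcon
    exact absurd (hK k (not_lt.1 hcon)) (not_lt.2 hk)
  have hsub : {y | travel ω x y ≤ (s : ℝ≥0∞)} ⊆
      ⋃ j ∈ Set.Iio (ω x).1, (fun k => pos x ((ω x).2 j) k) '' {k | clock ((ω x).2 j) k ≤ s} := by
    intro y hy
    have hy' : travel ω x y ≤ (s : ℝ≥0∞) := hy
    obtain ⟨j, hj, k, hk, hk2, -⟩ := travel_attained ω hreg x y
      (ne_top_of_le_ne_top ENNReal.coe_ne_top hy')
    rw [Set.mem_iUnion₂]
    refine ⟨j, hj, k, ?_, hk⟩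
    rw [hk2] at hy'
    exact ENNReal.ofReal_le_coe.1 hy'
  exact ((Set.finite_Iio _).biUnion fun j _ => (hfin j).image _).subset hsub

end Frog81
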