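import Pool.Agent.H.MP_53e2a7_pr.h81.Inv

/-!
Module Reg: almost surely all holding times are positive and every walk makes finitely many jumps
in finite time.  `expMeasure 1 (Set.Iic 0) = 0`.  For the clock: the events
`{1 ≤ (w i).1}` are independent with the same positive probability, so (second Borel-Cantelli,
`measure_limsup_eq_one`) infinitely many holding times are `≥ 1` and the (monotone) clock tends to
infinity; then countably many `x`, `j`, using that `ω ↦ (ω x).2 j` has law `walkLaw d`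
(`measurePreserving_walk`).
-/

namespace Frog81

open MeasureTheory ProbabilityTheory Filter
open scoped ENNReal NNReal

variable {d : ℕ} [NeZero d] (ν : Measure ℕ) [IsProbabilityMeasure ν]

private theorem Reg_exp_le : expMeasure 1 (Set.Iic 0) = 0 := by
  rw [← ofReal_cdf, cdf_expMeasure_eq one_pos, if_pos le_rfl]
  simp

private theorem Reg_exp_ge : expMeasure 1 (Set.Ioi 1) ≠ 0 := by
  have h1 : expMeasure 1 (Set.Iic 1) < 1 := by
    rw [← ofReal_cdf, cdf_expMeasure_eq one_pos, if_pos zero_le_one, ENNReal.ofReal_lt_one]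
    have := Real.exp_pos (-(1 * 1) : ℝ)
    linarith
  have h2 : (Set.Ioi (1 : ℝ)) = (Set.Iic 1)ᶜ := by
    rw [Set.compl_Iic]
  rw [h2, prob_compl_eq_one_sub measurableSet_Iic]
  exact (tsub_pos_of_lt h1).ne'

private theorem Reg_mp (d : ℕ) [NeZero d] (i : ℕ) :
    MeasurePreserving (fun w : Walk d => (w i).1) (walkLaw d) (expMeasure 1) := by
  have h1 : MeasurePreserving (fun w : Walk d => w i) (walkLaw d)
      ((expMeasure 1).prod (stepLaw d)) :=
    measurePreserving_eval_infinitePi (fun _ : ℕ => (expMeasure 1).prod (stepLaw d)) i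
  have h2 : MeasurePreserving (Prod.fst : ℝ × Dir d → ℝ) ((expMeasure 1).prod (stepLaw d))
      (expMeasure 1) := measurePreserving_fst
  exact h2.comp h1

private theorem Reg_indep (d : ℕ) [NeZero d] :
    iIndepFun (fun (i : ℕ) (w : Walk d) => w i) (walkLaw d) :=
  iIndepFun_infinitePi (P := fun _ : ℕ => (expMeasure 1).prod (stepLaw d)) (X := fun _ w => w)
    fun _ => measurable_id

private theorem Reg_clock {d : ℕ} {w : Walk d} (h0 : ∀ i, 0 < (w i).1)
    (h1 : ∃ᶠ n in atTop, 1 < (w n).1) : Tendsto (clock w) atTop atTop := by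
  have hmono : Monotone (clock w) := by
    refine monotone_nat_of_le_succ fun n => ?_
    unfold clock
    rw [Finset.sum_range_succ]
    linarith [h0 n]
  have key : ∀ N : ℕ, ∃ k, (N : ℝ) ≤ clock w k := by
    intro N
    induction N with
    | zero => exact ⟨0, by simp [clock]⟩
    | succ N ih =>
      obtain ⟨k, hk⟩ := ih
      obtain ⟨n, hn, hn1⟩ := frequently_atTop.1 h1 k
      refine ⟨n + 1, ?_⟩
      have h2 : clock w (n + 1) = clock w n + (w n).1 := by
        unfold clock
        rw [Finset.sum_range_succ]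
      have h3 := hmono hn
      push_cast
      linarith
  refine tendsto_atTop_atTop_of_monotone hmono fun b => ?_
  obtain ⟨N, hN⟩ := exists_nat_ge b
  obtain ⟨k, hk⟩ := key N
  exact ⟨k, hN.trans hk⟩

theorem ae_walk_regular (d : ℕ) [NeZero d] :
    ∀ᵐ w ∂ walkLaw d, (∀ i, 0 < (w i).1) ∧ Tendsto (clock w) atTop atTop := by
  have h0 : ∀ᵐ w ∂ walkLaw d, ∀ i, 0 < (w i).1 := by
    rw [ae_all_iff]
    intro i
    have h1 : ∀ᵐ y ∂ expMeasure 1, (0 : ℝ) < y := by
      rw [ae_iff]
      have h2 : {a : ℝ | ¬ 0 < a} = Set.Iic 0 := by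
        ext a
        exact not_lt
      rw [h2]
      exact Reg_exp_le
    exact (Reg_mp d i).quasiMeasurePreserving.ae h1
  obtain ⟨E, hE⟩ : ∃ E : ℕ → Set (Walk d),
      E = fun n : ℕ => (fun w : Walk d => w n) ⁻¹' (Prod.fst ⁻¹' Set.Ioi (1 : ℝ)) := ⟨_, rfl⟩
  have hm1 : MeasurableSet (Prod.fst ⁻¹' Set.Ioi (1 : ℝ) : Set (ℝ × Dir d)) :=
    measurable_fst measurableSet_Ioi
  have hEm : ∀ n, MeasurableSet (E n) := by
    intro n
    rw [hE]
    exact (measurable_pi_apply _) hm1
  have hE1 : ∀ n, walkLaw d (E n) = expMeasure 1 (Set.Ioi 1) := by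
    intro n
    have h1 : E n = (fun w : Walk d => (w n).1) ⁻¹' (Set.Ioi (1 : ℝ)) := by
      rw [hE]
      rfl
    rw [h1]
    exact (Reg_mp d n).measure_preimage measurableSet_Ioi.nullMeasurableSet
  have hEi : iIndepSet E (walkLaw d) := by
    rw [iIndepSet_iff_meas_biInter hEm]
    intro I
    have h1 := (iIndepFun_iff_measure_inter_preimage_eq_mul.1 (Reg_indep d)) I
      (sets := fun _ => Prod.fst ⁻¹' Set.Ioi (1 : ℝ)) fun _ _ => hm1
    rw [hE]
    exact h1
  have hsum : ∑' n, walkLaw d (E n) = ⊤ := by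
    simp only [hE1]
    exact ENNReal.tsum_const_eq_top_of_ne_zero Reg_exp_ge
  have hlim := measure_limsup_eq_one hEm hEi hsum
  have hae : ∀ᵐ w ∂ walkLaw d, w ∈ limsup E atTop := by
    rw [← prob_compl_eq_zero_iff (MeasurableSet.measurableSet_limsup hEm)] at hlim
    exact hlim
  filter_upwards [h0, hae] with w hw0 hw
  rw [mem_limsup_iff_frequently_mem] at hw
  refine ⟨hw0, Reg_clock hw0 (hw.mono fun n hn => ?_)⟩
  rw [hE] at hn
  exact hn

theorem ae_regular : ∀ᵐ ω ∂ envLaw d ν, Regular ω := by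
  unfold Regular
  rw [ae_all_iff]
  intro x
  rw [ae_all_iff]
  intro j
  exact (measurePreserving_walk ν x j).quasiMeasurePreserving.ae (ae_walk_regular d)

end Frog81
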