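import Pool.Agent.H.MP_53e2a7_pr.h81.Expo
import Pool.Agent.H.MP_53e2a7_pr.h81.Disc
import Pool.Agent.H.MP_53e2a7_pr.h81.Reg

/-!
Module Behind: almost surely, for all natural `C ≥ 1`, `K`, only finitely many `y ≥ 1` are reached
from negative sites before time `C y + K`.

Proof.  If a particle of `x < 0` is at `y` at time `clock k ≤ C y + K`, then
`pos 0 w k 0 = |x| + y ≥ (|x| - K / C) + clock k / C`.  Put
`G u = ν {m | exp (δ u / 2) ≤ m} + ofReal (Q exp (-δ u / 2))` with `δ, Q` from `expo_right C`; by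
`measure_exists_particle_le` with `N = exp (δ u / 2)` the probability that some particle of `x`
satisfies `∃ k, u + clock k / C ≤ pos 0 w k 0` is `≤ G u`, and `∑_{n} G (n - K / C) < ∞`
(`LogMoment`, all but finitely many terms).  Borel-Cantelli (`measure_limsup_eq_zero` /
`ae_eventually_notMem`): a.s. only finitely many `x < 0` have a particle with this property.  For each
single particle of a site `x < 0`: `pos 0 w k 0 = |x| + y` and `clock k ≤ C y + K` imply
`pos 0 w k 0 ≥ (y / 2 - K / (2 C)) + clock k / (2 C)`, whose probability is summable over `y`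
(`expo_right (2 C)`), so only finitely many `y` (Borel-Cantelli, for all sites and particles at
once: countably many).  There are finitely many particles per site.  `travel ω (axis x) (axis y) ≤
ofReal (C y + K)` gives `j`, `k` by `travel_attained` (`ae_regular`); note
`pos (axis x) w k = axis y` means `pos 0 w k 0 = y - x`.
-/

namespace Frog81

open MeasureTheory ProbabilityTheory Filter
open scoped ENNReal NNReal

variable (ν : Measure ℕ) [IsProbabilityMeasure ν]

private noncomputable def behindG (δ Q u : ℝ) : ℝ≥0∞ :=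
  ν {m : ℕ | Real.exp (δ * u / 2) ≤ m} + ENNReal.ofReal (Q * Real.exp (-(δ * u / 2)))

private theorem behindG_anti {δ Q : ℝ} (hδ : 0 < δ) (hQ : 0 < Q) {u v : ℝ} (h : u ≤ v) :
    behindG ν δ Q v ≤ behindG ν δ Q u := by
  unfold behindG
  have h1 : δ * u / 2 ≤ δ * v / 2 := by
    have := mul_le_mul_of_nonneg_left h hδ.le
    linarith
  refine add_le_add (measure_mono fun m hm => (Real.exp_le_exp.2 h1).trans hm) ?_
  apply ENNReal.ofReal_le_ofReal
  apply mul_le_mul_of_nonneg_left _ hQ.le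
  exact Real.exp_le_exp.2 (by linarith)

private theorem behindG_sum (hlog : LogMoment ν) {δ Q : ℝ} (hδ : 0 < δ) (hQ : 0 < Q) {c : ℝ}
    (hc : 0 < c) : ∑' n : ℕ, behindG ν δ Q (c * n) ≠ ⊤ := by
  unfold behindG
  rw [ENNReal.tsum_add]
  refine ENNReal.add_ne_top.2 ⟨?_, ?_⟩
  · have h1 := hlog (δ * c / 2) (by positivity)
    have h2 : ∀ n : ℕ, ν {m : ℕ | Real.exp (δ * (c * n) / 2) ≤ m} =
        ν {m : ℕ | Real.exp (δ * c / 2 * n) ≤ m} := by
      intro n
      have : δ * (c * n) / 2 = δ * c / 2 * n := by ring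
      rw [this]
    simp only [h2]
    exact h1
  · have h3 : ∀ n : ℕ, Q * Real.exp (-(δ * (c * n) / 2)) = Q * Real.exp (-(δ * c / 2)) ^ n := by
      intro n
      rw [← Real.exp_nat_mul]
      congr 2
      ring
    simp only [h3]
    have hlt : Real.exp (-(δ * c / 2)) < 1 := by
      rw [Real.exp_lt_one_iff]
      have : 0 < δ * c / 2 := by positivity
      linarith
    have hs : Summable fun n : ℕ => Q * Real.exp (-(δ * c / 2)) ^ n :=
      (summable_geometric_of_lt_one (Real.exp_pos _).le hlt).mul_left Q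
    rw [← ENNReal.ofReal_tsum_of_nonneg (fun n => by positivity) hs]
    exact ENNReal.ofReal_ne_top

private theorem behind_site {S : Set (Walk 1)} (hS : MeasurableSet S) {δ Q u : ℝ}
    (hSQ : walkLaw 1 S ≤ ENNReal.ofReal (Q * Real.exp (-δ * u))) (x : ℤ) :
    envLaw 1 ν {ω | ∃ j < (ω (axis x)).1, (ω (axis x)).2 j ∈ S} ≤ behindG ν δ Q u := by
  refine (measure_exists_particle_le ν (axis x) S hS (Real.exp (δ * u / 2))
    (Real.exp_pos _).le).trans ?_
  unfold behindG
  refine add_le_add le_rfl ?_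
  refine (mul_le_mul_right hSQ _).trans (le_of_eq ?_)
  rw [← ENNReal.ofReal_mul (Real.exp_pos _).le]
  congr 1
  have h1 : Real.exp (-(δ * u / 2)) = Real.exp (δ * u / 2) * Real.exp (-δ * u) := by
    rw [← Real.exp_add]
    congr 1
    ring
  rw [h1]
  ring

private theorem behind_meas_pos (k : ℕ) : Measurable fun w : Walk 1 => ((pos 0 w k 0 : ℤ) : ℝ) := by
  have h1 : Measurable fun w : Walk 1 => pos 0 w k 0 :=
    (measurable_pi_apply 0).comp (measurable_pos 0 k)
  exact (measurable_of_countable (fun z : ℤ => (z : ℝ))).comp h1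

private theorem behind_meas (C u : ℝ) :
    MeasurableSet {w : Walk 1 | ∃ k : ℕ, u + clock w k / C ≤ (pos 0 w k 0 : ℝ)} := by
  have h1 : {w : Walk 1 | ∃ k : ℕ, u + clock w k / C ≤ (pos 0 w k 0 : ℝ)} =
      ⋃ k : ℕ, {w : Walk 1 | u + clock w k / C ≤ (pos 0 w k 0 : ℝ)} := by
    ext w
    simp
  rw [h1]
  refine MeasurableSet.iUnion fun k => ?_
  exact measurableSet_le (((measurable_clock k).div_const C).const_add u) (behind_meas_pos k)

private theorem behind_sites (hlog : LogMoment ν) (C K : ℕ) (hC : 1 ≤ C) :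
    ∀ᵐ ω ∂ envLaw 1 ν, ∃ I : ℕ, ∀ i : ℕ, I ≤ i → ¬ ∃ j < (ω (axis (-((i : ℤ) + 1)))).1, ∃ k : ℕ,
      ((i : ℝ) + 1 - K / C) + clock ((ω (axis (-((i : ℤ) + 1)))).2 j) k / C ≤
        (pos 0 ((ω (axis (-((i : ℤ) + 1)))).2 j) k 0 : ℝ) := by
  have hCr : (0 : ℝ) < C := by exact_mod_cast hC
  obtain ⟨δ, hδ, Q, hQ, hexp⟩ := expo_right C hCr
  obtain ⟨N0, hN0⟩ := exists_nat_ge ((K : ℝ) / C)
  have hsum : ∑' i : ℕ, envLaw 1 ν {ω : Env 1 | ∃ j < (ω (axis (-(((i + N0 : ℕ) : ℤ) + 1)))).1,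
      (ω (axis (-(((i + N0 : ℕ) : ℤ) + 1)))).2 j ∈
        {w : Walk 1 | ∃ k : ℕ, (((i + N0 : ℕ) : ℝ) + 1 - K / C) + clock w k / C ≤
          (pos 0 w k 0 : ℝ)}} ≠ ⊤ := by
    refine ne_top_of_le_ne_top (behindG_sum ν hlog hδ hQ (c := 1) one_pos)
      (ENNReal.tsum_le_tsum fun i => ?_)
    refine (behind_site ν (behind_meas _ _) (hexp _) _).trans (behindG_anti ν hδ hQ ?_)
    push_cast
    linarith
  have h1 := ae_eventually_notMem hsum
  filter_upwards [h1] with ω hω
  obtain ⟨I, hI⟩ := eventually_atTop.1 hω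
  refine ⟨I + N0, fun i hi hex => ?_⟩
  obtain ⟨i', rfl⟩ : ∃ i', i = i' + N0 := ⟨i - N0, by omega⟩
  exact hI i' (by omega) hex

private theorem behind_particle (C K : ℕ) (hC : 1 ≤ C) (x : ℤ) (j : ℕ) :
    ∀ᵐ ω ∂ envLaw 1 ν, {y : ℕ | ∃ k : ℕ, ((y : ℝ) / 2 - K / (2 * C)) +
      clock ((ω (axis x)).2 j) k / (2 * C) ≤ (pos 0 ((ω (axis x)).2 j) k 0 : ℝ)}.Finite := by
  have hCr : (0 : ℝ) < C := by exact_mod_cast hC
  obtain ⟨δ, hδ, Q, hQ, hexp⟩ := expo_right (2 * C) (by positivity)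
  have hsum : ∑' y : ℕ, walkLaw 1 {w : Walk 1 | ∃ k : ℕ, ((y : ℝ) / 2 - K / (2 * C)) +
      clock w k / (2 * C) ≤ (pos 0 w k 0 : ℝ)} ≠ ⊤ := by
    refine ne_top_of_le_ne_top ?_ (ENNReal.tsum_le_tsum fun y : ℕ => hexp ((y : ℝ) / 2 - K / (2 * C)))
    have h3 : ∀ y : ℕ, Q * Real.exp (-δ * ((y : ℝ) / 2 - K / (2 * C))) =
        (Q * Real.exp (δ * (K / (2 * C)))) * Real.exp (-(δ / 2)) ^ y := by
      intro y
      rw [← Real.exp_nat_mul, mul_assoc, ← Real.exp_add]
      congr 2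
      ring
    simp only [h3]
    have hlt : Real.exp (-(δ / 2)) < 1 := by
      rw [Real.exp_lt_one_iff]
      have : 0 < δ / 2 := by positivity
      linarith
    have hs : Summable fun n : ℕ => (Q * Real.exp (δ * (K / (2 * C)))) * Real.exp (-(δ / 2)) ^ n :=
      (summable_geometric_of_lt_one (Real.exp_pos _).le hlt).mul_left _
    rw [← ENNReal.ofReal_tsum_of_nonneg (fun n => by positivity) hs]
    exact ENNReal.ofReal_ne_top
  have h1 := ae_eventually_notMem hsum
  have h2 := (measurePreserving_walk (d := 1) ν (axis x) j).quasiMeasurePreserving.ae h1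
  filter_upwards [h2] with ω hω
  obtain ⟨I, hI⟩ := eventually_atTop.1 hω
  refine (Set.finite_lt_nat I).subset fun y hy => ?_
  by_contra hcon
  exact hI y (not_lt.mp hcon) hy

theorem behind_finite (hlog : LogMoment ν) : ∀ᵐ ω ∂ envLaw 1 ν, ∀ C K : ℕ, 1 ≤ C →
    {y : ℕ | 1 ≤ y ∧ ∃ x : ℤ, x < 0 ∧
      travel ω (axis x) (axis y) ≤ ENNReal.ofReal (C * y + K)}.Finite := by
  rw [ae_all_iff]; intro C
  rw [ae_all_iff]; intro K
  by_cases hC : 1 ≤ C
  swap
  · exact Eventually.of_forall fun ω h => absurd h hC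
  have hCr : (0 : ℝ) < C := by exact_mod_cast hC
  have hpart : ∀ᵐ ω ∂ envLaw 1 ν, ∀ (x : ℤ) (j : ℕ), {y : ℕ | ∃ k : ℕ,
      ((y : ℝ) / 2 - K / (2 * C)) + clock ((ω (axis x)).2 j) k / (2 * C) ≤
        (pos 0 ((ω (axis x)).2 j) k 0 : ℝ)}.Finite := by
    rw [ae_all_iff]; intro x
    rw [ae_all_iff]; intro j
    exact behind_particle ν C K hC x j
  filter_upwards [ae_regular (d := 1) ν, behind_sites ν hlog C K hC, hpart] with ω hreg hsites hpt _
  obtain ⟨I, hI⟩ := hsites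
  refine ((Set.finite_lt_nat I).biUnion fun i _ =>
    (Set.finite_lt_nat (ω (axis (-((i : ℤ) + 1)))).1).biUnion fun j _ =>
      hpt (-((i : ℤ) + 1)) j).subset ?_
  rintro y ⟨hy1, x, hx, hxy⟩
  obtain ⟨j, hj, k, hpos, htr, -⟩ := travel_attained ω hreg (axis x) (axis y)
    (ne_top_of_le_ne_top ENNReal.ofReal_ne_top hxy)
  obtain ⟨i, rfl⟩ : ∃ i : ℕ, x = -((i : ℤ) + 1) := ⟨(-x - 1).toNat, by omega⟩
  rw [htr] at hxy
  have hclk : clock ((ω (axis (-((i : ℤ) + 1)))).2 j) k ≤ C * y + K :=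
    (ENNReal.ofReal_le_ofReal_iff (by positivity)).1 hxy
  set w := (ω (axis (-((i : ℤ) + 1)))).2 j with hw
  have hp0 : pos 0 w k 0 = (y : ℤ) + (i + 1) := by
    have h1 := congrFun hpos 0
    simp only [pos, axis, Pi.add_apply, if_true] at h1
    simp only [pos, Pi.add_apply, Pi.zero_apply]
    omega
  have hp : ((pos 0 w k 0 : ℤ) : ℝ) = (y : ℝ) + (i + 1) := by
    rw [hp0]; push_cast; ring
  have hiI : i < I := by
    by_contra hcon
    refine hI i (not_lt.mp hcon) ⟨j, hj, k, ?_⟩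
    rw [← hw, hp]
    have h2 : clock w k / C ≤ y + K / C := by
      rw [div_le_iff₀ hCr]
      have : (y + K / C : ℝ) * C = C * y + K := by field_simp
      rw [this]
      exact hclk
    linarith
  simp only [Set.mem_iUnion]
  refine ⟨i, hiI, j, hj, k, ?_⟩
  rw [← hw, hp]
  have h2 : clock w k / (2 * C) ≤ (y : ℝ) / 2 + K / (2 * C) := by
    rw [div_le_iff₀ (by positivity)]
    have : ((y : ℝ) / 2 + K / (2 * C)) * (2 * C) = C * y + K := by field_simp
    rw [this]
    exact hclk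
  have hi0 : (0 : ℝ) ≤ i := Nat.cast_nonneg i
  linarith

end Frog81
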