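import Pool.Agent.H.MP_53e2a7_pr.h81.Expo

/-!
Module Catch: particles from behind do not catch a linearly moving front.

Proof of `catch_right`.  `δ, Q` from `expo_right C`.  Put
`G u = ν {m | exp (δ u / 2) ≤ m} + ofReal (Q exp (-δ u / 2))`, nonincreasing, and
`∑ₙ G (κ₀ n) < ∞` for every `κ₀ > 0` (`LogMoment`).  By `measure_exists_particle_le` with
`N = exp (δ u / 2)`, the probability that some particle of the site `x` satisfies the condition with
gap `u` is `≤ G u`.  For `x ≤ 0` the gap is `≥ M + |x| - K`, for `0 < x < M` it is `≥ κ₀ M - K`,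
`κ₀ = min 1 κ`.  So `P(CatchRight) ≤ ∑_{i ≥ 0} G (M + i - K) + M G (κ₀ M - K)` for `M` large enough.
The first is a tail of a convergent series; the second tends to zero because `G` is nonincreasing
and summable.  `catch_left`: the same with `expo_left`.
-/

namespace Frog81

open MeasureTheory ProbabilityTheory Filter
open scoped ENNReal NNReal

variable (ν : Measure ℕ) [IsProbabilityMeasure ν]

/-- The bound for one site. -/
private noncomputable def catchG (δ Q u : ℝ) : ℝ≥0∞ :=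
  ν {m : ℕ | Real.exp (δ * u / 2) ≤ m} + ENNReal.ofReal (Q * Real.exp (-(δ * u / 2)))

private theorem catchG_anti {δ Q : ℝ} (hδ : 0 < δ) (hQ : 0 < Q) {u v : ℝ} (h : u ≤ v) :
    catchG ν δ Q v ≤ catchG ν δ Q u := by
  unfold catchG
  have h1 : δ * u / 2 ≤ δ * v / 2 := by
    have := mul_le_mul_of_nonneg_left h hδ.le
    linarith
  refine add_le_add (measure_mono fun m hm => (Real.exp_le_exp.2 h1).trans hm) ?_
  apply ENNReal.ofReal_le_ofReal
  apply mul_le_mul_of_nonneg_left _ hQ.le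
  exact Real.exp_le_exp.2 (by linarith)

private theorem catchG_sum (hlog : LogMoment ν) {δ Q : ℝ} (hδ : 0 < δ) (hQ : 0 < Q) {c : ℝ}
    (hc : 0 < c) : ∑' n : ℕ, catchG ν δ Q (c * n) ≠ ⊤ := by
  unfold catchG
  rw [ENNReal.tsum_add]
  refine ENNReal.add_ne_top.2 ⟨?_, ?_⟩
  · have h1 := hlog (δ * c / 2) (by positivity)
    have h2 : ∀ n : ℕ, ν {m : ℕ | Real.exp (δ * (c * n) / 2) ≤ m} =
        ν {m : ℕ | Real.exp (δ * c / 2 * n) ≤ m} := by
      intro n
      have : δ * (c * n) / 2 = δ * c / 2 * n := by ring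
      rw [this]
    simp only [h2]
    exact h1
  · have h3 : ∀ n : ℕ, Q * Real.exp (-(δ * (c * n) / 2)) = Q * Real.exp (-(δ * c / 2)) ^ n := by
      intro n
      rw [← Real.exp_nat_mul]
      congr 2
      ring
    simp only [h3]
    have hlt : Real.exp (-(δ * c / 2)) < 1 := by
      rw [Real.exp_lt_one_iff]
      have : 0 < δ * c / 2 := by positivity
      linarith
    have hs : Summable fun n : ℕ => Q * Real.exp (-(δ * c / 2)) ^ n :=
      (summable_geometric_of_lt_one (Real.exp_pos _).le hlt).mul_left Q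
    rw [← ENNReal.ofReal_tsum_of_nonneg (fun n => by positivity) hs]
    exact ENNReal.ofReal_ne_top

private theorem catch_site {S : Set (Walk 1)} (hS : MeasurableSet S) {δ Q u : ℝ}
    (hSQ : walkLaw 1 S ≤ ENNReal.ofReal (Q * Real.exp (-δ * u))) (x : ℤ) :
    envLaw 1 ν {ω | ∃ j < (ω (axis x)).1, (ω (axis x)).2 j ∈ S} ≤ catchG ν δ Q u := by
  refine (measure_exists_particle_le ν (axis x) S hS (Real.exp (δ * u / 2))
    (Real.exp_pos _).le).trans ?_
  unfold catchG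
  refine add_le_add le_rfl ?_
  refine (mul_le_mul_right hSQ _).trans (le_of_eq ?_)
  rw [← ENNReal.ofReal_mul (Real.exp_pos _).le]
  congr 1
  have h1 : Real.exp (-(δ * u / 2)) = Real.exp (δ * u / 2) * Real.exp (-δ * u) := by
    rw [← Real.exp_add]
    congr 1
    ring
  rw [h1]
  ring

private theorem catch_tail {b : ℕ → ℝ≥0∞} (hb : ∑' n, b n ≠ ⊤) (hanti : ∀ n m, n ≤ m → b m ≤ b n) :
    Tendsto (fun M : ℕ => ∑' i : ℕ, b (i + M) + (M : ℝ≥0∞) * b M) atTop (nhds 0) := by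
  have h1 : Tendsto (fun M : ℕ => ∑' i : ℕ, b (i + M)) atTop (nhds 0) :=
    ENNReal.tendsto_sum_nat_add b hb
  have h2 : ∀ M : ℕ, (M : ℝ≥0∞) * b M ≤ 2 * ∑' i : ℕ, b (i + M / 2) := by
    intro M
    have h3 : (M : ℝ≥0∞) ≤ 2 * ((M - M / 2 : ℕ) : ℝ≥0∞) := by
      have : M ≤ 2 * (M - M / 2) := by omega
      exact_mod_cast this
    calc (M : ℝ≥0∞) * b M ≤ 2 * ((M - M / 2 : ℕ) : ℝ≥0∞) * b M := mul_le_mul_left h3 _
      _ = 2 * ∑ _i ∈ Finset.range (M - M / 2), b M := by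
          rw [Finset.sum_const, Finset.card_range, nsmul_eq_mul, mul_assoc]
      _ ≤ 2 * ∑ i ∈ Finset.range (M - M / 2), b (i + M / 2) := by
          refine mul_le_mul_right (Finset.sum_le_sum fun i hi => hanti _ _ ?_) _
          rw [Finset.mem_range] at hi
          omega
      _ ≤ 2 * ∑' i : ℕ, b (i + M / 2) := mul_le_mul_right (ENNReal.sum_le_tsum _) _
  have h4 : Tendsto (fun M : ℕ => M / 2) atTop atTop := Nat.tendsto_div_const_atTop (by norm_num)
  have h5 : Tendsto (fun M : ℕ => 2 * ∑' i : ℕ, b (i + M / 2)) atTop (nhds 0) := by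
    have h6 := ENNReal.Tendsto.const_mul (a := 2) (h1.comp h4) (Or.inr (by norm_num))
    rw [mul_zero] at h6
    exact h6
  have h7 : Tendsto (fun M : ℕ => (M : ℝ≥0∞) * b M) atTop (nhds 0) :=
    tendsto_of_tendsto_of_tendsto_of_le_of_le tendsto_const_nhds h5 (fun _ => zero_le)
      (fun M => h2 M)
  simpa using h1.add h7

/-- The general form of both theorems. -/
private theorem catch_gen (hlog : LogMoment ν) {S : ℝ → Set (Walk 1)}
    (hS : ∀ u, MeasurableSet (S u)) (hSa : ∀ u v, u ≤ v → S v ⊆ S u) {δ Q : ℝ} (hδ : 0 < δ)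
    (hQ : 0 < Q) (hSQ : ∀ u, walkLaw 1 (S u) ≤ ENNReal.ofReal (Q * Real.exp (-δ * u))) {κ K : ℝ}
    (hκ : 0 < κ) (hκ1 : κ ≤ 1) (y : ℕ → ℕ → ℤ) (E : ℕ → Set (Env 1))
    (hE : ∀ M, ∀ ω ∈ E M, ∃ (x : ℤ) (u : ℝ),
      (∃ j < (ω (axis x)).1, (ω (axis x)).2 j ∈ S u) ∧
      ((∃ i : ℕ, x = y M i ∧ (M : ℝ) + i - K ≤ u) ∨ ∃ n < M, x = (n : ℤ) ∧ κ * M - K ≤ u)) :
    Tendsto (fun M : ℕ => envLaw 1 ν (E M)) atTop (nhds 0) := by
  have hc : 0 < κ / 2 := by positivity
  have hb := catchG_sum ν hlog hδ hQ hc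
  have hlim := catch_tail hb (fun n m hnm => catchG_anti ν hδ hQ (by
    have : (n : ℝ) ≤ m := by exact_mod_cast hnm
    exact mul_le_mul_of_nonneg_left this hc.le))
  obtain ⟨M0, hM0⟩ := exists_nat_gt (2 * K / κ)
  have hK : ∀ M : ℕ, M0 ≤ M → K ≤ κ / 2 * M := by
    intro M hM
    rw [div_lt_iff₀ hκ] at hM0
    have : (M0 : ℝ) ≤ M := by exact_mod_cast hM
    nlinarith
  refine tendsto_of_tendsto_of_tendsto_of_le_of_le' tendsto_const_nhds hlim
    (Eventually.of_forall fun _ => zero_le) ?_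
  filter_upwards [eventually_ge_atTop M0] with M hM
  have hKM := hK M hM
  have hsub : E M ⊆ (⋃ i : ℕ, {ω : Env 1 | ∃ j < (ω (axis (y M i))).1,
      (ω (axis (y M i))).2 j ∈ S (κ / 2 * ((i + M : ℕ) : ℝ))}) ∪
      ⋃ n ∈ Finset.range M, {ω : Env 1 | ∃ j < (ω (axis (n : ℤ))).1,
      (ω (axis (n : ℤ))).2 j ∈ S (κ / 2 * (M : ℝ))} := by
    intro ω hω
    obtain ⟨x, u, ⟨j, hj, hjS⟩, h | h⟩ := hE M ω hω
    · left
      obtain ⟨i, rfl, hu⟩ := h
      rw [Set.mem_iUnion]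
      refine ⟨i, j, hj, hSa _ _ ?_ hjS⟩
      refine le_trans ?_ hu
      push_cast
      have hi : (0 : ℝ) ≤ i := by positivity
      have hM' : (0 : ℝ) ≤ M := by positivity
      nlinarith
    · right
      obtain ⟨n, hn, rfl, hu⟩ := h
      rw [Set.mem_iUnion₂]
      refine ⟨n, Finset.mem_range.2 hn, j, hj, hSa _ _ ?_ hjS⟩
      linarith
  calc envLaw 1 ν (E M) ≤ envLaw 1 ν ((⋃ i : ℕ, {ω : Env 1 | ∃ j < (ω (axis (y M i))).1,
      (ω (axis (y M i))).2 j ∈ S (κ / 2 * ((i + M : ℕ) : ℝ))}) ∪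
      ⋃ n ∈ Finset.range M, {ω : Env 1 | ∃ j < (ω (axis (n : ℤ))).1,
      (ω (axis (n : ℤ))).2 j ∈ S (κ / 2 * (M : ℝ))}) := measure_mono hsub
    _ ≤ ∑' i : ℕ, catchG ν δ Q (κ / 2 * ((i + M : ℕ) : ℝ)) +
        ∑ _n ∈ Finset.range M, catchG ν δ Q (κ / 2 * (M : ℝ)) := by
        refine (measure_union_le _ _).trans (add_le_add ?_ ?_)
        · exact (measure_iUnion_le _).trans
            (ENNReal.tsum_le_tsum fun i => catch_site ν (hS _) (hSQ _) _)
        · exact (measure_biUnion_finset_le _ _).trans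
            (Finset.sum_le_sum fun n _ => catch_site ν (hS _) (hSQ _) _)
    _ = ∑' i : ℕ, catchG ν δ Q (κ / 2 * ((i + M : ℕ) : ℝ)) +
        (M : ℝ≥0∞) * catchG ν δ Q (κ / 2 * (M : ℝ)) := by
        rw [Finset.sum_const, Finset.card_range, nsmul_eq_mul]

private theorem catch_meas_pos (k : ℕ) : Measurable fun w : Walk 1 => ((pos 0 w k 0 : ℤ) : ℝ) := by
  have h1 : Measurable fun w : Walk 1 => pos 0 w k 0 :=
    (measurable_pi_apply 0).comp (measurable_pos 0 k)
  exact (measurable_of_countable (fun z : ℤ => (z : ℝ))).comp h1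

theorem catch_right (hlog : LogMoment ν) (C κ K : ℝ) (hC : 0 < C) (hκ : 0 < κ) :
    Tendsto (fun M : ℕ => envLaw 1 ν {ω | CatchRight C κ K M ω}) atTop (nhds 0) := by
  obtain ⟨δ, hδ, Q, hQ, hexp⟩ := expo_right C hC
  have hmeas : ∀ u : ℝ, MeasurableSet
      {w : Walk 1 | ∃ k : ℕ, u + clock w k / C ≤ (pos 0 w k 0 : ℝ)} := by
    intro u
    have h1 : {w : Walk 1 | ∃ k : ℕ, u + clock w k / C ≤ (pos 0 w k 0 : ℝ)} =
        ⋃ k : ℕ, {w : Walk 1 | u + clock w k / C ≤ (pos 0 w k 0 : ℝ)} := by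
      ext w
      simp
    rw [h1]
    refine MeasurableSet.iUnion fun k => ?_
    exact measurableSet_le (((measurable_clock k).div_const C).const_add u) (catch_meas_pos k)
  refine catch_gen ν hlog (S := fun u => {w | ∃ k : ℕ, u + clock w k / C ≤ (pos 0 w k 0 : ℝ)})
    hmeas ?_ hδ hQ hexp (κ := min 1 κ) (K := K) (by positivity) (min_le_left _ _)
    (fun _ i => -(i : ℤ)) _ ?_
  · rintro u v huv w ⟨k, hk⟩
    exact ⟨k, by linarith⟩
  · rintro M ω ⟨x, hx, j, hj, k, hk⟩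
    refine ⟨x, ((M : ℝ) - x) + κ * |(x : ℝ)| - K, ⟨j, hj, k, hk⟩, ?_⟩
    rcases le_or_gt x 0 with h0 | h0
    · left
      refine ⟨(-x).toNat, by omega, ?_⟩
      have h1 : (((-x).toNat : ℕ) : ℝ) = -(x : ℝ) := by
        have : (((-x).toNat : ℕ) : ℤ) = -x := by omega
        exact_mod_cast this
      rw [h1]
      have := mul_nonneg hκ.le (abs_nonneg (x : ℝ))
      linarith
    · right
      refine ⟨x.toNat, by omega, by omega, ?_⟩
      have hx0 : (0 : ℝ) < x := by exact_mod_cast h0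
      have hxM : (x : ℝ) < M := by exact_mod_cast hx
      rw [abs_of_pos hx0]
      have h1 : min 1 κ * ((M : ℝ) - x) ≤ (M : ℝ) - x := by
        have := mul_le_mul_of_nonneg_right (min_le_left 1 κ) (sub_nonneg.2 hxM.le)
        linarith
      have h2 : min 1 κ * (x : ℝ) ≤ κ * x := mul_le_mul_of_nonneg_right (min_le_right _ _) hx0.le
      nlinarith

theorem catch_left (hlog : LogMoment ν) (C κ K : ℝ) (hC : 0 < C) (hκ : 0 < κ) :
    Tendsto (fun M : ℕ => envLaw 1 ν {ω | CatchLeft C κ K M ω}) atTop (nhds 0) := by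
  obtain ⟨δ, hδ, Q, hQ, hexp⟩ := expo_left C hC
  have hmeas : ∀ u : ℝ, MeasurableSet
      {w : Walk 1 | ∃ k : ℕ, u + clock w k / C ≤ -(pos 0 w k 0 : ℝ)} := by
    intro u
    have h1 : {w : Walk 1 | ∃ k : ℕ, u + clock w k / C ≤ -(pos 0 w k 0 : ℝ)} =
        ⋃ k : ℕ, {w : Walk 1 | u + clock w k / C ≤ -(pos 0 w k 0 : ℝ)} := by
      ext w
      simp
    rw [h1]
    refine MeasurableSet.iUnion fun k => ?_
    exact measurableSet_le (((measurable_clock k).div_const C).const_add u) (catch_meas_pos k).neg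
  refine catch_gen ν hlog (S := fun u => {w | ∃ k : ℕ, u + clock w k / C ≤ -(pos 0 w k 0 : ℝ)})
    hmeas ?_ hδ hQ hexp (κ := min 1 κ) (K := K) (by positivity) (min_le_left _ _)
    (fun M i => (M : ℤ) + i) _ ?_
  · rintro u v huv w ⟨k, hk⟩
    exact ⟨k, by linarith⟩
  · rintro M ω ⟨x, hx, j, hj, k, hk⟩
    refine ⟨x, (x : ℝ) + κ * |(x : ℝ) - M| - K, ⟨j, hj, k, hk⟩, ?_⟩
    have hx0 : (0 : ℝ) < x := by exact_mod_cast hx
    rcases le_or_gt (M : ℤ) x with h0 | h0
    · left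
      refine ⟨(x - M).toNat, by omega, ?_⟩
      have h1 : (((x - M).toNat : ℕ) : ℝ) = (x : ℝ) - M := by
        have : (((x - M).toNat : ℕ) : ℤ) = x - M := by omega
        exact_mod_cast this
      rw [h1]
      have := mul_nonneg hκ.le (abs_nonneg ((x : ℝ) - M))
      linarith
    · right
      refine ⟨x.toNat, by omega, by omega, ?_⟩
      have hxM : (x : ℝ) < M := by exact_mod_cast h0
      rw [abs_of_neg (by linarith)]
      have h1 : min 1 κ * ((M : ℝ) - x) ≤ κ * ((M : ℝ) - x) :=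
        mul_le_mul_of_nonneg_right (min_le_right _ _) (sub_nonneg.2 hxM.le)
      have h2 : min 1 κ * (x : ℝ) ≤ x := by
        have := mul_le_mul_of_nonneg_right (min_le_left 1 κ) hx0.le
        linarith
      nlinarith

end Frog81
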