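import Pool.Agent.H.MP_53e2a7_pr.h81.Defs

/-!
Module Inv: invariance of the law of the environment.  Shift: reindexing by `x ↦ x + v`.
Reflection: `stepLaw` is invariant under `(i, b) ↦ (i, !b)` (uniform law, a bijection), hence
`(expMeasure 1).prod stepLaw` under the coordinate map, `walkLaw` under `flipWalk`
(`infinitePi_map_pi`), `siteLaw` under the map on walks, and finally the reindexing `x ↦ -x`.
The data of one site have law `siteLaw` (`measurePreserving_eval_infinitePi`); independence of the
sites: `iIndepFun_infinitePi`.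
-/

namespace Frog81

open MeasureTheory ProbabilityTheory Filter
open scoped ENNReal NNReal

variable {d : ℕ} [NeZero d] (ν : Measure ℕ) [IsProbabilityMeasure ν]

theorem measurePreserving_shift (v : Site d) :
    MeasurePreserving (shift v) (envLaw d ν) (envLaw d ν) := by
  refine ⟨?_, ?_⟩
  · exact measurable_pi_lambda _ fun x => measurable_pi_apply (x + v)
  · exact Measure.map_infinitePi_infinitePi_of_inj (P := fun _ : Site d => siteLaw d ν)
      (f := fun x : Site d => x + v) (add_left_injective v)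

/-- The other direction on the same axis. -/
private def invDir {d : ℕ} (a : Dir d) : Dir d := (a.1, !a.2)

private theorem measurePreserving_invDir (d : ℕ) [NeZero d] :
    MeasurePreserving (invDir (d := d)) (stepLaw d) (stepLaw d) := by
  refine ⟨measurable_of_finite _, ?_⟩
  have hinv : ∀ a : Dir d, invDir (invDir a) = a := by
    rintro ⟨i, b⟩
    show (i, !(!b)) = (i, b)
    rw [Bool.not_not]
  ext S hS
  rw [Measure.map_apply (measurable_of_finite _) hS]
  have h1 : invDir (d := d) ⁻¹' S = invDir '' S := by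
    ext a
    constructor
    · intro ha
      exact ⟨invDir a, ha, hinv a⟩
    · rintro ⟨b, hb, rfl⟩
      show invDir (invDir b) ∈ S
      rw [hinv]
      exact hb
  unfold stepLaw
  rw [uniformOn_univ, uniformOn_univ, h1,
    Measure.count_injective_image (Function.LeftInverse.injective hinv)]

private theorem measurePreserving_invStep (d : ℕ) [NeZero d] :
    MeasurePreserving (Prod.map id (invDir (d := d))) ((expMeasure 1).prod (stepLaw d))
      ((expMeasure 1).prod (stepLaw d)) :=
  (MeasurePreserving.id _).prod (measurePreserving_invDir d)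

/-- coordinatewise application of a measure preserving map -/
private theorem measurePreserving_pi {ι X : Type*} [MeasurableSpace X] (μ : Measure X)
    [IsProbabilityMeasure μ] {g : X → X} (hg : MeasurePreserving g μ μ) :
    MeasurePreserving (fun (w : ι → X) i => g (w i)) (Measure.infinitePi fun _ => μ)
      (Measure.infinitePi fun _ => μ) := by
  refine ⟨measurable_pi_lambda _ fun i => hg.measurable.comp (measurable_pi_apply i), ?_⟩
  have h1 := Measure.infinitePi_map_pi (fun _ : ι => μ) (f := fun _ => g) fun _ => hg.measurable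
  simp only [hg.map_eq] at h1
  exact h1

theorem measurePreserving_flipWalk (d : ℕ) [NeZero d] :
    MeasurePreserving (flipWalk (d := d)) (walkLaw d) (walkLaw d) :=
  measurePreserving_pi (ι := ℕ) ((expMeasure 1).prod (stepLaw d)) (measurePreserving_invStep d)

theorem measurePreserving_reflect :
    MeasurePreserving (reflect (d := d)) (envLaw d ν) (envLaw d ν) := by
  have h1 : MeasurePreserving (fun (ws : ℕ → Walk d) j => flipWalk (ws j))
      (Measure.infinitePi fun _ => walkLaw d) (Measure.infinitePi fun _ => walkLaw d) :=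
    measurePreserving_pi (ι := ℕ) (walkLaw d) (measurePreserving_flipWalk d)
  have h2 : MeasurePreserving (Prod.map id (fun (ws : ℕ → Walk d) j => flipWalk (ws j)))
      (siteLaw d ν) (siteLaw d ν) := (MeasurePreserving.id ν).prod h1
  have h3 := measurePreserving_pi (ι := Site d) (siteLaw d ν) h2
  have h4 : MeasurePreserving (fun (ω : Env d) x => ω (-x)) (envLaw d ν) (envLaw d ν) := by
    refine ⟨measurable_pi_lambda _ fun x => measurable_pi_apply (-x), ?_⟩
    exact Measure.map_infinitePi_infinitePi_of_inj (P := fun _ : Site d => siteLaw d ν)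
      (f := fun x : Site d => -x) neg_injective
  exact h3.comp h4

theorem measurePreserving_site (x : Site d) :
    MeasurePreserving (fun ω : Env d => ω x) (envLaw d ν) (siteLaw d ν) :=
  measurePreserving_eval_infinitePi (fun _ : Site d => siteLaw d ν) x

theorem iIndepFun_sites : iIndepFun (fun (x : Site d) (ω : Env d) => ω x) (envLaw d ν) :=
  iIndepFun_infinitePi (P := fun _ : Site d => siteLaw d ν) (X := fun _ ω => ω)
    fun _ => measurable_id

theorem measurePreserving_walk (x : Site d) (j : ℕ) :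
    MeasurePreserving (fun ω : Env d => (ω x).2 j) (envLaw d ν) (walkLaw d) := by
  have h1 : MeasurePreserving (fun ws : ℕ → Walk d => ws j)
      (Measure.infinitePi fun _ => walkLaw d) (walkLaw d) :=
    measurePreserving_eval_infinitePi (fun _ : ℕ => walkLaw d) j
  have h2 : MeasurePreserving (Prod.snd : SiteData d → (ℕ → Walk d)) (siteLaw d ν)
      (Measure.infinitePi fun _ => walkLaw d) := measurePreserving_snd
  exact h1.comp (h2.comp (measurePreserving_site ν x))

private theorem measurePreserving_num (x : Site d) :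
    MeasurePreserving (fun ω : Env d => (ω x).1) (envLaw d ν) ν := by
  have h2 : MeasurePreserving (Prod.fst : SiteData d → ℕ) (siteLaw d ν) ν := measurePreserving_fst
  exact h2.comp (measurePreserving_site ν x)

/-- Union bound over the particles of one site. -/
theorem measure_exists_particle_le (x : Site d) (S : Set (Walk d)) (hS : MeasurableSet S) (N : ℝ)
    (hN : 0 ≤ N) :
    envLaw d ν {ω | ∃ j < (ω x).1, (ω x).2 j ∈ S} ≤
      ν {m : ℕ | N ≤ m} + ENNReal.ofReal N * walkLaw d S := by
  have hsub : {ω : Env d | ∃ j < (ω x).1, (ω x).2 j ∈ S} ⊆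
      ((fun ω : Env d => (ω x).1) ⁻¹' {m : ℕ | N ≤ m}) ∪
        ⋃ j ∈ Finset.range (⌈N⌉₊ - 1), (fun ω : Env d => (ω x).2 j) ⁻¹' S := by
    rintro ω ⟨j, hj, hjS⟩
    by_cases hm : N ≤ ((ω x).1 : ℝ)
    · exact Or.inl hm
    · right
      rw [Set.mem_iUnion₂]
      refine ⟨j, ?_, hjS⟩
      rw [Finset.mem_range]
      have h1 : ((j + 1 : ℕ) : ℝ) ≤ ((ω x).1 : ℝ) := by exact_mod_cast hj
      have h2 : ((j + 1 : ℕ) : ℝ) < N := lt_of_le_of_lt h1 (not_le.1 hm)
      have h3 : j + 1 < ⌈N⌉₊ := Nat.lt_ceil.2 h2
      omega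
  have hcard : ((⌈N⌉₊ - 1 : ℕ) : ℝ≥0∞) ≤ ENNReal.ofReal N := by
    rw [← ENNReal.ofReal_natCast]
    apply ENNReal.ofReal_le_ofReal
    rcases Nat.eq_zero_or_pos ⌈N⌉₊ with h0 | h0
    · rw [h0]
      simpa using hN
    · rw [Nat.cast_sub h0]
      have h1 := Nat.ceil_lt_add_one hN
      push_cast
      linarith
  calc envLaw d ν {ω | ∃ j < (ω x).1, (ω x).2 j ∈ S}
      ≤ envLaw d ν (((fun ω : Env d => (ω x).1) ⁻¹' {m : ℕ | N ≤ m}) ∪
        ⋃ j ∈ Finset.range (⌈N⌉₊ - 1), (fun ω : Env d => (ω x).2 j) ⁻¹' S) := measure_mono hsub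
    _ ≤ envLaw d ν ((fun ω : Env d => (ω x).1) ⁻¹' {m : ℕ | N ≤ m}) +
        envLaw d ν (⋃ j ∈ Finset.range (⌈N⌉₊ - 1), (fun ω : Env d => (ω x).2 j) ⁻¹' S) :=
        measure_union_le _ _
    _ ≤ ν {m : ℕ | N ≤ m} + ∑ j ∈ Finset.range (⌈N⌉₊ - 1),
          envLaw d ν ((fun ω : Env d => (ω x).2 j) ⁻¹' S) := by
        refine add_le_add (le_of_eq ?_) (measure_biUnion_finset_le _ _)
        exact (measurePreserving_num ν x).measure_preimage
          (MeasurableSet.of_discrete).nullMeasurableSet
    _ = ν {m : ℕ | N ≤ m} + ((⌈N⌉₊ - 1 : ℕ) : ℝ≥0∞) * walkLaw d S := by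
        rw [Finset.sum_congr rfl fun j _ => (measurePreserving_walk ν x j).measure_preimage
          hS.nullMeasurableSet, Finset.sum_const, Finset.card_range, nsmul_eq_mul]
    _ ≤ ν {m : ℕ | N ≤ m} + ENNReal.ofReal N * walkLaw d S := by gcongr

/-- Occupied sites: infinitely many of the sites `axis n`, `n ≥ 0`, are occupied. -/
theorem ae_occupied (hν : ν {0}ᶜ ≠ 0) (a : ℤ) (s : ℤ) (hs : s ≠ 0) :
    ∀ᵐ ω ∂ envLaw d ν, {n : ℕ | 1 ≤ (ω (axis (a + s * n))).1}.Infinite := by
  have hinj : Function.Injective (fun n : ℕ => (axis (a + s * n) : Site d)) := by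
    intro n m h
    have h1 := congrFun h 0
    unfold axis at h1
    simp only [if_true] at h1
    have h2 : s * (n : ℤ) = s * m := by linarith
    have h3 := mul_left_cancel₀ hs h2
    exact_mod_cast h3
  have hind := (iIndepFun_sites (d := d) ν).precomp hinj
  obtain ⟨E, hE⟩ : ∃ E : ℕ → Set (Env d),
      E = fun n : ℕ => (fun ω : Env d => ω (axis (a + s * (n : ℤ)))) ⁻¹'
        (Prod.fst ⁻¹' {m : ℕ | 1 ≤ m}) := ⟨_, rfl⟩
  have hm1 : MeasurableSet (Prod.fst ⁻¹' {m : ℕ | 1 ≤ m} : Set (SiteData d)) :=
    measurable_fst MeasurableSet.of_discrete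
  have hEm : ∀ n, MeasurableSet (E n) := by
    intro n
    rw [hE]
    exact (measurable_pi_apply _) hm1
  have hE1 : ∀ n, envLaw d ν (E n) = ν {0}ᶜ := by
    intro n
    have h1 : E n = (fun ω : Env d => (ω (axis (a + s * n))).1) ⁻¹' ({0}ᶜ : Set ℕ) := by
      rw [hE]
      ext ω
      show 1 ≤ (ω (axis (a + s * n))).1 ↔ (ω (axis (a + s * n))).1 ≠ 0
      exact Nat.one_le_iff_ne_zero
    rw [h1]
    exact (measurePreserving_num ν _).measure_preimage (MeasurableSet.of_discrete).nullMeasurableSet
  have hEi : iIndepSet E (envLaw d ν) := by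
    rw [iIndepSet_iff_meas_biInter hEm]
    intro I
    have h1 := (iIndepFun_iff_measure_inter_preimage_eq_mul.1 hind) I
      (sets := fun _ => Prod.fst ⁻¹' {m : ℕ | 1 ≤ m}) fun _ _ => hm1
    rw [hE]
    exact h1
  have hsum : ∑' n, envLaw d ν (E n) = ⊤ := by
    simp only [hE1]
    exact ENNReal.tsum_const_eq_top_of_ne_zero hν
  have hlim := measure_limsup_eq_one hEm hEi hsum
  have hae : ∀ᵐ ω ∂ envLaw d ν, ω ∈ limsup E atTop := by
    rw [← prob_compl_eq_zero_iff (MeasurableSet.measurableSet_limsup hEm)] at hlim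
    exact hlim
  filter_upwards [hae] with ω hω
  rw [mem_limsup_iff_frequently_mem] at hω
  rw [← Nat.frequently_atTop_iff_infinite]
  refine hω.mono fun n hn => ?_
  rw [hE] at hn
  exact hn

end Frog81
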