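import Pool.Agent.H.MP_53e2a7_pr.h81.Basic
import Pool.Agent.H.MP_53e2a7_pr.h81.Inv

/-!
Module Center: the origin is an interior point of the shape.

Proof.  `P(1 ≤ (ω 0).1) = ν {0}ᶜ > 0`.  For each `ε = 1 / (n + 2)` the inclusions hold a.s. for `ω`
and (by `measurePreserving_reflect`, and `(reflect ω 0).1 = (ω 0).1`) also for `reflect ω`; so there
is one `ω` with `1 ≤ (ω 0).1` for which, for all `n`, both hold for all large `t`.
`visited (reflect ω) t = - visited ω t` (`T_reflect`), so `filled (reflect ω) t ⊆ - filled ω t +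
[-1, 1]^d` (a point `p` with `p i + y i ∈ Ioc (-1/2) (1/2)`, `y ∈ visited ω t`, has
`-p i - y i ∈ [-1/2, 1/2)`; compare with the point `y` itself, which is in `filled ω t`).  Hence for
`a ∈ A`, `ε`, and all large `t`: `(1 - ε) a ∈ t⁻¹ filled (reflect ω) t ⊆ -(t⁻¹ filled ω t) +
t⁻¹ [-1, 1]^d ⊆ -(1 + ε) A + t⁻¹ [-1, 1]^d`.  Let `t → ∞`, then `ε → 0` (`A` is bounded):
`-a ∈ closure A`.  So `closure A` is symmetric.  Take `u ∈ interior A`; then `-u ∈ closure A` and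
`0 = (1/2) u + (1/2) (-u) ∈ interior A` (`Convex.combo_interior_closure_mem_interior` or similar).
-/

namespace Frog81

open MeasureTheory ProbabilityTheory Filter
open scoped ENNReal NNReal Pointwise

variable {d : ℕ} [NeZero d] (ν : Measure ℕ) [IsProbabilityMeasure ν]

private theorem center_pos (hν : ν {0}ᶜ ≠ 0) : envLaw d ν {ω | 1 ≤ (ω 0).1} ≠ 0 := by
  have h1 := (measurePreserving_site (d := d) ν 0).measure_preimage
    (s := {s : SiteData d | 1 ≤ s.1})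
    (measurableSet_le measurable_const measurable_fst).nullMeasurableSet
  have h2 : (fun ω : Env d => ω 0) ⁻¹' {s : SiteData d | 1 ≤ s.1} = {ω : Env d | 1 ≤ (ω 0).1} := rfl
  rw [← h2, h1]
  unfold siteLaw
  have h3 : {s : SiteData d | 1 ≤ s.1} = ({0}ᶜ : Set ℕ) ×ˢ (Set.univ : Set (ℕ → Walk d)) := by
    ext s
    simp [Nat.one_le_iff_ne_zero]
  rw [h3, Measure.prod_prod, measure_univ, mul_one]
  exact hν

omit [NeZero d] in
private theorem center_visited (ω : Env d) (t : ℝ) (y : Site d) :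
    y ∈ visited (reflect ω) t ↔ -y ∈ visited ω t := by
  show T (reflect ω) 0 y ≤ _ ↔ T ω 0 (-y) ≤ _
  rw [T_reflect, neg_zero]

omit [NeZero d] in
private theorem center_symm (A : Set (Fin d → ℝ)) (R : ℝ) (hR : ∀ a ∈ A, ‖a‖ ≤ R) (ω : Env d)
    (h : ∀ n : ℕ, ∀ᶠ t : ℝ in atTop,
      (1 - 1 / ((n : ℝ) + 2)) • A ⊆ t⁻¹ • filled (reflect ω) t ∧
      t⁻¹ • filled ω t ⊆ (1 + 1 / ((n : ℝ) + 2)) • A) (a : Fin d → ℝ) (ha : a ∈ A) :
    -a ∈ closure A := by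
  rw [Metric.mem_closure_iff]
  intro δ hδ
  have hR0 : 0 ≤ R := (norm_nonneg a).trans (hR a ha)
  obtain ⟨n, hn⟩ := exists_nat_gt (4 * R / δ)
  obtain ⟨ε, hε⟩ : ∃ ε : ℝ, ε = 1 / ((n : ℝ) + 2) := ⟨_, rfl⟩
  have hε0 : 0 < ε := by rw [hε]; positivity
  have hε1 : 2 * ε * R ≤ δ / 2 := by
    rw [hε]
    rw [div_lt_iff₀ hδ] at hn
    rw [show 2 * (1 / ((n : ℝ) + 2)) * R = 2 * R / ((n : ℝ) + 2) by ring,
      div_le_iff₀ (by positivity)]
    nlinarith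
  have h1 := h n
  rw [← hε] at h1
  obtain ⟨t, ⟨ht1, ht2⟩, ht3⟩ := (h1.and (eventually_gt_atTop (2 / δ))).exists
  have ht0 : 0 < t := lt_trans (by positivity) ht3
  obtain ⟨p, hp, hpa⟩ := ht1 (Set.smul_mem_smul_set ha)
  obtain ⟨y, hy, hyp⟩ := hp
  rw [center_visited] at hy
  have hy' : (fun i => (((-y) i : ℤ) : ℝ)) ∈ filled ω t := by
    refine ⟨-y, hy, fun i => ?_⟩
    rw [sub_self]
    constructor <;> norm_num
  obtain ⟨b, hb, hby⟩ := ht2 (Set.smul_mem_smul_set hy')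
  refine ⟨b, hb, ?_⟩
  have hpa' : t⁻¹ • p = (1 - ε) • a := hpa
  have hby' : (1 + ε) • b = t⁻¹ • (fun i => (((-y) i : ℤ) : ℝ)) := hby
  have key : -a - b = (-ε) • a + ε • b + t⁻¹ • ((fun i => ((y i : ℤ) : ℝ)) - p) := by
    have e1 : (fun i => (((-y) i : ℤ) : ℝ)) = -(fun i => ((y i : ℤ) : ℝ)) := by
      funext i; simp
    rw [e1, smul_neg] at hby'
    rw [smul_sub, hpa', ← neg_eq_iff_eq_neg.2 hby']
    module
  have hnorm : ‖(fun i => ((y i : ℤ) : ℝ)) - p‖ ≤ 1 := by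
    rw [pi_norm_le_iff_of_nonneg zero_le_one]
    intro i
    have := hyp i
    rw [Pi.sub_apply, Real.norm_eq_abs, abs_le]
    constructor <;> linarith [this.1, this.2]
  rw [dist_eq_norm, key]
  have hta : t⁻¹ < δ / 2 := by
    rw [inv_lt_comm₀ ht0 (by positivity)]
    rw [inv_div]
    exact ht3
  calc ‖(-ε) • a + ε • b + t⁻¹ • ((fun i => ((y i : ℤ) : ℝ)) - p)‖
      ≤ ‖(-ε) • a‖ + ‖ε • b‖ + ‖t⁻¹ • ((fun i => ((y i : ℤ) : ℝ)) - p)‖ := norm_add₃_le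
    _ ≤ ε * R + ε * R + t⁻¹ * 1 := by
        rw [norm_smul, norm_smul, norm_smul, norm_neg, Real.norm_of_nonneg hε0.le,
          Real.norm_of_nonneg (inv_pos.2 ht0).le]
        have := hR a ha
        have := hR b hb
        have := (inv_pos.2 ht0).le
        gcongr
    _ < δ := by linarith

theorem zero_mem_interior (hν : ν {0}ᶜ ≠ 0) (A : Set (Fin d → ℝ)) (hA : Bornology.IsBounded A)
    (hconv : Convex ℝ A) (hint : (interior A).Nonempty)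
    (hA2 : ∀ ε ∈ Set.Ioo (0 : ℝ) 1, ∀ᵐ ω ∂ envLaw d ν, 1 ≤ (ω 0).1 →
      ∀ᶠ t : ℝ in atTop, (1 - ε) • A ⊆ t⁻¹ • filled ω t ∧ t⁻¹ • filled ω t ⊆ (1 + ε) • A) :
    (0 : Fin d → ℝ) ∈ interior A := by
  have hε : ∀ n : ℕ, 1 / ((n : ℝ) + 2) ∈ Set.Ioo (0 : ℝ) 1 := by
    intro n
    refine ⟨by positivity, ?_⟩
    rw [div_lt_one (by positivity)]
    have : (0 : ℝ) ≤ n := Nat.cast_nonneg n
    linarith
  have h1 : ∀ᵐ ω ∂ envLaw d ν, ∀ n : ℕ, 1 ≤ (ω 0).1 → ∀ᶠ t : ℝ in atTop,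
      (1 - 1 / ((n : ℝ) + 2)) • A ⊆ t⁻¹ • filled ω t ∧
      t⁻¹ • filled ω t ⊆ (1 + 1 / ((n : ℝ) + 2)) • A :=
    ae_all_iff.2 fun n => hA2 _ (hε n)
  have h2 := (measurePreserving_reflect (d := d) ν).quasiMeasurePreserving.ae h1
  have h3 : ∃ ω : Env d, 1 ≤ (ω 0).1 ∧ (∀ n : ℕ, 1 ≤ (ω 0).1 → ∀ᶠ t : ℝ in atTop,
      (1 - 1 / ((n : ℝ) + 2)) • A ⊆ t⁻¹ • filled ω t ∧
      t⁻¹ • filled ω t ⊆ (1 + 1 / ((n : ℝ) + 2)) • A) ∧
      (∀ n : ℕ, 1 ≤ (reflect ω 0).1 → ∀ᶠ t : ℝ in atTop,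
      (1 - 1 / ((n : ℝ) + 2)) • A ⊆ t⁻¹ • filled (reflect ω) t ∧
      t⁻¹ • filled (reflect ω) t ⊆ (1 + 1 / ((n : ℝ) + 2)) • A) := by
    by_contra hc
    apply center_pos (d := d) ν hν
    have h4 : ∀ᵐ ω ∂ envLaw d ν, ¬ (1 ≤ (ω 0).1) := by
      filter_upwards [h1, h2] with ω ha hb h0
      exact hc ⟨ω, h0, ha, hb⟩
    have h5 := ae_iff.1 h4
    refine measure_mono_null ?_ h5
    intro ω hω
    exact not_not_intro hω
  obtain ⟨ω, h0, ha, hb⟩ := h3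
  obtain ⟨R, hR⟩ := hA.exists_norm_le
  have h0' : 1 ≤ (reflect ω 0).1 := by
    show 1 ≤ (ω (-0)).1
    rwa [neg_zero]
  have hs := center_symm A R hR ω (fun n => by
    filter_upwards [ha n h0, hb n h0'] with t h1 h2
    exact ⟨h2.1, h1.2⟩)
  obtain ⟨u, hu⟩ := hint
  have h6 := hconv.combo_interior_closure_mem_interior hu (hs u (interior_subset hu))
    (a := (1 / 2 : ℝ)) (b := (1 / 2 : ℝ)) (by norm_num) (by norm_num) (by norm_num)
  rwa [smul_neg, add_neg_cancel] at h6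

end Frog81
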