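import Pool.Agent.H.MP_53e2a7_pr.h81.Basic
import Pool.Agent.H.MP_53e2a7_pr.h81.Disc

/-!
Module Comp: comparison of the two-type process with the one-type processes.  `rate β κ ≤ 1`, so
`travel / rate ≥ travel`.  `le_time_one`: induction along parents: if `θ y = one`, `t y ≠ ⊤` and
`y ≠ 0` (and `y ≠ z` since `θ z = two`), there is a parent `x ≠ y` of the same type with
`t y = t x + travel ω x y / rate`, so `t x < t y` by `travel_pos` (well-founded: `t` takes values
`≤ t y` only on the finite set given by `fin`; strong induction on the number of sites `u` with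
`t u < t y`), `T ω 0 y ≤ T ω 0 x + T ω x y ≤ t x + travel ω x y ≤ t y`; for `y = 0` use `T_self`.
`le_time_two` is the same.  `time_le`: for `β = 1` all rates are `1` and `le` says
`t b ≤ t a + travel ω a b`; apply `le_add_T` to `f = t`.
-/

namespace Frog81

open MeasureTheory ProbabilityTheory Filter
open scoped ENNReal NNReal

variable {d : ℕ} {β : ℝ} {z : Site d} {ω : Env d} {t : Site d → ℝ≥0∞} {θ : Site d → Kind}

private theorem rate_ne_top (β : ℝ) (κ : Kind) : rate β κ ≠ ⊤ := by
  cases κ <;> simp [rate]

/-- Parents are visited strictly earlier. -/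
theorem time_lt (hreg : Regular ω) (hβ0 : 0 < β) (h : IsTwoType β z ω t θ) (x y : Site d)
    (hxy : x ≠ y) (hy : t y ≠ ⊤) (he : t y = t x + travel ω x y / rate β (θ x)) : t x < t y := by
  have hx : t x ≠ ⊤ := by
    intro hx
    rw [he, hx, top_add] at hy
    exact hy rfl
  have h1 : 0 < travel ω x y / rate β (θ x) :=
    ENNReal.div_pos (travel_pos ω hreg x y hxy).ne' (rate_ne_top β _)
  rw [he]
  exact ENNReal.lt_add_right hx h1.ne'

/-- A well-founded induction principle: the parents of a visited site are visited earlier. -/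
theorem parent_induction (hreg : Regular ω) (h : IsTwoType β z ω t θ) (p : Site d → Prop)
    (hp : ∀ y, t y ≠ ⊤ → (∀ x, t x < t y → p x) → p y) (y : Site d) (hy : t y ≠ ⊤) : p y := by
  have hfin : ∀ y, t y ≠ ⊤ → {u | t u < t y}.Finite := by
    intro y hy
    refine (h.fin (t y).toNNReal).subset ?_
    intro u hu
    have hu' : t u < t y := hu
    change t u ≤ ((t y).toNNReal : ℝ≥0∞)
    rw [ENNReal.coe_toNNReal hy]
    exact hu'.le
  have key : ∀ n : ℕ, ∀ y, t y ≠ ⊤ → {u | t u < t y}.ncard = n → p y := by
    intro n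
    induction n using Nat.strong_induction_on with
    | _ n ih =>
      intro y hy hn
      apply hp y hy
      intro x hx
      have hx' : t x ≠ ⊤ := (hx.trans_le le_top).ne
      refine ih _ ?_ x hx' rfl
      rw [← hn]
      apply Set.ncard_lt_ncard _ (hfin y hy)
      constructor
      · intro u hu
        exact lt_trans (show t u < t x from hu) hx
      · intro hsub
        exact lt_irrefl _ (show t x < t x from hsub hx)
  exact key _ y hy rfl

theorem le_time_one (hreg : Regular ω) (hβ0 : 0 < β) (hβ1 : β ≤ 1) (h0 : 1 ≤ (ω 0).1)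
    (h : IsTwoType β z ω t θ) (y : Site d) (hy : θ y = Kind.one) : T ω 0 y ≤ t y := by
  by_cases hty : t y = ⊤
  · rw [hty]; exact le_top
  refine parent_induction hreg h (fun y => θ y = Kind.one → T ω 0 y ≤ t y) ?_ y hty hy
  intro y hty ih hy
  by_cases hy0 : y = 0
  · rw [hy0, T_self ω 0 h0]; exact bot_le
  have hyz : y ≠ z := by
    rintro rfl
    rw [h.kind_start] at hy
    exact absurd hy (by decide)
  obtain ⟨x, hxy, hθ, he⟩ := h.parent y hy0 hyz hty
  have h1 := ih x (time_lt hreg hβ0 h x y hxy hty he) (hθ.trans hy)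
  calc T ω 0 y ≤ T ω 0 x + T ω x y := T_triangle ω 0 x y
    _ ≤ t x + travel ω x y := add_le_add h1 (T_le_travel ω x y)
    _ = t y := by rw [he, hθ, hy]; simp [rate]

theorem le_time_two (hreg : Regular ω) (hβ0 : 0 < β) (hβ1 : β ≤ 1) (hz : 1 ≤ (ω z).1)
    (h : IsTwoType β z ω t θ) (y : Site d) (hy : θ y = Kind.two) : T ω z y ≤ t y := by
  by_cases hty : t y = ⊤
  · rw [hty]; exact le_top
  refine parent_induction hreg h (fun y => θ y = Kind.two → T ω z y ≤ t y) ?_ y hty hy
  intro y hty ih hy
  by_cases hyz : y = z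
  · rw [hyz, T_self ω z hz]; exact bot_le
  have hy0 : y ≠ 0 := by
    rintro rfl
    rw [h.kind_zero] at hy
    exact absurd hy (by decide)
  obtain ⟨x, hxy, hθ, he⟩ := h.parent y hy0 hyz hty
  have h1 := ih x (time_lt hreg hβ0 h x y hxy hty he) (hθ.trans hy)
  calc T ω z y ≤ T ω z x + T ω x y := T_triangle ω z x y
    _ ≤ t x + travel ω x y := add_le_add h1 (T_le_travel ω x y)
    _ ≤ t x + travel ω x y / rate β (θ x) := by
        refine add_le_add le_rfl ?_
        rw [hθ, hy, ENNReal.le_div_iff_mul_le (Or.inl (by simpa [rate] using hβ0))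
          (Or.inl (rate_ne_top β _))]
        calc travel ω x y * rate β Kind.two ≤ travel ω x y * 1 := by
              refine mul_le_mul' le_rfl ?_
              simpa [rate] using hβ1
          _ = travel ω x y := mul_one _
    _ = t y := he.symm

theorem time_le (h : IsTwoType 1 z ω t θ) (y : Site d) : t y ≤ T ω 0 y ∧ t y ≤ T ω z y := by
  have hr : ∀ κ, rate 1 κ = 1 := by intro κ; cases κ <;> simp [rate]
  have h1 : ∀ a b, t b ≤ t a + travel ω a b := by
    intro a b
    have := h.le a b
    rwa [hr, div_one] at this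
  constructor
  · have := le_add_T ω t h1 0 y
    rwa [h.time_zero, zero_add] at this
  · have := le_add_T ω t h1 z y
    rwa [h.time_start, zero_add] at this

end Frog81
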