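import Pool.Agent.H.MP_53e2a7_pr.h81.Lap
import Pool.Agent.H.MP_53e2a7_pr.h81.Basic

/-!
Module Lower: linear lower bound for the one-type process in dimension one if `E η < ∞`.

Proof.  Let `E = ∫⁻ m ∂ν < ⊤` (real number), `lam > 0`, `r = root lam`.
(1) `∫⁻ eneg lam (travel ω (axis x) (axis y)) ≤ ofReal (E r^|y - x|)`: `eneg lam (⨅ ...) ≤ ∑_{j < η} eneg
lam (hit ...)`; integrate over the independent number `η` and walks (`laplace_hit`,
`measurePreserving_flipWalk` for `y < x`, `hit (axis x) (axis y) w = hit 0 (axis (y - x)) w`).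
(2) For a list `l` with `axis x :: l ++ [axis y]` without repetitions (as lists of integers):
`∫⁻ eneg lam (cost ω (axis x) (l ++ [axis y])) ≤ ∏ (E r^|step|)`, because `eneg lam (a + b) = eneg lam a
* eneg lam b` and the travel times out of different sites are independent (`iIndepFun_sites`).
(3) `eneg lam (T ω 0 (axis y)) ≤ ∑_{l} eneg lam (cost ω 0 (l ++ [axis y]))` over the countable set of
lists without repetitions (an infimum over all lists equals the one over lists without repetitions:
cut out loops; `eneg` is antitone; supremum ≤ sum), for `y ≠ 0`.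
(4) The sum over lists of length `n` of the products is `≤ q^(n+1) exp (-|y|)` with
`q = ∑_{s ≠ 0} E (r e)^|s| = 2 E r e / (1 - r e)`: induction on `n`,
`∑_x q^(n+1) e^{-|x|} E r^|y - x| ≤ q^(n+1) e^{-|y|} ∑_s E (r e)^|s|`.  Choose `lam` so large that
`q ≤ 1/2` (`root lam ≤ 1 / (1 + lam)`).  So `∫⁻ eneg lam (T ω 0 (axis y)) ≤ exp (-|y|)`.
(5) With `δ = 1 / (2 lam)`: `P(T ω 0 (axis y) ≤ δ |y|) ≤ exp (lam δ |y|) exp (-|y|) = exp (-|y|/2)`,
summable over `y`; Borel-Cantelli: a.s. `T ω 0 (axis y) > δ |y|` for all but finitely many `y`, so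
`δ |y| - K ≤ T ω 0 (axis y)` for all `y` with a suitable `K`.
-/

namespace Frog81

open MeasureTheory ProbabilityTheory Filter
open scoped ENNReal NNReal

variable (ν : Measure ℕ) [IsProbabilityMeasure ν]

private theorem lower_eneg_anti {lam : ℝ} (hl : 0 < lam) {a b : ℝ≥0∞} (h : a ≤ b) :
    eneg lam b ≤ eneg lam a := by
  unfold eneg
  by_cases hb : b = ⊤
  · simp [hb]
  · have ha : a ≠ ⊤ := ne_top_of_le_ne_top hb h
    rw [if_neg hb, if_neg ha]
    apply ENNReal.ofReal_le_ofReal
    apply Real.exp_le_exp.2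
    have := ENNReal.toReal_mono hb h
    nlinarith

private theorem lower_eneg_add (lam : ℝ) (a b : ℝ≥0∞) :
    eneg lam (a + b) = eneg lam a * eneg lam b := by
  unfold eneg
  by_cases ha : a = ⊤
  · simp [ha]
  by_cases hb : b = ⊤
  · simp [hb]
  rw [if_neg (ENNReal.add_ne_top.2 ⟨ha, hb⟩), if_neg ha, if_neg hb, ENNReal.toReal_add ha hb,
    ← ENNReal.ofReal_mul (Real.exp_pos _).le, ← Real.exp_add]
  congr 2
  ring

private theorem lower_eneg_zero (lam : ℝ) : eneg lam 0 = 1 := by simp [eneg]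

private theorem lower_eneg_iInf {ι : Sort*} {lam : ℝ} (hl : 0 < lam) (f : ι → ℝ≥0∞) (S : ℝ≥0∞)
    (h : ∀ i, eneg lam (f i) ≤ S) : eneg lam (⨅ i, f i) ≤ S := by
  by_cases ht : (⨅ i, f i) = ⊤
  · rw [ht]; simp [eneg]
  have key : ∀ ε : ℝ, 0 < ε → eneg lam ((⨅ i, f i) + ENNReal.ofReal ε) ≤ S := by
    intro ε hε
    have hlt : (⨅ i, f i) < (⨅ i, f i) + ENNReal.ofReal ε :=
      ENNReal.lt_add_right ht (by simpa using hε)
    obtain ⟨i, hi⟩ := iInf_lt_iff.1 hlt
    exact (lower_eneg_anti hl hi.le).trans (h i)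
  have hc : Tendsto (fun ε : ℝ => eneg lam ((⨅ i, f i) + ENNReal.ofReal ε))
      (nhdsWithin 0 (Set.Ioi 0)) (nhds (eneg lam (⨅ i, f i))) := by
    simp_rw [lower_eneg_add]
    have h1 : Tendsto (fun ε : ℝ => eneg lam (ENNReal.ofReal ε)) (nhdsWithin 0 (Set.Ioi 0))
        (nhds 1) := by
      have h2 : Tendsto (fun ε : ℝ => ENNReal.ofReal (Real.exp (-lam * ε)))
          (nhdsWithin 0 (Set.Ioi 0)) (nhds (ENNReal.ofReal (Real.exp (-lam * 0)))) :=
        ((ENNReal.continuous_ofReal.comp (Real.continuous_exp.comp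
          (continuous_const.mul continuous_id))).tendsto 0).mono_left nhdsWithin_le_nhds
      rw [mul_zero, Real.exp_zero, ENNReal.ofReal_one] at h2
      refine h2.congr' ?_
      filter_upwards [self_mem_nhdsWithin] with ε hε
      unfold eneg
      rw [if_neg ENNReal.ofReal_ne_top, ENNReal.toReal_ofReal (le_of_lt hε)]
    have h3 := ENNReal.Tendsto.const_mul (a := eneg lam (⨅ i, f i)) h1 (Or.inl one_ne_zero)
    simpa using h3
  exact le_of_tendsto hc (eventually_nhdsWithin_of_forall fun ε hε => key ε hε)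

private theorem lower_measurable_eneg (lam : ℝ) : Measurable (eneg lam) := by
  unfold eneg
  exact Measurable.ite (measurableSet_singleton ⊤) measurable_const
    (ENNReal.measurable_ofReal.comp (Real.measurable_exp.comp
      (measurable_const.mul ENNReal.measurable_toReal)))

private theorem lower_unit_flip {d : ℕ} (a : Dir d) : unit (a.1, !a.2) = - unit a := by
  funext i
  unfold unit
  by_cases hi : i = a.1
  · rcases a with ⟨c, b⟩
    cases b <;> simp_all
  · simp [hi]

private theorem lower_hit_shift (x y : ℤ) (w : Walk 1) :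
    hit (axis x) (axis y) w = hit 0 (axis (y - x)) w := by
  unfold hit
  refine iInf_congr fun k => iInf_congr_Prop ?_ fun _ => rfl
  unfold pos
  constructor
  · intro h
    rw [zero_add]
    funext i
    have := congrFun h i
    simp only [Pi.add_apply, axis] at this ⊢
    have hi : i = 0 := Subsingleton.elim _ _
    subst hi
    simp only [if_true] at this ⊢
    linarith
  · intro h
    rw [zero_add] at h
    rw [h]
    funext i
    have hi : i = 0 := Subsingleton.elim _ _
    subst hi
    simp [axis]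

private theorem lower_hit_flip (l : ℤ) (w : Walk 1) :
    hit 0 (axis (-l)) w = hit 0 (axis l) (flipWalk w) := by
  unfold hit
  refine iInf_congr fun k => iInf_congr_Prop ?_ fun _ => rfl
  unfold pos
  rw [zero_add, zero_add]
  have h1 : ∑ i ∈ Finset.range k, unit (flipWalk w i).2 = - ∑ i ∈ Finset.range k, unit (w i).2 := by
    rw [← Finset.sum_neg_distrib]
    exact Finset.sum_congr rfl fun i _ => lower_unit_flip _
  have h2 : (axis (-l) : Site 1) = - axis l := by
    funext i; simp only [axis, Pi.neg_apply]; split_ifs <;> simp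
  rw [h1, h2]
  constructor
  · intro h; rw [h, neg_neg]
  · intro h; rw [← h, neg_neg]

private theorem lower_laplace (lam : ℝ) (hl : 0 < lam) (x y : ℤ) :
    ∫⁻ w, eneg lam (hit (axis x) (axis y) w) ∂ walkLaw 1 =
      ENNReal.ofReal (root lam ^ (y - x).natAbs) := by
  simp_rw [lower_hit_shift x y]
  rcases Int.natAbs_eq (y - x) with h | h
  · rw [h, Int.natAbs_natCast]
    exact laplace_hit lam hl _
  · rw [h, Int.natAbs_neg, Int.natAbs_natCast]
    simp_rw [lower_hit_flip]
    rw [← laplace_hit lam hl]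
    exact (measurePreserving_flipWalk 1).lintegral_comp
      (f := fun w => eneg lam (hit 0 (axis ((y - x).natAbs : ℤ)) w))
      ((lower_measurable_eneg lam).comp (measurable_hit _ _))

theorem eneg_travel_le (lam : ℝ) (hl : 0 < lam) (x y : ℤ) :
    ∫⁻ ω, eneg lam (travel ω (axis x) (axis y)) ∂ envLaw 1 ν ≤
      (∫⁻ m, (m : ℝ≥0∞) ∂ ν) * ENNReal.ofReal (root lam ^ (y - x).natAbs) := by
  obtain ⟨L, hL⟩ : ∃ L, L = ENNReal.ofReal (root lam ^ (y - x).natAbs) := ⟨_, rfl⟩
  rw [← hL]
  have hgm : ∀ j : ℕ, Measurable (fun s : SiteData 1 =>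
      if j < s.1 then eneg lam (hit (axis x) (axis y) (s.2 j)) else 0) := fun j =>
    Measurable.ite (measurableSet_lt measurable_const measurable_fst)
      (((lower_measurable_eneg lam).comp (measurable_hit _ _)).comp
        ((measurable_pi_apply j).comp measurable_snd)) measurable_const
  calc ∫⁻ ω, eneg lam (travel ω (axis x) (axis y)) ∂ envLaw 1 ν
      ≤ ∫⁻ ω : Env 1, (fun s : SiteData 1 => ∑' j : ℕ,
        if j < s.1 then eneg lam (hit (axis x) (axis y) (s.2 j)) else 0) (ω (axis x))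
          ∂ envLaw 1 ν := by
        apply lintegral_mono
        intro ω
        unfold travel
        refine lower_eneg_iInf hl _ _ fun j => lower_eneg_iInf hl _ _ fun hj => ?_
        refine le_trans ?_ (ENNReal.le_tsum j)
        simp [hj]
    _ = ∫⁻ s : SiteData 1, ∑' j : ℕ,
        (if j < s.1 then eneg lam (hit (axis x) (axis y) (s.2 j)) else 0) ∂ siteLaw 1 ν :=
        (measurePreserving_site ν (axis x)).lintegral_comp (Measurable.tsum hgm)
    _ = ∑' j : ℕ, ∫⁻ s : SiteData 1,
        (if j < s.1 then eneg lam (hit (axis x) (axis y) (s.2 j)) else 0) ∂ siteLaw 1 ν :=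
        lintegral_tsum fun j => (hgm j).aemeasurable
    _ = ∑' j : ℕ, ∫⁻ m, (if j < m then L else 0) ∂ν := by
        refine tsum_congr fun j => ?_
        unfold siteLaw
        rw [lintegral_prod _ (hgm j).aemeasurable]
        refine lintegral_congr fun m => ?_
        by_cases hj : j < m
        · simp only [hj, if_true]
          rw [hL, ← lower_laplace lam hl]
          exact (measurePreserving_eval_infinitePi (fun _ : ℕ => walkLaw 1) j).lintegral_comp
            (f := fun w => eneg lam (hit (axis x) (axis y) w))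
            ((lower_measurable_eneg lam).comp (measurable_hit _ _))
        · simp [hj]
    _ = ∫⁻ m, ∑' j : ℕ, (if j < m then L else 0) ∂ν :=
        (lintegral_tsum fun j => (Measurable.of_discrete).aemeasurable).symm
    _ = ∫⁻ m, (m : ℝ≥0∞) * L ∂ν := by
        refine lintegral_congr fun m => ?_
        rw [tsum_eq_sum (s := Finset.range m)]
        · rw [Finset.sum_congr rfl (g := fun _ => L)]
          · simp
          · intro j hj; rw [if_pos (Finset.mem_range.1 hj)]
        · intro j hj; rw [if_neg (by simpa using hj)]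
    _ = _ := lintegral_mul_const _ (Measurable.of_discrete)

/-! ### Chains -/

private noncomputable def LowerK (lam : ℝ) (a b : Site 1) : ℝ≥0∞ :=
  if a = b then 0 else (∫⁻ m, (m : ℝ≥0∞) ∂ ν) * ENNReal.ofReal (root lam ^ (b 0 - a 0).natAbs)

private noncomputable def LowerP (lam : ℝ) (y : Site 1) : Site 1 → List (Site 1) → ℝ≥0∞
  | x, [] => LowerK ν lam x y
  | x, a :: l => LowerK ν lam x a * LowerP lam y a l

omit [IsProbabilityMeasure ν] in
private theorem lower_nxt (lam : ℝ) (y : Site 1) : ∀ (l : List (Site 1)) (x : Site 1),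
    (x :: (l ++ [y])).Nodup → ∃ nxt : Site 1 → Site 1,
      (∀ ω : Env 1, eneg lam (cost ω x (l ++ [y])) =
        ∏ b ∈ (x :: l).toFinset, eneg lam (travel ω b (nxt b))) ∧
      ∏ b ∈ (x :: l).toFinset, LowerK ν lam b (nxt b) = LowerP ν lam y x l ∧
      ∀ b ∈ (x :: l).toFinset, b ≠ nxt b
  | [], x, h => by
    refine ⟨fun _ => y, fun ω => ?_, ?_, ?_⟩
    · simp [cost]
    · simp [LowerP]
    · intro b hb
      have hb' : b = x := by simpa using hb
      rw [hb']
      rintro rfl
      simp at h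
  | a :: l, x, h => by
    have h' : x ∉ (a :: (l ++ [y])) ∧ (a :: (l ++ [y])).Nodup := by
      have := List.nodup_cons.1 h
      simpa using this
    obtain ⟨nxt, h1, h2, h3⟩ := lower_nxt lam y l a h'.2
    have hx : x ∉ (a :: l).toFinset := by
      rw [List.mem_toFinset]
      intro hc
      apply h'.1
      rw [← List.cons_append]
      exact List.mem_append_left _ hc
    have hne : ∀ b ∈ (a :: l).toFinset, Function.update nxt x a b = nxt b := by
      intro b hb
      rw [Function.update_of_ne]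
      rintro rfl
      exact hx hb
    refine ⟨Function.update nxt x a, fun ω => ?_, ?_, ?_⟩
    · rw [List.cons_append, cost, lower_eneg_add, h1 ω, List.toFinset_cons (a := x),
        Finset.prod_insert hx, Function.update_self]
      congr 1
      exact Finset.prod_congr rfl fun b hb => by rw [hne b hb]
    · rw [List.toFinset_cons (a := x), Finset.prod_insert hx, Function.update_self, LowerP, ← h2]
      congr 1
      exact Finset.prod_congr rfl fun b hb => by rw [hne b hb]
    · intro b hb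
      rw [List.toFinset_cons (a := x), Finset.mem_insert] at hb
      rcases hb with rfl | hb
      · rw [Function.update_self]
        rintro rfl
        exact h'.1 (List.mem_cons_self ..)
      · rw [hne b hb]
        exact h3 b hb

private theorem lower_measurable_src (lam : ℝ) (b c : Site 1) : Measurable (fun s : SiteData 1 =>
    eneg lam (⨅ (j : ℕ) (_ : j < s.1), hit b c (s.2 j))) := by
  refine (lower_measurable_eneg lam).comp (Measurable.iInf fun j => ?_)
  have : (fun s : SiteData 1 => ⨅ (_ : j < s.1), hit b c (s.2 j)) =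
      fun s : SiteData 1 => if j < s.1 then hit b c (s.2 j) else ⊤ := by
    funext s
    rw [iInf_eq_if]
  rw [this]
  exact Measurable.ite (measurableSet_lt measurable_const measurable_fst)
    ((measurable_hit _ _).comp ((measurable_pi_apply j).comp measurable_snd)) measurable_const

private theorem lower_chain (lam : ℝ) (hl : 0 < lam) (y x : Site 1) (l : List (Site 1))
    (h : (x :: (l ++ [y])).Nodup) :
    ∫⁻ ω, eneg lam (cost ω x (l ++ [y])) ∂ envLaw 1 ν ≤ LowerP ν lam y x l := by
  obtain ⟨nxt, h1, h2, h3⟩ := lower_nxt ν lam y l x h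
  simp_rw [h1]
  have hind : iIndepFun (fun (b : Site 1) (ω : Env 1) => eneg lam (travel ω b (nxt b)))
      (envLaw 1 ν) :=
    (iIndepFun_sites (d := 1) ν).comp (fun b (s : SiteData 1) =>
      eneg lam (⨅ (j : ℕ) (_ : j < s.1), hit b (nxt b) (s.2 j)))
      fun b => lower_measurable_src lam b (nxt b)
  rw [lintegral_prod_eq_prod_lintegral_of_indepFun _ _ hind fun b =>
    (lower_measurable_eneg lam).comp (measurable_travel _ _), ← h2]
  refine Finset.prod_le_prod' fun b hb => ?_
  unfold LowerK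
  rw [if_neg (h3 b hb)]
  have key := eneg_travel_le ν lam hl (b 0) (nxt b 0)
  have hax : ∀ c : Site 1, axis (c 0) = c := by
    intro c
    funext i
    have hi : i = 0 := Subsingleton.elim _ _
    subst hi
    simp [axis]
  rwa [hax, hax] at key

private theorem lower_cost_suffix {d : ℕ} (ω : Env d) (x : Site d) (t : List (Site d)) :
    ∀ (s : List (Site d)) (a : Site d), cost ω x t ≤ cost ω a (s ++ x :: t)
  | [], a => by rw [List.nil_append, cost]; exact le_add_self
  | b :: s, a => by
    rw [List.cons_append, cost]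
    exact (lower_cost_suffix ω x t s b).trans le_add_self

private theorem lower_cut {d : ℕ} (ω : Env d) (y : Site d) : ∀ (l : List (Site d)) (x : Site d),
    x ≠ y → ∃ l' : List (Site d), (x :: (l' ++ [y])).Nodup ∧
      cost ω x (l' ++ [y]) ≤ cost ω x (l ++ [y])
  | [], x, h => ⟨[], by simpa using h, le_rfl⟩
  | a :: l, x, h => by
    by_cases hay : a = y
    · refine ⟨[], by simpa using h, ?_⟩
      subst hay
      simp only [List.nil_append, List.cons_append, cost, add_zero]
      exact le_self_add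
    · obtain ⟨l', hn, hc⟩ := lower_cut ω y l a hay
      have hc' : travel ω x a + cost ω a (l' ++ [y]) ≤ cost ω x ((a :: l) ++ [y]) := by
        rw [List.cons_append, cost]
        gcongr
      by_cases hx : x ∈ a :: l'
      · rw [List.mem_cons] at hx
        rcases hx with rfl | hx
        · exact ⟨l', hn, le_add_self.trans hc'⟩
        · obtain ⟨s, t, rfl⟩ := List.append_of_mem hx
          refine ⟨t, ?_, ?_⟩
          · have : ((a :: s) ++ (x :: (t ++ [y]))).Nodup := by simpa using hn
            exact (List.nodup_append.1 this).2.1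
          · refine le_trans ?_ (le_add_self.trans hc')
            have := lower_cost_suffix ω x (t ++ [y]) s a
            simpa using this
      · refine ⟨a :: l', ?_, ?_⟩
        · rw [List.nodup_cons]
          refine ⟨?_, by simpa using hn⟩
          intro hmem
          rcases List.mem_append.1 hmem with h1 | h1
          · exact hx h1
          · exact h (by simpa using h1)
        · simpa [cost] using hc'

private theorem lower_eneg_T (lam : ℝ) (hl : 0 < lam) (ω : Env 1) (x y : Site 1) (h : x ≠ y) :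
    eneg lam (T ω x y) ≤ ∑' l : List (Site 1),
      if (x :: (l ++ [y])).Nodup then eneg lam (cost ω x (l ++ [y])) else 0 := by
  unfold T
  refine lower_eneg_iInf hl _ _ fun l => ?_
  obtain ⟨l', hn, hc⟩ := lower_cut ω y l x h
  refine (lower_eneg_anti hl hc).trans ?_
  refine le_trans ?_ (ENNReal.le_tsum l')
  rw [if_pos hn]

private theorem lower_measurable_cost {d : ℕ} : ∀ (l : List (Site d)) (x : Site d),
    Measurable (fun ω : Env d => cost ω x l)
  | [], x => by simp only [cost]; exact measurable_const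
  | a :: l, x => by
    simp only [cost]
    exact (measurable_travel x a).add (lower_measurable_cost l a)

private theorem lower_int_eneg_T (lam : ℝ) (hl : 0 < lam) (x y : Site 1) (h : x ≠ y) :
    ∫⁻ ω, eneg lam (T ω x y) ∂ envLaw 1 ν ≤ ∑' l : List (Site 1), LowerP ν lam y x l := by
  refine (lintegral_mono fun ω => lower_eneg_T lam hl ω x y h).trans ?_
  rw [lintegral_tsum]
  · refine ENNReal.tsum_le_tsum fun l => ?_
    by_cases hn : (x :: (l ++ [y])).Nodup
    · simp only [hn, if_true]
      exact lower_chain ν lam hl y x l hn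
    · simp [hn]
  · intro l
    by_cases hn : (x :: (l ++ [y])).Nodup
    · simp only [hn, if_true]
      exact ((lower_measurable_eneg lam).comp (lower_measurable_cost _ _)).aemeasurable
    · simp only [hn, if_false]
      exact aemeasurable_const

/-! ### The sum over the chains -/

private theorem lower_tsum_int (ρ : ℝ) (h0 : 0 ≤ ρ) (h1 : ρ < 1) :
    ∑' s : ℤ, (if s = 0 then 0 else ENNReal.ofReal (ρ ^ s.natAbs)) =
      ENNReal.ofReal (2 * ρ / (1 - ρ)) := by
  have hg : ∑' n : ℕ, ENNReal.ofReal (ρ ^ (n + 1)) = ENNReal.ofReal (ρ / (1 - ρ)) := by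
    rw [← ENNReal.ofReal_tsum_of_nonneg (fun n => by positivity)
      ((summable_nat_add_iff 1).2 (summable_geometric_of_lt_one h0 h1))]
    congr 1
    simp_rw [pow_succ]
    rw [tsum_mul_right, tsum_geometric_of_lt_one h0 h1]
    field_simp
  rw [tsum_of_nat_of_neg_add_one ENNReal.summable ENNReal.summable]
  have e1 : ∑' n : ℕ, (if (n : ℤ) = 0 then 0 else ENNReal.ofReal (ρ ^ (n : ℤ).natAbs)) =
      ENNReal.ofReal (ρ / (1 - ρ)) := by
    rw [tsum_eq_zero_add' ENNReal.summable, ← hg]
    simp only [Nat.cast_zero, if_true, zero_add]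
    refine tsum_congr fun n => ?_
    rw [if_neg (by positivity), Int.natAbs_natCast]
  have e2 : ∑' n : ℕ, (if (-((n : ℤ) + 1)) = 0 then 0
      else ENNReal.ofReal (ρ ^ (-((n : ℤ) + 1)).natAbs)) = ENNReal.ofReal (ρ / (1 - ρ)) := by
    rw [← hg]
    refine tsum_congr fun n => ?_
    rw [if_neg (by omega)]
    congr 2
  rw [e1, e2, ← ENNReal.ofReal_add (by apply div_nonneg h0; linarith)
    (by apply div_nonneg h0; linarith)]
  congr 1
  ring

omit [IsProbabilityMeasure ν] in
private theorem lower_K_phi (lam : ℝ) (hl : 0 < lam) (hρ : root lam * Real.exp 1 < 1)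
    (x y : Site 1) :
    ∑' a : Site 1, LowerK ν lam x a * ENNReal.ofReal (Real.exp (-|(y 0 : ℝ) - a 0|)) ≤
      ((∫⁻ m, (m : ℝ≥0∞) ∂ ν) * ENNReal.ofReal
        (2 * (root lam * Real.exp 1) / (1 - root lam * Real.exp 1))) *
        ENNReal.ofReal (Real.exp (-|(y 0 : ℝ) - x 0|)) := by
  have hr0 := (root_bounds lam hl).1
  have hρ0 : 0 ≤ root lam * Real.exp 1 := by positivity
  let e : ℤ ≃ Site 1 :=
    { toFun := fun s => fun _ => x 0 + s
      invFun := fun a => a 0 - x 0
      left_inv := fun s => by simp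
      right_inv := fun a => by
        funext i
        have hi : i = 0 := Subsingleton.elim _ _
        subst hi
        simp }
  rw [← e.tsum_eq]
  have hterm : ∀ s : ℤ, LowerK ν lam x (e s) *
      ENNReal.ofReal (Real.exp (-|(y 0 : ℝ) - (e s) 0|)) ≤
      (if s = 0 then 0 else ENNReal.ofReal ((root lam * Real.exp 1) ^ s.natAbs)) *
        ((∫⁻ m, (m : ℝ≥0∞) ∂ ν) * ENNReal.ofReal (Real.exp (-|(y 0 : ℝ) - x 0|))) := by
    intro s
    have hes : (e s) 0 = x 0 + s := rfl
    by_cases hs : s = 0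
    · have hxe : x = e s := by
        funext i
        have hi : i = 0 := Subsingleton.elim _ _
        subst hi
        rw [hes, hs, add_zero]
      unfold LowerK
      rw [if_pos hxe, zero_mul]
      exact zero_le
    · have hxe : x ≠ e s := by
        intro hc
        have := congrFun hc 0
        rw [hes] at this
        omega
      unfold LowerK
      rw [if_neg hxe, if_neg hs, hes]
      have h1 : x 0 + s - x 0 = s := by ring
      rw [h1]
      have hreal : root lam ^ s.natAbs * Real.exp (-|(y 0 : ℝ) - ((x 0 + s : ℤ) : ℝ)|) ≤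
          (root lam * Real.exp 1) ^ s.natAbs * Real.exp (-|(y 0 : ℝ) - x 0|) := by
        rw [mul_pow, mul_assoc, ← Real.exp_nat_mul, mul_one, ← Real.exp_add]
        gcongr
        push_cast
        have h3 : (s.natAbs : ℝ) = |(s : ℝ)| := by
          rw [Nat.cast_natAbs, Int.cast_abs]
        have h4 := abs_add_le ((y 0 : ℝ) - (x 0 + s)) s
        have h5 : (y 0 : ℝ) - (x 0 + s) + s = y 0 - x 0 := by ring
        rw [h5] at h4
        linarith
      calc (∫⁻ m, (m : ℝ≥0∞) ∂ ν) * ENNReal.ofReal (root lam ^ s.natAbs) *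
            ENNReal.ofReal (Real.exp (-|(y 0 : ℝ) - ((x 0 + s : ℤ) : ℝ)|))
          = (∫⁻ m, (m : ℝ≥0∞) ∂ ν) * ENNReal.ofReal (root lam ^ s.natAbs *
            Real.exp (-|(y 0 : ℝ) - ((x 0 + s : ℤ) : ℝ)|)) := by
            rw [mul_assoc, ← ENNReal.ofReal_mul (by positivity)]
        _ ≤ (∫⁻ m, (m : ℝ≥0∞) ∂ ν) * ENNReal.ofReal ((root lam * Real.exp 1) ^ s.natAbs *
            Real.exp (-|(y 0 : ℝ) - x 0|)) := by
            gcongr
        _ = _ := by
            rw [ENNReal.ofReal_mul (by positivity), mul_left_comm]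
  refine (ENNReal.tsum_le_tsum hterm).trans ?_
  rw [ENNReal.tsum_mul_right, lower_tsum_int _ hρ0 hρ]
  apply le_of_eq
  ring

omit [IsProbabilityMeasure ν] in
private theorem lower_sum_n (lam : ℝ) (hl : 0 < lam) (hρ : root lam * Real.exp 1 < 1)
    (y : Site 1) (q : ℝ≥0∞) (hq : q = (∫⁻ m, (m : ℝ≥0∞) ∂ ν) * ENNReal.ofReal
        (2 * (root lam * Real.exp 1) / (1 - root lam * Real.exp 1))) : ∀ (n : ℕ) (x : Site 1),
    ∑' v : Fin n → Site 1, LowerP ν lam y x (List.ofFn v) ≤
      q ^ (n + 1) * ENNReal.ofReal (Real.exp (-|(y 0 : ℝ) - x 0|))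
  | 0, x => by
    rw [(hasSum_unique _).tsum_eq, List.ofFn_zero, LowerP, zero_add, pow_one, hq]
    refine le_trans ?_ (lower_K_phi ν lam hl hρ x y)
    refine le_trans ?_ (ENNReal.le_tsum y)
    simp
  | n + 1, x => by
    rw [← (Fin.consEquiv (fun _ : Fin (n + 1) => Site 1)).tsum_eq, ENNReal.tsum_prod']
    have h1 : ∀ a : Site 1, ∑' v : Fin n → Site 1,
        LowerP ν lam y x (List.ofFn (Fin.consEquiv (fun _ : Fin (n + 1) => Site 1) (a, v))) ≤
        LowerK ν lam x a * (q ^ (n + 1) * ENNReal.ofReal (Real.exp (-|(y 0 : ℝ) - a 0|))) := by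
      intro a
      refine le_trans (le_of_eq ?_) (mul_le_mul_right (lower_sum_n lam hl hρ y q hq n a) _)
      rw [← ENNReal.tsum_mul_left]
      refine tsum_congr fun v => ?_
      have : List.ofFn (Fin.consEquiv (fun _ : Fin (n + 1) => Site 1) (a, v)) =
          a :: List.ofFn v := by
        rw [List.ofFn_succ]
        simp [Fin.consEquiv]
      rw [this, LowerP]
    refine (ENNReal.tsum_le_tsum h1).trans ?_
    have h2 : ∀ a : Site 1, LowerK ν lam x a *
        (q ^ (n + 1) * ENNReal.ofReal (Real.exp (-|(y 0 : ℝ) - a 0|))) =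
        q ^ (n + 1) * (LowerK ν lam x a * ENNReal.ofReal (Real.exp (-|(y 0 : ℝ) - a 0|))) := by
      intro a; ring
    rw [tsum_congr h2, ENNReal.tsum_mul_left, pow_succ q (n + 1), mul_assoc (q ^ (n + 1))]
    gcongr
    rw [hq]
    exact lower_K_phi ν lam hl hρ x y

omit [IsProbabilityMeasure ν] in
private theorem lower_sum_lists (lam : ℝ) (hl : 0 < lam) (hρ : root lam * Real.exp 1 < 1)
    (x y : Site 1) (q : ℝ≥0∞) (hq : q = (∫⁻ m, (m : ℝ≥0∞) ∂ ν) * ENNReal.ofReal
        (2 * (root lam * Real.exp 1) / (1 - root lam * Real.exp 1))) (hq2 : q ≤ 2⁻¹) :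
    ∑' l : List (Site 1), LowerP ν lam y x l ≤
      ENNReal.ofReal (Real.exp (-|(y 0 : ℝ) - x 0|)) := by
  rw [← (List.equivSigmaTuple (α := Site 1)).symm.tsum_eq, ENNReal.tsum_sigma']
  have h1 : ∀ n : ℕ, ∑' v : Fin n → Site 1,
      LowerP ν lam y x (List.equivSigmaTuple.symm ⟨n, v⟩) ≤
      (2⁻¹ : ℝ≥0∞) ^ (n + 1) * ENNReal.ofReal (Real.exp (-|(y 0 : ℝ) - x 0|)) := by
    intro n
    refine (lower_sum_n ν lam hl hρ y q hq n x).trans ?_
    gcongr
  refine (ENNReal.tsum_le_tsum h1).trans ?_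
  rw [ENNReal.tsum_mul_right, ENNReal.tsum_geometric_add_one, ENNReal.one_sub_inv_two, inv_inv,
    ENNReal.inv_mul_cancel (by norm_num) (by norm_num), one_mul]

theorem eneg_T_le (hmean : ∫⁻ m, (m : ℝ≥0∞) ∂ ν ≠ ⊤) : ∃ lam : ℝ, 0 < lam ∧ ∀ y : ℤ, y ≠ 0 →
    ∫⁻ ω, eneg lam (T ω 0 (axis y)) ∂ envLaw 1 ν ≤ ENNReal.ofReal (Real.exp (-|(y : ℝ)|)) := by
  obtain ⟨E, hE⟩ : ∃ E : ℝ, E = (∫⁻ m, (m : ℝ≥0∞) ∂ ν).toReal := ⟨_, rfl⟩
  have hE0 : 0 ≤ E := by rw [hE]; exact ENNReal.toReal_nonneg
  have hE' : ∫⁻ m, (m : ℝ≥0∞) ∂ ν = ENNReal.ofReal E := by rw [hE, ENNReal.ofReal_toReal hmean]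
  have he : 0 < Real.exp 1 := Real.exp_pos 1
  obtain ⟨lam, hlam⟩ : ∃ lam : ℝ, lam = 8 * Real.exp 1 * (E + 1) := ⟨_, rfl⟩
  have hl : 0 < lam := by rw [hlam]; positivity
  obtain ⟨hr0, hr1, hr⟩ := root_bounds lam hl
  have hr2 : root lam ≤ 1 / lam := by
    have h1 : 1 / root lam = 2 * (1 + lam) - root lam := by linarith
    have h2 : lam ≤ 1 / root lam := by linarith
    rw [le_div_iff₀ hl]
    rw [le_div_iff₀ hr0] at h2
    linarith
  obtain ⟨ρ, hρdef⟩ : ∃ ρ : ℝ, ρ = root lam * Real.exp 1 := ⟨_, rfl⟩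
  have hρ0 : 0 < ρ := by rw [hρdef]; positivity
  have hρ1 : ρ ≤ 1 / (8 * (E + 1)) := by
    rw [hρdef]
    calc root lam * Real.exp 1 ≤ 1 / lam * Real.exp 1 := by gcongr
      _ = 1 / (8 * (E + 1)) := by rw [hlam]; field_simp
  have hρ2 : ρ ≤ 1 / 8 := by
    refine hρ1.trans ?_
    apply one_div_le_one_div_of_le (by norm_num)
    linarith
  have hρ3 : root lam * Real.exp 1 < 1 := by rw [← hρdef]; linarith
  have hq2 : (∫⁻ m, (m : ℝ≥0∞) ∂ ν) * ENNReal.ofReal
        (2 * (root lam * Real.exp 1) / (1 - root lam * Real.exp 1)) ≤ 2⁻¹ := by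
    rw [hE', ← hρdef, ← ENNReal.ofReal_mul hE0]
    have h1 : (2⁻¹ : ℝ≥0∞) = ENNReal.ofReal (1 / 2) := by
      rw [one_div, ENNReal.ofReal_inv_of_pos (by norm_num)]
      simp
    rw [h1]
    apply ENNReal.ofReal_le_ofReal
    have h2 : 2 * ρ / (1 - ρ) ≤ 4 * ρ := by
      rw [div_le_iff₀ (by linarith)]
      nlinarith
    have h3 : 4 * ρ ≤ 1 / (2 * (E + 1)) := by
      calc 4 * ρ ≤ 4 * (1 / (8 * (E + 1))) := by linarith
        _ = 1 / (2 * (E + 1)) := by field_simp; norm_num
    calc E * (2 * ρ / (1 - ρ)) ≤ E * (1 / (2 * (E + 1))) := by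
          apply mul_le_mul_of_nonneg_left (h2.trans h3) hE0
      _ ≤ 1 / 2 := by
          rw [mul_one_div, div_le_div_iff₀ (by positivity) (by norm_num)]
          linarith
  refine ⟨lam, hl, fun y hy => ?_⟩
  have hne : (0 : Site 1) ≠ axis y := by
    intro hc
    have := congrFun hc 0
    simp only [axis, Pi.zero_apply, if_true] at this
    exact hy this.symm
  refine (lower_int_eneg_T ν lam hl 0 (axis y) hne).trans ?_
  refine (lower_sum_lists ν lam hl hρ3 0 (axis y) _ rfl hq2).trans (le_of_eq ?_)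
  simp [axis]

theorem full_lower (hmean : ∫⁻ m, (m : ℝ≥0∞) ∂ ν ≠ ⊤) : ∃ δ : ℝ, 0 < δ ∧
    ∀ᵐ ω ∂ envLaw 1 ν, ∃ K : ℝ, ∀ y : ℤ, ENNReal.ofReal (δ * |(y : ℝ)| - K) ≤ T ω 0 (axis y) := by
  obtain ⟨lam, hl, hT⟩ := eneg_T_le ν hmean
  obtain ⟨δ, hδ⟩ : ∃ δ : ℝ, δ = 1 / (2 * lam) := ⟨_, rfl⟩
  have hδ0 : 0 < δ := by rw [hδ]; positivity
  refine ⟨δ, hδ0, ?_⟩
  let B : ℤ → Set (Env 1) := fun y =>
    if y = 0 then ∅ else {ω | T ω 0 (axis y) ≤ ENNReal.ofReal (δ * |(y : ℝ)|)}
  have hB : ∀ y : ℤ, envLaw 1 ν (B y) ≤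
      if y = 0 then 0 else ENNReal.ofReal (Real.exp (-1 / 2) ^ y.natAbs) := by
    intro y
    by_cases hy : y = 0
    · simp [B, hy]
    · simp only [B, if_neg hy]
      have h1 : {ω : Env 1 | T ω 0 (axis y) ≤ ENNReal.ofReal (δ * |(y : ℝ)|)} ⊆
          {ω : Env 1 | ENNReal.ofReal (Real.exp (-|(y : ℝ)| / 2)) ≤ eneg lam (T ω 0 (axis y))} := by
        intro ω hω
        refine le_trans (le_of_eq ?_) (lower_eneg_anti hl hω)
        unfold eneg
        rw [if_neg ENNReal.ofReal_ne_top, ENNReal.toReal_ofReal (by positivity), hδ]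
        congr 2
        field_simp
      have h2 := mul_meas_ge_le_lintegral (μ := envLaw 1 ν)
        (f := fun ω : Env 1 => eneg lam (T ω 0 (axis y)))
        ((lower_measurable_eneg lam).comp (measurable_T _ _))
        (ENNReal.ofReal (Real.exp (-|(y : ℝ)| / 2)))
      have h3 := (mul_le_mul_right (measure_mono h1)
        (ENNReal.ofReal (Real.exp (-|(y : ℝ)| / 2)))).trans (h2.trans (hT y hy))
      have h4 : ENNReal.ofReal (Real.exp (-|(y : ℝ)|)) =
          ENNReal.ofReal (Real.exp (-|(y : ℝ)| / 2)) *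
            ENNReal.ofReal (Real.exp (-1 / 2) ^ y.natAbs) := by
        rw [← ENNReal.ofReal_mul (by positivity), ← Real.exp_nat_mul, ← Real.exp_add]
        congr 2
        rw [Nat.cast_natAbs, Int.cast_abs]
        ring
      rw [h4] at h3
      exact (ENNReal.mul_le_mul_iff_right (by simp [Real.exp_pos]) ENNReal.ofReal_ne_top).1 h3
  have hsum : ∑' y : ℤ, envLaw 1 ν (B y) ≠ ⊤ := by
    refine ne_top_of_le_ne_top ?_ (ENNReal.tsum_le_tsum hB)
    rw [lower_tsum_int _ (Real.exp_pos _).le (by rw [Real.exp_lt_one_iff]; norm_num)]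
    exact ENNReal.ofReal_ne_top
  filter_upwards [ae_finite_setOfPred_mem hsum] with ω hω
  obtain ⟨M, hM⟩ := (hω.image fun y : ℤ => δ * |(y : ℝ)|).bddAbove
  refine ⟨max M 0, fun y => ?_⟩
  by_cases hy : ω ∈ B y
  · have : δ * |(y : ℝ)| ≤ M := hM ⟨y, hy, rfl⟩
    rw [ENNReal.ofReal_of_nonpos (by linarith [le_max_left M 0])]
    exact zero_le
  · by_cases hy0 : y = 0
    · have h0 : δ * |((0 : ℤ) : ℝ)| - max M 0 ≤ 0 := by
        rw [Int.cast_zero, abs_zero, mul_zero, zero_sub]
        linarith [le_max_right M 0]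
      rw [hy0, ENNReal.ofReal_of_nonpos h0]
      exact zero_le
    · simp only [B, if_neg hy0, Set.mem_ofPred_eq, not_le] at hy
      refine le_trans ?_ hy.le
      apply ENNReal.ofReal_le_ofReal
      linarith [le_max_right M 0]

end Frog81
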