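import Pool.Agent.H.MP_53e2a7_pr.h81.Lap

/-!
Module Second: second moment of the travel time to the right neighbour if there are at least five
particles.

Proof.  A.s. `(ω 0).1 ≥ 5`, so `travel ω 0 (axis 1) ≤ min_{j < 5} hit 0 (axis 1) ((ω 0).2 j)`; the five
walks are independent with law `walkLaw 1` (`siteLaw` is a product with an `infinitePi`), so for
`t ≥ 1`: `P(travel > t) ≤ (4 / sqrt t)^5` by `hit_tail`.  For `f : Ω → ℝ≥0∞`:
`f^2 ≤ ∑_{n : ℕ} (2 n + 1) [n < f]` (if `f = ⊤` both are infinite; `∑_{n < N} (2 n + 1) = N^2`), so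
`∫⁻ f^2 ≤ 1 + ∑_{n ≥ 1} (2 n + 1) 1024 n^(-5/2) < ⊤`.
-/

namespace Frog81

open MeasureTheory ProbabilityTheory Filter
open scoped ENNReal NNReal

private theorem second_odd (N : ℕ) : ∑ n ∈ Finset.range N, (2 * (n : ℝ≥0∞) + 1) = (N : ℝ≥0∞) ^ 2 := by
  induction N with
  | zero => simp
  | succ N ih =>
    rw [Finset.sum_range_succ, ih]
    push_cast
    ring

/-- The square is bounded by the sum over the levels below. -/
private theorem second_sq_le (a : ℝ≥0∞) :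
    a ^ 2 ≤ ∑' n : ℕ, (2 * (n : ℝ≥0∞) + 1) * (if (n : ℝ≥0∞) < a then 1 else 0) := by
  have key : ∀ N : ℕ, (∀ n < N, (n : ℝ≥0∞) < a) →
      (N : ℝ≥0∞) ^ 2 ≤ ∑' n : ℕ, (2 * (n : ℝ≥0∞) + 1) * (if (n : ℝ≥0∞) < a then 1 else 0) := by
    intro N hN
    rw [← second_odd]
    refine le_trans (le_of_eq ?_) (ENNReal.sum_le_tsum (Finset.range N))
    refine Finset.sum_congr rfl fun n hn => ?_
    rw [if_pos (hN n (Finset.mem_range.1 hn)), mul_one]
  by_cases ha : a = ⊤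
  · have h1 : ∀ N : ℕ, (N : ℝ≥0∞) ≤
        ∑' n : ℕ, (2 * (n : ℝ≥0∞) + 1) * (if (n : ℝ≥0∞) < a then 1 else 0) := by
      intro N
      refine le_trans ?_ (key N fun n _ => by rw [ha]; exact ENNReal.natCast_lt_top n)
      rcases Nat.eq_zero_or_pos N with h0 | h0
      · simp [h0]
      · have h2 : (1 : ℝ≥0∞) ≤ (N : ℝ≥0∞) := by exact_mod_cast h0
        calc (N : ℝ≥0∞) = (N : ℝ≥0∞) ^ 1 := (pow_one _).symm
          _ ≤ (N : ℝ≥0∞) ^ 2 := pow_le_pow_right₀ h2 (by norm_num)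
    have h2 : (⊤ : ℝ≥0∞) ≤
        ∑' n : ℕ, (2 * (n : ℝ≥0∞) + 1) * (if (n : ℝ≥0∞) < a then 1 else 0) := by
      rw [← ENNReal.iSup_natCast]
      exact iSup_le h1
    exact le_top.trans h2
  · obtain ⟨N, hN⟩ : ∃ N : ℕ, N = ⌈a.toReal⌉₊ := ⟨_, rfl⟩
    have h1 : a ≤ (N : ℝ≥0∞) := by
      rw [← ENNReal.ofReal_toReal ha, ← ENNReal.ofReal_natCast]
      refine ENNReal.ofReal_le_ofReal ?_
      rw [hN]
      exact Nat.le_ceil _
    refine le_trans (by gcongr) (key N fun n hn => ?_)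
    rw [hN] at hn
    have h2 : (n : ℝ) < a.toReal := Nat.lt_ceil.1 hn
    rw [← ENNReal.ofReal_toReal ha, ← ENNReal.ofReal_natCast]
    exact (ENNReal.ofReal_lt_ofReal_iff (lt_of_le_of_lt (Nat.cast_nonneg n) h2)).2 h2

/-- Real number estimate. -/
private theorem second_real (n : ℕ) (hn : 1 ≤ n) :
    (2 * (n : ℝ) + 1) * (4 / Real.sqrt n) ^ 5 ≤ 3072 * (1 / (n : ℝ) ^ (3 / 2 : ℝ)) := by
  have hn1 : (1 : ℝ) ≤ n := by exact_mod_cast hn
  have hn0 : (0 : ℝ) ≤ n := by linarith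
  obtain ⟨s, hs⟩ : ∃ s : ℝ, s = Real.sqrt n := ⟨_, rfl⟩
  have hs2 : (n : ℝ) = s ^ 2 := by rw [hs, Real.sq_sqrt hn0]
  have hs0 : 0 < s := by rw [hs]; exact Real.sqrt_pos.2 (by linarith)
  have hp : (n : ℝ) ^ (3 / 2 : ℝ) = s ^ 3 := by
    rw [hs, Real.sqrt_eq_rpow, ← Real.rpow_natCast, ← Real.rpow_mul hn0]
    congr 1
    norm_num
  rw [hp, ← hs]
  have h1 : (4 / s) ^ 5 = 1024 / s ^ 5 := by rw [div_pow]; norm_num
  rw [h1]
  have h2 : 2 * (n : ℝ) + 1 ≤ 3 * s ^ 2 := by rw [← hs2]; linarith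
  calc (2 * (n : ℝ) + 1) * (1024 / s ^ 5) ≤ 3 * s ^ 2 * (1024 / s ^ 5) := by gcongr
    _ = 3072 * (1 / s ^ 3) := by field_simp; norm_num

variable (ν : Measure ℕ) [IsProbabilityMeasure ν]

/-- The tail of the travel time. -/
private theorem second_tail (h5 : ν {m : ℕ | m < 5} = 0) (n : ℕ) (hn : 1 ≤ n) :
    envLaw 1 ν {ω | (n : ℝ≥0∞) < travel ω 0 (axis 1)} ≤
      ENNReal.ofReal ((4 / Real.sqrt n) ^ 5) := by
  obtain ⟨S, hS⟩ : ∃ S : Set (Walk 1), S = {w | ENNReal.ofReal (n : ℝ) < hit 0 (axis 1) w} := ⟨_, rfl⟩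
  have hSm : MeasurableSet S := by
    rw [hS]
    exact measurableSet_lt measurable_const (measurable_hit 0 (axis 1))
  obtain ⟨A, hA⟩ : ∃ A : Set (SiteData 1),
      A = (Prod.fst ⁻¹' {m : ℕ | m < 5}) ∪ (Prod.snd ⁻¹' {ws : ℕ → Walk 1 | ∀ j < 5, ws j ∈ S}) :=
    ⟨_, rfl⟩
  have hpi : {ws : ℕ → Walk 1 | ∀ j < 5, ws j ∈ S} =
      Set.pi (Finset.range 5 : Set ℕ) fun _ => S := by
    ext ws
    simp [Set.mem_pi]
  have hpim : MeasurableSet {ws : ℕ → Walk 1 | ∀ j < 5, ws j ∈ S} := by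
    rw [hpi]
    exact MeasurableSet.pi (Finset.countable_toSet _) fun _ _ => hSm
  have hm1 : MeasurableSet (Prod.fst ⁻¹' {m : ℕ | m < 5} : Set (SiteData 1)) :=
    measurable_fst MeasurableSet.of_discrete
  have hm2 : MeasurableSet
      (Prod.snd ⁻¹' {ws : ℕ → Walk 1 | ∀ j < 5, ws j ∈ S} : Set (SiteData 1)) :=
    measurable_snd hpim
  have hAm : MeasurableSet A := by
    rw [hA]
    exact hm1.union hm2
  have hsub : {ω : Env 1 | (n : ℝ≥0∞) < travel ω 0 (axis 1)} ⊆ (fun ω : Env 1 => ω 0) ⁻¹' A := by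
    intro ω hω
    rw [hA]
    by_cases hlt : (ω 0).1 < 5
    · exact Or.inl hlt
    · refine Or.inr fun j hj => ?_
      rw [hS]
      show ENNReal.ofReal (n : ℝ) < hit 0 (axis 1) ((ω 0).2 j)
      rw [ENNReal.ofReal_natCast]
      refine lt_of_lt_of_le hω ?_
      unfold travel
      exact iInf₂_le j (by omega)
  have h1 : siteLaw 1 ν (Prod.fst ⁻¹' {m : ℕ | m < 5}) = 0 := by
    have h2 : siteLaw 1 ν (Prod.fst ⁻¹' {m : ℕ | m < 5}) = ν {m : ℕ | m < 5} :=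
      (measurePreserving_fst (μ := ν)
        (ν := Measure.infinitePi fun _ : ℕ => walkLaw 1)).measure_preimage
        (MeasurableSet.of_discrete).nullMeasurableSet
    rw [h2, h5]
  have h2 : siteLaw 1 ν (Prod.snd ⁻¹' {ws : ℕ → Walk 1 | ∀ j < 5, ws j ∈ S}) =
      (walkLaw 1 S) ^ 5 := by
    have h3 : siteLaw 1 ν (Prod.snd ⁻¹' {ws : ℕ → Walk 1 | ∀ j < 5, ws j ∈ S}) =
        (Measure.infinitePi fun _ : ℕ => walkLaw 1) {ws : ℕ → Walk 1 | ∀ j < 5, ws j ∈ S} :=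
      (measurePreserving_snd (μ := ν)
        (ν := Measure.infinitePi fun _ : ℕ => walkLaw 1)).measure_preimage
        hpim.nullMeasurableSet
    rw [h3, hpi, Measure.infinitePi_pi _ fun _ _ => hSm, Finset.prod_const, Finset.card_range]
  have hn1 : (1 : ℝ) ≤ n := by exact_mod_cast hn
  calc envLaw 1 ν {ω | (n : ℝ≥0∞) < travel ω 0 (axis 1)}
      ≤ envLaw 1 ν ((fun ω : Env 1 => ω 0) ⁻¹' A) := measure_mono hsub
    _ = siteLaw 1 ν A := (measurePreserving_site ν (0 : Site 1)).measure_preimage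
        hAm.nullMeasurableSet
    _ ≤ 0 + (walkLaw 1 S) ^ 5 := by
        rw [hA, ← h1, ← h2]
        exact measure_union_le _ _
    _ ≤ (ENNReal.ofReal (4 / Real.sqrt n)) ^ 5 := by
        rw [zero_add]
        have h3 := hit_tail (n : ℝ) hn1
        rw [← hS] at h3
        gcongr
    _ = ENNReal.ofReal ((4 / Real.sqrt n) ^ 5) := (ENNReal.ofReal_pow (by positivity) _).symm

theorem travel_sq (h5 : ν {m : ℕ | m < 5} = 0) :
    ∫⁻ ω, (travel ω 0 (axis 1)) ^ 2 ∂ envLaw 1 ν ≠ ⊤ := by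
  have hmeas := measurable_travel (d := 1) 0 (axis 1)
  have hset : ∀ n : ℕ, MeasurableSet {ω : Env 1 | (n : ℝ≥0∞) < travel ω 0 (axis 1)} :=
    fun n => measurableSet_lt measurable_const hmeas
  obtain ⟨g, hg⟩ : ∃ g : ℕ → ℝ, g = fun n : ℕ => 3072 * (1 / (n : ℝ) ^ (3 / 2 : ℝ)) +
      (if n = 0 then 1 else 0) := ⟨_, rfl⟩
  have hgs : Summable g := by
    rw [hg]
    refine Summable.add (Summable.mul_left _ ?_) ?_
    · exact Real.summable_one_div_nat_rpow.2 (by norm_num)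
    · exact summable_of_ne_finset_zero (s := {0}) fun n hn => by
        rw [if_neg (by simpa using hn)]
  have hterm : ∀ n : ℕ, (2 * (n : ℝ≥0∞) + 1) *
      envLaw 1 ν {ω | (n : ℝ≥0∞) < travel ω 0 (axis 1)} ≤ ENNReal.ofReal (g n) := by
    intro n
    rcases Nat.eq_zero_or_pos n with h0 | h0
    · rw [h0, hg]
      have h1 : envLaw 1 ν {ω : Env 1 | ((0 : ℕ) : ℝ≥0∞) < travel ω 0 (axis 1)} ≤ 1 := prob_le_one
      have h2 : ((0 : ℕ) : ℝ) ^ (3 / 2 : ℝ) = 0 := by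
        rw [Nat.cast_zero, Real.zero_rpow (by norm_num)]
      simp only [h2, if_true]
      calc (2 * ((0 : ℕ) : ℝ≥0∞) + 1) *
            envLaw 1 ν {ω : Env 1 | ((0 : ℕ) : ℝ≥0∞) < travel ω 0 (axis 1)} ≤
            (2 * ((0 : ℕ) : ℝ≥0∞) + 1) * 1 := by gcongr
        _ = 1 := by simp
        _ ≤ ENNReal.ofReal (3072 * (1 / 0) + 1) := by simp
    · have h1 := second_tail ν h5 n h0
      have h2 : (2 * (n : ℝ≥0∞) + 1) = ENNReal.ofReal (2 * (n : ℝ) + 1) := by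
        rw [ENNReal.ofReal_add (by positivity) (by norm_num), ENNReal.ofReal_mul (by norm_num),
          ENNReal.ofReal_natCast]
        simp
      calc (2 * (n : ℝ≥0∞) + 1) * envLaw 1 ν {ω | (n : ℝ≥0∞) < travel ω 0 (axis 1)}
          ≤ (2 * (n : ℝ≥0∞) + 1) * ENNReal.ofReal ((4 / Real.sqrt n) ^ 5) := by gcongr
        _ = ENNReal.ofReal ((2 * (n : ℝ) + 1) * (4 / Real.sqrt n) ^ 5) := by
            rw [h2, ENNReal.ofReal_mul (by positivity)]
        _ ≤ ENNReal.ofReal (g n) := by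
            refine ENNReal.ofReal_le_ofReal ((second_real n h0).trans ?_)
            rw [hg]
            have h3 : n ≠ 0 := by omega
            simp only [if_neg h3, add_zero]
            exact le_rfl
  refine ne_top_of_le_ne_top hgs.tsum_ofReal_ne_top ?_
  calc ∫⁻ ω, (travel ω 0 (axis 1)) ^ 2 ∂ envLaw 1 ν
      ≤ ∫⁻ ω, ∑' n : ℕ, (2 * (n : ℝ≥0∞) + 1) *
          ({ω : Env 1 | (n : ℝ≥0∞) < travel ω 0 (axis 1)}.indicator 1 ω) ∂ envLaw 1 ν := by
        refine lintegral_mono fun ω => ?_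
        refine (second_sq_le _).trans (le_of_eq ?_)
        refine tsum_congr fun n => ?_
        by_cases h : (n : ℝ≥0∞) < travel ω 0 (axis 1)
        · rw [if_pos h, Set.indicator_of_mem (show ω ∈ {ω : Env 1 | (n : ℝ≥0∞) <
            travel ω 0 (axis 1)} from h)]
          rfl
        · rw [if_neg h, Set.indicator_of_notMem (show ω ∉ {ω : Env 1 | (n : ℝ≥0∞) <
            travel ω 0 (axis 1)} from h)]
    _ = ∑' n : ℕ, ∫⁻ ω, (2 * (n : ℝ≥0∞) + 1) *
          ({ω : Env 1 | (n : ℝ≥0∞) < travel ω 0 (axis 1)}.indicator 1 ω) ∂ envLaw 1 ν := by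
        refine lintegral_tsum fun n => ?_
        exact ((measurable_one.indicator (hset n)).const_mul _).aemeasurable
    _ = ∑' n : ℕ, (2 * (n : ℝ≥0∞) + 1) *
          envLaw 1 ν {ω | (n : ℝ≥0∞) < travel ω 0 (axis 1)} := by
        refine tsum_congr fun n => ?_
        rw [lintegral_const_mul _ (measurable_one.indicator (hset n)),
          lintegral_indicator_one (hset n)]
    _ ≤ ∑' n : ℕ, ENNReal.ofReal (g n) := ENNReal.tsum_le_tsum hterm

end Frog81
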