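import Mathlib

/-!
Module Subconv: a law of large numbers for subconvolutive sequences (Hammersley, Kesten).

Proof.  Let `a n = E (X n)` and `v n = Var (X n)`.  `a` is subadditive and nonnegative, so
`a n / n → μ = inf_{n ≥ 1} a n / n ≥ 0` (`Subadditive.tendsto_lim`).  For `n ≥ 1`, from
`0 ≤ X (2 n) ≤ X n + Y` with `Y` independent of `X n` and distributed as `X n`:
`E X (2 n)^2 ≤ E (X n + Y)^2 = 2 v n + 4 (a n)^2`, so with `b k = a (N 2^k) / (N 2^k)` and
`V k = v (N 2^k) / (N 2^k)^2`: `V (k + 1) + b (k + 1)^2 ≤ V k / 2 + (b k)^2`.  `b` is nonincreasing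
(subadditivity) and nonnegative, so summing over `k`: `∑ V k ≤ 2 (V 0 + (b 0)^2) < ∞`.  By Chebyshev
and Borel-Cantelli, `X (N 2^k) / (N 2^k) - b k → 0` a.s., hence `X (N 2^k) / (N 2^k) → μ` a.s., for
every `N ≥ 1` (first `∑_k (X (N 2^k) / (N 2^k) - b k)^2 < ∞` a.s. because its expectation is
`∑ V k`, so the terms tend to zero).  Monotonicity: let `L ≥ 1`; every `n ≥ L` can be written with
`N 2^k ≤ n < (N + 1) 2^k`, `L ≤ N < 2 L`; then
`X (N 2^k) / ((N + 1) 2^k) ≤ X n / n ≤ X ((N + 1) 2^k) / (N 2^k)`, so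
`μ L / (L + 1) ≤ liminf ≤ limsup ≤ μ (L + 1) / L` (finitely many `N`, `k → ∞`).  Let `L → ∞`.
-/

namespace Frog81

open MeasureTheory ProbabilityTheory Filter
open scoped ENNReal NNReal

/-- The deterministic part: limits along `N 2^k`, for all `N`, give the limit for monotone
sequences. -/
private theorem det (x : ℕ → ℝ) (hm : Monotone x) (l : ℝ)
    (h : ∀ N : ℕ, 1 ≤ N → Tendsto (fun k : ℕ => x (N * 2 ^ k) / ((N * 2 ^ k : ℕ) : ℝ)) atTop
      (nhds l)) :
    Tendsto (fun n : ℕ => x n / n) atTop (nhds l) := by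
  refine tendsto_div_of_monotone_of_exists_subseq_tendsto_div x l hm fun a ha => ?_
  obtain ⟨L, hL⟩ : ∃ L : ℕ, 1 / ((L : ℝ) + 1) < a - 1 := exists_nat_one_div_lt (by linarith)
  obtain ⟨M, hM⟩ : ∃ M, M = L + 1 := ⟨_, rfl⟩
  have hM0 : 0 < M := by omega
  have hMa : ((M : ℝ) + 1) ≤ a * M := by
    have h1 : (0 : ℝ) < M := by exact_mod_cast hM0
    have h2 : 1 / (M : ℝ) < a - 1 := by rw [hM]; push_cast; exact hL
    rw [div_lt_iff₀ h1] at h2
    linarith
  have hN : ∀ N : ℕ, M ≤ N → ((N : ℝ) + 1) ≤ a * N := by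
    intro N hN
    have h1 : (M : ℝ) ≤ N := by exact_mod_cast hN
    nlinarith
  refine ⟨fun n => (M + n % M) * 2 ^ (n / M), Eventually.of_forall fun n => ?_, ?_, ?_⟩
  · have hlt := Nat.mod_lt n hM0
    have hdm := Nat.div_add_mod n M
    by_cases hcase : n % M + 1 < M
    · have h1 : (n + 1) % M = n % M + 1 := by
        have : n + 1 = n % M + 1 + M * (n / M) := by omega
        rw [this, Nat.add_mul_mod_self_left, Nat.mod_eq_of_lt hcase]
      have h2 : (n + 1) / M = n / M := by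
        have : n + 1 = n % M + 1 + M * (n / M) := by omega
        rw [this, Nat.add_mul_div_left _ _ hM0, Nat.div_eq_of_lt hcase, zero_add]
      beta_reduce
      rw [h1, h2]
      push_cast
      have h3 := hN (M + n % M) (Nat.le_add_right _ _)
      push_cast at h3
      have h4 : (0 : ℝ) < 2 ^ (n / M) := by positivity
      nlinarith
    · have hcase' : n % M + 1 = M := by omega
      have h1 : (n + 1) % M = 0 := by
        have : n + 1 = M * (n / M + 1) := by rw [mul_add, mul_one]; omega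
        rw [this, Nat.mul_mod_right]
      have h2 : (n + 1) / M = n / M + 1 := by
        have : n + 1 = M * (n / M + 1) := by rw [mul_add, mul_one]; omega
        rw [this, Nat.mul_div_cancel_left _ hM0]
      beta_reduce
      rw [h1, h2, pow_succ]
      push_cast
      have h3 := hN (M + n % M) (Nat.le_add_right _ _)
      push_cast at h3
      have h5 : ((n % M : ℕ) : ℝ) + 1 = M := by exact_mod_cast hcase'
      have h4 : (0 : ℝ) < 2 ^ (n / M) := by positivity
      have h6 : (2 : ℝ) * M ≤ a * (M + ((n % M : ℕ) : ℝ)) := by linarith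
      nlinarith
  · refine tendsto_atTop.2 fun b => ?_
    filter_upwards [eventually_ge_atTop (M * b)] with n hn
    have h1 : b ≤ n / M := (Nat.le_div_iff_mul_le hM0).2 (by rw [mul_comm]; exact hn)
    calc b ≤ n / M := h1
      _ ≤ 2 ^ (n / M) := (Nat.lt_two_pow_self).le
      _ ≤ (M + n % M) * 2 ^ (n / M) := Nat.le_mul_of_pos_left _ (by omega)
  · rw [Metric.tendsto_atTop]
    intro ε hε
    have h1 : ∀ᶠ k in atTop, ∀ r : Fin M,
        dist (x ((M + r) * 2 ^ k) / (((M + r) * 2 ^ k : ℕ) : ℝ)) l < ε := by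
      rw [eventually_all]
      intro r
      exact (Metric.tendsto_nhds.1 (h (M + r) (by omega))) ε hε
    obtain ⟨k₀, hk₀⟩ := eventually_atTop.1 h1
    refine ⟨k₀ * M, fun n hn => ?_⟩
    exact hk₀ (n / M) ((Nat.le_div_iff_mul_le hM0).2 hn) ⟨n % M, Nat.mod_lt n hM0⟩

/-- The recursion for the second moments implies that the variances are summable. -/
private theorem rec_sum (V b : ℕ → ℝ) (hV : ∀ k, 0 ≤ V k)
    (h : ∀ k, V (k + 1) + b (k + 1) ^ 2 ≤ V k / 2 + b k ^ 2) :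
    Summable V := by
  refine summable_of_sum_range_le (c := 2 * (V 0 + b 0 ^ 2)) hV fun n => ?_
  have key : ∀ n, ∑ k ∈ Finset.range (n + 1), V k + 2 * b n ^ 2 + V n ≤
      2 * (V 0 + b 0 ^ 2) := by
    intro n
    induction n with
    | zero => simp; linarith
    | succ n ih =>
      rw [Finset.sum_range_succ]
      have := h n
      linarith
  have h1 := key n
  rw [Finset.sum_range_succ] at h1
  have h2 := hV n
  have h3 := sq_nonneg (b n)
  linarith

/-- Square summable expectations: the terms tend to zero almost surely. -/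
private theorem ae_zero {Ω : Type*} [MeasurableSpace Ω] (P : Measure Ω)
    (Z : ℕ → Ω → ℝ) (hZ : ∀ k, MemLp (Z k) 2 P) (hs : Summable fun k => ∫ ω, Z k ω ^ 2 ∂P) :
    ∀ᵐ ω ∂P, Tendsto (fun k => Z k ω) atTop (nhds 0) := by
  have hint : ∀ k, Integrable (fun ω => Z k ω ^ 2) P := fun k => (hZ k).integrable_sq
  have h1 : ∫⁻ ω, ∑' k, ENNReal.ofReal (Z k ω ^ 2) ∂P ≠ ⊤ := by
    rw [lintegral_tsum fun k => (hint k).aemeasurable.ennreal_ofReal]
    have h2 : ∀ k, ∫⁻ ω, ENNReal.ofReal (Z k ω ^ 2) ∂P =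
        ENNReal.ofReal (∫ ω, Z k ω ^ 2 ∂P) := fun k =>
      (ofReal_integral_eq_lintegral_ofReal (hint k) (Eventually.of_forall fun ω =>
        sq_nonneg _)).symm
    simp only [h2]
    rw [← ENNReal.ofReal_tsum_of_nonneg (fun k => integral_nonneg fun ω => sq_nonneg _) hs]
    exact ENNReal.ofReal_ne_top
  have hmeas : AEMeasurable (fun ω => ∑' k, ENNReal.ofReal (Z k ω ^ 2)) P :=
    AEMeasurable.tsum fun k => (hint k).aemeasurable.ennreal_ofReal
  filter_upwards [ae_lt_top' hmeas h1] with ω hω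
  have h3 := ENNReal.tendsto_atTop_zero_of_tsum_ne_top hω.ne
  have h4 : Tendsto (fun k => (ENNReal.ofReal (Z k ω ^ 2)).toReal) atTop (nhds 0) := by
    have := (ENNReal.tendsto_toReal ENNReal.zero_ne_top).comp h3
    rwa [ENNReal.toReal_zero] at this
  simp only [ENNReal.toReal_ofReal (sq_nonneg _)] at h4
  have h5 : Tendsto (fun k => Real.sqrt (Z k ω ^ 2)) atTop (nhds 0) := by
    have := (Real.continuous_sqrt.tendsto 0).comp h4
    rwa [Real.sqrt_zero] at this
  simp only [Real.sqrt_sq_eq_abs] at h5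
  exact (tendsto_zero_iff_abs_tendsto_zero _).2 h5

theorem subconv {Ω : Type*} [MeasurableSpace Ω] (P : Measure Ω) [IsProbabilityMeasure P]
    (X : ℕ → Ω → ℝ) (hX : ∀ n, MemLp (X n) 2 P) (h0 : ∀ n, ∀ᵐ ω ∂ P, 0 ≤ X n ω)
    (hmono : ∀ᵐ ω ∂ P, Monotone (fun n => X n ω))
    (hsub : ∀ n m, ∃ Y : Ω → ℝ, IndepFun (X n) Y P ∧ IdentDistrib Y (X m) P P ∧
      ∀ᵐ ω ∂ P, X (n + m) ω ≤ X n ω + Y ω) :
    ∃ μ : ℝ, 0 ≤ μ ∧ ∀ᵐ ω ∂ P, Tendsto (fun n : ℕ => X n ω / n) atTop (nhds μ) := by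
  obtain ⟨a, ha⟩ : ∃ a : ℕ → ℝ, a = fun n => ∫ ω, X n ω ∂P := ⟨_, rfl⟩
  obtain ⟨s, hs⟩ : ∃ s : ℕ → ℝ, s = fun n => ∫ ω, X n ω ^ 2 ∂P := ⟨_, rfl⟩
  have hXi : ∀ n, Integrable (X n) P := fun n => (hX n).integrable one_le_two
  have ha0 : ∀ n, 0 ≤ a n := fun n => by rw [ha]; exact integral_nonneg_of_ae (h0 n)
  have hasub : Subadditive a := by
    intro n m
    obtain ⟨Y, -, hid, hle⟩ := hsub n m
    have hY : Integrable Y P := hid.integrable_iff.2 (hXi m)
    simp only [ha]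
    rw [← hid.integral_eq, ← integral_add (hXi n) hY]
    exact integral_mono_ae (hXi _) ((hXi n).add hY) hle
  have hsub2 : ∀ n, s (2 * n) ≤ 2 * s n + 2 * a n ^ 2 := by
    intro n
    obtain ⟨Y, hind, hid, hle⟩ := hsub n n
    rw [← two_mul] at hle
    have hY2 : MemLp Y 2 P := hid.memLp_iff.2 (hX n)
    have hY : Integrable Y P := hY2.integrable one_le_two
    have e1 : ∫ ω, X n ω * Y ω ∂P = a n * a n := by
      rw [hind.integral_fun_mul_eq_mul_integral (hXi n).aestronglyMeasurable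
        hY.aestronglyMeasurable, hid.integral_eq, ha]
    have e2 : ∫ ω, Y ω ^ 2 ∂P = s n := by
      have := hid.sq.integral_eq
      rw [hs]
      exact this
    have hXY : Integrable (fun ω => X n ω * Y ω) P := (hX n).integrable_mul hY2
    have hle2 : s (2 * n) ≤ ∫ ω, (X n ω ^ 2 + 2 * (X n ω * Y ω) + Y ω ^ 2) ∂P := by
      rw [hs]
      refine integral_mono_ae (hX _).integrable_sq
        (((hX n).integrable_sq.add (hXY.const_mul 2)).add hY2.integrable_sq) ?_
      filter_upwards [hle, h0 (2 * n)] with ω h1 h2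
      have h3 : X (2 * n) ω ^ 2 ≤ (X n ω + Y ω) ^ 2 := pow_le_pow_left₀ h2 h1 2
      calc X (2 * n) ω ^ 2 ≤ (X n ω + Y ω) ^ 2 := h3
        _ = X n ω ^ 2 + 2 * (X n ω * Y ω) + Y ω ^ 2 := by ring
    have e3 : ∫ ω, X n ω ^ 2 ∂P = s n := by rw [hs]
    have e4 : ∫ ω, (X n ω ^ 2 + 2 * (X n ω * Y ω) + Y ω ^ 2) ∂P =
        s n + 2 * (a n * a n) + s n := by
      calc ∫ ω, (X n ω ^ 2 + 2 * (X n ω * Y ω) + Y ω ^ 2) ∂P
          = ∫ ω, (X n ω ^ 2 + 2 * (X n ω * Y ω)) ∂P + ∫ ω, Y ω ^ 2 ∂P :=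
            integral_add ((hX n).integrable_sq.add (hXY.const_mul 2)) hY2.integrable_sq
        _ = ∫ ω, X n ω ^ 2 ∂P + ∫ ω, 2 * (X n ω * Y ω) ∂P + ∫ ω, Y ω ^ 2 ∂P := by
            rw [← integral_add (hX n).integrable_sq (hXY.const_mul 2)]
        _ = s n + 2 * (a n * a n) + s n := by rw [integral_const_mul, e1, e2, e3]
    rw [e4] at hle2
    linarith
  have hbdd : BddBelow (Set.range fun n => a n / n) := by
    refine ⟨0, ?_⟩
    rintro _ ⟨n, rfl⟩
    exact div_nonneg (ha0 n) (Nat.cast_nonneg n)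
  have hlim := hasub.tendsto_lim hbdd
  refine ⟨hasub.lim, ge_of_tendsto' hlim fun n => div_nonneg (ha0 n) (Nat.cast_nonneg n), ?_⟩
  have hvar : ∀ n, ∫ ω, (X n ω - a n) ^ 2 ∂P = s n - a n ^ 2 := by
    intro n
    have e1 : ∀ ω, (X n ω - a n) ^ 2 = X n ω ^ 2 - 2 * a n * X n ω + a n ^ 2 := fun ω => by ring
    simp only [e1]
    have e2 : ∫ ω, X n ω ∂P = a n := by rw [ha]
    have e3 : ∫ ω, X n ω ^ 2 ∂P = s n := by rw [hs]
    calc ∫ ω, (X n ω ^ 2 - 2 * a n * X n ω + a n ^ 2) ∂P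
        = ∫ ω, (X n ω ^ 2 - 2 * a n * X n ω) ∂P + ∫ _, a n ^ 2 ∂P :=
          integral_add ((hX n).integrable_sq.sub ((hXi n).const_mul _)) (integrable_const _)
      _ = ∫ ω, X n ω ^ 2 ∂P - ∫ ω, 2 * a n * X n ω ∂P + ∫ _, a n ^ 2 ∂P := by
          rw [← integral_sub (hX n).integrable_sq ((hXi n).const_mul _)]
      _ = s n - a n ^ 2 := by
          rw [integral_const_mul, e2, e3, integral_const, probReal_univ, one_smul]
          ring
  have hN : ∀ N : ℕ, 1 ≤ N → ∀ᵐ ω ∂P,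
      Tendsto (fun k : ℕ => X (N * 2 ^ k) ω / ((N * 2 ^ k : ℕ) : ℝ)) atTop (nhds hasub.lim) := by
    intro N hN
    obtain ⟨c, hc⟩ : ∃ c : ℕ → ℕ, c = fun k => N * 2 ^ k := ⟨_, rfl⟩
    have hcpos : ∀ k, (0 : ℝ) < c k := by
      intro k
      rw [hc]
      have : 0 < N * 2 ^ k := by positivity
      exact_mod_cast this
    have hcs : ∀ k, c (k + 1) = 2 * c k := by
      intro k
      rw [hc]
      simp only [pow_succ]
      ring
    have hct : Tendsto c atTop atTop := by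
      refine tendsto_atTop_mono (f := fun k => k) (fun k => ?_) tendsto_id
      rw [hc]
      exact (Nat.lt_two_pow_self).le.trans (Nat.le_mul_of_pos_left _ hN)
    have hb := hlim.comp hct
    have hZ : ∀ k, MemLp (fun ω => (X (c k) ω - a (c k)) / c k) 2 P := fun k => by
      have h1 := ((hX (c k)).sub (memLp_const (a (c k)))).mul_const ((c k : ℝ)⁻¹)
      exact h1
    have hint : ∀ k, ∫ ω, ((X (c k) ω - a (c k)) / c k) ^ 2 ∂P =
        (s (c k) - a (c k) ^ 2) / (c k : ℝ) ^ 2 := by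
      intro k
      simp only [div_pow]
      rw [integral_div, hvar]
    have hsum : Summable fun k => ∫ ω, ((X (c k) ω - a (c k)) / c k) ^ 2 ∂P := by
      refine rec_sum _ (fun k => a (c k) / c k) (fun k => integral_nonneg fun ω => sq_nonneg _)
        fun k => ?_
      rw [hint, hint, div_pow, div_pow, ← add_div]
      have h1 := hsub2 (c k)
      rw [← hcs] at h1
      have h2 : (c (k + 1) : ℝ) = 2 * c k := by rw [hcs]; push_cast; ring
      have hp := hcpos k
      rw [h2, div_div, ← sub_nonneg]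
      have h3 : (s (c k) - a (c k) ^ 2) / ((c k : ℝ) ^ 2 * 2) + a (c k) ^ 2 / (c k : ℝ) ^ 2 -
          (s (c (k + 1)) - a (c (k + 1)) ^ 2 + a (c (k + 1)) ^ 2) / (2 * (c k : ℝ)) ^ 2 =
          (2 * s (c k) + 2 * a (c k) ^ 2 - s (c (k + 1))) / (4 * (c k : ℝ) ^ 2) := by
        field_simp
        ring
      rw [h3]
      exact div_nonneg (by linarith) (by positivity)
    filter_upwards [ae_zero P _ hZ hsum] with ω hω
    have h4 := hω.add hb
    rw [zero_add] at h4
    refine h4.congr fun k => ?_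
    simp only [Function.comp]
    rw [← add_div, sub_add_cancel, hc]
  have hall : ∀ᵐ ω ∂P, ∀ N : ℕ, 1 ≤ N →
      Tendsto (fun k : ℕ => X (N * 2 ^ k) ω / ((N * 2 ^ k : ℕ) : ℝ)) atTop (nhds hasub.lim) := by
    rw [ae_all_iff]
    intro N
    by_cases h : 1 ≤ N
    · filter_upwards [hN N h] with ω hω _ using hω
    · exact Eventually.of_forall fun ω h' => absurd h' h
  filter_upwards [hall, hmono] with ω h1 h2
  exact det (fun n => X n ω) h2 hasub.lim h1

end Frog81
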