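import Pool.Agent.H.MP_53e2a7_pr.h81.Full
import Pool.Agent.H.MP_53e2a7_pr.h81.Second
import Pool.Agent.H.MP_53e2a7_pr.h81.Subconv
import Pool.Agent.H.MP_53e2a7_pr.h81.Lower

/-!
Module Conv: the shape theorem in dimension one for `η ≥ 5`, `E η < ∞`.

`logMoment_of_mean`: Markov: `ν {exp (δ n) ≤ m} ≤ exp (-δ n) E`.

`half_conv`.  Let `X n = (Tp ω 0 n).toReal`.  A.s. all sites are occupied and all hitting times are
finite (`ae_hits_finite`), so `Tp ω 0 n ≠ ⊤`.  `X n ≤ ∑_{i < n} (travel ω (axis i) (axis (i+1))).toReal`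
(`Tp_sub`/`Tp_le`), each term has the law of `travel ω 0 (axis 1)` (`travel_shift`,
`measurePreserving_shift`) and a finite second moment (`travel_sq`), so `X n ∈ L²`
(`measurable_Tp`).  Monotone by `Tp_mono`.  `Y = (Tp ω n m).toReal` has the law of `X m` (`Tp_shift`,
`measurePreserving_shift`) and is independent of `X n`: `X n` depends on the sites `axis i`, `i < n`,
`Y` on the sites `axis (n + i)`, `i < m` (`Tp_local`; `iIndepFun_sites` with two disjoint finite sets,
`iIndepFun.indepFun_finset`).  `subconv` gives the limit `μ ≥ 0`.  `T ω 0 (axis n) ≤ Tp ω 0 n`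
(`T_le_Tp`, `axis 0 = 0`) and `full_lower` give `μ ≥ δ > 0`.

`full_conv`.  For a.e. `ω`: `T ω 0 (axis n) ≤ Tp ω 0 n ≤ C n + K`; `{x | T ω 0 x ≤ s}` is finite by
`full_lower`; `half_of_full` gives `Tp ω 0 n - D ≤ T ω 0 (axis n) ≤ Tp ω 0 n`; divide by `n`.  For the
left side apply this to `reflect ω` (`T_reflect`, `measurePreserving_reflect`, `-axis n = axis (-n)`).

`shape_five`.  `A = {p | |p 0| ≤ 1 / μ}`.  Let `ε ∈ (0, 1)` and `ω` good; choose `ε' > 0` small and `K`
with `(μ - ε') |y| - K ≤ T ω 0 (axis y) ≤ (μ + ε') |y| + K` (real values) for all `y : ℤ`.  Inner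
inclusion: `|p 0| ≤ (1 - ε) / μ`; let `y` be the integer with `t p 0 - y ∈ Ioc (-1/2) (1/2)`; then
`|y| ≤ (1 - ε) t / μ + 1/2` and `T ω 0 (axis y) ≤ (μ + ε') ((1 - ε) t / μ + 1/2) + K ≤ t` for large
`t` if `(μ + ε') (1 - ε) / μ < 1`.  Outer inclusion: `T ω 0 (axis y) ≤ t` gives
`|y| ≤ (t + K) / (μ - ε')`, and `|p 0| ≤ (|y| + 1/2) / t ≤ (1 + ε) / μ` for large `t` if
`1 / (μ - ε') < (1 + ε) / μ`.  The interior of `A` contains `0`; `A` is convex and bounded.
-/

namespace Frog81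

open MeasureTheory ProbabilityTheory Filter
open scoped ENNReal NNReal

variable (ν : Measure ℕ) [IsProbabilityMeasure ν]

theorem logMoment_of_mean (hmean : ∫⁻ m, (m : ℝ≥0∞) ∂ ν ≠ ⊤) : LogMoment ν := by
  intro δ hδ
  set r : ℝ≥0∞ := ENNReal.ofReal (Real.exp (-δ)) with hr
  have hr1 : r < 1 := by
    rw [hr, ENNReal.ofReal_lt_one]
    exact Real.exp_lt_one_iff.mpr (by linarith)
  have hb : ∀ n : ℕ, ν {m : ℕ | Real.exp (δ * n) ≤ m} ≤ (∫⁻ m, (m : ℝ≥0∞) ∂ ν) * r ^ n := by
    intro n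
    have h1 : {m : ℕ | Real.exp (δ * n) ≤ m} ⊆
        {m : ℕ | ENNReal.ofReal (Real.exp (δ * n)) ≤ (m : ℝ≥0∞)} := by
      intro m hm
      have hm' : Real.exp (δ * n) ≤ m := hm
      show ENNReal.ofReal (Real.exp (δ * n)) ≤ (m : ℝ≥0∞)
      rw [← ENNReal.ofReal_natCast m]
      exact ENNReal.ofReal_le_ofReal hm'
    refine (measure_mono h1).trans ?_
    have h2 := meas_ge_le_lintegral_div (μ := ν) (f := fun m : ℕ => (m : ℝ≥0∞))
      (measurable_of_countable _).aemeasurable (ε := ENNReal.ofReal (Real.exp (δ * n)))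
      (ENNReal.ofReal_pos.mpr (Real.exp_pos _)).ne' ENNReal.ofReal_ne_top
    refine h2.trans (le_of_eq ?_)
    rw [ENNReal.div_eq_inv_mul, mul_comm]
    congr 1
    rw [hr, ← ENNReal.ofReal_pow (Real.exp_pos _).le, ← Real.exp_nat_mul,
      ← ENNReal.ofReal_inv_of_pos (Real.exp_pos _), ← Real.exp_neg]
    congr 2
    ring
  refine ne_top_of_le_ne_top ?_ (ENNReal.tsum_le_tsum hb)
  rw [ENNReal.tsum_mul_left, ENNReal.tsum_geometric]
  refine ENNReal.mul_ne_top hmean ?_
  rw [ENNReal.inv_ne_top]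
  exact (tsub_pos_of_lt hr1).ne'

private theorem ae_five (h5 : ν {m : ℕ | m < 5} = 0) :
    ∀ᵐ ω ∂ envLaw 1 ν, ∀ x : Site 1, 5 ≤ (ω x).1 := by
  rw [ae_all_iff]
  intro x
  have h1 : ∀ᵐ s ∂ siteLaw 1 ν, 5 ≤ s.1 := by
    rw [ae_iff]
    have h2 : {s : SiteData 1 | ¬ 5 ≤ s.1} = {m : ℕ | m < 5} ×ˢ Set.univ := by
      ext s; simp
    rw [h2, siteLaw, Measure.prod_prod, h5, zero_mul]
  exact (measurePreserving_site (d := 1) ν x).quasiMeasurePreserving.ae h1

private theorem axis_zero' : (axis 0 : Site 1) = 0 := by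
  funext i; simp [axis]

private theorem neg_axis (k : ℤ) : -(axis k : Site 1) = axis (-k) := by
  funext i; simp only [axis, Pi.neg_apply]; split_ifs <;> simp

private theorem travel_ne_top (ω : Env 1) (x y : ℤ) (h : 5 ≤ (ω (axis x)).1)
    (hh : hit (axis x) (axis y) ((ω (axis x)).2 0) ≠ ⊤) : travel ω (axis x) (axis y) ≠ ⊤ := by
  refine ne_top_of_le_ne_top hh ?_
  exact iInf₂_le 0 (by omega)

private theorem travel_L2 (h5 : ν {m : ℕ | m < 5} = 0) (i : ℕ) :
    MemLp (fun ω : Env 1 => (travel ω (axis i) (axis (i + 1))).toReal) 2 (envLaw 1 ν) := by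
  have hm : Measurable (fun ω : Env 1 => travel ω (axis i) (axis (i + 1))) := measurable_travel _ _
  rw [memLp_two_iff_integrable_sq hm.ennreal_toReal.aestronglyMeasurable]
  have h1 : ∫⁻ ω, (travel ω (axis i) (axis (i + 1))) ^ 2 ∂ envLaw 1 ν ≠ ⊤ := by
    have h2 := (measurePreserving_shift ν (axis i : Site 1)).lintegral_comp
      (f := fun ω : Env 1 => (travel ω 0 (axis 1)) ^ 2) ((measurable_travel _ _).pow_const 2)
    have h3 : ∀ ω : Env 1, travel (shift (axis i) ω) 0 (axis 1) =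
        travel ω (axis i) (axis (i + 1)) := by
      intro ω
      rw [travel_shift, zero_add]
      congr 1
      funext j; simp only [axis, Pi.add_apply]; split_ifs <;> simp [add_comm]
    simp only [h3] at h2
    rw [h2]
    exact travel_sq ν h5
  have h4 := integrable_toReal_of_lintegral_ne_top ((hm.pow_const 2).aemeasurable) h1
  refine h4.congr (Eventually.of_forall fun ω => ?_)
  simp [ENNReal.toReal_pow]

private theorem Tp_le_sum (ω : Env 1) (n : ℕ) :
    Tp ω 0 n ≤ ∑ i ∈ Finset.range n, travel ω (axis i) (axis (i + 1)) := by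
  induction n with
  | zero => rw [Tp_zero]; exact bot_le
  | succ n ih =>
    rw [Finset.sum_range_succ]
    have h1 := Tp_le ω 0 n (n + 1) (Nat.lt_succ_self n)
    refine h1.trans ?_
    simp only [zero_add]
    push_cast
    exact add_le_add_left ih _

open Classical in
private noncomputable def ext1 (S : Finset (Site 1)) (r : S → SiteData 1) : Env 1 :=
  fun x => if h : x ∈ S then r ⟨x, h⟩ else (0, fun _ _ => (0, (0, true)))

private theorem measurable_ext1 (S : Finset (Site 1)) : Measurable (ext1 S) := by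
  rw [measurable_pi_iff]
  intro x
  unfold ext1
  by_cases h : x ∈ S
  · simp only [h, dif_pos]
    exact measurable_pi_apply _
  · simp only [h, dif_neg, not_false_eq_true]
    exact measurable_const

private theorem Tp_indep (n m : ℕ) : IndepFun (fun ω : Env 1 => (Tp ω 0 n).toReal)
    (fun ω : Env 1 => (Tp ω n m).toReal) (envLaw 1 ν) := by
  classical
  set S : Finset (Site 1) := (Finset.range n).image (fun i : ℕ => (axis i : Site 1)) with hS
  set S' : Finset (Site 1) := (Finset.range m).image (fun i : ℕ => (axis (n + i) : Site 1)) with hS'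
  have hdisj : Disjoint S S' := by
    rw [Finset.disjoint_left]
    intro x hx hx'
    rw [hS, Finset.mem_image] at hx
    rw [hS', Finset.mem_image] at hx'
    obtain ⟨i, hi, rfl⟩ := hx
    obtain ⟨j, hj, hij⟩ := hx'
    have := congrFun hij 0
    simp only [axis, if_true] at this
    have hi' := Finset.mem_range.mp hi
    omega
  have h1 := (iIndepFun_sites (d := 1) ν).indepFun_finset S S' hdisj
    (fun x => measurable_pi_apply x)
  have h2 : Measurable (fun r : S → SiteData 1 => (Tp (ext1 S r) 0 n).toReal) :=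
    ((measurable_Tp 0 n).comp (measurable_ext1 S)).ennreal_toReal
  have h3 : Measurable (fun r : S' → SiteData 1 => (Tp (ext1 S' r) n m).toReal) :=
    ((measurable_Tp n m).comp (measurable_ext1 S')).ennreal_toReal
  have h4 := h1.comp h2 h3
  have e1 : (fun ω : Env 1 => (Tp ω 0 n).toReal) =
      (fun r : S → SiteData 1 => (Tp (ext1 S r) 0 n).toReal) ∘ (fun ω (i : S) => ω i) := by
    funext ω
    simp only [Function.comp]
    congr 1
    refine Tp_local _ _ 0 n fun i hi => ?_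
    have hmem : (axis (0 + i) : Site 1) ∈ S := by
      rw [hS, Finset.mem_image]
      exact ⟨i, Finset.mem_range.mpr hi, by rw [zero_add]⟩
    simp only [ext1, hmem, dif_pos]
  have e2 : (fun ω : Env 1 => (Tp ω n m).toReal) =
      (fun r : S' → SiteData 1 => (Tp (ext1 S' r) n m).toReal) ∘ (fun ω (i : S') => ω i) := by
    funext ω
    simp only [Function.comp]
    congr 1
    refine Tp_local _ _ n m fun i hi => ?_
    have hmem : (axis (n + i) : Site 1) ∈ S' := by
      rw [hS', Finset.mem_image]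
      exact ⟨i, Finset.mem_range.mpr hi, rfl⟩
    simp only [ext1, hmem, dif_pos]
  rw [e1, e2]
  exact h4

theorem half_conv (h5 : ν {m : ℕ | m < 5} = 0) (hmean : ∫⁻ m, (m : ℝ≥0∞) ∂ ν ≠ ⊤) :
    ∃ μ : ℝ, 0 < μ ∧ ∀ᵐ ω ∂ envLaw 1 ν, (∀ n, Tp ω 0 n ≠ ⊤) ∧
      Tendsto (fun n : ℕ => (Tp ω 0 n).toReal / n) atTop (nhds μ) := by
  have htrav : ∀ᵐ ω ∂ envLaw 1 ν, ∀ x y : ℤ, travel ω (axis x) (axis y) ≠ ⊤ := by
    filter_upwards [ae_five ν h5, ae_hits_finite ν] with ω h1 h2 x y
    exact travel_ne_top ω x y (h1 _) (h2 x 0 y)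
  have hfin : ∀ᵐ ω ∂ envLaw 1 ν, ∀ (x : ℤ) (n : ℕ), Tp ω x n ≠ ⊤ := by
    filter_upwards [htrav] with ω h x n
    rcases Nat.eq_zero_or_pos n with rfl | hn
    · rw [Tp_zero]; exact ENNReal.zero_ne_top
    · refine ne_top_of_le_ne_top ?_ (Tp_le ω x 0 n hn)
      rw [Tp_zero, zero_add]
      exact h _ _
  have hL2 : ∀ n : ℕ, MemLp (fun ω : Env 1 => (Tp ω 0 n).toReal) 2 (envLaw 1 ν) := by
    intro n
    have h1 : MemLp (fun ω : Env 1 => ∑ i ∈ Finset.range n,
        (travel ω (axis i) (axis (i + 1))).toReal) 2 (envLaw 1 ν) :=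
      memLp_finsetSum _ fun i _ => travel_L2 ν h5 i
    refine h1.mono ((measurable_Tp 0 n).ennreal_toReal.aestronglyMeasurable) ?_
    filter_upwards [htrav] with ω hω
    rw [Real.norm_of_nonneg ENNReal.toReal_nonneg,
      Real.norm_of_nonneg (Finset.sum_nonneg fun i _ => ENNReal.toReal_nonneg),
      ← ENNReal.toReal_sum fun i _ => hω _ _]
    exact ENNReal.toReal_mono (ENNReal.sum_ne_top.mpr fun i _ => hω _ _) (Tp_le_sum ω n)
  obtain ⟨μ, hμ0, hμ⟩ := subconv (envLaw 1 ν) (fun n ω => (Tp ω 0 n).toReal) hL2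
    (fun n => Eventually.of_forall fun ω => ENNReal.toReal_nonneg)
    (by
      filter_upwards [ae_regular (d := 1) ν, hfin] with ω h1 h2
      intro n m hnm
      exact ENNReal.toReal_mono (h2 0 m) (Tp_mono ω h1 0 hnm))
    (by
      intro n m
      refine ⟨fun ω => (Tp ω n m).toReal, Tp_indep ν n m, ?_, ?_⟩
      · have hmp := measurePreserving_shift ν (axis n : Site 1)
        have hme : Measurable (fun ω : Env 1 => (Tp ω 0 m).toReal) :=
          (measurable_Tp 0 m).ennreal_toReal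
        have he : (fun ω : Env 1 => (Tp ω n m).toReal) =
            (fun ω : Env 1 => (Tp ω 0 m).toReal) ∘ (shift (axis n)) := by
          funext ω
          simp only [Function.comp, Tp_shift, zero_add]
        refine ⟨((measurable_Tp n m).ennreal_toReal).aemeasurable, hme.aemeasurable, ?_⟩
        rw [he, ← Measure.map_map hme hmp.measurable, hmp.map_eq]
      · filter_upwards [hfin] with ω h2
        have h3 := Tp_sub ω 0 n m
        rw [zero_add] at h3
        have h4 : (Tp ω 0 (n + m)).toReal ≤ (Tp ω 0 n + Tp ω n m).toReal :=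
          ENNReal.toReal_mono (ENNReal.add_ne_top.mpr ⟨h2 0 n, h2 n m⟩) h3
        rwa [ENNReal.toReal_add (h2 0 n) (h2 n m)] at h4)
  obtain ⟨δ, hδ, hlow⟩ := full_lower ν hmean
  have hμpos : 0 < μ := by
    obtain ⟨ω, h1, ⟨K, hK⟩, h3, h4⟩ :=
      (hμ.and (hlow.and ((ae_five ν h5).and hfin))).exists
    have h6 : Tendsto (fun n : ℕ => δ - K / n) atTop (nhds (δ - 0)) :=
      tendsto_const_nhds.sub (tendsto_const_div_atTop_nhds_zero_nat K)
    have h7 : δ - 0 ≤ μ := by
      refine le_of_tendsto_of_tendsto h6 h1 ?_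
      filter_upwards [eventually_ge_atTop 1] with n hn
      have hn' : (0 : ℝ) < n := by exact_mod_cast hn
      have h8 : T ω 0 (axis n) ≤ Tp ω 0 n := by
        have := T_le_Tp ω 0 n (by rw [axis_zero']; exact le_trans (by norm_num) (h3 0))
        rwa [axis_zero', zero_add] at this
      have h9 := (hK n).trans h8
      have h10 : δ * n - K ≤ (Tp ω 0 n).toReal := by
        have := ENNReal.toReal_mono (h4 0 n) h9
        refine le_trans ?_ this
        rw [ENNReal.toReal_ofReal']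
        refine le_trans (le_of_eq ?_) (le_max_left _ _)
        simp
      rw [le_div_iff₀ hn']
      rw [sub_mul, div_mul_cancel₀ _ hn'.ne']
      exact h10
    linarith
  refine ⟨μ, hμpos, ?_⟩
  filter_upwards [hμ, hfin] with ω h1 h2
  exact ⟨fun n => h2 0 n, h1⟩

private theorem linear_of_tendsto (a : ℕ → ℝ) (μ : ℝ)
    (h : Tendsto (fun n : ℕ => a n / n) atTop (nhds μ)) (η : ℝ) (hη : 0 < η) :
    ∃ K : ℝ, 0 ≤ K ∧ ∀ n : ℕ, |a n - μ * n| ≤ η * n + K := by
  have h1 := (Metric.tendsto_atTop.1 h) η hη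
  obtain ⟨N, hN⟩ := h1
  refine ⟨∑ i ∈ Finset.range (N + 1), |a i - μ * i|, Finset.sum_nonneg fun i _ => abs_nonneg _, ?_⟩
  intro n
  by_cases hn : n ≤ N
  · have h2 : |a n - μ * n| ≤ ∑ i ∈ Finset.range (N + 1), |a i - μ * i| :=
      Finset.single_le_sum (f := fun i : ℕ => |a i - μ * i|) (fun i _ => abs_nonneg _)
        (Finset.mem_range.mpr (by omega))
    have h3 : 0 ≤ η * n := by positivity
    linarith
  · have hn' : N ≤ n := by omega
    have hnp : (0 : ℝ) < n := by
      have : 0 < n := by omega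
      exact_mod_cast this
    have h2 := hN n hn'
    rw [Real.dist_eq] at h2
    have h3 : |a n - μ * n| = |a n / n - μ| * n := by
      rw [← abs_of_pos hnp, ← abs_mul, abs_of_pos hnp]
      congr 1
      field_simp
    have h4 : 0 ≤ ∑ i ∈ Finset.range (N + 1), |a i - μ * i| :=
      Finset.sum_nonneg fun i _ => abs_nonneg _
    rw [h3]
    nlinarith [mul_le_mul_of_nonneg_right h2.le hnp.le]

private theorem right_conv (h5 : ν {m : ℕ | m < 5} = 0) (hmean : ∫⁻ m, (m : ℝ≥0∞) ∂ ν ≠ ⊤) :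
    ∃ μ : ℝ, 0 < μ ∧ ∀ᵐ ω ∂ envLaw 1 ν, (∀ n : ℕ, T ω 0 (axis n) ≠ ⊤) ∧
      Tendsto (fun n : ℕ => (T ω 0 (axis n)).toReal / n) atTop (nhds μ) := by
  obtain ⟨μ, hμ, hconv⟩ := half_conv ν h5 hmean
  obtain ⟨δ, hδ, hlow⟩ := full_lower ν hmean
  refine ⟨μ, hμ, ?_⟩
  filter_upwards [hconv, hlow, ae_five ν h5, half_of_full ν (logMoment_of_mean ν hmean)] with
    ω h1 h2 h3 h4
  obtain ⟨hTp, hlim⟩ := h1
  obtain ⟨K, hK⟩ := h2
  have h0 : 1 ≤ (ω 0).1 := le_trans (by norm_num) (h3 0)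
  have hle : ∀ n : ℕ, T ω 0 (axis n) ≤ Tp ω 0 n := by
    intro n
    have := T_le_Tp ω 0 n (by rw [axis_zero']; exact h0)
    rwa [axis_zero', zero_add] at this
  have hT : ∀ n : ℕ, T ω 0 (axis n) ≠ ⊤ := fun n => ne_top_of_le_ne_top (hTp n) (hle n)
  have hfinite : ∀ s : ℝ≥0, {x | T ω 0 x ≤ (s : ℝ≥0∞)}.Finite := by
    intro s
    obtain ⟨N, hN⟩ := exists_nat_ge ((s + K) / δ)
    refine ((Set.finite_Icc (-(N : ℤ)) N).image (fun k : ℤ => (axis k : Site 1))).subset ?_
    intro x hx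
    refine ⟨x 0, ?_, (eq_axis x).symm⟩
    have hx' : (axis (x 0) : Site 1) = x := (eq_axis x).symm
    have h5' : T ω 0 (axis (x 0)) ≤ (s : ℝ≥0∞) := by rw [hx']; exact hx
    have h6 := (hK (x 0)).trans h5'
    have h7 : ENNReal.ofReal (δ * |((x 0 : ℤ) : ℝ)| - K) ≤ ENNReal.ofReal (s : ℝ) := by
      rwa [ENNReal.ofReal_coe_nnreal]
    have h8 := (ENNReal.ofReal_le_ofReal_iff (NNReal.coe_nonneg s)).1 h7
    have h9 : |((x 0 : ℤ) : ℝ)| ≤ N := by
      refine le_trans ?_ hN
      rw [le_div_iff₀ hδ, mul_comm]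
      linarith
    have h10 : |(x 0 : ℤ)| ≤ N := by exact_mod_cast h9
    exact Set.mem_Icc.mpr (abs_le.mp h10)
  obtain ⟨K', hK'0, hK'⟩ := linear_of_tendsto (fun n => (Tp ω 0 n).toReal) μ hlim 1 one_pos
  obtain ⟨D, hD0, hD⟩ := h4 h0 hfinite ⟨μ + 1, K', fun n => by
    refine (hle n).trans ?_
    rw [← ENNReal.ofReal_toReal (hTp n)]
    refine ENNReal.ofReal_le_ofReal ?_
    have := (abs_le.mp (hK' n)).2
    linarith⟩
  refine ⟨hT, ?_⟩
  have hlim2 : Tendsto (fun n : ℕ => (Tp ω 0 n).toReal / n - D / n) atTop (nhds (μ - 0)) :=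
    hlim.sub (tendsto_const_div_atTop_nhds_zero_nat D)
  rw [sub_zero] at hlim2
  refine tendsto_of_tendsto_of_tendsto_of_le_of_le hlim2 hlim ?_ ?_
  · intro n
    show (Tp ω 0 n).toReal / n - D / n ≤ (T ω 0 (axis n)).toReal / n
    rw [← sub_div]
    refine div_le_div_of_nonneg_right ?_ (Nat.cast_nonneg n)
    have := ENNReal.toReal_mono (ENNReal.add_ne_top.mpr ⟨hT n, ENNReal.ofReal_ne_top⟩) (hD n)
    rw [ENNReal.toReal_add (hT n) ENNReal.ofReal_ne_top, ENNReal.toReal_ofReal hD0] at this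
    linarith
  · intro n
    exact div_le_div_of_nonneg_right (ENNReal.toReal_mono (hTp n) (hle n)) (Nat.cast_nonneg n)

theorem full_conv (h5 : ν {m : ℕ | m < 5} = 0) (hmean : ∫⁻ m, (m : ℝ≥0∞) ∂ ν ≠ ⊤) :
    ∃ μ : ℝ, 0 < μ ∧ ∀ᵐ ω ∂ envLaw 1 ν, (∀ y : ℤ, T ω 0 (axis y) ≠ ⊤) ∧
      Tendsto (fun n : ℕ => (T ω 0 (axis n)).toReal / n) atTop (nhds μ) ∧
      Tendsto (fun n : ℕ => (T ω 0 (axis (-(n : ℤ)))).toReal / n) atTop (nhds μ) := by
  obtain ⟨μ, hμ, hconv⟩ := right_conv ν h5 hmean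
  refine ⟨μ, hμ, ?_⟩
  have hrefl := (measurePreserving_reflect (d := 1) ν).quasiMeasurePreserving.ae hconv
  filter_upwards [hconv, hrefl] with ω h1 h2
  have he : ∀ n : ℕ, T (reflect ω) 0 (axis n) = T ω 0 (axis (-(n : ℤ))) := by
    intro n
    rw [T_reflect, neg_zero, neg_axis]
  simp only [he] at h2
  refine ⟨?_, h1.2, h2.2⟩
  intro y
  rcases le_total 0 y with hy | hy
  · obtain ⟨n, rfl⟩ := Int.eq_ofNat_of_zero_le hy
    exact h1.1 n
  · obtain ⟨n, hn⟩ := Int.eq_ofNat_of_zero_le (neg_nonneg.mpr hy)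
    have : y = -(n : ℤ) := by omega
    rw [this]
    exact h2.1 n

private theorem norm_fin_one (p : Fin 1 → ℝ) : ‖p‖ = |p 0| := by
  rw [Pi.norm_def]
  simp

theorem shape_five (h5 : ν {m : ℕ | m < 5} = 0) (hmean : ∫⁻ m, (m : ℝ≥0∞) ∂ ν ≠ ⊤) :
    HasBoundedShape 1 ν := by
  obtain ⟨μ, hμ, hconv⟩ := full_conv ν h5 hmean
  constructor
  · have h1 : ν {0} = 0 := measure_mono_null (fun m hm => by
      have : m = 0 := hm
      show m < 5
      omega) h5
    rw [prob_compl_eq_one_sub (measurableSet_singleton 0), h1]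
    simp
  refine ⟨Metric.closedBall 0 (1 / μ), Metric.isBounded_closedBall, convex_closedBall _ _, ?_, ?_⟩
  · refine ⟨0, ?_⟩
    refine interior_mono Metric.ball_subset_closedBall ?_
    rw [Metric.isOpen_ball.interior_eq]
    exact Metric.mem_ball_self (by positivity)
  intro ε hε
  obtain ⟨hε0, hε1⟩ := hε
  filter_upwards [hconv] with ω hω _
  obtain ⟨hT, hr, hl⟩ := hω
  set η : ℝ := ε * μ / 2 with hη
  have hηpos : 0 < η := by positivity
  obtain ⟨K1, hK1, hb1⟩ := linear_of_tendsto _ μ hr η hηpos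
  obtain ⟨K2, hK2, hb2⟩ := linear_of_tendsto _ μ hl η hηpos
  have hb : ∀ y : ℤ, |(T ω 0 (axis y)).toReal - μ * (|(y : ℝ)|)| ≤ η * |(y : ℝ)| + (K1 + K2) := by
    intro y
    rcases le_total 0 y with hy | hy
    · obtain ⟨n, rfl⟩ := Int.eq_ofNat_of_zero_le hy
      have := hb1 n
      simp only [Int.cast_natCast, Nat.abs_cast]
      linarith
    · obtain ⟨n, hn⟩ := Int.eq_ofNat_of_zero_le (neg_nonneg.mpr hy)
      have hyn : y = -(n : ℤ) := by omega
      subst hyn
      have := hb2 n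
      push_cast
      rw [abs_neg, Nat.abs_cast]
      linarith
  set K := K1 + K2 with hKdef
  have hK0 : 0 ≤ K := by positivity
  filter_upwards [eventually_gt_atTop 0,
    eventually_ge_atTop (((μ + η) / 2 + K) / (ε / 2 + ε ^ 2 / 2)),
    eventually_ge_atTop ((K + μ / 2) / (ε * (1 - ε) / 2))] with t ht0 ht1 ht2
  rw [div_le_iff₀ (by positivity)] at ht1
  have h1ε : 0 < 1 - ε := by linarith
  rw [div_le_iff₀ (by positivity)] at ht2
  constructor
  · intro p hp
    rw [smul_closedBall _ _ (by positivity), smul_zero, mem_closedBall_zero_iff,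
      Real.norm_of_nonneg h1ε.le, norm_fin_one] at hp
    rw [Set.mem_inv_smul_set_iff₀ ht0.ne']
    set y : ℤ := ⌈t * p 0 - 1 / 2⌉ with hy
    have hy1 : t * p 0 - 1 / 2 ≤ y := Int.le_ceil _
    have hy2 : (y : ℝ) < t * p 0 - 1 / 2 + 1 := Int.ceil_lt_add_one _
    refine ⟨axis y, ?_, ?_⟩
    · show T ω 0 (axis y) ≤ ENNReal.ofReal t
      rw [← ENNReal.ofReal_toReal (hT y)]
      refine ENNReal.ofReal_le_ofReal ?_
      have h6 := (abs_le.mp (hb y)).2
      have h7 : |(y : ℝ)| ≤ t * |p 0| + 1 / 2 := by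
        have h8 : |t * p 0| = t * |p 0| := by rw [abs_mul, abs_of_pos ht0]
        rw [← h8]
        rw [abs_le]
        constructor
        · have := neg_abs_le (t * p 0); linarith
        · have := le_abs_self (t * p 0); linarith
      have h8 : t * |p 0| ≤ t * ((1 - ε) * (1 / μ)) := mul_le_mul_of_nonneg_left hp ht0.le
      have h9 : (μ + η) * |(y : ℝ)| ≤ (μ + η) * (t * ((1 - ε) * (1 / μ)) + 1 / 2) :=
        mul_le_mul_of_nonneg_left (by linarith) (by positivity)
      have h10 : (μ + η) * (t * ((1 - ε) * (1 / μ)) + 1 / 2) =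
          t * ((1 + ε / 2) * (1 - ε)) + (μ + η) / 2 := by
        rw [hη]; field_simp
      nlinarith
    · intro i
      have hi : i = 0 := Subsingleton.elim _ _
      subst hi
      simp only [Pi.smul_apply, smul_eq_mul, axis, if_true]
      constructor <;> linarith
  · intro p hp
    rw [Set.mem_inv_smul_set_iff₀ ht0.ne'] at hp
    obtain ⟨z, hz, hzp⟩ := hp
    rw [smul_closedBall _ _ (by positivity), smul_zero, mem_closedBall_zero_iff,
      Real.norm_of_nonneg (by positivity), norm_fin_one]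
    have hz0 := hzp 0
    simp only [Pi.smul_apply, smul_eq_mul] at hz0
    have h6 : (T ω 0 (axis (z 0))).toReal ≤ t := by
      have hz' : (axis (z 0) : Site 1) = z := (eq_axis z).symm
      have h7 : T ω 0 (axis (z 0)) ≤ ENNReal.ofReal t := by rw [hz']; exact hz
      have := ENNReal.toReal_mono ENNReal.ofReal_ne_top h7
      rwa [ENNReal.toReal_ofReal ht0.le] at this
    have h7 := (abs_le.mp (hb (z 0))).1
    have h8 : μ * (1 - ε / 2) * |((z 0 : ℤ) : ℝ)| ≤ t + K := by
      rw [hη] at h7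
      nlinarith
    have h9 : |t * p 0| ≤ |((z 0 : ℤ) : ℝ)| + 1 / 2 := by
      have e : t * p 0 = (z 0 : ℝ) + (t * p 0 - z 0) := by ring
      rw [e]
      refine (abs_add_le _ _).trans (add_le_add le_rfl ?_)
      rw [abs_le]
      constructor
      · have := hz0.1; linarith
      · exact hz0.2
    rw [abs_mul, abs_of_pos ht0] at h9
    have h10 : μ * (1 - ε / 2) * (t * |p 0|) ≤ t + K + μ * (1 - ε / 2) * (1 / 2) := by
      have := mul_le_mul_of_nonneg_left h9 (by
        have : 0 < 1 - ε / 2 := by linarith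
        positivity : 0 ≤ μ * (1 - ε / 2))
      nlinarith
    have h11 : t + K + μ * (1 - ε / 2) * (1 / 2) ≤ t * ((1 + ε) * (1 - ε / 2)) := by
      nlinarith
    have h12 : μ * (1 - ε / 2) * (t * |p 0|) ≤ t * ((1 + ε) * (1 - ε / 2)) := h10.trans h11
    have hpos2 : 0 < t * (1 - ε / 2) := by
      have : 0 < 1 - ε / 2 := by linarith
      positivity
    have h13 : μ * |p 0| ≤ 1 + ε := by
      by_contra hcon
      rw [not_le] at hcon
      have := mul_lt_mul_of_pos_left hcon hpos2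
      nlinarith
    rw [mul_one_div, le_div_iff₀ hμ]
    linarith

end Frog81
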