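import Mathlib

/-!
# The continuous-time frog model with two types on `ℤ^d`

Definitions for MP_53e2a7_pr.  Everything is defined pathwise on the canonical space of environments:
an environment `ω` gives, for every site `x`, the number `(ω x).1` of particles that sleep at `x` and,
for every potential particle number `j`, its walk `(ω x).2 j`, i.e. the sequence of its holding times
and steps.
-/

namespace Frog81

open MeasureTheory ProbabilityTheory Filter
open scoped ENNReal NNReal Pointwise

/-- Sites of the lattice `ℤ^d`. -/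
abbrev Site (d : ℕ) := Fin d → ℤ

/-- The `2d` directions: `(i, true)` is `+e_i` and `(i, false)` is `-e_i`. -/
abbrev Dir (d : ℕ) := Fin d × Bool

/-- The unit vector of a direction. -/
def unit {d : ℕ} (a : Dir d) : Site d :=
  fun i => if i = a.1 then (if a.2 = true then 1 else -1) else 0

/-- A walk: the sequence of its holding times and of its steps. -/
abbrev Walk (d : ℕ) := ℕ → ℝ × Dir d

/-- Position after `k` jumps of the walk started at `x`. -/
def pos {d : ℕ} (x : Site d) (w : Walk d) (k : ℕ) : Site d :=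
  x + ∑ i ∈ Finset.range k, unit (w i).2

/-- Time of the `k`-th jump (the walk sits at `pos x w k` from time `clock w k` on). -/
def clock {d : ℕ} (w : Walk d) (k : ℕ) : ℝ := ∑ i ∈ Finset.range k, (w i).1

/-- The first time at which the walk `w` started at `x` is at `y` (`∞` if this never happens). -/
noncomputable def hit {d : ℕ} (x y : Site d) (w : Walk d) : ℝ≥0∞ :=
  ⨅ (k : ℕ) (_ : pos x w k = y), ENNReal.ofReal (clock w k)

/-- What is at a site: the number of sleeping particles and the walk of particle number `j`. -/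
abbrev SiteData (d : ℕ) := ℕ × (ℕ → Walk d)

/-- An environment. -/
abbrev Env (d : ℕ) := Site d → SiteData d

/-- The uniform law on the `2d` directions. -/
noncomputable def stepLaw (d : ℕ) : Measure (Dir d) := uniformOn Set.univ

/-- The law of a continuous-time simple random walk of jump rate one: i.i.d. exponential holding
times of mean one and independent i.i.d. uniform steps. -/
noncomputable def walkLaw (d : ℕ) [NeZero d] : Measure (Walk d) :=
  Measure.infinitePi fun _ => (expMeasure 1).prod (stepLaw d)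

/-- The law of the data of one site: `ν` is the law of the number of particles. -/
noncomputable def siteLaw (d : ℕ) [NeZero d] (ν : Measure ℕ) : Measure (SiteData d) :=
  ν.prod (Measure.infinitePi fun _ => walkLaw d)

/-- The law of the environment: all sites are independent. -/
noncomputable def envLaw (d : ℕ) [NeZero d] (ν : Measure ℕ) : Measure (Env d) :=
  Measure.infinitePi fun _ => siteLaw d ν

/-- Once the particles of `x` are active, the time that passes until the first of them visits `y`,
if they jump at rate one. -/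
noncomputable def travel {d : ℕ} (ω : Env d) (x y : Site d) : ℝ≥0∞ :=
  ⨅ (j : ℕ) (_ : j < (ω x).1), hit x y ((ω x).2 j)

/-- Total travelling time along `x`, `l₀`, `l₁`, ... -/
noncomputable def cost {d : ℕ} (ω : Env d) : Site d → List (Site d) → ℝ≥0∞
  | _, [] => 0
  | x, a :: l => travel ω x a + cost ω a l

/-- One-type process of rate one started from the particles of `x`: the time at which `y` is first
visited, an infimum over all finite chains of activations from `x` to `y`. -/
noncomputable def T {d : ℕ} (ω : Env d) (x y : Site d) : ℝ≥0∞ :=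
  ⨅ l : List (Site d), cost ω x (l ++ [y])

/-- `ξ_t`: the sites visited by time `t` in the one-type process started at the origin. -/
def visited {d : ℕ} (ω : Env d) (t : ℝ) : Set (Site d) := {y | T ω 0 y ≤ ENNReal.ofReal t}

/-- The union of the half-open unit cubes around the visited sites. -/
def filled {d : ℕ} (ω : Env d) (t : ℝ) : Set (Fin d → ℝ) :=
  {p | ∃ y ∈ visited ω t, ∀ i, p i - (y i : ℝ) ∈ Set.Ioc (-1 / 2 : ℝ) (1 / 2)}

/-- `ν` gives rise to a bounded shape in dimension `d`. -/
def HasBoundedShape (d : ℕ) [NeZero d] (ν : Measure ℕ) : Prop :=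
  ν {0}ᶜ ≠ 0 ∧ ∃ A : Set (Fin d → ℝ), Bornology.IsBounded A ∧ Convex ℝ A ∧ (interior A).Nonempty ∧
    ∀ ε ∈ Set.Ioo (0 : ℝ) 1, ∀ᵐ ω ∂ envLaw d ν, 1 ≤ (ω 0).1 →
      ∀ᶠ t : ℝ in atTop, (1 - ε) • A ⊆ t⁻¹ • filled ω t ∧ t⁻¹ • filled ω t ⊆ (1 + ε) • A

/-- The two types. -/
inductive Kind
  | one
  | two
  deriving DecidableEq

/-- The jump rates: type one has rate `1`, type two has rate `β`. -/
noncomputable def rate (β : ℝ) : Kind → ℝ≥0∞
  | Kind.one => 1
  | Kind.two => ENNReal.ofReal β

/-- `t`, `θ` describe the two-type process in the environment `ω` started with the particles of `0`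
(type one, rate `1`) and of `z` (type two, rate `β`): `t y` is the time at which `y` is first
visited (`∞` if never) and `θ y` the type of the particle that visits `y` first.  No particle of an
activated site `x` visits `y` before time `t y`; every visited site other than `0`, `z` is visited
at time `t y` by a particle, of type `θ y`, that was activated at another site; only finitely many
sites are visited in finite time. -/
structure IsTwoType {d : ℕ} (β : ℝ) (z : Site d) (ω : Env d) (t : Site d → ℝ≥0∞)
    (θ : Site d → Kind) : Prop where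
  time_zero : t 0 = 0
  kind_zero : θ 0 = Kind.one
  time_start : t z = 0
  kind_start : θ z = Kind.two
  le : ∀ x y, t y ≤ t x + travel ω x y / rate β (θ x)
  parent : ∀ y, y ≠ 0 → y ≠ z → t y ≠ ⊤ →
    ∃ x, x ≠ y ∧ θ x = θ y ∧ t y = t x + travel ω x y / rate β (θ x)
  fin : ∀ s : ℝ≥0, {y | t y ≤ (s : ℝ≥0∞)}.Finite

/-- Type `i` activates infinitely many particles. -/
def Activates {d : ℕ} (ω : Env d) (t : Site d → ℝ≥0∞) (θ : Site d → Kind) (i : Kind) : Prop :=
  {y | θ y = i ∧ t y ≠ ⊤ ∧ 1 ≤ (ω y).1}.Infinite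

/-- Coexistence is possible: for some `z ≠ 0`, with positive probability the two-type process
exists and in it both types activate infinitely many particles. -/
def CoexistencePossible (d : ℕ) [NeZero d] (ν : Measure ℕ) (β : ℝ) : Prop :=
  ∃ z : Site d, z ≠ 0 ∧ ∃ E : Set (Env d), MeasurableSet E ∧ 0 < envLaw d ν E ∧
    ∀ ω ∈ E, (∃ t θ, IsTwoType β z ω t θ) ∧
      ∀ t θ, IsTwoType β z ω t θ → Activates ω t θ Kind.one ∧ Activates ω t θ Kind.two

instance : IsProbabilityMeasure (expMeasure 1) := isProbabilityMeasure_expMeasure one_pos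

instance (d : ℕ) [NeZero d] : IsProbabilityMeasure (stepLaw d) := by
  have : Nonempty (Dir d) := ⟨(0, true)⟩
  unfold stepLaw
  exact isProbabilityMeasure_uniformOn Set.finite_univ Set.univ_nonempty

instance (d : ℕ) [NeZero d] : IsProbabilityMeasure (walkLaw d) := by
  unfold walkLaw; infer_instance

instance (d : ℕ) [NeZero d] (ν : Measure ℕ) [IsProbabilityMeasure ν] :
    IsProbabilityMeasure (siteLaw d ν) := by
  unfold siteLaw; infer_instance

instance (d : ℕ) [NeZero d] (ν : Measure ℕ) [IsProbabilityMeasure ν] :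
    IsProbabilityMeasure (envLaw d ν) := by
  unfold envLaw; infer_instance

/-- Translation of the environment. -/
def shift {d : ℕ} (v : Site d) (ω : Env d) : Env d := fun x => ω (x + v)

/-- Reversal of all steps of a walk. -/
def flipWalk {d : ℕ} (w : Walk d) : Walk d := fun i => ((w i).1, ((w i).2.1, !(w i).2.2))

/-- Reflection of the environment at the origin. -/
def reflect {d : ℕ} (ω : Env d) : Env d := fun x => ((ω (-x)).1, fun j => flipWalk ((ω (-x)).2 j))

/-- The site `(k, 0, ..., 0)` on the first axis. -/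
def axis {d : ℕ} [NeZero d] (k : ℤ) : Site d := fun i => if i = 0 then k else 0

/-- All holding times are positive and every walk makes finitely many jumps in finite time. -/
def Regular {d : ℕ} (ω : Env d) : Prop :=
  ∀ x j, (∀ i, 0 < ((ω x).2 j i).1) ∧ Tendsto (clock ((ω x).2 j)) atTop atTop

/-- Half-line passage times in dimension one: `Tp ω x n` is the time at which `x + n` is reached
from the particles of `x` when only particles of the sites `x, ..., x + n - 1` are used, each of
them to the right. -/
noncomputable def Tp (ω : Env 1) (x : ℤ) : ℕ → ℝ≥0∞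
  | 0 => 0
  | n + 1 => ⨅ i : Fin (n + 1), Tp ω x i.1 + travel ω (axis (x + i.1)) (axis (x + (n + 1)))
  decreasing_by exact i.2

/-- `exp (-lam a)` for `a : ℝ≥0∞`, `0` for `a = ∞`. -/
noncomputable def eneg (lam : ℝ) (a : ℝ≥0∞) : ℝ≥0∞ :=
  if a = ⊤ then 0 else ENNReal.ofReal (Real.exp (-lam * a.toReal))

/-- The root `r < 1` of `(r + 1 / r) / 2 = 1 + lam`. -/
noncomputable def root (lam : ℝ) : ℝ := 1 + lam - Real.sqrt (lam ^ 2 + 2 * lam)

/-- `x` starts well on the axis: it has a particle, and from it the first axis is reached at speed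
between `1 / ((1 + ε) m)` and `1 / ((1 - ε) m)`, up to the constant `L`. -/
def StartsWell {d : ℕ} [NeZero d] (m ε L : ℝ) (ω : Env d) (a : ℤ) : Prop :=
  1 ≤ (ω (axis a)).1 ∧ ∀ k : ℤ,
    T ω (axis a) (axis (a + k)) ≤ ENNReal.ofReal ((1 + ε) * m * |(k : ℝ)| + L) ∧
    ENNReal.ofReal ((1 - ε) * m * |(k : ℝ)| - L) ≤ T ω (axis a) (axis (a + k))

/-- Block number `i` (at the sites `i R + r`, `r < R₀`, of the axis) contains a site that starts
well. -/
def GoodBlock {d : ℕ} [NeZero d] (m ε L : ℝ) (R₀ R : ℕ) (ω : Env d) (i : ℕ) : Prop :=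
  ∃ r < R₀, StartsWell m ε L ω ((i * R + r : ℕ) : ℤ)

/-- For some pair of occupied sites in the blocks `i` and `i + 1` neither of them is (weakly) ahead
of the other at all occupied sites of the axis at distance at least `K`. -/
def Undecided {d : ℕ} [NeZero d] (R₀ R K : ℕ) (ω : Env d) (i : ℕ) : Prop :=
  ∃ r < R₀, ∃ r' < R₀, 1 ≤ (ω (axis ((i * R + r : ℕ) : ℤ))).1 ∧
    1 ≤ (ω (axis (((i + 1) * R + r' : ℕ) : ℤ))).1 ∧
    (∃ j : ℤ, (K : ℤ) ≤ |j - (i * R : ℕ)| ∧ 1 ≤ (ω (axis j)).1 ∧
      T ω (axis (((i + 1) * R + r' : ℕ) : ℤ)) (axis j) < T ω (axis ((i * R + r : ℕ) : ℤ)) (axis j)) ∧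
    (∃ j : ℤ, (K : ℤ) ≤ |j - (i * R : ℕ)| ∧ 1 ≤ (ω (axis j)).1 ∧
      T ω (axis ((i * R + r : ℕ) : ℤ)) (axis j) < T ω (axis (((i + 1) * R + r' : ℕ) : ℤ)) (axis j))

/-- No coexistence in the one-type comparison of the sites `a` and `b`. -/
def Decided {d : ℕ} (ω : Env d) (a b : Site d) : Prop :=
  {y | 1 ≤ (ω y).1 ∧ T ω a y < T ω b y}.Finite ∨ {y | 1 ≤ (ω y).1 ∧ T ω b y < T ω a y}.Finite

/-- Some particle of a site `x < M` gets ahead of the line with slope `1 / C` at distance
`(M - x) + κ |x| - K`. -/
def CatchRight (C κ K : ℝ) (M : ℕ) (ω : Env 1) : Prop :=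
  ∃ x : ℤ, x < M ∧ ∃ j < (ω (axis x)).1, ∃ k : ℕ,
    ((M : ℝ) - x) + κ * |(x : ℝ)| - K + clock ((ω (axis x)).2 j) k / C ≤
      (pos 0 ((ω (axis x)).2 j) k 0 : ℝ)

/-- The mirror image of `CatchRight` under `x ↦ M - x`. -/
def CatchLeft (C κ K : ℝ) (M : ℕ) (ω : Env 1) : Prop :=
  ∃ x : ℤ, 0 < x ∧ ∃ j < (ω (axis x)).1, ∃ k : ℕ,
    (x : ℝ) + κ * |(x : ℝ) - M| - K + clock ((ω (axis x)).2 j) k / C ≤
      -(pos 0 ((ω (axis x)).2 j) k 0 : ℝ)

/-- The law `ν` of the number of particles satisfies `E log⁺ η < ∞`. -/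
def LogMoment (ν : Measure ℕ) : Prop :=
  ∀ δ : ℝ, 0 < δ → ∑' n : ℕ, ν {m : ℕ | Real.exp (δ * n) ≤ m} ≠ ⊤

end Frog81
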