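import Pool.Agent.H.MP_53e2a7_pr.h81.Basic
import Pool.Agent.H.MP_53e2a7_pr.h81.Disc

/-!
Module Exist: existence of the two-type process in a regular environment in which the one-type
processes from `0` and `z` visit every site, and finitely many sites in finite time.

Proof (Dijkstra).  Put `w x y κ = travel ω x y / rate β κ ≥ travel ω x y` (as `rate ≤ 1`).  A state
is a finite set `S` containing `0` and `z` with `t, θ` on it such that (i) `t y ≤ t x + w x y (θ x)`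
for `x, y ∈ S`; (ii) every `y ∈ S`, `y ≠ 0, z`, has a parent `x ∈ S`, `x ≠ y`, `θ x = θ y`,
`t y = t x + w x y (θ x)`; (iii) `t x' ≤ t x + w x y (θ x)` for `x, x' ∈ S`, `y ∉ S`.  Start with
`S = {0, z}`.  Step: among all `x ∈ S`, `y ∉ S` choose one with `t x + w x y (θ x)` minimal (the
minimum exists: for fixed `x` only finitely many `y` have `travel ω x y ≤ s`, `finite_travel_le`;
some value is finite, because `T ω 0 y ≠ ⊤` for `y ∉ S`: a chain of finite cost from `0` to `y` must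
leave `S`), and add `y` with this time and the type of `x`; (i)-(iii) persist.  One gets an
injective sequence `y_n` with nondecreasing times, `t y_n ≥ min (T ω 0 y_n) (T ω z y_n)` (follow the
parents, induction), so `t y_n → ∞` by `hfin`.  Every site is added at some time: otherwise some `y`
is never added while (chain from `0`) some added `u` has `travel ω u y < ⊤`; then all later minimal
values are `≤ t u + w u y`, but they tend to infinity.  The union of the states is the required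
process; (fin) follows from `min (T ω 0 y) (T ω z y) ≤ t y`.
(If `(ω z).1 = 0` then `T ω z = ⊤` and the particles of `z` do nothing; to avoid case distinctions
both sites are assumed to be occupied.)
-/

namespace Frog81

open MeasureTheory ProbabilityTheory Filter
open scoped ENNReal NNReal

/-- the time of a link -/
private noncomputable def exW {d : ℕ} (ω : Env d) (β : ℝ) (κ : Kind) (x y : Site d) : ℝ≥0∞ :=
  travel ω x y / rate β κ

private theorem exRate_le {β : ℝ} (hβ1 : β ≤ 1) (κ : Kind) : rate β κ ≤ 1 := by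
  cases κ
  · exact le_rfl
  · exact ENNReal.ofReal_le_one.2 hβ1

private theorem exRate_ne {β : ℝ} (hβ0 : 0 < β) (κ : Kind) : rate β κ ≠ 0 := by
  cases κ
  · exact one_ne_zero
  · exact (ENNReal.ofReal_pos.2 hβ0).ne'

private theorem exTravel_le {d : ℕ} (ω : Env d) {β : ℝ} (hβ1 : β ≤ 1) (κ : Kind) (x y : Site d) :
    travel ω x y ≤ exW ω β κ x y := by
  have h := ENNReal.div_le_div_left (exRate_le hβ1 κ) (travel ω x y)
  rw [div_one] at h
  exact h

/-- The states of the construction. -/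
private structure ExGood {d : ℕ} (ω : Env d) (β : ℝ) (z : Site d)
    (R : Set (Site d × (ℝ≥0∞ × Kind))) : Prop where
  fn : ∀ y a b, (y, a) ∈ R → (y, b) ∈ R → a = b
  zero : ((0 : Site d), ((0 : ℝ≥0∞), Kind.one)) ∈ R
  start : (z, ((0 : ℝ≥0∞), Kind.two)) ∈ R
  le : ∀ x s κ y r l, (x, (s, κ)) ∈ R → (y, (r, l)) ∈ R → r ≤ s + exW ω β κ x y
  parent : ∀ y r l, (y, (r, l)) ∈ R → y ≠ 0 → y ≠ z →
    ∃ x s, x ≠ y ∧ (x, (s, l)) ∈ R ∧ r = s + exW ω β l x y
  out : ∀ x s κ x' s' κ' y, (x, (s, κ)) ∈ R → (x', (s', κ')) ∈ R → (∀ a, (y, a) ∉ R) →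
    s' ≤ s + exW ω β κ x y
  fin : ∀ y r l, (y, (r, l)) ∈ R → r ≠ ⊤
  low : ∀ y r l, (y, (r, l)) ∈ R → T ω 0 y ≤ r ∨ T ω z y ≤ r

private theorem exGood_base {d : ℕ} (ω : Env d) (β : ℝ) (z : Site d) (hz : z ≠ 0)
    (h0 : 1 ≤ (ω 0).1) (h1 : 1 ≤ (ω z).1) :
    ExGood ω β z {((0 : Site d), ((0 : ℝ≥0∞), Kind.one)), (z, ((0 : ℝ≥0∞), Kind.two))} where
  fn := by
    rintro y a b ha hb
    simp only [Set.mem_insert_iff, Set.mem_singleton_iff, Prod.mk.injEq] at ha hb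
    rcases ha with ⟨ha, ha'⟩ | ⟨ha, ha'⟩ <;> rcases hb with ⟨hb, hb'⟩ | ⟨hb, hb'⟩
    · rw [ha', hb']
    · exact absurd (hb.symm.trans ha) hz
    · exact absurd (ha.symm.trans hb) hz
    · rw [ha', hb']
  zero := by simp
  start := by simp
  le := by
    rintro x s κ y r l _ hy
    simp only [Set.mem_insert_iff, Set.mem_singleton_iff, Prod.mk.injEq] at hy
    rcases hy with ⟨_, hr, _⟩ | ⟨_, hr, _⟩ <;> rw [hr] <;> exact zero_le
  parent := by
    rintro y r l hy hy0 hyz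
    simp only [Set.mem_insert_iff, Set.mem_singleton_iff, Prod.mk.injEq] at hy
    rcases hy with ⟨hr, _⟩ | ⟨hr, _⟩
    · exact absurd hr hy0
    · exact absurd hr hyz
  out := by
    rintro x s κ x' s' κ' y _ hy _
    simp only [Set.mem_insert_iff, Set.mem_singleton_iff, Prod.mk.injEq] at hy
    rcases hy with ⟨_, hr, _⟩ | ⟨_, hr, _⟩ <;> rw [hr] <;> exact zero_le
  fin := by
    rintro y r l hy
    simp only [Set.mem_insert_iff, Set.mem_singleton_iff, Prod.mk.injEq] at hy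
    rcases hy with ⟨_, hr, _⟩ | ⟨_, hr, _⟩ <;> rw [hr] <;> exact ENNReal.zero_ne_top
  low := by
    rintro y r l hy
    simp only [Set.mem_insert_iff, Set.mem_singleton_iff, Prod.mk.injEq] at hy
    rcases hy with ⟨hy, hr, _⟩ | ⟨hy, hr, _⟩
    · left; rw [hy, hr, T_self ω 0 h0]
    · right; rw [hy, hr, T_self ω z h1]

private theorem exGood_union {d : ℕ} (ω : Env d) (β : ℝ) (z : Site d)
    (c : Set (Set (Site d × (ℝ≥0∞ × Kind)))) (hc : ∀ R ∈ c, ExGood ω β z R)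
    (hch : IsChain (· ⊆ ·) c) (hne : c.Nonempty) : ExGood ω β z (⋃₀ c) := by
  have two : ∀ p q, p ∈ ⋃₀ c → q ∈ ⋃₀ c → ∃ R ∈ c, p ∈ R ∧ q ∈ R := by
    rintro p q ⟨R, hR, hp⟩ ⟨R', hR', hq⟩
    rcases hch.total hR hR' with h | h
    · exact ⟨R', hR', h hp, hq⟩
    · exact ⟨R, hR, hp, h hq⟩
  obtain ⟨R0, hR0⟩ := hne
  refine ⟨?_, ⟨R0, hR0, (hc R0 hR0).zero⟩, ⟨R0, hR0, (hc R0 hR0).start⟩, ?_, ?_, ?_, ?_, ?_⟩
  · intro y a b ha hb
    obtain ⟨R, hR, h1, h2⟩ := two _ _ ha hb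
    exact (hc R hR).fn y a b h1 h2
  · intro x s κ y r l hx hy
    obtain ⟨R, hR, h1, h2⟩ := two _ _ hx hy
    exact (hc R hR).le x s κ y r l h1 h2
  · rintro y r l ⟨R, hR, hy⟩ hy0 hyz
    obtain ⟨x, s, hxy, hx, he⟩ := (hc R hR).parent y r l hy hy0 hyz
    exact ⟨x, s, hxy, ⟨R, hR, hx⟩, he⟩
  · intro x s κ x' s' κ' y hx hx' hy
    obtain ⟨R, hR, h1, h2⟩ := two _ _ hx hx'
    exact (hc R hR).out x s κ x' s' κ' y h1 h2 (fun a ha => hy a ⟨R, hR, ha⟩)
  · rintro y r l ⟨R, hR, hy⟩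
    exact (hc R hR).fin y r l hy
  · rintro y r l ⟨R, hR, hy⟩
    exact (hc R hR).low y r l hy

/-- If `0 ∈ S`, `y ∉ S` and `T ω 0 y ≠ ⊤`, some link leaves `S`. -/
private theorem exCross {d : ℕ} (ω : Env d) (S : Set (Site d)) (h0 : (0 : Site d) ∈ S) (y : Site d)
    (hy : y ∉ S) (ht : T ω 0 y ≠ ⊤) : ∃ x ∈ S, ∃ u, u ∉ S ∧ travel ω x u ≠ ⊤ := by
  classical
  by_contra hcon
  push Not at hcon
  have := le_add_T ω (fun v => if v ∈ S then 0 else ⊤) (by
    intro a b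
    by_cases hb : b ∈ S
    · simp [hb]
    · by_cases ha : a ∈ S
      · simp [ha, hb, hcon a ha b hb]
      · simp [ha]) 0 y
  simp only [hy, h0, if_true, if_false, zero_add] at this
  exact ht (top_le_iff.1 this)

private theorem exGood_step {d : ℕ} (ω : Env d) (hreg : Regular ω) (β : ℝ) (hβ0 : 0 < β)
    (hβ1 : β ≤ 1) (z : Site d)
    (hfin : ∀ s : ℝ≥0, {y | T ω 0 y ≤ (s : ℝ≥0∞) ∨ T ω z y ≤ (s : ℝ≥0∞)}.Finite)
    (htop : ∀ y, T ω 0 y ≠ ⊤) (R : Set (Site d × (ℝ≥0∞ × Kind))) (hR : ExGood ω β z R)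
    (y0 : Site d) (hy0 : ∀ a, (y0, a) ∉ R) :
    ∃ y a, (∀ b, (y, b) ∉ R) ∧ ExGood ω β z (insert (y, a) R) := by
  classical
  -- the links leaving the state
  let Q : Set ((Site d × (ℝ≥0∞ × Kind)) × Site d) := {q | q.1 ∈ R ∧ ∀ a, (q.2, a) ∉ R}
  let val : (Site d × (ℝ≥0∞ × Kind)) × Site d → ℝ≥0∞ :=
    fun q => q.1.2.1 + exW ω β q.1.2.2 q.1.1 q.2
  obtain ⟨x1, hx1, u1, hu1, ht1⟩ := exCross ω {x | ∃ a, (x, a) ∈ R} ⟨_, hR.zero⟩ y0
    (by rintro ⟨a, ha⟩; exact hy0 a ha) (htop y0)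
  obtain ⟨⟨s1, κ1⟩, hx1⟩ := hx1
  have hq1 : ((x1, (s1, κ1)), u1) ∈ Q := ⟨hx1, fun a ha => hu1 ⟨a, ha⟩⟩
  have hv1 : val ((x1, (s1, κ1)), u1) ≠ ⊤ :=
    ENNReal.add_ne_top.2 ⟨hR.fin _ _ _ hx1, ENNReal.div_ne_top ht1 (exRate_ne hβ0 κ1)⟩
  lift val ((x1, (s1, κ1)), u1) to ℝ≥0 using hv1 with M hM
  have hPfin : (Q ∩ {q | val q ≤ M}).Finite := by
    have hF := hfin M
    -- the sources
    have hA : {p : Site d × (ℝ≥0∞ × Kind) | p ∈ R ∧ p.2.1 ≤ M}.Finite := by
      refine Set.Finite.of_injOn (f := Prod.fst) ?_ ?_ hF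
      · rintro ⟨x, s, κ⟩ ⟨hx, hs⟩
        rcases hR.low x s κ hx with h | h
        · left; exact h.trans hs
        · right; exact h.trans hs
      · rintro ⟨x, a⟩ ⟨hx, _⟩ ⟨x', a'⟩ ⟨hx', _⟩ h
        simp only at h
        subst h
        rw [hR.fn x a a' hx hx']
    refine (hA.biUnion (t := fun p => {q : (Site d × (ℝ≥0∞ × Kind)) × Site d |
      q.1 = p ∧ travel ω p.1 q.2 ≤ M}) ?_).subset ?_
    · intro p _
      refine Set.Finite.of_injOn (f := Prod.snd) ?_ ?_ (finite_travel_le ω hreg p.1 M)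
      · rintro ⟨a, b⟩ ⟨_, hb⟩
        exact hb
      · rintro ⟨a, b⟩ ⟨ha, _⟩ ⟨a', b'⟩ ⟨ha', _⟩ h
        simp only at h ha ha'
        rw [ha, ha', h]
    · rintro ⟨⟨x, s, κ⟩, y⟩ ⟨⟨hx, hy⟩, hv⟩
      simp only [Set.mem_ofPred_eq, val] at hv
      refine Set.mem_biUnion (x := (x, (s, κ))) ⟨hx, le_self_add.trans hv⟩ ⟨rfl, ?_⟩
      exact (exTravel_le ω hβ1 κ x y).trans (le_add_self.trans hv)
  obtain ⟨⟨⟨x, s, κ⟩, y⟩, ⟨hq, hqM⟩, hmin⟩ := Set.exists_min_image _ val hPfin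
    ⟨_, hq1, by rw [Set.mem_ofPred_eq, hM]⟩
  obtain ⟨hx, hy⟩ := hq
  simp only at hx hy
  set m : ℝ≥0∞ := s + exW ω β κ x y with hm
  have hmin' : ∀ x' s' κ' y', (x', (s', κ')) ∈ R → (∀ a, (y', a) ∉ R) →
      m ≤ s' + exW ω β κ' x' y' := by
    intro x' s' κ' y' hx' hy'
    by_cases h : s' + exW ω β κ' x' y' ≤ M
    · exact hmin ((x', (s', κ')), y') ⟨⟨hx', hy'⟩, h⟩
    · exact le_trans hqM (le_of_lt (not_le.1 h))
  have hmtop : m ≠ ⊤ := ne_top_of_le_ne_top ENNReal.coe_ne_top hqM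
  have hxy : x ≠ y := by
    rintro rfl
    exact hy _ hx
  refine ⟨y, (m, κ), hy, ?_⟩
  have hnot : ∀ y' a, (∀ b, (y', b) ∉ insert (y, (m, κ)) R) → (y', a) ∉ R :=
    fun y' a h ha => h a (Set.mem_insert_of_mem _ ha)
  refine ⟨?_, Set.mem_insert_of_mem _ hR.zero, Set.mem_insert_of_mem _ hR.start, ?_, ?_, ?_, ?_, ?_⟩
  · intro v a b ha hb
    rcases ha with ha | ha <;> rcases hb with hb | hb
    · simp only [Prod.mk.injEq] at ha hb
      rw [ha.2, hb.2]
    · simp only [Prod.mk.injEq] at ha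
      rw [ha.1] at hb
      exact absurd hb (hy b)
    · simp only [Prod.mk.injEq] at hb
      rw [hb.1] at ha
      exact absurd ha (hy a)
    · exact hR.fn v a b ha hb
  · intro v s' κ' v' r l hv hv'
    rcases hv with hv | hv <;> rcases hv' with hv' | hv'
    · simp only [Prod.mk.injEq] at hv hv'
      rw [hv.2.1, hv'.2.1]
      exact le_self_add
    · simp only [Prod.mk.injEq] at hv
      rw [hv.2.1]
      exact (hR.out x s κ v' r l y hx hv' hy).trans le_self_add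
    · simp only [Prod.mk.injEq] at hv'
      rw [hv'.2.1, hv'.1]
      exact hmin' v s' κ' y hv hy
    · exact hR.le _ _ _ _ _ _ hv hv'
  · intro v r l hv hv0 hvz
    rcases hv with hv | hv
    · simp only [Prod.mk.injEq] at hv
      obtain ⟨rfl, rfl, rfl⟩ := hv
      exact ⟨x, s, hxy, Set.mem_insert_of_mem _ hx, hm⟩
    · obtain ⟨x', s', h1, h2, h3⟩ := hR.parent v r l hv hv0 hvz
      exact ⟨x', s', h1, Set.mem_insert_of_mem _ h2, h3⟩
  · intro v s' κ' v' r l u hv hv' hu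
    have hu' : ∀ a, (u, a) ∉ R := fun a => hnot u a hu
    rcases hv with hv | hv <;> rcases hv' with hv' | hv'
    · simp only [Prod.mk.injEq] at hv hv'
      rw [hv.2.1, hv'.2.1]
      exact le_self_add
    · simp only [Prod.mk.injEq] at hv
      rw [hv.2.1]
      exact (hR.out x s κ v' r l y hx hv' hy).trans le_self_add
    · simp only [Prod.mk.injEq] at hv'
      rw [hv'.2.1]
      exact hmin' v s' κ' u hv hu'
    · exact hR.out _ _ _ _ _ _ _ hv hv' hu'
  · intro v r l hv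
    rcases hv with hv | hv
    · simp only [Prod.mk.injEq] at hv
      rw [hv.2.1]; exact hmtop
    · exact hR.fin _ _ _ hv
  · intro v r l hv
    rcases hv with hv | hv
    · simp only [Prod.mk.injEq] at hv
      rw [hv.1, hv.2.1]
      have ht : T ω x y ≤ exW ω β κ x y := (T_le_travel ω x y).trans (exTravel_le ω hβ1 κ x y)
      rcases hR.low x s κ hx with h | h
      · left; exact (T_triangle ω 0 x y).trans (add_le_add h ht)
      · right; exact (T_triangle ω z x y).trans (add_le_add h ht)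
    · exact hR.low _ _ _ hv

theorem exists_twoType {d : ℕ} (ω : Env d) (hreg : Regular ω) (β : ℝ) (hβ0 : 0 < β) (hβ1 : β ≤ 1)
    (z : Site d) (hz : z ≠ 0) (h0 : 1 ≤ (ω 0).1) (h1 : 1 ≤ (ω z).1)
    (hfin : ∀ s : ℝ≥0, {y | T ω 0 y ≤ (s : ℝ≥0∞) ∨ T ω z y ≤ (s : ℝ≥0∞)}.Finite)
    (htop : ∀ y, T ω 0 y ≠ ⊤) :
    ∃ t θ, IsTwoType β z ω t θ := by
  classical
  obtain ⟨R, _, hR⟩ := zorn_subset_nonempty {R | ExGood ω β z R}
    (fun c hc hch hne => ⟨⋃₀ c, exGood_union ω β z c (fun R hR => hc hR) hch hne,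
      fun s hs => Set.subset_sUnion_of_mem hs⟩) _ (exGood_base ω β z hz h0 h1)
  have hG : ExGood ω β z R := hR.prop
  have hdom : ∀ y, ∃ a, (y, a) ∈ R := by
    by_contra hcon
    push Not at hcon
    obtain ⟨y0, hy0⟩ := hcon
    obtain ⟨y, a, hy, hG'⟩ := exGood_step ω hreg β hβ0 hβ1 z hfin htop R hG y0 hy0
    exact hy a (hR.le_of_ge hG' (Set.subset_insert _ _) (Set.mem_insert _ _))
  choose a ha using hdom
  have ha' : ∀ y, (y, ((a y).1, (a y).2)) ∈ R := ha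
  refine ⟨fun y => (a y).1, fun y => (a y).2, ?_⟩
  have e0 : a 0 = (0, Kind.one) := hG.fn _ _ _ (ha 0) hG.zero
  have ez : a z = (0, Kind.two) := hG.fn _ _ _ (ha z) hG.start
  refine ⟨by simp [e0], by simp [e0], by simp [ez], by simp [ez], ?_, ?_, ?_⟩
  · intro x y
    exact hG.le x _ _ y _ _ (ha' x) (ha' y)
  · intro y hy0 hyz _
    obtain ⟨x, s, hxy, hx, he⟩ := hG.parent y _ _ (ha' y) hy0 hyz
    have ex : a x = (s, (a y).2) := hG.fn _ _ _ (ha x) hx
    refine ⟨x, hxy, ?_, ?_⟩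
    · simp only [ex]
    · simp only [ex]
      exact he
  · intro s
    refine (hfin s).subset ?_
    intro y hy
    rcases hG.low y _ _ (ha' y) with h | h
    · left; exact h.trans hy
    · right; exact h.trans hy

end Frog81
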