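import Pool.Agent.H.MP_53e2a7_pr.h81.Meas
import Pool.Agent.H.MP_53e2a7_pr.h81.Inv
import Pool.Agent.H.MP_53e2a7_pr.h81.Reg

/-!
Module Lap: Laplace transform of the hitting times in dimension one.

First step analysis: `H l = ∫⁻ eneg lam (hit 0 (axis l) w)` satisfies `H 0 = 1` and
`H (l + 1) = ρ (H l + H (l + 2)) / 2` with `ρ = 1 / (1 + lam) < 1`, and `root lam ^ l` satisfies the
same relations; the difference of the two bounded solutions is at most `ρ ^ n` for all `n`, so it
vanishes.
-/

namespace Frog81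

open MeasureTheory ProbabilityTheory Filter
open scoped ENNReal NNReal

theorem root_bounds (lam : ℝ) (hl : 0 < lam) : 0 < root lam ∧ root lam < 1 ∧
    (root lam + 1 / root lam) / 2 = 1 + lam := by
  set s := Real.sqrt (lam ^ 2 + 2 * lam) with hs
  have h0 : 0 ≤ lam ^ 2 + 2 * lam := by positivity
  have hs2 : s ^ 2 = lam ^ 2 + 2 * lam := Real.sq_sqrt h0
  have hs0 : 0 ≤ s := Real.sqrt_nonneg _
  have h1 : s < 1 + lam := by nlinarith
  have h2 : lam < s := by nlinarith
  have hr : root lam = 1 + lam - s := rfl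
  have hpos : 0 < root lam := by
    rw [hr]
    linarith
  refine ⟨hpos, by rw [hr]; linarith, ?_⟩
  have h3 : root lam * (1 + lam + s) = 1 := by
    rw [hr]
    nlinarith
  have h4 : 1 / root lam = 1 + lam + s := by
    rw [div_eq_iff hpos.ne']
    linarith
  rw [h4, hr]
  ring

/-- Splitting off the first holding time and step. -/
private def lapE : Walk 1 ≃ᵐ (ℝ × Dir 1) × Walk 1 where
  toFun w := (w 0, fun i => w (i + 1))
  invFun p := fun i => Nat.casesOn i p.1 p.2
  left_inv w := by
    funext i
    cases i <;> rfl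
  right_inv p := rfl
  measurable_toFun := (measurable_pi_apply 0).prodMk
    (measurable_pi_lambda _ fun i => measurable_pi_apply (i + 1))
  measurable_invFun := by
    refine measurable_pi_lambda _ fun i => ?_
    cases i with
    | zero => exact measurable_fst
    | succ n => exact (measurable_pi_apply n).comp measurable_snd

private theorem lapE_symm : MeasurePreserving lapE.symm
    (((expMeasure 1).prod (stepLaw 1)).prod (walkLaw 1)) (walkLaw 1) := by
  refine ⟨lapE.symm.measurable, ?_⟩
  unfold walkLaw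
  refine Measure.eq_infinitePi _ fun s t ht => ?_
  classical
  set μ := (expMeasure 1).prod (stepLaw 1) with hμ
  set N := s.sup id with hN
  set t' : ℕ → Set (ℝ × Dir 1) := fun i => if i ∈ s then t i else Set.univ with ht'
  have htm : ∀ i, MeasurableSet (t' i) := by
    intro i
    rw [ht']
    by_cases h : i ∈ s
    · simp only [h, if_true]
      exact ht i
    · simp only [h, if_false]
      exact MeasurableSet.univ
  have hsub : s ⊆ Finset.range (N + 1) := by
    intro i hi
    rw [Finset.mem_range, Nat.lt_succ_iff]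
    exact Finset.le_sup (f := id) hi
  have h1 : Set.pi (s : Set ℕ) t = Set.pi (Finset.range (N + 1) : Set ℕ) t' := by
    ext w
    simp only [Set.mem_pi, Finset.mem_coe]
    constructor
    · intro h i _
      rw [ht']
      by_cases hi : i ∈ s
      · simp only [hi, if_true]
        exact h i hi
      · simp only [hi, if_false]
        exact Set.mem_univ _
    · intro h i hi
      have h2 := h i (hsub hi)
      rw [ht'] at h2
      simp only [hi, if_true] at h2
      exact h2
  have h2 : lapE.symm ⁻¹' (Set.pi (Finset.range (N + 1) : Set ℕ) t') =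
      t' 0 ×ˢ Set.pi (Finset.range N : Set ℕ) (fun i => t' (i + 1)) := by
    ext p
    simp only [Set.mem_preimage, Set.mem_pi, Finset.mem_coe, Finset.mem_range, Set.mem_prod]
    constructor
    · intro h
      exact ⟨h 0 (Nat.succ_pos N), fun i hi => h (i + 1) (Nat.succ_lt_succ hi)⟩
    · rintro ⟨ha, hb⟩ i hi
      cases i with
      | zero => exact ha
      | succ i => exact hb i (Nat.lt_of_succ_lt_succ hi)
  rw [h1, Measure.map_apply lapE.symm.measurable
    (MeasurableSet.pi (Finset.countable_toSet _) fun i _ => htm i), h2, Measure.prod_prod,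
    Measure.infinitePi_pi _ fun i _ => htm (i + 1), mul_comm,
    ← Finset.prod_range_succ' (fun i => μ (t' i)) N]
  refine (Finset.prod_subset hsub fun i _ hi => ?_).symm.trans
    (Finset.prod_congr rfl fun i hi => ?_)
  · rw [ht']
    simp only [hi, if_false]
    exact measure_univ
  · rw [ht']
    simp only [hi, if_true]

theorem walk_tail : MeasurePreserving
    (fun w : Walk 1 => (w 0, fun i => w (i + 1)))
    (walkLaw 1) (((expMeasure 1).prod (stepLaw 1)).prod (walkLaw 1)) :=
  MeasurePreserving.symm lapE.symm lapE_symm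

/-! ### First step analysis -/

private theorem lap_exp (lam : ℝ) (hl : 0 < lam) :
    ∫⁻ a, ENNReal.ofReal (Real.exp (-lam * a)) ∂ expMeasure 1 = ENNReal.ofReal (1 / (1 + lam)) := by
  have h0 : 0 < 1 + lam := by linarith
  have h1 : expMeasure 1 = volume.withDensity (exponentialPDF 1) := rfl
  have hm1 : Measurable (exponentialPDF 1) :=
    (measurable_exponentialPDFReal 1).ennreal_ofReal
  have hm2 : Measurable fun a : ℝ => ENNReal.ofReal (Real.exp (-lam * a)) := by fun_prop
  rw [h1, lintegral_withDensity_eq_lintegral_mul _ hm1 hm2]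
  have h2 : ∀ a : ℝ, (exponentialPDF 1 * fun a => ENNReal.ofReal (Real.exp (-lam * a))) a =
      ENNReal.ofReal (1 / (1 + lam)) * exponentialPDF (1 + lam) a := by
    intro a
    rw [Pi.mul_apply]
    rcases lt_or_ge a 0 with ha | ha
    · rw [exponentialPDF_of_neg ha, exponentialPDF_of_neg ha, zero_mul, mul_zero]
    · rw [exponentialPDF_of_nonneg ha, exponentialPDF_of_nonneg ha,
        ← ENNReal.ofReal_mul (by positivity), ← ENNReal.ofReal_mul (by positivity)]
      congr 1
      have h3 : 1 / (1 + lam) * ((1 + lam) * Real.exp (-((1 + lam) * a))) =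
          Real.exp (-((1 + lam) * a)) := by
        field_simp
      rw [h3, one_mul, ← Real.exp_add]
      congr 1
      ring
  rw [lintegral_congr h2, lintegral_const_mul' _ _ ENNReal.ofReal_ne_top,
    lintegral_exponentialPDF_eq_one h0, mul_one]

private theorem lap_step (f : Dir 1 → ℝ≥0∞) :
    ∫⁻ s, f s ∂ stepLaw 1 = (f (0, true) + f (0, false)) / 2 := by
  have h1 : ∀ s : Dir 1, stepLaw 1 {s} = 2⁻¹ := by
    intro s
    rw [stepLaw, uniformOn_univ, Measure.count_singleton]
    simp
  rw [lintegral_fintype]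
  simp only [h1]
  rw [Fintype.sum_prod_type]
  simp only [Finset.univ_unique, Finset.sum_singleton, Fintype.sum_bool, Fin.default_eq_zero]
  rw [← add_mul, ENNReal.div_eq_inv_mul, mul_comm]

private theorem lap_meas_eneg (lam : ℝ) : Measurable (eneg lam) := by
  unfold eneg
  exact Measurable.ite (measurableSet_singleton ⊤) measurable_const (by fun_prop)

private theorem lap_eneg_le (lam : ℝ) (hl : 0 < lam) (a : ℝ≥0∞) : eneg lam a ≤ 1 := by
  unfold eneg
  split_ifs with h
  · exact zero_le
  · rw [← ENNReal.ofReal_one]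
    apply ENNReal.ofReal_le_ofReal
    rw [Real.exp_le_one_iff]
    have := ENNReal.toReal_nonneg (a := a)
    nlinarith

private theorem lap_eneg_add (lam a : ℝ) (ha : 0 ≤ a) (b : ℝ≥0∞) :
    eneg lam (ENNReal.ofReal a + b) = ENNReal.ofReal (Real.exp (-lam * a)) * eneg lam b := by
  unfold eneg
  by_cases hb : b = ⊤
  · rw [if_pos hb, if_pos (by rw [hb, add_top]), mul_zero]
  · rw [if_neg hb, if_neg (ENNReal.add_ne_top.2 ⟨ENNReal.ofReal_ne_top, hb⟩),
      ENNReal.toReal_add ENNReal.ofReal_ne_top hb, ENNReal.toReal_ofReal ha,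
      ← ENNReal.ofReal_mul (Real.exp_nonneg _), ← Real.exp_add]
    congr 2
    ring

private theorem lap_pos_succ {d : ℕ} (w : Walk d) (k : ℕ) :
    pos 0 w (k + 1) = unit (w 0).2 + pos 0 (fun i => w (i + 1)) k := by
  unfold pos
  rw [Finset.sum_range_succ']
  abel

private theorem lap_clock_succ {d : ℕ} (w : Walk d) (k : ℕ) :
    clock w (k + 1) = (w 0).1 + clock (fun i => w (i + 1)) k := by
  unfold clock
  rw [Finset.sum_range_succ']
  ring

private theorem lap_hit_succ {d : ℕ} {w : Walk d} (hw : ∀ i, 0 < (w i).1) {y : Site d}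
    (hy : y ≠ 0) : hit 0 y w = ENNReal.ofReal (w 0).1 +
      hit 0 (y - unit (w 0).2) (fun i => w (i + 1)) := by
  have h0 : 0 ≤ (w 0).1 := (hw 0).le
  have hc : ∀ k, 0 ≤ clock (fun i => w (i + 1)) k := fun k =>
    Finset.sum_nonneg fun i _ => (hw (i + 1)).le
  unfold hit
  rw [ENNReal.add_iInf]
  rw [← inf_iInf_nat_succ]
  have h1 : (⨅ (_ : pos 0 w 0 = y), ENNReal.ofReal (clock w 0)) = ⊤ := by
    rw [iInf_eq_top]
    intro h
    exact absurd (by simpa [pos] using h.symm) hy
  rw [h1, top_inf_eq]
  refine iInf_congr fun k => ?_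
  rw [lap_pos_succ, lap_clock_succ, ENNReal.ofReal_add h0 (hc k)]
  by_cases h : pos 0 (fun i => w (i + 1)) k = y - unit (w 0).2
  · have h' : unit (w 0).2 + pos 0 (fun i => w (i + 1)) k = y := by
      rw [h]
      abel
    rw [iInf_pos h', iInf_pos h]
  · have h' : ¬ unit (w 0).2 + pos 0 (fun i => w (i + 1)) k = y := by
      intro h'
      apply h
      rw [← h']
      abel
    rw [iInf_neg h', iInf_neg h, add_top]

/-- The Laplace transform. -/
private noncomputable def lapH (lam : ℝ) (y : Site 1) : ℝ≥0∞ :=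
  ∫⁻ w, eneg lam (hit 0 y w) ∂ walkLaw 1

private theorem lapH_rec (lam : ℝ) (hl : 0 < lam) (y : Site 1) (hy : y ≠ 0) :
    lapH lam y = ENNReal.ofReal (1 / (1 + lam)) *
      ((lapH lam (y - unit (0, true)) + lapH lam (y - unit (0, false))) / 2) := by
  classical
  set F : (ℝ × Dir 1) × Walk 1 → ℝ≥0∞ := fun p =>
    ENNReal.ofReal (Real.exp (-lam * p.1.1)) * eneg lam (hit 0 (y - unit p.1.2) p.2) with hF
  have hmF : Measurable F := by
    have h1 : F = fun p => ENNReal.ofReal (Real.exp (-lam * p.1.1)) *
        ∑ s : Dir 1, if p.1.2 = s then eneg lam (hit 0 (y - unit s) p.2) else 0 := by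
      funext p
      rw [Finset.sum_ite_eq, if_pos (Finset.mem_univ _)]
    rw [h1]
    refine Measurable.mul (by fun_prop) (Finset.measurable_fun_sum _ fun s _ => ?_)
    refine Measurable.ite ?_ ?_ measurable_const
    · exact (measurable_snd.comp measurable_fst) (measurableSet_singleton s)
    · exact (lap_meas_eneg lam).comp ((measurable_hit 0 (y - unit s)).comp measurable_snd)
  have h1 : lapH lam y = ∫⁻ w, F (w 0, fun i => w (i + 1)) ∂ walkLaw 1 := by
    unfold lapH
    refine lintegral_congr_ae ?_
    filter_upwards [ae_walk_regular 1] with w hw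
    rw [lap_hit_succ hw.1 hy, lap_eneg_add _ _ (hw.1 0).le]
  rw [h1, walk_tail.lintegral_comp hmF, lintegral_prod _ hmF.aemeasurable]
  have h2 : ∀ q : ℝ × Dir 1, ∫⁻ w, F (q, w) ∂ walkLaw 1 =
      ENNReal.ofReal (Real.exp (-lam * q.1)) * lapH lam (y - unit q.2) := by
    intro q
    have h3 : Measurable fun w : Walk 1 => eneg lam (hit 0 (y - unit q.2) w) :=
      (lap_meas_eneg lam).comp (measurable_hit 0 (y - unit q.2))
    exact lintegral_const_mul (μ := walkLaw 1) (ENNReal.ofReal (Real.exp (-lam * q.1))) h3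
  rw [lintegral_congr h2]
  have hm3 : Measurable fun a : ℝ => ENNReal.ofReal (Real.exp (-lam * a)) := by fun_prop
  rw [lintegral_prod_mul (f := fun a : ℝ => ENNReal.ofReal (Real.exp (-lam * a)))
    (g := fun s : Dir 1 => lapH lam (y - unit s)) hm3.aemeasurable
    (measurable_of_countable _).aemeasurable, lap_exp lam hl, lap_step]

private theorem lapH_le (lam : ℝ) (hl : 0 < lam) (y : Site 1) : lapH lam y ≤ 1 := by
  unfold lapH
  refine (lintegral_mono fun w => lap_eneg_le lam hl _).trans ?_
  rw [lintegral_const, measure_univ, mul_one]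

private theorem lapH_zero (lam : ℝ) : lapH lam 0 = 1 := by
  unfold lapH
  have h1 : ∀ w : Walk 1, eneg lam (hit 0 0 w) = 1 := by
    intro w
    have h2 : hit 0 0 w = 0 := by
      apply le_antisymm _ zero_le
      unfold hit
      refine (iInf₂_le 0 (by simp [pos])).trans ?_
      simp [clock]
    rw [h2]
    simp [eneg]
  rw [lintegral_congr h1, lintegral_const, measure_univ, mul_one]

private theorem lap_axis (l : ℕ) : (axis ((l + 1 : ℕ) : ℤ) : Site 1) ≠ 0 := by
  intro h
  have := congrFun h 0
  simp only [axis, if_true, Pi.zero_apply] at this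
  omega

private theorem lap_axis_sub (l : ℤ) :
    (axis l : Site 1) - unit (0, true) = axis (l - 1) ∧
      (axis l : Site 1) - unit (0, false) = axis (l + 1) := by
  constructor
  · funext i
    have hi : i = 0 := Subsingleton.elim _ _
    subst hi
    simp [axis, unit]
  · funext i
    have hi : i = 0 := Subsingleton.elim _ _
    subst hi
    simp [axis, unit]

theorem laplace_hit (lam : ℝ) (hl : 0 < lam) (l : ℕ) :
    ∫⁻ w, eneg lam (hit 0 (axis l) w) ∂ walkLaw 1 = ENNReal.ofReal (root lam ^ l) := by
  obtain ⟨hr0, hr1, hr⟩ := root_bounds lam hl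
  have h0 : 0 < 1 + lam := by linarith
  set ρ : ℝ := 1 / (1 + lam) with hρ
  have hρ0 : 0 < ρ := by positivity
  have hρ1 : ρ < 1 := by
    rw [hρ, div_lt_one h0]
    linarith
  set h : ℕ → ℝ := fun l => (lapH lam (axis (l : ℤ))).toReal with hh
  have htop : ∀ y, lapH lam y ≠ ⊤ := fun y =>
    ne_top_of_le_ne_top ENNReal.one_ne_top (lapH_le lam hl y)
  have hz : h 0 = 1 := by
    have h1 : (axis ((0 : ℕ) : ℤ) : Site 1) = 0 := by
      funext i
      simp [axis]
    rw [hh]
    simp only
    rw [h1, lapH_zero, ENNReal.toReal_one]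
  have hrec : ∀ l, h (l + 1) = ρ * ((h l + h (l + 2)) / 2) := by
    intro l
    rw [hh]
    simp only
    rw [lapH_rec lam hl _ (lap_axis l), (lap_axis_sub _).1, (lap_axis_sub _).2,
      ENNReal.toReal_mul, ENNReal.toReal_div, ENNReal.toReal_add (htop _) (htop _),
      ENNReal.toReal_ofReal hρ0.le]
    have e1 : (((l + 1 : ℕ) : ℤ) - 1) = (l : ℤ) := by push_cast; ring
    have e2 : (((l + 1 : ℕ) : ℤ) + 1) = ((l + 2 : ℕ) : ℤ) := by push_cast; ring
    rw [e1, e2]
    simp
  have hrr : ∀ l : ℕ, root lam ^ (l + 1) = ρ * ((root lam ^ l + root lam ^ (l + 2)) / 2) := by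
    intro l
    have h1 : root lam ^ 2 + 1 = 2 * (1 + lam) * root lam := by
      rw [← hr]
      field_simp
    rw [hρ]
    field_simp
    have h2 : root lam ^ l + root lam ^ (l + 2) = root lam ^ l * (root lam ^ 2 + 1) := by ring
    rw [h2, h1]
    ring
  have hb : ∀ l, |h l - root lam ^ l| ≤ 1 := by
    intro l
    have h1 : 0 ≤ h l := ENNReal.toReal_nonneg
    have h2 : h l ≤ 1 := by
      have := ENNReal.toReal_mono ENNReal.one_ne_top (lapH_le lam hl (axis (l : ℤ)))
      simpa using this
    have h3 : 0 ≤ root lam ^ l := pow_nonneg hr0.le _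
    have h4 : root lam ^ l ≤ 1 := pow_le_one₀ hr0.le hr1.le
    rw [abs_le]
    constructor <;> linarith
  have hbn : ∀ n l, |h l - root lam ^ l| ≤ ρ ^ n := by
    intro n
    induction n with
    | zero =>
      intro l
      rw [pow_zero]
      exact hb l
    | succ n ih =>
      intro l
      cases l with
      | zero =>
        rw [hz, pow_zero, sub_self, abs_zero]
        positivity
      | succ l =>
        have h1 := ih l
        have h2 := ih (l + 2)
        have hp : ρ ^ (n + 1) = ρ * ρ ^ n := pow_succ' ρ n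
        rw [hrec l, hrr l, ← mul_sub, abs_mul, abs_of_pos hρ0, hp]
        refine mul_le_mul_of_nonneg_left ?_ hρ0.le
        rw [abs_le] at h1 h2 ⊢
        constructor <;> linarith [h1.1, h1.2, h2.1, h2.2]
  have hzero : h l - root lam ^ l = 0 := by
    have h1 : Tendsto (fun n : ℕ => ρ ^ n) atTop (nhds 0) :=
      tendsto_pow_atTop_nhds_zero_of_lt_one hρ0.le hρ1
    have h2 := ge_of_tendsto' h1 fun n => hbn n l
    exact abs_nonpos_iff.1 h2
  have h1 : h l = root lam ^ l := by linarith
  rw [← h1]
  exact (ENNReal.ofReal_toReal (htop _)).symm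

theorem hit_tail (t : ℝ) (ht : 1 ≤ t) :
    walkLaw 1 {w | ENNReal.ofReal t < hit 0 (axis 1) w} ≤ ENNReal.ofReal (4 / Real.sqrt t) := by
  have ht0 : 0 < t := by linarith
  set lam : ℝ := 1 / t with hlam
  have hl : 0 < lam := by positivity
  obtain ⟨hr0, hr1, hr⟩ := root_bounds lam hl
  set S : Set (Walk 1) := {w | ENNReal.ofReal t < hit 0 (axis 1) w} with hS
  have hmS : MeasurableSet S := measurableSet_lt measurable_const (measurable_hit 0 (axis 1))
  set c : ℝ := Real.exp (-1) with hc
  have hc1 : c < 1 := by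
    rw [hc, Real.exp_lt_one_iff]
    norm_num
  have hc0 : 0 < c := Real.exp_pos _
  have h1 := laplace_hit lam hl 1
  rw [pow_one] at h1
  -- pointwise
  have h2 : ∀ w : Walk 1, eneg lam (hit 0 (axis ((1 : ℕ) : ℤ)) w) +
      S.indicator (fun _ => ENNReal.ofReal (1 - c)) w ≤ 1 := by
    intro w
    by_cases hw : w ∈ S
    · rw [Set.indicator_of_mem hw]
      have h3 : eneg lam (hit 0 (axis ((1 : ℕ) : ℤ)) w) ≤ ENNReal.ofReal c := by
        unfold eneg
        split_ifs with h
        · exact zero_le
        · apply ENNReal.ofReal_le_ofReal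
          rw [hc, Real.exp_le_exp]
          have h4 : t < (hit 0 (axis ((1 : ℕ) : ℤ)) w).toReal := by
            rw [← ENNReal.ofReal_lt_iff_lt_toReal ht0.le h]
            exact hw
          have h5 : 1 = lam * t := by
            rw [hlam]
            field_simp
          nlinarith
      refine (add_le_add h3 le_rfl).trans ?_
      rw [← ENNReal.ofReal_add hc0.le (by linarith), ← ENNReal.ofReal_one]
      apply ENNReal.ofReal_le_ofReal
      linarith
    · rw [Set.indicator_of_notMem hw, add_zero]
      exact lap_eneg_le lam hl _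
  have h3 : ENNReal.ofReal (root lam) + ENNReal.ofReal (1 - c) * walkLaw 1 S ≤ 1 := by
    have h4 := lintegral_mono (μ := walkLaw 1) h2
    rw [lintegral_add_right _ (measurable_const.indicator hmS), h1,
      lintegral_indicator_const hmS, lintegral_const, measure_univ, mul_one] at h4
    exact h4
  set P : ℝ := (walkLaw 1 S).toReal with hP
  have hPtop : walkLaw 1 S ≠ ⊤ := measure_ne_top _ _
  have h5 : root lam + (1 - c) * P ≤ 1 := by
    have h6 := ENNReal.toReal_mono ENNReal.one_ne_top h3
    rw [ENNReal.toReal_add ENNReal.ofReal_ne_top (ENNReal.mul_ne_top ENNReal.ofReal_ne_top hPtop),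
      ENNReal.toReal_mul, ENNReal.toReal_ofReal hr0.le, ENNReal.toReal_ofReal (by linarith),
      ENNReal.toReal_one] at h6
    exact h6
  rw [← ENNReal.ofReal_toReal hPtop]
  apply ENNReal.ofReal_le_ofReal
  set q : ℝ := Real.sqrt t with hq
  have hq0 : 0 < q := Real.sqrt_pos.2 ht0
  have hq2 : q ^ 2 = t := Real.sq_sqrt ht0.le
  rw [le_div_iff₀ hq0]
  -- the root
  set s : ℝ := Real.sqrt (lam ^ 2 + 2 * lam) with hs
  have hroot : root lam = 1 + lam - s := rfl
  have hs2 : s ^ 2 = lam ^ 2 + 2 * lam := Real.sq_sqrt (by positivity)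
  have hs0 : 0 ≤ s := Real.sqrt_nonneg _
  have hsq : s ≤ lam + 3 / 2 / q := by
    have h6 : 0 ≤ lam + 3 / 2 / q := by positivity
    refine abs_le_of_sq_le_sq' ?_ h6 |>.2
    rw [hs2]
    have h7 : (3 / 2 / q) ^ 2 = 9 / 4 * lam := by
      rw [div_pow, hq2, hlam]
      ring
    have h8 : 0 ≤ lam * (3 / 2 / q) := by positivity
    nlinarith
  have hc2 : c ≤ 1 / 2 := by
    rw [hc, Real.exp_neg, ← one_div]
    apply one_div_le_one_div_of_le two_pos
    have := Real.add_one_le_exp (1 : ℝ)
    linarith
  have hP0 : 0 ≤ P := ENNReal.toReal_nonneg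
  have h9 : (1 - c) * P ≤ 3 / 2 / q := by
    rw [hroot] at h5
    linarith
  have h10 : 1 / 2 * P ≤ 3 / 2 / q := by nlinarith
  have h11 : 1 / 2 * P * q ≤ 3 / 2 := by
    rwa [le_div_iff₀ hq0] at h10
  linarith

private theorem lap_hit_nat (l : ℕ) : ∀ᵐ w ∂ walkLaw 1, hit 0 (axis (l : ℤ)) w ≠ ⊤ := by
  set S : Set (Walk 1) := {w | hit 0 (axis (l : ℤ)) w ≠ ⊤} with hS
  have hmS : MeasurableSet S :=
    ((measurable_hit 0 (axis (l : ℤ))) (measurableSet_singleton ⊤)).compl
  have h1 : ∀ lam : ℝ, 0 < lam → ENNReal.ofReal (root lam ^ l) ≤ walkLaw 1 S := by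
    intro lam hl
    rw [← laplace_hit lam hl l]
    have h2 : ∀ w : Walk 1, eneg lam (hit 0 (axis (l : ℤ)) w) ≤
        S.indicator (fun _ => (1 : ℝ≥0∞)) w := by
      intro w
      by_cases hw : w ∈ S
      · rw [Set.indicator_of_mem hw]
        exact lap_eneg_le lam hl _
      · rw [Set.indicator_of_notMem hw]
        have h3 : hit 0 (axis (l : ℤ)) w = ⊤ := by
          by_contra h
          exact hw h
        rw [h3]
        simp [eneg]
    refine (lintegral_mono h2).trans ?_
    rw [lintegral_indicator_const hmS, one_mul]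
  have hcont : Tendsto (fun n : ℕ => ENNReal.ofReal (root (1 / ((n : ℝ) + 1)) ^ l)) atTop
      (nhds 1) := by
    have h2 : Tendsto (fun n : ℕ => 1 / ((n : ℝ) + 1)) atTop (nhds 0) :=
      tendsto_one_div_add_atTop_nhds_zero_nat
    have h3 : Continuous root := by
      unfold root
      fun_prop
    have h4 : Tendsto (fun n : ℕ => root (1 / ((n : ℝ) + 1)) ^ l) atTop (nhds (root 0 ^ l)) :=
      ((h3.tendsto 0).comp h2).pow l
    have h5 : root 0 = 1 := by
      unfold root
      simp
    rw [h5, one_pow] at h4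
    have h6 := ENNReal.tendsto_ofReal h4
    rwa [ENNReal.ofReal_one] at h6
  have h2 : 1 ≤ walkLaw 1 S := le_of_tendsto' hcont fun n => h1 _ (by positivity)
  have h3 : walkLaw 1 S = 1 := le_antisymm prob_le_one h2
  exact (mem_ae_iff_prob_eq_one hmS).2 h3

private theorem lap_hit_sub (x y : ℤ) (w : Walk 1) :
    hit (axis x) (axis y) w = hit 0 (axis (y - x)) w := by
  unfold hit
  refine iInf_congr fun k => ?_
  have h1 : pos (axis x) w k = axis y ↔ pos 0 w k = axis (y - x) := by
    unfold pos
    have h2 : (axis (y - x) : Site 1) = axis y - axis x := by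
      funext i
      have hi : i = 0 := Subsingleton.elim _ _
      subst hi
      simp [axis]
    rw [h2]
    constructor
    · intro h
      rw [← h]
      abel
    · intro h
      rw [zero_add] at h
      rw [h]
      abel
  exact iInf_congr_Prop h1 fun _ => rfl

private theorem lap_hit_flip (l : ℤ) (w : Walk 1) :
    hit 0 (axis l) (flipWalk w) = hit 0 (axis (-l)) w := by
  unfold hit
  refine iInf_congr fun k => ?_
  have h0 : clock (flipWalk w) k = clock w k := rfl
  have h1 : pos 0 (flipWalk w) k = axis l ↔ pos 0 w k = axis (-l) := by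
    have h2 : ∀ s : Dir 1, unit (s.1, !s.2) = - unit s := by
      intro s
      funext i
      obtain ⟨s1, s2⟩ := s
      cases s2 <;> simp [unit] <;> split_ifs <;> simp
    have h3 : pos 0 (flipWalk w) k = - pos 0 w k := by
      unfold pos
      rw [zero_add, zero_add, ← Finset.sum_neg_distrib]
      refine Finset.sum_congr rfl fun i _ => ?_
      exact h2 (w i).2
    have h4 : (axis (-l) : Site 1) = - axis l := by
      funext i
      have hi : i = 0 := Subsingleton.elim _ _
      subst hi
      simp [axis]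
    rw [h3, h4]
    exact neg_eq_iff_eq_neg
  rw [h0]
  exact iInf_congr_Prop h1 fun _ => rfl

theorem ae_hit_lt_top (x y : ℤ) : ∀ᵐ w ∂ walkLaw 1, hit (axis x) (axis y) w ≠ ⊤ := by
  simp only [lap_hit_sub]
  rcases le_total 0 (y - x) with h | h
  · obtain ⟨l, hl⟩ := Int.eq_ofNat_of_zero_le h
    rw [hl]
    exact lap_hit_nat l
  · obtain ⟨l, hl⟩ := Int.eq_ofNat_of_zero_le (neg_nonneg.2 h)
    have h1 := (measurePreserving_flipWalk 1).quasiMeasurePreserving.ae (lap_hit_nat l)
    filter_upwards [h1] with w hw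
    rw [lap_hit_flip, ← hl, neg_neg] at hw
    exact hw

end Frog81
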