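import Pool.Agent.H.MP_53e2a7_pr.h81.Meas
import Pool.Agent.H.MP_53e2a7_pr.h81.Inv
import Pool.Agent.H.MP_53e2a7_pr.h81.Lap

/-!
Module Expo: exponential bound for one walk in dimension one.

Proof.  Let `S k` be the position `pos 0 w k 0`, a sum of `k` i.i.d. signs `σ i`, and `clock w k` the
sum of `k` i.i.d. exponential variables `e i`.  For `δ > 0`:
`E exp (δ (σ - e / C)) = cosh δ / (1 + δ / C) =: ρ`.  Since `cosh δ ≤ exp (δ²/2) ≤ 1 + δ²` (for small
`δ`) one has `ρ < 1` for small `δ` (`δ < 1 / C` and `δ ≤ 1`).  By Markov and independence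
`P(S k - clock k / C ≥ a) ≤ exp (-δ a) ρ^k`; sum over `k`: the bound holds with `1 / (1 - ρ)`.
`expo_left` follows by `measurePreserving_flipWalk` (`pos 0 (flipWalk w) k = - pos 0 w k`).
-/

namespace Frog81

open MeasureTheory ProbabilityTheory Filter
open scoped ENNReal NNReal

private theorem expo_pos_succ {d : ℕ} (w : Walk d) (k : ℕ) :
    pos 0 w (k + 1) = unit (w 0).2 + pos 0 (fun i => w (i + 1)) k := by
  unfold pos
  rw [Finset.sum_range_succ']
  abel

private theorem expo_clock_succ {d : ℕ} (w : Walk d) (k : ℕ) :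
    clock w (k + 1) = (w 0).1 + clock (fun i => w (i + 1)) k := by
  unfold clock
  rw [Finset.sum_range_succ']
  ring

private theorem expo_exp (lam : ℝ) (hl : 0 < lam) :
    ∫⁻ a, ENNReal.ofReal (Real.exp (-lam * a)) ∂ expMeasure 1 = ENNReal.ofReal (1 / (1 + lam)) := by
  have h0 : 0 < 1 + lam := by linarith
  have h1 : expMeasure 1 = volume.withDensity (exponentialPDF 1) := rfl
  have hm1 : Measurable (exponentialPDF 1) :=
    (measurable_exponentialPDFReal 1).ennreal_ofReal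
  have hm2 : Measurable fun a : ℝ => ENNReal.ofReal (Real.exp (-lam * a)) := by fun_prop
  rw [h1, lintegral_withDensity_eq_lintegral_mul _ hm1 hm2]
  have h2 : ∀ a : ℝ, (exponentialPDF 1 * fun a => ENNReal.ofReal (Real.exp (-lam * a))) a =
      ENNReal.ofReal (1 / (1 + lam)) * exponentialPDF (1 + lam) a := by
    intro a
    rw [Pi.mul_apply]
    rcases lt_or_ge a 0 with ha | ha
    · rw [exponentialPDF_of_neg ha, exponentialPDF_of_neg ha, zero_mul, mul_zero]
    · rw [exponentialPDF_of_nonneg ha, exponentialPDF_of_nonneg ha,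
        ← ENNReal.ofReal_mul (by positivity), ← ENNReal.ofReal_mul (by positivity)]
      congr 1
      have h3 : 1 / (1 + lam) * ((1 + lam) * Real.exp (-((1 + lam) * a))) =
          Real.exp (-((1 + lam) * a)) := by
        field_simp
      rw [h3, one_mul, ← Real.exp_add]
      congr 1
      ring
  rw [lintegral_congr h2, lintegral_const_mul' _ _ ENNReal.ofReal_ne_top,
    lintegral_exponentialPDF_eq_one h0, mul_one]

private theorem expo_step (f : Dir 1 → ℝ≥0∞) :
    ∫⁻ s, f s ∂ stepLaw 1 = (f (0, true) + f (0, false)) / 2 := by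
  have h1 : ∀ s : Dir 1, stepLaw 1 {s} = 2⁻¹ := by
    intro s
    rw [stepLaw, uniformOn_univ, Measure.count_singleton]
    simp
  rw [lintegral_fintype]
  simp only [h1]
  rw [Fintype.sum_prod_type]
  simp only [Finset.univ_unique, Finset.sum_singleton, Fintype.sum_bool, Fin.default_eq_zero]
  rw [← add_mul, ENNReal.div_eq_inv_mul, mul_comm]

/-- the exponent -/
private noncomputable def expoX (δ C : ℝ) (w : Walk 1) (k : ℕ) : ℝ≥0∞ :=
  ENNReal.ofReal (Real.exp (δ * ((pos 0 w k 0 : ℝ) - clock w k / C)))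

private theorem expo_meas_pos (k : ℕ) : Measurable fun w : Walk 1 => ((pos 0 w k 0 : ℤ) : ℝ) := by
  have h1 : Measurable fun w : Walk 1 => pos 0 w k 0 :=
    (measurable_pi_apply 0).comp (measurable_pos 0 k)
  exact (measurable_of_countable (fun z : ℤ => (z : ℝ))).comp h1

private theorem expo_meas (δ C : ℝ) (k : ℕ) : Measurable fun w : Walk 1 => expoX δ C w k := by
  unfold expoX
  have h1 := expo_meas_pos k
  have h2 : Measurable fun w : Walk 1 => clock w k := measurable_clock k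
  exact ((Real.measurable_exp.comp ((h1.sub (h2.div_const C)).const_mul δ))).ennreal_ofReal

private theorem expo_moment (δ C : ℝ) (hδ : 0 < δ) (hC : 0 < C) (k : ℕ) :
    ∫⁻ w, expoX δ C w k ∂ walkLaw 1 =
      ENNReal.ofReal (Real.cosh δ / (1 + δ / C)) ^ k := by
  induction k with
  | zero =>
    have h0 : ∀ w : Walk 1, expoX δ C w 0 = 1 := by
      intro w
      simp [expoX, pos, clock]
    simp only [h0, lintegral_const, measure_univ, pow_zero, mul_one]
  | succ k ih =>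
    have hlam : 0 < δ / C := by positivity
    let A : ℝ × Dir 1 → ℝ≥0∞ := fun p =>
      ENNReal.ofReal (Real.exp (-(δ / C) * p.1)) *
        ENNReal.ofReal (Real.exp (δ * (unit p.2 0 : ℤ)))
    have hA : ∀ w : Walk 1, expoX δ C w (k + 1) = A (w 0) * expoX δ C (fun i => w (i + 1)) k := by
      intro w
      simp only [A, expoX]
      rw [← ENNReal.ofReal_mul (Real.exp_pos _).le, ← ENNReal.ofReal_mul (by positivity),
        ← Real.exp_add, ← Real.exp_add, expo_pos_succ, expo_clock_succ]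
      congr 2
      simp only [Pi.add_apply]
      push_cast
      ring
    have hm1 : Measurable fun p : ℝ × Dir 1 => ENNReal.ofReal (Real.exp (-(δ / C) * p.1)) := by
      fun_prop
    have hm2 : Measurable fun s : Dir 1 => ENNReal.ofReal (Real.exp (δ * (unit s 0 : ℤ))) :=
      measurable_of_finite _
    have hAm : Measurable A := hm1.mul (hm2.comp measurable_snd)
    have hint : ∫⁻ p, A p ∂ ((expMeasure 1).prod (stepLaw 1))
        = ENNReal.ofReal (Real.cosh δ / (1 + δ / C)) := by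
      have h1 := lintegral_prod_mul (μ := expMeasure 1) (ν := stepLaw 1)
        (f := fun a : ℝ => ENNReal.ofReal (Real.exp (-(δ / C) * a)))
        (g := fun s : Dir 1 => ENNReal.ofReal (Real.exp (δ * (unit s 0 : ℤ))))
        (by fun_prop) hm2.aemeasurable
      have h2 : ∫⁻ p, A p ∂ ((expMeasure 1).prod (stepLaw 1)) =
          ∫⁻ z : ℝ × Dir 1, ENNReal.ofReal (Real.exp (-(δ / C) * z.1)) *
            ENNReal.ofReal (Real.exp (δ * (unit z.2 0 : ℤ))) ∂ ((expMeasure 1).prod (stepLaw 1)) :=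
        rfl
      rw [h2, h1, expo_exp _ hlam, expo_step]
      have h3 : unit ((0, true) : Dir 1) 0 = 1 := by simp [unit]
      have h4 : unit ((0, false) : Dir 1) 0 = -1 := by simp [unit]
      rw [h3, h4, ← ENNReal.ofReal_add (Real.exp_pos _).le (Real.exp_pos _).le]
      have h5 : (2 : ℝ≥0∞) = ENNReal.ofReal 2 := by simp
      rw [h5, ← ENNReal.ofReal_div_of_pos (by norm_num), ← ENNReal.ofReal_mul (by positivity)]
      congr 1
      rw [Real.cosh_eq]
      push_cast
      rw [mul_one, mul_neg, mul_one]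
      ring
    calc ∫⁻ w, expoX δ C w (k + 1) ∂ walkLaw 1
        = ∫⁻ w, A (w 0) * expoX δ C (fun i => w (i + 1)) k ∂ walkLaw 1 := lintegral_congr hA
      _ = ∫⁻ q : (ℝ × Dir 1) × Walk 1, A q.1 * expoX δ C q.2 k
            ∂ (((expMeasure 1).prod (stepLaw 1)).prod (walkLaw 1)) := by
          rw [← walk_tail.lintegral_comp (f := fun q : (ℝ × Dir 1) × Walk 1 =>
            A q.1 * expoX δ C q.2 k)
            ((hAm.comp measurable_fst).mul ((expo_meas δ C k).comp measurable_snd))]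
      _ = (∫⁻ p, A p ∂ ((expMeasure 1).prod (stepLaw 1))) * ∫⁻ w, expoX δ C w k ∂ walkLaw 1 :=
          lintegral_prod_mul hAm.aemeasurable (expo_meas δ C k).aemeasurable
      _ = ENNReal.ofReal (Real.cosh δ / (1 + δ / C)) ^ (k + 1) := by
          rw [hint, ih, pow_succ']

private theorem expo_rho (C : ℝ) (hC : 0 < C) : ∃ δ : ℝ, 0 < δ ∧
    Real.cosh δ / (1 + δ / C) < 1 := by
  refine ⟨min 1 (1 / (2 * C)), by positivity, ?_⟩
  set δ := min 1 (1 / (2 * C)) with hδ
  have hδ0 : 0 < δ := by positivity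
  have hδ1 : δ ≤ 1 := min_le_left _ _
  have hδ2 : δ ≤ 1 / (2 * C) := min_le_right _ _
  have h1 : Real.cosh δ ≤ Real.exp (δ ^ 2 / 2) := Real.cosh_le_exp_half_sq δ
  have hx0 : 0 ≤ δ ^ 2 / 2 := by positivity
  have hx1 : δ ^ 2 / 2 ≤ 1 / 2 := by nlinarith
  have h2 := Real.abs_exp_sub_one_sub_id_le (x := δ ^ 2 / 2) (by rw [abs_of_nonneg hx0]; linarith)
  have h3 : Real.exp (δ ^ 2 / 2) ≤ 1 + δ ^ 2 := by
    have := (abs_le.1 h2).2
    nlinarith
  rw [div_lt_one (by positivity)]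
  have h4 : δ ^ 2 < δ / C := by
    have h5 : δ < 1 / C := by
      refine lt_of_le_of_lt hδ2 ?_
      rw [div_lt_div_iff₀ (by positivity) hC]
      linarith
    calc δ ^ 2 = δ * δ := by ring
      _ < δ * (1 / C) := mul_lt_mul_of_pos_left h5 hδ0
      _ = δ / C := by ring
  linarith

theorem expo_right (C : ℝ) (hC : 0 < C) : ∃ δ : ℝ, 0 < δ ∧ ∃ Q : ℝ, 0 < Q ∧ ∀ a : ℝ,
    walkLaw 1 {w | ∃ k : ℕ, a + clock w k / C ≤ (pos 0 w k 0 : ℝ)} ≤
      ENNReal.ofReal (Q * Real.exp (-δ * a)) := by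
  obtain ⟨δ, hδ, hρ⟩ := expo_rho C hC
  have hρ0 : 0 < Real.cosh δ / (1 + δ / C) := div_pos (Real.cosh_pos _) (by positivity)
  set ρ := Real.cosh δ / (1 + δ / C) with hρdef
  refine ⟨δ, hδ, 1 / (1 - ρ), one_div_pos.2 (by linarith), fun a => ?_⟩
  have hsub : {w : Walk 1 | ∃ k : ℕ, a + clock w k / C ≤ (pos 0 w k 0 : ℝ)} ⊆
      ⋃ k : ℕ, {w : Walk 1 | ENNReal.ofReal (Real.exp (δ * a)) ≤ expoX δ C w k} := by
    rintro w ⟨k, hk⟩
    rw [Set.mem_iUnion]
    refine ⟨k, ?_⟩
    show ENNReal.ofReal (Real.exp (δ * a)) ≤ expoX δ C w k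
    unfold expoX
    apply ENNReal.ofReal_le_ofReal
    apply Real.exp_le_exp.2
    apply mul_le_mul_of_nonneg_left _ hδ.le
    linarith
  have hne : ENNReal.ofReal (Real.exp (δ * a)) ≠ 0 := by
    rw [Ne, ENNReal.ofReal_eq_zero, not_le]
    exact Real.exp_pos _
  have hk : ∀ k : ℕ, walkLaw 1 {w : Walk 1 | ENNReal.ofReal (Real.exp (δ * a)) ≤ expoX δ C w k}
      ≤ ENNReal.ofReal (ρ ^ k * Real.exp (-δ * a)) := by
    intro k
    refine (meas_ge_le_lintegral_div (expo_meas δ C k).aemeasurable hne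
      ENNReal.ofReal_ne_top).trans (le_of_eq ?_)
    rw [expo_moment δ C hδ hC, ← ENNReal.ofReal_pow hρ0.le,
      ← ENNReal.ofReal_div_of_pos (Real.exp_pos _)]
    congr 1
    rw [div_eq_mul_inv, ← Real.exp_neg]
    congr 2
    ring
  have hsum : Summable fun k : ℕ => ρ ^ k * Real.exp (-δ * a) :=
    (summable_geometric_of_lt_one hρ0.le hρ).mul_right _
  calc walkLaw 1 {w | ∃ k : ℕ, a + clock w k / C ≤ (pos 0 w k 0 : ℝ)}
      ≤ walkLaw 1 (⋃ k : ℕ, {w : Walk 1 | ENNReal.ofReal (Real.exp (δ * a)) ≤ expoX δ C w k}) :=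
        measure_mono hsub
    _ ≤ ∑' k : ℕ, walkLaw 1 {w : Walk 1 | ENNReal.ofReal (Real.exp (δ * a)) ≤ expoX δ C w k} :=
        measure_iUnion_le _
    _ ≤ ∑' k : ℕ, ENNReal.ofReal (ρ ^ k * Real.exp (-δ * a)) := ENNReal.tsum_le_tsum hk
    _ = ENNReal.ofReal (1 / (1 - ρ) * Real.exp (-δ * a)) := by
        rw [← ENNReal.ofReal_tsum_of_nonneg (fun k => by positivity) hsum, tsum_mul_right,
          tsum_geometric_of_lt_one hρ0.le hρ, one_div]

private theorem expo_flip_pos (w : Walk 1) (k : ℕ) : pos 0 (flipWalk w) k 0 = -(pos 0 w k 0) := by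
  unfold pos
  simp only [Pi.add_apply, Finset.sum_apply, Pi.zero_apply, zero_add]
  rw [← Finset.sum_neg_distrib]
  refine Finset.sum_congr rfl fun i _ => ?_
  unfold unit flipWalk
  have h1 : (0 : Fin 1) = (w i).2.1 := Subsingleton.elim _ _
  rw [if_pos h1, if_pos h1]
  cases (w i).2.2 <;> simp

theorem expo_left (C : ℝ) (hC : 0 < C) : ∃ δ : ℝ, 0 < δ ∧ ∃ Q : ℝ, 0 < Q ∧ ∀ a : ℝ,
    walkLaw 1 {w | ∃ k : ℕ, a + clock w k / C ≤ -(pos 0 w k 0 : ℝ)} ≤
      ENNReal.ofReal (Q * Real.exp (-δ * a)) := by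
  obtain ⟨δ, hδ, Q, hQ, h⟩ := expo_right C hC
  refine ⟨δ, hδ, Q, hQ, fun a => ?_⟩
  have hset : {w : Walk 1 | ∃ k : ℕ, a + clock w k / C ≤ -(pos 0 w k 0 : ℝ)} =
      flipWalk ⁻¹' {w : Walk 1 | ∃ k : ℕ, a + clock w k / C ≤ (pos 0 w k 0 : ℝ)} := by
    ext w
    show (∃ k : ℕ, a + clock w k / C ≤ -(pos 0 w k 0 : ℝ)) ↔
      ∃ k : ℕ, a + clock (flipWalk w) k / C ≤ (pos 0 (flipWalk w) k 0 : ℝ)
    refine exists_congr fun k => ?_
    rw [expo_flip_pos]
    push_cast
    rfl
  have hmeas : MeasurableSet {w : Walk 1 | ∃ k : ℕ, a + clock w k / C ≤ (pos 0 w k 0 : ℝ)} := by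
    have h1 : {w : Walk 1 | ∃ k : ℕ, a + clock w k / C ≤ (pos 0 w k 0 : ℝ)} =
        ⋃ k : ℕ, {w : Walk 1 | a + clock w k / C ≤ (pos 0 w k 0 : ℝ)} := by
      ext w
      simp
    rw [h1]
    refine MeasurableSet.iUnion fun k => ?_
    exact measurableSet_le (((measurable_clock k).div_const C).const_add a) (expo_meas_pos k)
  rw [hset, (measurePreserving_flipWalk 1).measure_preimage hmeas.nullMeasurableSet]
  exact h a

end Frog81
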