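import Pool.Agent.H.MP_53e2a7_pr.h81.Line

/-!
Module Front: the deterministic part of the one-dimensional theorem.

`right_front`: all sites `axis (M + n)` are of type two.  Strong induction on `n`; `n = 0` is
`kind_start`.  Let `n ≥ 1` and all `M + i`, `i < n`, be of type two.  Then (induction on `i ≤ n`, with
the recursion of `Tp`; the infimum over `Fin` is attained or use `le_iInf`)
`t (axis (M + i)) ≤ Tp ω M i / ofReal β`.  Suppose `θ y = one`, `y = axis (M + n)`.  As
`t y ≤ b n / ofReal β < ⊤` there is a parent `axis x`, `x ≠ M + n`, of type one with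
`t y = t (axis x) + travel ω (axis x) y / 1`.  `M ≤ x < M + n` is impossible (type two), `x > M + n` is
impossible: `t y ≤ t (axis x)` (`time_mono_right`) and `time_lt`.  So `x < M`, and
`T ω 0 (axis x) ≤ t (axis x)` (`le_time_one`; `0 = axis 0`), so
`T ω 0 (axis x) + travel ω (axis x) y ≤ t y ≤ b n / ofReal β`: contradiction to `hF`.
`left_front`: the same on the other side: all `axis (-n)` are of type one,
`t (axis (-i)) ≤ Tp (reflect ω) 0 i` (`travel_reflect`), a parent `axis x` of type two has `x > 0` and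
`t y = t (axis x) + travel ω (axis x) y / ofReal β ≥ T ω (axis M) (axis x) + travel ω (axis x) y`.
-/

namespace Frog81

open MeasureTheory ProbabilityTheory Filter
open scoped ENNReal NNReal

variable {β : ℝ} {M : ℤ} {ω : Env 1} {t : Site 1 → ℝ≥0∞} {θ : Site 1 → Kind}

private theorem front_axis_zero (k : ℤ) : (axis k : Site 1) 0 = k := by simp [axis]

private theorem front_axis_inj {a b : ℤ} (h : (axis a : Site 1) = axis b) : a = b := by
  have := congrFun h 0
  rwa [front_axis_zero, front_axis_zero] at this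

private theorem front_axis_eq_zero {a : ℤ} (h : (axis a : Site 1) = 0) : a = 0 := by
  have := congrFun h 0
  rwa [front_axis_zero] at this

private theorem front_zero : (axis 0 : Site 1) = 0 := by
  rw [eq_axis (0 : Site 1)]
  rfl

private theorem front_neg (k : ℤ) : -(axis k : Site 1) = axis (-k) := by
  rw [eq_axis (-(axis k : Site 1)), Pi.neg_apply, front_axis_zero]

private theorem front_tp_succ (ω : Env 1) (x : ℤ) (n : ℕ) : Tp ω x (n + 1) =
    ⨅ i : Fin (n + 1), Tp ω x i.1 + travel ω (axis (x + i.1)) (axis (x + (n + 1))) := by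
  rw [Tp]

private theorem front_right (hreg : Regular ω) (hβ0 : 0 < β) (hβ1 : β ≤ 1) (hM : 0 < M)
    (h0 : 1 ≤ (ω 0).1) (h : IsTwoType β (axis M) ω t θ) (b : ℕ → ℝ≥0∞) (hb : ∀ n, b n ≠ ⊤)
    (hE : ∀ n, Tp ω M n ≤ b n)
    (hF : ∀ x : ℤ, x < M → ∀ n : ℕ, 1 ≤ n →
      b n / ENNReal.ofReal β < T ω 0 (axis x) + travel ω (axis x) (axis (M + n))) (n : ℕ) :
    θ (axis (M + n)) = Kind.two ∧ t (axis (M + n)) ≤ Tp ω M n / ENNReal.ofReal β := by
  have hβne : ENNReal.ofReal β ≠ 0 := by simpa using hβ0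
  induction n using Nat.strong_induction_on with
  | _ n ih =>
    rcases n with _ | n
    · have e : (axis (M + ((0 : ℕ) : ℤ)) : Site 1) = axis M := by simp
      rw [e, h.kind_start, h.time_start]
      exact ⟨rfl, zero_le⟩
    · have hle : t (axis (M + ((n + 1 : ℕ) : ℤ))) ≤ Tp ω M (n + 1) / ENNReal.ofReal β := by
        rw [ENNReal.le_div_iff_mul_le (Or.inl hβne) (Or.inl ENNReal.ofReal_ne_top), front_tp_succ]
        refine le_iInf fun i => ?_
        obtain ⟨h1, h2⟩ := ih i.1 i.2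
        have h3 := h.le (axis (M + (i.1 : ℤ))) (axis (M + ((n + 1 : ℕ) : ℤ)))
        rw [h1] at h3
        rw [← ENNReal.le_div_iff_mul_le (Or.inl hβne) (Or.inl ENNReal.ofReal_ne_top),
          ENNReal.add_div]
        push_cast at h3 ⊢
        exact h3.trans (add_le_add h2 le_rfl)
      refine ⟨?_, hle⟩
      have hlt : t (axis (M + ((n + 1 : ℕ) : ℤ))) ≤ b (n + 1) / ENNReal.ofReal β :=
        hle.trans (ENNReal.div_le_div_right (hE _) _)
      have htop : t (axis (M + ((n + 1 : ℕ) : ℤ))) ≠ ⊤ :=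
        ne_top_of_le_ne_top (ENNReal.div_ne_top (hb _) hβne) hlt
      by_contra hθ
      have hθ1 : θ (axis (M + ((n + 1 : ℕ) : ℤ))) = Kind.one := by
        cases hk : θ (axis (M + ((n + 1 : ℕ) : ℤ)))
        · rfl
        · exact absurd hk hθ
      obtain ⟨x, hx, hxθ, he⟩ := h.parent (axis (M + ((n + 1 : ℕ) : ℤ))) (fun h0 => by
        have := front_axis_eq_zero h0; push_cast at this; omega) (fun h0 => by
        have := front_axis_inj h0; push_cast at this; omega) htop
      rw [hθ1] at hxθ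
      have hlt' := time_lt hreg hβ0 h x _ hx htop he
      rw [hxθ] at he
      have hr : rate β Kind.one = 1 := rfl
      rw [hr, div_one] at he
      rcases lt_or_ge (x 0) M with hc | hc
      · have h1 := hF (x 0) hc (n + 1) (by omega)
        have h2 := le_time_one hreg hβ0 hβ1 h0 h x hxθ
        rw [← eq_axis x] at h1
        have h3 : T ω 0 x + travel ω x (axis (M + ((n + 1 : ℕ) : ℤ))) ≤ b (n + 1) / ENNReal.ofReal β :=
          (add_le_add h2 le_rfl).trans (he.symm.le.trans hlt)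
        exact absurd h1 (not_lt.2 h3)
      rcases lt_trichotomy (x 0) (M + ((n + 1 : ℕ) : ℤ)) with hc' | hc' | hc'
      · obtain ⟨i, hi⟩ := Int.eq_ofNat_of_zero_le (show 0 ≤ x 0 - M by omega)
        have h1 := (ih i (by omega)).1
        have h2 : x = axis (M + (i : ℤ)) := by
          rw [eq_axis x]
          congr 1
          omega
        rw [← h2, hxθ] at h1
        exact absurd h1 (by decide)
      · exact hx (by rw [eq_axis x, hc'])
      · have h1 := time_mono_right hreg hβ0 hβ1 hM h (x 0) (M + ((n + 1 : ℕ) : ℤ)) (by omega) hc'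
        rw [← eq_axis x] at h1
        exact absurd hlt' (not_lt.2 h1)

private theorem front_left (hreg : Regular ω) (hβ0 : 0 < β) (hβ1 : β ≤ 1) (hM : 0 < M)
    (hM1 : 1 ≤ (ω (axis M)).1) (h : IsTwoType β (axis M) ω t θ) (b : ℕ → ℝ≥0∞) (hb : ∀ n, b n ≠ ⊤)
    (hE : ∀ n, Tp (reflect ω) 0 n ≤ b n)
    (hF : ∀ x : ℤ, 0 < x → ∀ n : ℕ, 1 ≤ n →
      b n < T ω (axis M) (axis x) + travel ω (axis x) (axis (-(n : ℤ)))) (n : ℕ) :
    θ (axis (-(n : ℤ))) = Kind.one ∧ t (axis (-(n : ℤ))) ≤ Tp (reflect ω) 0 n := by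
  induction n using Nat.strong_induction_on with
  | _ n ih =>
    rcases n with _ | n
    · have e : (axis (-((0 : ℕ) : ℤ)) : Site 1) = 0 := by
        rw [Nat.cast_zero, neg_zero, front_zero]
      rw [e, h.kind_zero, h.time_zero]
      exact ⟨rfl, zero_le⟩
    · have hle : t (axis (-((n + 1 : ℕ) : ℤ))) ≤ Tp (reflect ω) 0 (n + 1) := by
        rw [front_tp_succ]
        refine le_iInf fun i => ?_
        obtain ⟨h1, h2⟩ := ih i.1 i.2
        have h3 := h.le (axis (-(i.1 : ℤ))) (axis (-((n + 1 : ℕ) : ℤ)))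
        have hr : rate β Kind.one = 1 := rfl
        rw [h1, hr, div_one] at h3
        rw [travel_reflect, front_neg, front_neg, zero_add, zero_add]
        push_cast at h3 ⊢
        exact h3.trans (add_le_add h2 le_rfl)
      refine ⟨?_, hle⟩
      have hlt : t (axis (-((n + 1 : ℕ) : ℤ))) ≤ b (n + 1) := hle.trans (hE _)
      have htop : t (axis (-((n + 1 : ℕ) : ℤ))) ≠ ⊤ := ne_top_of_le_ne_top (hb _) hlt
      by_contra hθ
      have hθ1 : θ (axis (-((n + 1 : ℕ) : ℤ))) = Kind.two := by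
        cases hk : θ (axis (-((n + 1 : ℕ) : ℤ)))
        · exact absurd hk hθ
        · rfl
      obtain ⟨x, hx, hxθ, he⟩ := h.parent (axis (-((n + 1 : ℕ) : ℤ))) (fun h0 => by
        have := front_axis_eq_zero h0; push_cast at this; omega) (fun h0 => by
        have := front_axis_inj h0; push_cast at this; omega) htop
      rw [hθ1] at hxθ
      have hlt' := time_lt hreg hβ0 h x _ hx htop he
      rw [hxθ] at he
      have hβne : ENNReal.ofReal β ≠ 0 := by simpa using hβ0
      have hr : rate β Kind.two = ENNReal.ofReal β := rfl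
      rw [hr] at he
      have hge : travel ω x (axis (-((n + 1 : ℕ) : ℤ))) ≤
          travel ω x (axis (-((n + 1 : ℕ) : ℤ))) / ENNReal.ofReal β := by
        rw [ENNReal.le_div_iff_mul_le (Or.inl hβne) (Or.inl ENNReal.ofReal_ne_top)]
        calc travel ω x (axis (-((n + 1 : ℕ) : ℤ))) * ENNReal.ofReal β
            ≤ travel ω x (axis (-((n + 1 : ℕ) : ℤ))) * 1 := by
              refine mul_le_mul' le_rfl ?_
              simpa using hβ1
          _ = travel ω x (axis (-((n + 1 : ℕ) : ℤ))) := mul_one _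
      rcases lt_or_ge 0 (x 0) with hc | hc
      · have h1 := hF (x 0) hc (n + 1) (by omega)
        have h2 := le_time_two hreg hβ0 hβ1 hM1 h x hxθ
        rw [← eq_axis x] at h1
        have h3 : T ω (axis M) x + travel ω x (axis (-((n + 1 : ℕ) : ℤ))) ≤ b (n + 1) :=
          (add_le_add h2 hge).trans (he.symm.le.trans hlt)
        exact absurd h1 (not_lt.2 h3)
      rcases lt_trichotomy (x 0) (-((n + 1 : ℕ) : ℤ)) with hc' | hc' | hc'
      · have h1 := time_mono_left hreg hβ0 hβ1 hM h (x 0) (-((n + 1 : ℕ) : ℤ)) (by omega) hc'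
        rw [← eq_axis x] at h1
        exact absurd hlt' (not_lt.2 h1)
      · exact hx (by rw [eq_axis x, hc'])
      · obtain ⟨i, hi⟩ := Int.eq_ofNat_of_zero_le (show 0 ≤ -(x 0) by omega)
        have h1 := (ih i (by omega)).1
        have h2 : x = axis (-(i : ℤ)) := by
          rw [eq_axis x]
          congr 1
          omega
        rw [← h2, hxθ] at h1
        exact absurd h1 (by decide)

theorem right_front (hreg : Regular ω) (hβ0 : 0 < β) (hβ1 : β ≤ 1) (hM : 0 < M)
    (h0 : 1 ≤ (ω 0).1) (h : IsTwoType β (axis M) ω t θ) (b : ℕ → ℝ≥0∞) (hb : ∀ n, b n ≠ ⊤)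
    (hE : ∀ n, Tp ω M n ≤ b n)
    (hF : ∀ x : ℤ, x < M → ∀ n : ℕ, 1 ≤ n →
      b n / ENNReal.ofReal β < T ω 0 (axis x) + travel ω (axis x) (axis (M + n))) (n : ℕ) :
    θ (axis (M + n)) = Kind.two ∧ t (axis (M + n)) ≠ ⊤ := by
  obtain ⟨h1, h2⟩ := front_right hreg hβ0 hβ1 hM h0 h b hb hE hF n
  have hβne : ENNReal.ofReal β ≠ 0 := by simpa using hβ0
  exact ⟨h1, ne_top_of_le_ne_top (ENNReal.div_ne_top (hb n) hβne)
    (h2.trans (ENNReal.div_le_div_right (hE n) _))⟩

theorem left_front (hreg : Regular ω) (hβ0 : 0 < β) (hβ1 : β ≤ 1) (hM : 0 < M)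
    (hM1 : 1 ≤ (ω (axis M)).1) (h : IsTwoType β (axis M) ω t θ) (b : ℕ → ℝ≥0∞) (hb : ∀ n, b n ≠ ⊤)
    (hE : ∀ n, Tp (reflect ω) 0 n ≤ b n)
    (hF : ∀ x : ℤ, 0 < x → ∀ n : ℕ, 1 ≤ n →
      b n < T ω (axis M) (axis x) + travel ω (axis x) (axis (-(n : ℤ)))) (n : ℕ) :
    θ (axis (-(n : ℤ))) = Kind.one ∧ t (axis (-(n : ℤ))) ≠ ⊤ := by
  obtain ⟨h1, h2⟩ := front_left hreg hβ0 hβ1 hM hM1 h b hb hE hF n
  exact ⟨h1, ne_top_of_le_ne_top (hb n) (h2.trans (hE n))⟩

end Frog81
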