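import Pool.Agent.H.MP_53e2a7_pr.h81.Half
import Pool.Agent.H.MP_53e2a7_pr.h81.Behind
import Pool.Agent.H.MP_53e2a7_pr.h81.Lap

/-!
Module Full: the half-line process started at `0` is late by at most a finite random time.

Proof.  Almost surely: `ω` is regular (`ae_regular`), `behind_finite` holds, and all hitting times of all
particles are finite (`ae_hit_lt_top`, `measurePreserving_walk`).  Let `1 ≤ (ω 0).1`; then `Tp ω 0 n ≠ ⊤`
for all `n` (`Tp_le` with `i = 0` for `n ≥ 1`, and `travel ω 0 (axis n) ≤ hit ... < ⊤` with particle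
`0`).  Let `T ω 0 (axis n) ≤ ofReal (C n + K)` for all `n`; enlarge `C ≥ 1`, `K` to natural numbers.
Let `Y` be the finite set of `behind_finite` and `D` (real) `≥ Tp ω 0 y` for all `y ∈ Y` and `≥ 0`.
Claim `Tp ω 0 n ≤ T ω 0 (axis n) + D`, strong induction on `n`.  `n = 0`: `Tp = 0`.  `n ∈ Y`: clear.
Otherwise `n ≥ 1`; by `T_parent` there is `x ≠ axis n`, `x = axis x'`, with
`T 0 (axis n) = T 0 (axis x') + travel (axis x') (axis n)`.  `x' < 0` is impossible as `n ∉ Y`.
`x' > n`: `T 0 (axis n) ≤ T 0 (axis x')` (`T_mono_right`) but the travel time is positive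
(`travel_pos`) and everything is finite: impossible.  So `0 ≤ x' < n`, and
`Tp 0 n ≤ Tp 0 x' + travel ≤ T 0 (axis x') + D + travel = T 0 (axis n) + D` (`Tp_le`).
-/

namespace Frog81

open MeasureTheory ProbabilityTheory Filter
open scoped ENNReal NNReal

variable (ν : Measure ℕ) [IsProbabilityMeasure ν]

theorem ae_hits_finite : ∀ᵐ ω ∂ envLaw 1 ν, ∀ x : ℤ, ∀ j : ℕ, ∀ y : ℤ,
    hit (axis x) (axis y) ((ω (axis x)).2 j) ≠ ⊤ := by
  rw [ae_all_iff]; intro x
  rw [ae_all_iff]; intro j
  rw [ae_all_iff]; intro y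
  exact (measurePreserving_walk (d := 1) ν (axis x) j).quasiMeasurePreserving.ae
    (ae_hit_lt_top x y)

private theorem full_axis_zero : (axis 0 : Site 1) = 0 := by
  funext i; simp [axis]

private theorem full_axis_inj {a b : ℤ} (h : (axis a : Site 1) = axis b) : a = b := by
  have := congrFun h 0
  simpa [axis] using this

theorem half_of_full (hlog : LogMoment ν) : ∀ᵐ ω ∂ envLaw 1 ν, 1 ≤ (ω 0).1 →
    (∀ s : ℝ≥0, {x | T ω 0 x ≤ (s : ℝ≥0∞)}.Finite) →
    (∃ C K : ℝ, ∀ n : ℕ, T ω 0 (axis n) ≤ ENNReal.ofReal (C * n + K)) →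
    ∃ D : ℝ, 0 ≤ D ∧ ∀ n : ℕ, Tp ω 0 n ≤ T ω 0 (axis n) + ENNReal.ofReal D := by
  filter_upwards [ae_regular (d := 1) ν, behind_finite ν hlog, ae_hits_finite ν] with
    ω hreg hbeh hhit h0 hfin hCK
  obtain ⟨C, K, hCK⟩ := hCK
  obtain ⟨C', hC'⟩ := exists_nat_ge (max C 1)
  obtain ⟨K', hK'⟩ := exists_nat_ge K
  have hC1 : 1 ≤ C' := by
    have : (1 : ℝ) ≤ C' := (le_max_right _ _).trans hC'
    exact_mod_cast this
  have hT : ∀ n : ℕ, T ω 0 (axis n) ≤ ENNReal.ofReal (C' * n + K') := by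
    intro n
    refine (hCK n).trans (ENNReal.ofReal_le_ofReal ?_)
    have h1 : C * (n : ℝ) ≤ C' * n :=
      mul_le_mul_of_nonneg_right ((le_max_left _ _).trans hC') (Nat.cast_nonneg n)
    linarith
  have hTt : ∀ n : ℕ, T ω 0 (axis n) ≠ ⊤ := fun n => ne_top_of_le_ne_top ENNReal.ofReal_ne_top (hT n)
  have hTp : ∀ n : ℕ, Tp ω 0 n ≠ ⊤ := by
    intro n
    rcases Nat.eq_zero_or_pos n with rfl | hn
    · rw [Tp_zero]; exact ENNReal.zero_ne_top
    · refine ne_top_of_le_ne_top ?_ (Tp_le ω 0 0 n hn)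
      rw [Tp_zero, zero_add]
      refine ne_top_of_le_ne_top (hhit (0 + ((0 : ℕ) : ℤ)) 0 (0 + (n : ℤ))) ?_
      refine iInf₂_le 0 ?_
      have : (axis (0 + ((0 : ℕ) : ℤ)) : Site 1) = 0 := by
        simpa using full_axis_zero
      rw [this]
      omega
  have hY := hbeh C' K' hC1
  set Y := {y : ℕ | 1 ≤ y ∧ ∃ x : ℤ, x < 0 ∧
      travel ω (axis x) (axis y) ≤ ENNReal.ofReal (C' * y + K')} with hYdef
  refine ⟨∑ y ∈ hY.toFinset, (Tp ω 0 y).toReal, Finset.sum_nonneg fun _ _ => ENNReal.toReal_nonneg,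
    ?_⟩
  set D : ℝ := ∑ y ∈ hY.toFinset, (Tp ω 0 y).toReal with hD
  intro n
  induction n using Nat.strong_induction_on with
  | _ n ih =>
    rcases Nat.eq_zero_or_pos n with rfl | hn
    · rw [Tp_zero]; exact bot_le
    by_cases hnY : n ∈ Y
    · have h1 : (Tp ω 0 n).toReal ≤ D :=
        Finset.single_le_sum (f := fun y : ℕ => (Tp ω 0 y).toReal)
          (fun _ _ => ENNReal.toReal_nonneg) (hY.mem_toFinset.mpr hnY)
      refine le_add_left ?_
      rw [← ENNReal.ofReal_toReal (hTp n)]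
      exact ENNReal.ofReal_le_ofReal h1
    · have hne : (axis (n : ℤ) : Site 1) ≠ 0 := by
        intro h
        rw [← full_axis_zero] at h
        have := full_axis_inj h
        omega
      obtain ⟨x, hx, hpar⟩ := T_parent ω 0 (axis n) hfin hne (hTt n)
      obtain ⟨x', rfl⟩ : ∃ x' : ℤ, x = axis x' := ⟨x 0, eq_axis x⟩
      have hx'n : x' ≠ n := fun h => hx (by rw [h])
      rcases lt_or_ge x' 0 with hx0 | hx0
      · exfalso
        apply hnY
        refine ⟨hn, x', hx0, ?_⟩
        refine le_trans ?_ (hT n)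
        rw [hpar]
        exact le_add_self
      rcases lt_or_gt_of_ne hx'n with hlt | hgt
      · obtain ⟨m, rfl⟩ := Int.eq_ofNat_of_zero_le hx0
        have hmn : m < n := by exact_mod_cast hlt
        have h1 := Tp_le ω 0 m n hmn
        rw [zero_add, zero_add] at h1
        calc Tp ω 0 n ≤ Tp ω 0 m + travel ω (axis m) (axis n) := h1
          _ ≤ (T ω 0 (axis m) + ENNReal.ofReal D) + travel ω (axis m) (axis n) :=
              add_le_add (ih m hmn) le_rfl
          _ = (T ω 0 (axis m) + travel ω (axis m) (axis n)) + ENNReal.ofReal D := by ring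
          _ = T ω 0 (axis n) + ENNReal.ofReal D := by rw [hpar]
      · exfalso
        have h1 : T ω 0 (axis n) ≤ T ω 0 (axis x') := by
          have := T_mono_right ω hreg 0 n x' (by omega) hgt.le
          rwa [full_axis_zero] at this
        have h2 : 0 < travel ω (axis x') (axis n) := travel_pos ω hreg _ _ hx
        have h3 : T ω 0 (axis x') ≠ ⊤ := by
          intro h
          rw [h, top_add] at hpar
          exact hTt n hpar
        have h4 : T ω 0 (axis x') < T ω 0 (axis n) := by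
          rw [hpar]
          exact ENNReal.lt_add_right h3 h2.ne'
        exact absurd h1 (not_le.mpr h4)

end Frog81
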