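import Pool.Agent.H.MP_53e2a7_pr.h81.Line

/-!
Module Half: the half-line passage times `Tp`.

`Tp_succ` unfolds the definition (`rw [Tp]`).  `Tp_le`: for `i < n`, from `Tp_succ` with `n = n' + 1`
and `iInf_le`.  `Tp_attained`: a finite infimum (`exists_eq_ciInf_of_finite`).  `Tp_sub`: induction
(strong) on `m`, with `Tp_attained` for `Tp ω (x + n) m` and `Tp_le`.  `T_le_Tp`: strong induction,
`T_self`, `T_triangle`, `T_le_travel`.  `Tp_mono`: let `Tp (n + 1) = Tp i + travel (x+i) (x+n+1)`,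
`i ≤ n`; if `i = n` clear; if `i < n` then `travel (x+i) (x+n) ≤ travel (x+i) (x+n+1)`
(`travel_mono_right`) and `Tp_le`.  `Tp_local`: strong induction (the data of the sites `x + i`,
`i < n` are used only).  `Tp_shift`: strong induction, `travel_shift`.
-/

namespace Frog81

open MeasureTheory ProbabilityTheory Filter
open scoped ENNReal NNReal

theorem Tp_zero (ω : Env 1) (x : ℤ) : Tp ω x 0 = 0 := by
  rw [Tp]

theorem Tp_succ (ω : Env 1) (x : ℤ) (n : ℕ) : Tp ω x (n + 1) =
    ⨅ i : Fin (n + 1), Tp ω x i.1 + travel ω (axis (x + i.1)) (axis (x + (n + 1))) := by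
  rw [Tp]

theorem Tp_le (ω : Env 1) (x : ℤ) (i n : ℕ) (h : i < n) :
    Tp ω x n ≤ Tp ω x i + travel ω (axis (x + i)) (axis (x + n)) := by
  obtain ⟨n, rfl⟩ : ∃ m, n = m + 1 := ⟨n - 1, by omega⟩
  rw [Tp_succ]
  refine (iInf_le _ ⟨i, h⟩).trans_eq ?_
  push_cast
  rfl

theorem Tp_attained (ω : Env 1) (x : ℤ) (n : ℕ) (h : 1 ≤ n) :
    ∃ i < n, Tp ω x n = Tp ω x i + travel ω (axis (x + i)) (axis (x + n)) := by
  obtain ⟨n, rfl⟩ : ∃ m, n = m + 1 := ⟨n - 1, by omega⟩
  obtain ⟨i, hi⟩ := exists_eq_ciInf_of_finite (f := fun i : Fin (n + 1) =>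
    Tp ω x i.1 + travel ω (axis (x + i.1)) (axis (x + (n + 1))))
  refine ⟨i.1, i.2, ?_⟩
  rw [Tp_succ, ← hi]
  push_cast
  rfl

theorem Tp_sub (ω : Env 1) (x : ℤ) (n m : ℕ) : Tp ω x (n + m) ≤ Tp ω x n + Tp ω (x + n) m := by
  induction m using Nat.strong_induction_on with
  | _ m ih =>
    rcases Nat.eq_zero_or_pos m with rfl | hm
    · rw [Tp_zero, add_zero, add_zero]
    · obtain ⟨i, hi, he⟩ := Tp_attained ω (x + n) m hm
      have h1 := Tp_le ω x (n + i) (n + m) (by omega)
      have h2 := ih i hi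
      rw [he]
      refine h1.trans ?_
      rw [← add_assoc]
      refine add_le_add h2 (le_of_eq ?_)
      push_cast
      rw [add_assoc, add_assoc]

theorem T_le_Tp (ω : Env 1) (x : ℤ) (n : ℕ) (h : 1 ≤ (ω (axis x)).1) :
    T ω (axis x) (axis (x + n)) ≤ Tp ω x n := by
  induction n using Nat.strong_induction_on with
  | _ n ih =>
    rcases Nat.eq_zero_or_pos n with rfl | hn
    · rw [Nat.cast_zero, add_zero, T_self ω _ h]
      exact bot_le
    · obtain ⟨i, hi, he⟩ := Tp_attained ω x n hn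
      rw [he]
      exact (T_triangle ω _ (axis (x + i)) _).trans (add_le_add (ih i hi) (T_le_travel ω _ _))

theorem Tp_mono (ω : Env 1) (hreg : Regular ω) (x : ℤ) : Monotone (fun n => Tp ω x n) := by
  apply monotone_nat_of_le_succ
  intro n
  change Tp ω x n ≤ Tp ω x (n + 1)
  obtain ⟨i, hi, he⟩ := Tp_attained ω x (n + 1) (by omega)
  rw [he]
  rcases Nat.lt_or_ge i n with h | h
  · refine (Tp_le ω x i n h).trans (add_le_add le_rfl ?_)
    exact travel_mono_right ω hreg _ _ _ (by omega) (by push_cast; omega)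
  · have : i = n := by omega
    rw [this]
    exact le_self_add

theorem Tp_local (ω ω' : Env 1) (x : ℤ) (n : ℕ)
    (h : ∀ i < n, ω (axis (x + i)) = ω' (axis (x + i))) : Tp ω x n = Tp ω' x n := by
  induction n using Nat.strong_induction_on with
  | _ n ih =>
    rcases Nat.eq_zero_or_pos n with rfl | hn
    · rw [Tp_zero, Tp_zero]
    · obtain ⟨n, rfl⟩ : ∃ m, n = m + 1 := ⟨n - 1, by omega⟩
      rw [Tp_succ, Tp_succ]
      refine iInf_congr fun i => ?_
      rw [ih i.1 i.2 fun j hj => h j (hj.trans i.2)]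
      congr 1
      simp only [travel, h i.1 i.2]

private theorem Half_axis_add (a b : ℤ) : (axis a : Site 1) + axis b = axis (a + b) := by
  ext i
  simp only [axis, Pi.add_apply]
  split_ifs <;> simp

theorem Tp_shift (ω : Env 1) (a x : ℤ) (n : ℕ) :
    Tp (shift (axis a) ω) x n = Tp ω (x + a) n := by
  induction n using Nat.strong_induction_on with
  | _ n ih =>
    rcases Nat.eq_zero_or_pos n with rfl | hn
    · rw [Tp_zero, Tp_zero]
    · obtain ⟨n, rfl⟩ : ∃ m, n = m + 1 := ⟨n - 1, by omega⟩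
      rw [Tp_succ, Tp_succ]
      refine iInf_congr fun i => ?_
      rw [ih i.1 i.2, travel_shift, Half_axis_add, Half_axis_add, add_right_comm x _ a,
        add_right_comm x _ a]

end Frog81
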