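import Pool.Agent.H.MP_53e2a7_pr.h81.Defs

/-!
Module Tele: a counting lemma.

Proof.  For `i ≤ n` let `v i` be the least good index `≥ i` (exists since `n` is good) and
`F i = f (v i)`; `F n = f n` and `F 0 = f 0`.  If `i < n` is not good, `F i = F (i + 1)`.  If `i` is
good and `i + 1` is good, `F i - F (i + 1) = f i - f (i + 1)` is `≤ 0` if `i ∈ W` and `≤ L + c`
otherwise.  If `i` is good and `i + 1` is not, let `b ≥ 1` be the number of bad indices directly after
`i`: `F i - F (i + 1) = f i - f (i + 1 + b) ≤ L + c (1 + b) ≤ (L + 2 c) b`.  The bad runs after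
different `i` are disjoint, so the sum of these terms is at most `(L + 2 c)` times the number of bad
indices.  For Lean: induction on `n` over all good `n` (strong induction: let `p < n` be the largest
good index `< n`; apply the induction hypothesis to `p`; the indices `p + 1, ..., n - 1` are bad).
-/

namespace Frog81

open Finset

open Classical in
theorem tele_aux (n : ℕ) (good : ℕ → Prop) (W : ℕ → Prop) (f : ℕ → ℝ) (L c : ℝ) (hL : 0 ≤ L)
    (hc : 0 ≤ c) (h0 : good 0)
    (h1 : ∀ u v, u < v → v ≤ n → good u → good v → f u ≤ f v + (L + c * ((v : ℝ) - u)))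
    (h2 : ∀ u < n, W u → good u → good (u + 1) → f u ≤ f (u + 1)) (m : ℕ) (hm : m ≤ n)
    (hg : good m) :
    f 0 ≤ f m + (L + c) * ((range m).filter (fun u => good u ∧ good (u + 1) ∧ ¬ W u)).card +
      (L + 2 * c) * ((range m).filter (fun u => ¬ good u)).card := by
  induction m using Nat.strong_induction_on with
  | _ m ih =>
    rcases Nat.eq_zero_or_pos m with rfl | hpos
    · simp
    · have hne : ((range m).filter good).Nonempty :=
        ⟨0, mem_filter.2 ⟨mem_range.2 hpos, h0⟩⟩
      obtain ⟨p, hp, hmax⟩ := exists_max_image ((range m).filter good) id hne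
      rw [mem_filter, mem_range] at hp
      have hbad : ∀ u, p < u → u < m → ¬ good u := by
        intro u hu hum hgu
        have h3 := hmax u (mem_filter.2 ⟨mem_range.2 hum, hgu⟩)
        exact absurd hu (not_lt.2 h3)
      have h3 := ih p hp.1 (hp.1.le.trans hm) hp.2
      have hA : ((range p).filter (fun u => good u ∧ good (u + 1) ∧ ¬ W u)).card ≤
          ((range m).filter (fun u => good u ∧ good (u + 1) ∧ ¬ W u)).card :=
        card_le_card (filter_subset_filter _ (range_subset_range.2 hp.1.le))
      have hB : ((range p).filter (fun u => ¬ good u)).card + (m - p - 1) ≤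
          ((range m).filter (fun u => ¬ good u)).card := by
        have h4 : (range p).filter (fun u => ¬ good u) ∪ Ioo p m ⊆
            (range m).filter (fun u => ¬ good u) := by
          intro u hu
          rw [mem_union, mem_filter, mem_range, mem_Ioo] at hu
          rw [mem_filter, mem_range]
          rcases hu with hu | hu
          · exact ⟨hu.1.trans hp.1, hu.2⟩
          · exact ⟨hu.2, hbad u hu.1 hu.2⟩
        have h5 : Disjoint ((range p).filter (fun u => ¬ good u)) (Ioo p m) := by
          rw [disjoint_left]
          intro u hu hu'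
          rw [mem_filter, mem_range] at hu
          rw [mem_Ioo] at hu'
          omega
        have h6 := card_le_card h4
        rw [card_union_of_disjoint h5, Nat.card_Ioo] at h6
        exact h6
      have hA' : (((range p).filter (fun u => good u ∧ good (u + 1) ∧ ¬ W u)).card : ℝ) ≤
          ((range m).filter (fun u => good u ∧ good (u + 1) ∧ ¬ W u)).card := by
        exact_mod_cast hA
      have hB' : (((range p).filter (fun u => ¬ good u)).card : ℝ) + ((m - p - 1 : ℕ) : ℝ) ≤
          ((range m).filter (fun u => ¬ good u)).card := by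
        exact_mod_cast hB
      have hA2 := mul_le_mul_of_nonneg_left hA' (add_nonneg hL hc)
      have hB2 := mul_le_mul_of_nonneg_left hB' (add_nonneg hL (mul_nonneg zero_le_two hc))
      rcases Nat.lt_or_ge (p + 1) m with hlt | hge
      · have h4 := h1 p m hp.1 hm hp.2 hg
        have h5 : ((m - p - 1 : ℕ) : ℝ) = (m : ℝ) - p - 1 := by
          rw [Nat.cast_sub (by omega), Nat.cast_sub hp.1.le]
          simp
        rw [h5, mul_add] at hB2
        have h6 : (p : ℝ) + 2 ≤ m := by exact_mod_cast hlt
        have h7 : L + c * ((m : ℝ) - p) ≤ (L + 2 * c) * ((m : ℝ) - p - 1) := by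
          nlinarith [mul_nonneg hL (sub_nonneg.2 h6), mul_nonneg hc (sub_nonneg.2 h6)]
        linarith
      · obtain rfl : m = p + 1 := by omega
        have h5 : ((p + 1 - p - 1 : ℕ) : ℝ) = 0 := by
          have : p + 1 - p - 1 = 0 := by omega
          rw [this]
          simp
        rw [h5, add_zero] at hB2
        by_cases hW : W p
        · have h4 := h2 p (by omega) hW hp.2 hg
          linarith
        · have h4 := h1 p (p + 1) (by omega) hm hp.2 hg
          have h6 : ((range (p + 1)).filter (fun u => good u ∧ good (u + 1) ∧ ¬ W u)).card =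
              ((range p).filter (fun u => good u ∧ good (u + 1) ∧ ¬ W u)).card + 1 := by
            rw [range_add_one, filter_insert, if_pos ⟨hp.2, hg, hW⟩, card_insert_of_notMem]
            simp
          rw [h6]
          push_cast at h4 ⊢
          have h7 : c * ((p : ℝ) + 1 - p) = c := by ring
          rw [h7] at h4
          have h8 : (L + c) * ((((range p).filter
              (fun u => good u ∧ good (u + 1) ∧ ¬ W u)).card : ℝ) + 1) =
              (L + c) * (((range p).filter
              (fun u => good u ∧ good (u + 1) ∧ ¬ W u)).card : ℝ) + (L + c) := by ring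
          rw [h8]
          linarith

open Classical in
theorem telescope (n : ℕ) (good : ℕ → Prop) (W : ℕ → Prop) (f : ℕ → ℝ) (L c : ℝ) (hL : 0 ≤ L)
    (hc : 0 ≤ c) (h0 : good 0) (hn : good n)
    (h1 : ∀ u v, u < v → v ≤ n → good u → good v → f u ≤ f v + (L + c * ((v : ℝ) - u)))
    (h2 : ∀ u < n, W u → good u → good (u + 1) → f u ≤ f (u + 1)) :
    f 0 ≤ f n + (L + c) * ((range n).filter (fun u => good u ∧ good (u + 1) ∧ ¬ W u)).card +
      (L + 2 * c) * ((range n).filter (fun u => ¬ good u)).card :=
  tele_aux n good W f L c hL hc h0 h1 h2 n le_rfl hn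

end Frog81
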