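import Pool.Agent.H.MP_53e2a7_pr.h81.Basic
import Pool.Agent.H.MP_53e2a7_pr.h81.Tele

/-!
Module Point: the pointwise inequality.

Proof.  For a good block `i` let `a i = i R + r i`, `r i < R₀`, be a site that starts well.  For good
`u ≠ v`: `|a v - a u| ≤ |v - u| R + R₀`, so `T (a u) (a v) ≤ c |v - u| + L'` with `c = (1 + ε) m R`,
`L' = L + (1 + ε) m R₀`; in particular it is finite.  `T (a u) (a u) = 0`.

(I) Let `x = axis (a n)`, `f u = (T ω (axis (a u)) x).toReal`.  `f n = 0` and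
`f 0 ≥ (1 - ε) m (n R - R₀) - L`.  `h1` of `telescope` is the triangle inequality.  Let `W u` be:
`u + K ≤ n` and [for all `j` with `K ≤ |j - u R|` and `1 ≤ (ω (axis j)).1`:
`T (a u) (axis j) ≤ T (a (u + 1)) (axis j)`]; then `h2` holds because `a n - u R ≥ (n - u) R ≥ K`
(`R ≥ 1`) and `a n` is occupied.  So `(1 - ε) m (n R - R₀) - L ≤ (L' + c) (N₁ + K) + (L' + 2 c) Nb`,
with `N₁` the number of `u < n`, `u` and `u + 1` good, for which [...] fails, `Nb` the number of bad
`u < n`.

(II) The same from right to left: `x = axis (a 0)`, `g u = (T ω (axis (a (n - u))) x).toReal`, blocks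
`n - u`; `W' u` is: `n - u - 1 ≥ K + R₀` and [for all `j` with `K ≤ |j - i R|`, `1 ≤ (ω (axis j)).1`:
`T (a (i + 1)) (axis j) ≤ T (a i) (axis j)`] with `i = n - u - 1`
(`i R - a 0 ≥ i - R₀ ≥ K`).  So `(1 - ε) m (n R - R₀) - L ≤ (L' + c) (N₂ + K + R₀) + (L' + 2 c) Nb`.

If for some `i` both brackets fail, then `Undecided R₀ R K ω i` holds (with `r = r i`,
`r' = r (i + 1)`).  So `N₁ + N₂ ≤ n + #{i < n : Undecided i}`.  Add (I) and (II).
-/

namespace Frog81

open MeasureTheory ProbabilityTheory Filter Finset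
open scoped ENNReal NNReal

private theorem point_sw {d : ℕ} [NeZero d] {m ε L : ℝ} {ω : Env d} {a : ℤ}
    (h : StartsWell m ε L ω a) (j : ℤ) :
    T ω (axis a) (axis j) ≤ ENNReal.ofReal ((1 + ε) * m * |(j : ℝ) - a| + L) ∧
      ENNReal.ofReal ((1 - ε) * m * |(j : ℝ) - a| - L) ≤ T ω (axis a) (axis j) := by
  have h1 := h.2 (j - a)
  rw [add_sub_cancel] at h1
  push_cast at h1
  exact h1

open Classical in
/-- One direction: the positions `b 0, ..., b n`. -/
private theorem point_side {d : ℕ} [NeZero d] (m ε L : ℝ) (hm : 0 < m) (hε : ε ∈ Set.Ioo (0 : ℝ) 1)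
    (hL : 0 ≤ L) (R₀ R n : ℕ) (ω : Env d) (gd W : ℕ → Prop) (b : ℕ → ℤ)
    (g0 : gd 0) (gn : gd n) (hsw : ∀ u ≤ n, gd u → StartsWell m ε L ω (b u))
    (hb : ∀ u v, u < v → v ≤ n → |(b v : ℝ) - b u| ≤ ((v : ℝ) - u) * R + R₀)
    (hbn : (n : ℝ) * R - R₀ ≤ |(b n : ℝ) - b 0|)
    (hW : ∀ u < n, W u → gd u → gd (u + 1) →
      T ω (axis (b u)) (axis (b n)) ≤ T ω (axis (b (u + 1))) (axis (b n))) :
    (1 - ε) * m * ((n : ℝ) * R - R₀) - L ≤
      (L + (1 + ε) * m * R₀ + (1 + ε) * m * R) *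
        ((range n).filter (fun u => gd u ∧ gd (u + 1) ∧ ¬ W u)).card +
      (L + (1 + ε) * m * R₀ + 2 * ((1 + ε) * m * R)) *
        ((range n).filter (fun u => ¬ gd u)).card := by
  obtain ⟨hε0, hε1⟩ := hε
  have hfin : ∀ u ≤ n, gd u → ∀ j : ℤ, T ω (axis (b u)) (axis j) ≠ ⊤ := fun u hu hg j =>
    ne_top_of_le_ne_top ENNReal.ofReal_ne_top (point_sw (hsw u hu hg) j).1
  have hc : 0 ≤ (1 + ε) * m := by positivity
  have key := telescope n gd W (fun u => (T ω (axis (b u)) (axis (b n))).toReal)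
    (L + (1 + ε) * m * R₀) ((1 + ε) * m * R) (by positivity) (by positivity) g0 gn ?_ ?_
  · have e0 : (T ω (axis (b n)) (axis (b n))).toReal = 0 := by
      rw [T_self ω _ (hsw n le_rfl gn).1, ENNReal.toReal_zero]
    have e1 : (1 - ε) * m * |(b n : ℝ) - b 0| - L ≤ (T ω (axis (b 0)) (axis (b n))).toReal :=
      (ENNReal.ofReal_le_iff_le_toReal (hfin 0 (Nat.zero_le _) g0 _)).1
        (point_sw (hsw 0 (Nat.zero_le _) g0) (b n)).2
    have e2 : (1 - ε) * m * ((n : ℝ) * R - R₀) ≤ (1 - ε) * m * |(b n : ℝ) - b 0| :=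
      mul_le_mul_of_nonneg_left hbn (mul_nonneg (by linarith) hm.le)
    simp only [e0, zero_add] at key
    linarith
  · intro u v huv hv gu gv
    have h1 := T_triangle ω (axis (b u)) (axis (b v)) (axis (b n))
    have hu : u ≤ n := huv.le.trans hv
    have h2 := ENNReal.toReal_mono (ENNReal.add_ne_top.2 ⟨hfin u hu gu (b v), hfin v hv gv (b n)⟩) h1
    rw [ENNReal.toReal_add (hfin u hu gu (b v)) (hfin v hv gv (b n))] at h2
    have h3 : (T ω (axis (b u)) (axis (b v))).toReal ≤ (1 + ε) * m * |(b v : ℝ) - b u| + L :=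
      ENNReal.toReal_le_of_le_ofReal (by positivity) (point_sw (hsw u hu gu) (b v)).1
    have h4 : (1 + ε) * m * |(b v : ℝ) - b u| ≤ (1 + ε) * m * (((v : ℝ) - u) * R + R₀) :=
      mul_le_mul_of_nonneg_left (hb u v huv hv) hc
    have h5 : (1 + ε) * m * (((v : ℝ) - u) * R + R₀) + L =
        L + (1 + ε) * m * R₀ + (1 + ε) * m * R * ((v : ℝ) - u) := by ring
    change (T ω (axis (b u)) (axis (b n))).toReal ≤ (T ω (axis (b v)) (axis (b n))).toReal + _
    linarith
  · intro u hu wu gu gu'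
    exact ENNReal.toReal_mono (hfin (u + 1) hu gu' (b n)) (hW u hu wu gu gu')

open Classical in
theorem pointwise {d : ℕ} [NeZero d] (m ε L : ℝ) (hm : 0 < m) (hε : ε ∈ Set.Ioo (0 : ℝ) 1)
    (hL : 0 ≤ L) (R₀ R K n : ℕ) (hR₀ : 1 ≤ R₀) (hR : R₀ ≤ R) (ω : Env d)
    (h0 : GoodBlock m ε L R₀ R ω 0) (hn : GoodBlock m ε L R₀ R ω n) :
    2 * ((1 - ε) * m * ((n : ℝ) * R - R₀) - L) ≤
      (L + (1 + ε) * m * R₀ + (1 + ε) * m * R) *
        ((n : ℝ) + ((range n).filter (fun i => Undecided R₀ R K ω i)).card + 2 * K + R₀) +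
      2 * (L + (1 + ε) * m * R₀ + 2 * ((1 + ε) * m * R)) *
        ((range n).filter (fun i => ¬ GoodBlock m ε L R₀ R ω i)).card := by
  have hR1 : 1 ≤ R := hR₀.trans hR
  -- the chosen sites
  have hch : ∀ i, ∃ r < R₀, GoodBlock m ε L R₀ R ω i →
      StartsWell m ε L ω (((i * R + r : ℕ) : ℤ)) := by
    intro i
    by_cases h : GoodBlock m ε L R₀ R ω i
    · obtain ⟨r, hr, hs⟩ := h
      exact ⟨r, hr, fun _ => hs⟩
    · exact ⟨0, hR₀, fun h' => absurd h' h⟩
  choose r hr hsw using hch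
  set A : ℕ → ℤ := fun i => ((i * R + r i : ℕ) : ℤ) with hA
  have hAr : ∀ i, (A i : ℝ) = (i : ℝ) * R + r i := fun i => by simp [hA]
  have hr' : ∀ i, (r i : ℝ) < R₀ := fun i => by exact_mod_cast hr i
  have hr0 : ∀ i, (0 : ℝ) ≤ r i := fun i => Nat.cast_nonneg _
  have hR0' : (0 : ℝ) ≤ R := Nat.cast_nonneg _
  have hdist : ∀ u v : ℕ, u < v → |(A v : ℝ) - A u| ≤ ((v : ℝ) - u) * R + R₀ := by
    intro u v huv
    have h1 : (0 : ℝ) ≤ ((v : ℝ) - u) * R := by
      have : (u : ℝ) ≤ v := by exact_mod_cast huv.le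
      exact mul_nonneg (by linarith) hR0'
    rw [abs_le, hAr, hAr]
    constructor <;> nlinarith [hr' u, hr' v, hr0 u, hr0 v]
  have hdist0 : (n : ℝ) * R - R₀ ≤ |(A n : ℝ) - A 0| := by
    refine le_trans ?_ (le_abs_self _)
    rw [hAr, hAr]
    push_cast
    nlinarith [hr' 0, hr0 n]
  let P : ℕ → Prop := fun u => ∀ j : ℤ, (K : ℤ) ≤ |j - (u * R : ℕ)| → 1 ≤ (ω (axis j)).1 →
    T ω (axis (A u)) (axis j) ≤ T ω (axis (A (u + 1))) (axis j)
  let Q : ℕ → Prop := fun u => ∀ j : ℤ, (K : ℤ) ≤ |j - (u * R : ℕ)| → 1 ≤ (ω (axis j)).1 →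
    T ω (axis (A (u + 1))) (axis j) ≤ T ω (axis (A u)) (axis j)
  have occ0 : 1 ≤ (ω (axis (A 0))).1 := (hsw 0 h0).1
  have occn : 1 ≤ (ω (axis (A n))).1 := (hsw n hn).1
  obtain ⟨W1, hW1⟩ : ∃ W : ℕ → Prop, ∀ u, W u ↔ (u + K ≤ n ∧ P u) := ⟨_, fun _ => Iff.rfl⟩
  obtain ⟨W2, hW2⟩ : ∃ W : ℕ → Prop, ∀ u, W u ↔ (K + R₀ ≤ n - u - 1 ∧ Q (n - u - 1)) :=
    ⟨_, fun _ => Iff.rfl⟩
  have side1 := point_side m ε L hm hε hL R₀ R n ω (GoodBlock m ε L R₀ R ω)
    W1 A h0 hn (fun u _ hg => hsw u hg)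
    (fun u v huv _ => hdist u v huv) hdist0 (by
      intro u hu hWu _ _
      obtain ⟨h1, h2⟩ := (hW1 u).1 hWu
      refine h2 (A n) ?_ occn
      refine le_trans ?_ (le_abs_self _)
      have h3 : u * R + K ≤ n * R := by
        have : (u + K) * R ≤ n * R := Nat.mul_le_mul_right _ h1
        nlinarith [Nat.mul_le_mul_left K hR1]
      have h4 : u * R + K ≤ n * R + r n := h3.trans (Nat.le_add_right _ _)
      have h5 : ((u * R + K : ℕ) : ℤ) ≤ ((n * R + r n : ℕ) : ℤ) := by exact_mod_cast h4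
      have h6 : A n = ((n * R + r n : ℕ) : ℤ) := rfl
      rw [h6]
      push_cast at h5 ⊢
      linarith)
  have side2 := point_side m ε L hm hε hL R₀ R n ω (fun u => GoodBlock m ε L R₀ R ω (n - u))
    W2 (fun u => A (n - u)) (by simpa using hn)
    (by simpa using h0) (fun u _ hg => hsw (n - u) hg)
    (fun u v huv hv => by
      have h1 := hdist (n - v) (n - u) (by omega)
      rw [abs_sub_comm] at h1
      refine h1.trans (le_of_eq ?_)
      have h2 : ((n - v : ℕ) : ℝ) = (n : ℝ) - v := Nat.cast_sub hv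
      have h3 : ((n - u : ℕ) : ℝ) = (n : ℝ) - u := Nat.cast_sub (huv.le.trans hv)
      rw [h2, h3]
      ring)
    (by
      simp only [Nat.sub_self, Nat.sub_zero]
      rw [abs_sub_comm]
      exact hdist0)
    (by
      intro u hu hWu _ _
      obtain ⟨h1, h2⟩ := (hW2 u).1 hWu
      simp only [Nat.sub_self]
      have h3 := h2 (A 0) (by
        rw [abs_sub_comm]
        refine le_trans ?_ (le_abs_self _)
        have h4 : A 0 = ((0 * R + r 0 : ℕ) : ℤ) := rfl
        rw [h4]
        have h5 : K + (0 * R + r 0) ≤ (n - u - 1) * R := by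
          have h6 := hr 0
          have h7 : K + R₀ ≤ (n - u - 1) * R :=
            h1.trans (Nat.le_mul_of_pos_right _ hR1)
          rw [zero_mul, zero_add]
          omega
        have h8 : ((K + (0 * R + r 0) : ℕ) : ℤ) ≤ (((n - u - 1) * R : ℕ) : ℤ) := by
          exact_mod_cast h5
        push_cast at h8 ⊢
        linarith) occ0
      have e1 : n - u - 1 + 1 = n - u := by omega
      have e2 : n - (u + 1) = n - u - 1 := by omega
      rw [e1] at h3
      rw [e2]
      exact h3)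
  -- counting
  set g : ℕ → Prop := GoodBlock m ε L R₀ R ω with hg
  have c1 : ((range n).filter (fun u => g u ∧ g (u + 1) ∧ ¬ W1 u)).card ≤
      ((range n).filter (fun u => g u ∧ g (u + 1) ∧ ¬ P u)).card + K := by
    have h1 : (range n).filter (fun u => g u ∧ g (u + 1) ∧ ¬ W1 u) ⊆
        (range n).filter (fun u => g u ∧ g (u + 1) ∧ ¬ P u) ∪ Finset.Ico (n - K) n := by
      intro u hu
      simp only [mem_filter, mem_range, mem_union, Finset.mem_Ico] at hu ⊢
      obtain ⟨h2, h3, h4, h5⟩ := hu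
      by_cases h6 : u + K ≤ n
      · left
        exact ⟨h2, h3, h4, fun h7 => h5 ((hW1 u).2 ⟨h6, h7⟩)⟩
      · right
        omega
    refine (card_le_card h1).trans ((card_union_le _ _).trans ?_)
    rw [Nat.card_Ico]
    omega
  have c2 : ((range n).filter (fun u => g (n - u) ∧ g (n - (u + 1)) ∧
      ¬ W2 u)).card ≤
      ((range n).filter (fun u => g u ∧ g (u + 1) ∧ ¬ Q u)).card + (K + R₀) := by
    have h1 : ((range n).filter (fun u => g (n - u) ∧ g (n - (u + 1)) ∧
      ¬ W2 u)).card ≤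
        ((range n).filter (fun u => g u ∧ g (u + 1) ∧ ¬ Q u) ∪ range (K + R₀)).card := by
      refine card_le_card_of_injOn (fun u => n - 1 - u) ?_ ?_
      · intro u hu
        simp only [mem_coe, mem_filter, mem_range, mem_union] at hu ⊢
        obtain ⟨h2, h3, h4, h5⟩ := hu
        have e1 : n - 1 - u = n - u - 1 := by omega
        have e2 : n - (u + 1) = n - u - 1 := by omega
        have e3 : n - u - 1 + 1 = n - u := by omega
        rw [e1, e3]
        rw [e2] at h4
        by_cases h6 : K + R₀ ≤ n - u - 1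
        · left
          exact ⟨by omega, h4, h3, fun h7 => h5 ((hW2 u).2 ⟨h6, h7⟩)⟩
        · right
          omega
      · intro u hu v hv huv
        simp only [mem_coe, mem_filter, mem_range] at hu hv huv
        omega
    refine h1.trans ((card_union_le _ _).trans ?_)
    rw [card_range]
  have c3 : ((range n).filter (fun u => ¬ g (n - u))).card ≤
      ((range n).filter (fun u => ¬ g u)).card := by
    refine card_le_card_of_injOn (fun u => n - u) ?_ ?_
    · intro u hu
      simp only [mem_coe, mem_filter, mem_range] at hu ⊢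
      refine ⟨?_, hu.2⟩
      rcases Nat.eq_zero_or_pos u with h | h
      · subst h
        exact absurd hn hu.2
      · omega
    · intro u hu v hv huv
      simp only [mem_coe, mem_filter, mem_range] at hu hv huv
      omega
  have c4 : ((range n).filter (fun u => g u ∧ g (u + 1) ∧ ¬ P u)).card +
      ((range n).filter (fun u => g u ∧ g (u + 1) ∧ ¬ Q u)).card ≤
      n + ((range n).filter (fun i => Undecided R₀ R K ω i)).card := by
    rw [← card_union_add_card_inter]
    refine add_le_add ?_ ?_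
    · have h1 : (range n).filter (fun u => g u ∧ g (u + 1) ∧ ¬ P u) ∪
          (range n).filter (fun u => g u ∧ g (u + 1) ∧ ¬ Q u) ⊆ range n :=
        union_subset (filter_subset _ _) (filter_subset _ _)
      have h2 := card_le_card h1
      rwa [card_range] at h2
    · refine card_le_card ?_
      intro u hu
      simp only [mem_inter, mem_filter, mem_range] at hu ⊢
      obtain ⟨⟨h1, h2, h3, h4⟩, _, _, _, h5⟩ := hu
      refine ⟨h1, r u, hr u, r (u + 1), hr (u + 1), (hsw u h2).1, (hsw (u + 1) h3).1, ?_, ?_⟩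
      · simp only [P] at h4
        push Not at h4
        exact h4
      · simp only [Q] at h5
        push Not at h5
        exact h5
  have hLc : 0 ≤ L + (1 + ε) * m * R₀ + (1 + ε) * m * R := by
    have := hε.1
    positivity
  have hLc2 : 0 ≤ L + (1 + ε) * m * R₀ + 2 * ((1 + ε) * m * R) := by
    have := hε.1
    positivity
  have d12 : ((((range n).filter (fun u => g u ∧ g (u + 1) ∧ ¬ W1 u)).card : ℕ) : ℝ) +
      (((range n).filter (fun u => g (n - u) ∧ g (n - (u + 1)) ∧
        ¬ W2 u)).card : ℕ) ≤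
      (n : ℝ) + ((range n).filter (fun i => Undecided R₀ R K ω i)).card + 2 * K + R₀ := by
    have : ((range n).filter (fun u => g u ∧ g (u + 1) ∧ ¬ W1 u)).card +
      ((range n).filter (fun u => g (n - u) ∧ g (n - (u + 1)) ∧
        ¬ W2 u)).card ≤
      n + ((range n).filter (fun i => Undecided R₀ R K ω i)).card + 2 * K + R₀ := by omega
    exact_mod_cast this
  have d3 : ((((range n).filter (fun u => ¬ g (n - u))).card : ℕ) : ℝ) ≤
      (((range n).filter (fun u => ¬ g u)).card : ℕ) := by exact_mod_cast c3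
  have f1 := mul_le_mul_of_nonneg_left d12 hLc
  have f2 := mul_le_mul_of_nonneg_left d3 hLc2
  linarith

end Frog81
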