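import Pool.Agent.H.MP_53e2a7_pr.h81.Prob
import Pool.Agent.H.MP_53e2a7_pr.h81.Point
import Pool.Agent.H.MP_53e2a7_pr.h81.Exist
import Pool.Agent.H.MP_53e2a7_pr.h81.Comp
import Pool.Agent.H.MP_53e2a7_pr.h81.Reg

/-!
Module IfHalf.

`coexistence_of_ae`: a general reduction: if the measurable set `S` has positive probability and
almost every `ω ∈ S` has the required property, remove a measurable null set from `S`.

`not_all_decided`.  Suppose the contrary.  Take `ε = δ = 1/100`, `m` from `ae_startsWell`, `R₀, L` from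
`bad_block`, `R` so large that `R₀ ≤ R` and `L' := L + (1 + ε) m R₀ ≤ ε m R`, then `K` from
`undecided_block`.  Put `B = L' + (1 + ε) m R ≤ (1 + 2 ε) m R`, `D = 2 (L' + 2 (1 + ε) m R) ≤ 5 m R`.
`pointwise` gives, on the event `Q` that the blocks `0` and `n` are good,
`2 ((1 - ε) m (n R - R₀) - L) - B (n + 2 K + R₀) ≤ B N₀ + D Nb`, where `N₀`, `Nb` are the numbers of
undecided and of bad blocks `i < n`; the left side is `≥ m R n (1 - 4 ε) - const ≥ 0` for large `n`
(const does not depend on `n`).  The right side is `≥ 0` everywhere, so after multiplication of the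
left side by the indicator of `Q` the inequality holds everywhere; take expectations:
`(1 - 2 δ) (m R n (1 - 4 ε) - const) ≤ (B + D) δ n ≤ 7 m R δ n`.  With `ε = δ = 1/100`:
`0.98 * 0.96 > 0.07`: contradiction for `n` large.

`if_half`.  By `not_all_decided` there are `z ≠ 0` and a non-null set of `ω` with `0`, `z` occupied
and both `{y | occupied, T 0 y < T z y}`, `{y | occupied, T z y < T 0 y}` infinite; the set of these
`ω` is measurable (`measurableSet_infinite`).  Almost all of them are regular (`ae_regular`) and satisfy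
`ae_finite` (for `a = 0` and `a = z`), so the two-type process exists (`exists_twoType`) and every two-type
process with `β = 1` has (`le_time_one`, `le_time_two`, `time_le`): if `T 0 y < T z y` then
`t y ≤ T 0 y < T z y`, so `θ y ≠ two`, i.e. `θ y = one`, and `t y ≠ ⊤`; same for type two.
-/

namespace Frog81

open MeasureTheory ProbabilityTheory Filter
open scoped ENNReal NNReal

variable {d : ℕ} [NeZero d] (ν : Measure ℕ) [IsProbabilityMeasure ν]

omit [IsProbabilityMeasure ν] in
theorem coexistence_of_ae (β : ℝ) (z : Site d) (hz : z ≠ 0) (S : Set (Env d))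
    (hS : MeasurableSet S) (hpos : envLaw d ν S ≠ 0)
    (h : ∀ᵐ ω ∂ envLaw d ν, ω ∈ S → (∃ t θ, IsTwoType β z ω t θ) ∧
      ∀ t θ, IsTwoType β z ω t θ → Activates ω t θ Kind.one ∧ Activates ω t θ Kind.two) :
    CoexistencePossible d ν β := by
  set N : Set (Env d) := {ω | ¬ (ω ∈ S → (∃ t θ, IsTwoType β z ω t θ) ∧
      ∀ t θ, IsTwoType β z ω t θ → Activates ω t θ Kind.one ∧ Activates ω t θ Kind.two)} with hN
  have hN0 : envLaw d ν N = 0 := h
  refine ⟨z, hz, S \ toMeasurable (envLaw d ν) N, hS.diff (measurableSet_toMeasurable _ _), ?_, ?_⟩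
  · rw [measure_sdiff_null (by rw [measure_toMeasurable]; exact hN0)]
    exact pos_iff_ne_zero.mpr hpos
  · intro ω hω
    by_contra hcon
    apply hω.2
    apply subset_toMeasurable
    intro himp
    exact hcon (himp hω.1)

omit [NeZero d] in
private theorem card_eq_sum (n : ℕ) (p : Env d → ℕ → Prop) (ω : Env d) [DecidablePred (p ω)] :
    (((Finset.range n).filter (fun i => p ω i)).card : ℝ) =
      ∑ i ∈ Finset.range n, Set.indicator {ω | p ω i} (fun _ => (1 : ℝ)) ω := by
  rw [Finset.card_filter]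
  push_cast
  refine Finset.sum_congr rfl fun i _ => ?_
  simp [Set.indicator_apply]

private theorem int_sum (n : ℕ) (p : Env d → ℕ → Prop) (hp : ∀ i, MeasurableSet {ω | p ω i})
    (δ : ℝ) (hδ : 0 ≤ δ) (hb : ∀ i, envLaw d ν {ω | p ω i} ≤ ENNReal.ofReal δ) :
    Integrable (fun ω => ∑ i ∈ Finset.range n, Set.indicator {ω | p ω i} (fun _ => (1 : ℝ)) ω)
      (envLaw d ν) ∧
    ∫ ω, ∑ i ∈ Finset.range n, Set.indicator {ω | p ω i} (fun _ => (1 : ℝ)) ω ∂ envLaw d ν ≤
      n * δ := by
  have hi : ∀ i, Integrable (Set.indicator {ω | p ω i} (fun _ => (1 : ℝ))) (envLaw d ν) := by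
    intro i
    exact (integrable_const 1).indicator (hp i)
  refine ⟨integrable_finsetSum _ fun i _ => hi i, ?_⟩
  rw [integral_finsetSum _ fun i _ => hi i]
  calc ∑ i ∈ Finset.range n, ∫ ω, Set.indicator {ω | p ω i} (fun _ => (1 : ℝ)) ω ∂ envLaw d ν
      ≤ ∑ i ∈ Finset.range n, δ := by
        refine Finset.sum_le_sum fun i _ => ?_
        rw [integral_indicator_const _ (hp i)]
        simp only [smul_eq_mul, mul_one]
        rw [Measure.real]
        exact ENNReal.toReal_le_of_le_ofReal hδ (hb i)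
    _ = n * δ := by simp

theorem not_all_decided (h : HasBoundedShape d ν)
    (hdec : ∀ z : Site d, z ≠ 0 → ∀ᵐ ω ∂ envLaw d ν, 1 ≤ (ω 0).1 → 1 ≤ (ω z).1 → Decided ω 0 z) :
    False := by
  classical
  obtain ⟨m, hm, hst⟩ := ae_startsWell ν h
  have hst1 := hst (1 / 100) ⟨by norm_num, by norm_num⟩
  obtain ⟨R₀, hR₀, L, hbad⟩ := bad_block ν h m (1 / 100) hst1 (1 / 100) (by norm_num)
  obtain ⟨R, hR, hR1, hRL⟩ : ∃ R : ℕ, R₀ ≤ R ∧ 1 ≤ R ∧
      (L : ℝ) + (1 + 1 / 100) * m * R₀ ≤ 1 / 100 * m * R := by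
    obtain ⟨R', hR'⟩ := exists_nat_ge (((L : ℝ) + (1 + 1 / 100) * m * R₀) / (1 / 100 * m))
    refine ⟨max R' (max R₀ 1), ?_, ?_, ?_⟩
    · exact le_trans (le_max_left _ _) (le_max_right _ _)
    · exact le_trans (le_max_right _ _) (le_max_right _ _)
    · rw [div_le_iff₀ (by positivity)] at hR'
      have h1 : (R' : ℝ) ≤ ((max R' (max R₀ 1) : ℕ) : ℝ) := by exact_mod_cast le_max_left _ _
      nlinarith [mul_le_mul_of_nonneg_left h1 (by positivity : (0 : ℝ) ≤ 1 / 100 * m)]
  obtain ⟨K, hK⟩ := undecided_block ν hdec R₀ R hR hR1 (1 / 100) (by norm_num)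
  set B : ℝ := (L : ℝ) + (1 + 1 / 100) * m * R₀ + (1 + 1 / 100) * m * R with hB
  set D : ℝ := 2 * ((L : ℝ) + (1 + 1 / 100) * m * R₀ + 2 * ((1 + 1 / 100) * m * R)) with hD
  have hL0 : (0 : ℝ) ≤ L := Nat.cast_nonneg _
  have hB0 : 0 ≤ B := by positivity
  have hD0 : 0 ≤ D := by positivity
  have hBle : B ≤ 102 / 100 * (m * R) := by rw [hB]; nlinarith
  have hDle : D ≤ 406 / 100 * (m * R) := by rw [hD]; nlinarith
  have key : ∀ n : ℕ,
      (2 * ((1 - 1 / 100) * m * ((n : ℝ) * R - R₀) - L) - B * ((n : ℝ) + 2 * K + R₀)) *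
        (envLaw d ν).real ({ω | GoodBlock m (1 / 100) L R₀ R ω 0} ∩
          {ω | GoodBlock m (1 / 100) L R₀ R ω n}) ≤ (B + D) * (n * (1 / 100)) := by
    intro n
    set Q : Set (Env d) := {ω | GoodBlock m (1 / 100) L R₀ R ω 0} ∩
          {ω | GoodBlock m (1 / 100) L R₀ R ω n} with hQ
    set G : ℝ := 2 * ((1 - 1 / 100) * m * ((n : ℝ) * R - R₀) - L) - B * ((n : ℝ) + 2 * K + R₀)
      with hG
    have hQm : MeasurableSet Q := (measurable_good _ _ _ _ _ _).inter (measurable_good _ _ _ _ _ _)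
    have hU := int_sum ν n (fun ω i => Undecided R₀ R K ω i)
      (fun i => measurable_undecided R₀ R K i) (1 / 100) (by norm_num) (fun i => hK i)
    have hV := int_sum ν n (fun ω i => ¬ GoodBlock m (1 / 100) L R₀ R ω i)
      (fun i => (measurable_good m (1 / 100) L R₀ R i).compl) (1 / 100) (by norm_num)
      (fun i => hbad R i)
    set f : Env d → ℝ := fun ω =>
      B * ∑ i ∈ Finset.range n, Set.indicator {ω | Undecided R₀ R K ω i} (fun _ => (1 : ℝ)) ω +
      D * ∑ i ∈ Finset.range n,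
        Set.indicator {ω | ¬ GoodBlock m (1 / 100) L R₀ R ω i} (fun _ => (1 : ℝ)) ω with hf
    have hfi : Integrable f (envLaw d ν) := (hU.1.const_mul B).add (hV.1.const_mul D)
    have hle : ∀ ω, Q.indicator (fun _ => G) ω ≤ f ω := by
      intro ω
      by_cases hω : ω ∈ Q
      · rw [Set.indicator_of_mem hω]
        have hp := pointwise m (1 / 100) L hm ⟨by norm_num, by norm_num⟩ hL0 R₀ R K n hR₀ hR ω
          hω.1 hω.2
        rw [@card_eq_sum d n (fun ω i => Undecided R₀ R K ω i) ω _,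
          @card_eq_sum d n (fun ω i => ¬ GoodBlock m (1 / 100) L R₀ R ω i) ω _] at hp
        simp only [hf, hG]
        rw [← hB, ← hD] at hp
        linarith
      · rw [Set.indicator_of_notMem hω]
        have h1 : 0 ≤ ∑ i ∈ Finset.range n,
            Set.indicator {ω | Undecided R₀ R K ω i} (fun _ => (1 : ℝ)) ω :=
          Finset.sum_nonneg fun i _ => Set.indicator_nonneg (fun _ _ => zero_le_one) _
        have h2 : 0 ≤ ∑ i ∈ Finset.range n,
            Set.indicator {ω | ¬ GoodBlock m (1 / 100) L R₀ R ω i} (fun _ => (1 : ℝ)) ω :=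
          Finset.sum_nonneg fun i _ => Set.indicator_nonneg (fun _ _ => zero_le_one) _
        simp only [hf]
        positivity
    have hmono := integral_mono ((integrable_const G).indicator hQm) hfi hle
    rw [integral_indicator_const _ hQm] at hmono
    have hint : ∫ ω, f ω ∂ envLaw d ν ≤ B * (n * (1 / 100)) + D * (n * (1 / 100)) := by
      simp only [hf]
      rw [integral_add (hU.1.const_mul B) (hV.1.const_mul D), integral_const_mul,
        integral_const_mul]
      exact add_le_add (mul_le_mul_of_nonneg_left hU.2 hB0) (mul_le_mul_of_nonneg_left hV.2 hD0)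
    rw [smul_eq_mul, mul_comm] at hmono
    calc G * (envLaw d ν).real Q ≤ ∫ ω, f ω ∂ envLaw d ν := hmono
      _ ≤ _ := by linarith
  have hQ98 : ∀ n : ℕ, 98 / 100 ≤ (envLaw d ν).real ({ω | GoodBlock m (1 / 100) L R₀ R ω 0} ∩
          {ω | GoodBlock m (1 / 100) L R₀ R ω n}) := by
    intro n
    have hQm : MeasurableSet ({ω : Env d | GoodBlock m (1 / 100) L R₀ R ω 0} ∩
          {ω | GoodBlock m (1 / 100) L R₀ R ω n}) :=
      (measurable_good _ _ _ _ _ _).inter (measurable_good _ _ _ _ _ _)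
    have h1 := probReal_compl_eq_one_sub (μ := envLaw d ν) hQm
    have h2 : (envLaw d ν).real ({ω : Env d | GoodBlock m (1 / 100) L R₀ R ω 0} ∩
          {ω | GoodBlock m (1 / 100) L R₀ R ω n})ᶜ ≤ 1 / 100 + 1 / 100 := by
      rw [Set.compl_inter]
      refine le_trans (measureReal_union_le _ _) (add_le_add ?_ ?_)
      · exact ENNReal.toReal_le_of_le_ofReal (by norm_num) (hbad R 0)
      · exact ENNReal.toReal_le_of_le_ofReal (by norm_num) (hbad R n)
    linarith
  have hmR : 0 < m * R := by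
    have : (1 : ℝ) ≤ R := by exact_mod_cast hR1
    positivity
  set c0 : ℝ := 198 / 100 * m * R₀ + 2 * L + B * (2 * K + R₀) with hc0
  have hc00 : 0 ≤ c0 := by positivity
  obtain ⟨n, hn⟩ := exists_nat_gt (2 * (c0 + 1) / (m * R))
  have hn' : 2 * (c0 + 1) < n * (m * R) := by rwa [div_lt_iff₀ hmR] at hn
  have hk := key n
  have hq := hQ98 n
  set q := (envLaw d ν).real ({ω | GoodBlock m (1 / 100) L R₀ R ω 0} ∩
          {ω | GoodBlock m (1 / 100) L R₀ R ω n}) with hqdef
  have hG1 : 96 / 100 * (n * (m * R)) - c0 ≤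
      2 * ((1 - 1 / 100) * m * ((n : ℝ) * R - R₀) - L) - B * ((n : ℝ) + 2 * K + R₀) := by
    have : B * (n : ℝ) ≤ 102 / 100 * (m * R) * n :=
      mul_le_mul_of_nonneg_right hBle (Nat.cast_nonneg _)
    rw [hc0]
    nlinarith
  have hG2 : 0 ≤ 2 * ((1 - 1 / 100) * m * ((n : ℝ) * R - R₀) - L) - B * ((n : ℝ) + 2 * K + R₀) := by
    linarith
  have h3 : (96 / 100 * (n * (m * R)) - c0) * (98 / 100) ≤ (B + D) * (n * (1 / 100)) := by
    refine le_trans ?_ hk
    exact mul_le_mul hG1 hq (by norm_num) hG2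
  have h4 : (B + D) * (n * (1 / 100)) ≤ 508 / 100 * (m * R) * (n * (1 / 100)) :=
    mul_le_mul_of_nonneg_right (by linarith) (by positivity)
  nlinarith

theorem if_half (h : HasBoundedShape d ν) : CoexistencePossible d ν 1 := by
  by_contra hcon
  apply not_all_decided ν h
  intro z hz
  by_contra hnd
  apply hcon
  set S : Set (Env d) := ({ω | 1 ≤ (ω 0).1} ∩ {ω | 1 ≤ (ω z).1}) ∩
    ({ω | {y | 1 ≤ (ω y).1 ∧ T ω 0 y < T ω z y}.Infinite} ∩
      {ω | {y | 1 ≤ (ω y).1 ∧ T ω z y < T ω 0 y}.Infinite}) with hS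
  have hc : ∀ x : Site d, MeasurableSet {ω : Env d | 1 ≤ (ω x).1} := fun x =>
    measurableSet_le measurable_const (measurable_count x)
  have hSm : MeasurableSet S := by
    refine ((hc 0).inter (hc z)).inter (MeasurableSet.inter ?_ ?_)
    · exact measurableSet_infinite (fun (ω : Env d) y => 1 ≤ (ω y).1 ∧ T ω 0 y < T ω z y)
        fun y => (hc y).inter (measurableSet_lt (measurable_T 0 y) (measurable_T z y))
    · exact measurableSet_infinite (fun (ω : Env d) y => 1 ≤ (ω y).1 ∧ T ω z y < T ω 0 y)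
        fun y => (hc y).inter (measurableSet_lt (measurable_T z y) (measurable_T 0 y))
  have hpos : envLaw d ν S ≠ 0 := by
    intro h0
    apply hnd
    rw [ae_iff]
    refine measure_mono_null ?_ h0
    intro ω hω
    simp only [Set.mem_setOf_eq, Classical.not_imp] at hω
    obtain ⟨h1, h2, h3⟩ := hω
    unfold Decided at h3
    rw [not_or] at h3
    exact ⟨⟨h1, h2⟩, h3.1, h3.2⟩
  refine coexistence_of_ae ν 1 z hz S hSm hpos ?_
  filter_upwards [ae_regular (d := d) ν, ae_finite ν h] with ω hreg hfin hωS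
  obtain ⟨⟨h0, h1⟩, hi1, hi2⟩ := hωS
  obtain ⟨ht0, hf0⟩ := hfin 0 h0
  obtain ⟨ht1, hf1⟩ := hfin z h1
  constructor
  · refine exists_twoType ω hreg 1 one_pos le_rfl z hz h0 h1 ?_ ht0
    intro s
    exact (hf0 s).union (hf1 s)
  · intro t θ htt
    constructor
    · refine Set.Infinite.mono ?_ hi1
      rintro y ⟨hy1, hy2⟩
      have ht := time_le htt y
      refine ⟨?_, ne_top_of_le_ne_top (ht0 y) ht.1, hy1⟩
      cases hk : θ y with
      | one => rfl
      | two =>
        have := le_time_two hreg one_pos le_rfl h1 htt y hk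
        exact absurd (lt_of_le_of_lt (le_trans this ht.1) hy2) (lt_irrefl _)
    · refine Set.Infinite.mono ?_ hi2
      rintro y ⟨hy1, hy2⟩
      have ht := time_le htt y
      refine ⟨?_, ne_top_of_le_ne_top (ht0 y) ht.1, hy1⟩
      cases hk : θ y with
      | two => rfl
      | one =>
        have := le_time_one hreg one_pos le_rfl h0 htt y hk
        exact absurd (lt_of_le_of_lt (le_trans this ht.2) hy2) (lt_irrefl _)

end Frog81
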