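import Pool.Agent.H.MP_53e2a7_pr.h81.Basic
import Pool.Agent.H.MP_53e2a7_pr.h81.Comp

/-!
Module Line: dimension one is ordered.

Every site of `Site 1` is `axis k` with `k` its value at `0`, and `pos` changes by `±1` in each step,
so a walk from `axis x` to `axis z` passes every `axis y` with `y` between, at an earlier time.  So
`hit` and `travel` are monotone in the target.

`T_mono`: claim for lists: `T ω (axis x) (axis y) ≤ cost ω (axis x) (l ++ [axis z])` for
`x ≤ y ≤ z`, by induction on `l` generalising `x`.  Let `axis a` be the first element of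
`l ++ [axis z]`.  If `a ≤ y`: `T x y ≤ travel x a + T a y` and the induction hypothesis (if `l` is
empty then `a = z = y`).  If `a > y`: `T x y ≤ travel x y ≤ travel x a ≤ cost`.

`time_mono_right`: for the two-type process, `z = axis M`, `0 < M ≤ y < x`: induction along the parents
(`parent_induction`) over `x`: if `t (axis x) = ⊤` nothing to prove; the parent `u ≠ x` of `x`
(`x ≠ 0, M`) satisfies `t x = t u + travel u x / rate`; if `u ≤ y` then
`t y ≤ t u + travel u y / rate ≤ t x`; if `u > y` then `t u < t x` (`time_lt`) and `t y ≤ t u` by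
induction.  `time_mono_left`: the same on the left of `0`.
-/

namespace Frog81

open MeasureTheory ProbabilityTheory Filter
open scoped ENNReal NNReal

theorem eq_axis (y : Site 1) : y = axis (y 0) := by
  funext i
  have hi : i = 0 := Subsingleton.elim i 0
  subst hi
  simp [axis]

private theorem line_axis_zero (k : ℤ) : (axis k : Site 1) 0 = k := by simp [axis]

private theorem line_unit (a : Dir 1) : unit a 0 = 1 ∨ unit a 0 = -1 := by
  have h : (0 : Fin 1) = a.1 := Subsingleton.elim _ _
  unfold unit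
  rw [if_pos h]
  split_ifs
  · exact Or.inl rfl
  · exact Or.inr rfl

private theorem line_pos_succ (x : Site 1) (w : Walk 1) (k : ℕ) :
    pos x w (k + 1) 0 = pos x w k 0 + unit (w k).2 0 := by
  simp only [pos, Finset.sum_range_succ, Pi.add_apply]
  ring

private theorem line_pos_zero (x : Site 1) (w : Walk 1) : pos x w 0 = x := by simp [pos]

private theorem line_ivt (P : ℕ → ℤ) (hP : ∀ i, P (i + 1) ≤ P i + 1) (y : ℤ) (h0 : P 0 ≤ y)
    (k : ℕ) (h1 : y ≤ P k) : ∃ k' ≤ k, P k' = y := by
  induction k with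
  | zero => exact ⟨0, le_rfl, le_antisymm h0 h1⟩
  | succ k ih =>
    by_cases h : y ≤ P k
    · obtain ⟨k', hk', e⟩ := ih h
      exact ⟨k', hk'.trans (Nat.le_succ k), e⟩
    · exact ⟨k + 1, le_rfl, by have := hP k; omega⟩

private theorem line_clock {w : Walk 1} (h : ∀ i, 0 < (w i).1) {k k' : ℕ} (hk : k' ≤ k) :
    clock w k' ≤ clock w k := by
  unfold clock
  exact Finset.sum_le_sum_of_subset_of_nonneg (Finset.range_mono hk) fun i _ _ => (h i).le

private theorem line_hit {w : Walk 1} (h : ∀ i, 0 < (w i).1) {x y z : ℤ}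
    (hxyz : (x ≤ y ∧ y ≤ z) ∨ (y ≤ x ∧ z ≤ y)) :
    hit (axis x) (axis y) w ≤ hit (axis x) (axis z) w := by
  unfold hit
  refine le_iInf₂ fun k hk => ?_
  have hkz : pos (axis x) w k 0 = z := by rw [hk, line_axis_zero]
  have hp0 : pos (axis x) w 0 0 = x := by rw [line_pos_zero, line_axis_zero]
  obtain ⟨k', hk', e⟩ : ∃ k' ≤ k, pos (axis x) w k' 0 = y := by
    rcases hxyz with ⟨h1, h2⟩ | ⟨h1, h2⟩
    · refine line_ivt (fun k => pos (axis x) w k 0) (fun i => ?_) y ?_ k ?_
      · show pos (axis x) w (i + 1) 0 ≤ pos (axis x) w i 0 + 1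
        rw [line_pos_succ]
        rcases line_unit (w i).2 with h3 | h3 <;> omega
      · show pos (axis x) w 0 0 ≤ y
        rw [hp0]; exact h1
      · show y ≤ pos (axis x) w k 0
        rw [hkz]; exact h2
    · obtain ⟨k', hk', e⟩ := line_ivt (fun k => -pos (axis x) w k 0) (fun i => by
        show -pos (axis x) w (i + 1) 0 ≤ -pos (axis x) w i 0 + 1
        rw [line_pos_succ]
        rcases line_unit (w i).2 with h3 | h3 <;> omega) (-y) (by
        show -pos (axis x) w 0 0 ≤ -y
        rw [hp0]; omega) k (by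
        show -y ≤ -pos (axis x) w k 0
        rw [hkz]; omega)
      refine ⟨k', hk', ?_⟩
      have e' : -pos (axis x) w k' 0 = -y := e
      omega
  have e' : pos (axis x) w k' = axis y := by
    rw [eq_axis (pos (axis x) w k'), e]
  exact (iInf₂_le k' e').trans (ENNReal.ofReal_le_ofReal (line_clock h hk'))

private theorem line_travel (ω : Env 1) (hreg : Regular ω) {x y z : ℤ}
    (hxyz : (x ≤ y ∧ y ≤ z) ∨ (y ≤ x ∧ z ≤ y)) :
    travel ω (axis x) (axis y) ≤ travel ω (axis x) (axis z) := by
  unfold travel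
  exact iInf₂_mono fun j _ => line_hit (hreg (axis x) j).1 hxyz

theorem travel_mono_right (ω : Env 1) (hreg : Regular ω) (x y z : ℤ) (h1 : x ≤ y) (h2 : y ≤ z) :
    travel ω (axis x) (axis y) ≤ travel ω (axis x) (axis z) :=
  line_travel ω hreg (Or.inl ⟨h1, h2⟩)

theorem travel_mono_left (ω : Env 1) (hreg : Regular ω) (x y z : ℤ) (h1 : y ≤ x) (h2 : z ≤ y) :
    travel ω (axis x) (axis y) ≤ travel ω (axis x) (axis z) :=
  line_travel ω hreg (Or.inr ⟨h1, h2⟩)

private theorem line_cost_right (ω : Env 1) (hreg : Regular ω) (y z : ℤ) (h2 : y ≤ z)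
    (l : List (Site 1)) (x : ℤ) (h1 : x ≤ y) :
    T ω (axis x) (axis y) ≤ cost ω (axis x) (l ++ [axis z]) := by
  induction l generalizing x with
  | nil =>
    simp only [List.nil_append, cost, add_zero]
    exact (T_le_travel ω _ _).trans (travel_mono_right ω hreg x y z h1 h2)
  | cons a l ih =>
    simp only [List.cons_append, cost]
    rw [eq_axis a]
    by_cases ha : a 0 ≤ y
    · exact (T_triangle ω _ (axis (a 0)) _).trans (add_le_add (T_le_travel ω _ _) (ih _ ha))
    · exact ((T_le_travel ω _ _).trans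
        (travel_mono_right ω hreg x y (a 0) h1 (not_le.1 ha).le)).trans le_self_add

private theorem line_cost_left (ω : Env 1) (hreg : Regular ω) (y z : ℤ) (h2 : z ≤ y)
    (l : List (Site 1)) (x : ℤ) (h1 : y ≤ x) :
    T ω (axis x) (axis y) ≤ cost ω (axis x) (l ++ [axis z]) := by
  induction l generalizing x with
  | nil =>
    simp only [List.nil_append, cost, add_zero]
    exact (T_le_travel ω _ _).trans (travel_mono_left ω hreg x y z h1 h2)
  | cons a l ih =>
    simp only [List.cons_append, cost]
    rw [eq_axis a]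
    by_cases ha : y ≤ a 0
    · exact (T_triangle ω _ (axis (a 0)) _).trans (add_le_add (T_le_travel ω _ _) (ih _ ha))
    · exact ((T_le_travel ω _ _).trans
        (travel_mono_left ω hreg x y (a 0) h1 (not_le.1 ha).le)).trans le_self_add

theorem T_mono_right (ω : Env 1) (hreg : Regular ω) (x y z : ℤ) (h1 : x ≤ y) (h2 : y ≤ z) :
    T ω (axis x) (axis y) ≤ T ω (axis x) (axis z) :=
  le_iInf fun l => line_cost_right ω hreg y z h2 l x h1

theorem T_mono_left (ω : Env 1) (hreg : Regular ω) (x y z : ℤ) (h1 : y ≤ x) (h2 : z ≤ y) :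
    T ω (axis x) (axis y) ≤ T ω (axis x) (axis z) :=
  le_iInf fun l => line_cost_left ω hreg y z h2 l x h1

variable {β : ℝ} {M : ℤ} {ω : Env 1} {t : Site 1 → ℝ≥0∞} {θ : Site 1 → Kind}

private theorem line_axis_inj {a b : ℤ} (h : (axis a : Site 1) = axis b) : a = b := by
  have := congrFun h 0
  rwa [line_axis_zero, line_axis_zero] at this

private theorem line_axis_eq_zero {a : ℤ} (h : (axis a : Site 1) = 0) : a = 0 := by
  have := congrFun h 0
  rwa [line_axis_zero] at this

theorem time_mono_right (hreg : Regular ω) (hβ0 : 0 < β) (hβ1 : β ≤ 1) (hM : 0 < M)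
    (h : IsTwoType β (axis M) ω t θ) (x y : ℤ) (h1 : M ≤ y) (h2 : y < x) :
    t (axis y) ≤ t (axis x) := by
  have key : ∀ s : Site 1, t s ≠ ⊤ → (∀ x : ℤ, s = axis x → y < x → t (axis y) ≤ t s) := by
    intro s hs
    refine parent_induction hreg h
      (fun s => ∀ x : ℤ, s = axis x → y < x → t (axis y) ≤ t s) ?_ s hs
    intro s hs ih x hsx hyx
    subst hsx
    obtain ⟨u, hu, _, he⟩ := h.parent (axis x) (fun h0 => by
      have := line_axis_eq_zero h0; omega) (fun h0 => by
      have := line_axis_inj h0; omega) hs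
    have hlt := time_lt hreg hβ0 h u (axis x) hu hs he
    by_cases huy : u 0 ≤ y
    · have h3 := h.le u (axis y)
      refine h3.trans ?_
      rw [he]
      gcongr
      rw [eq_axis u]
      exact travel_mono_right ω hreg _ _ _ huy hyx.le
    · exact (ih u hlt (u 0) (eq_axis u) (not_le.1 huy)).trans hlt.le
  by_cases hx : t (axis x) = ⊤
  · rw [hx]; exact le_top
  · exact key _ hx x rfl h2

theorem time_mono_left (hreg : Regular ω) (hβ0 : 0 < β) (hβ1 : β ≤ 1) (hM : 0 < M)
    (h : IsTwoType β (axis M) ω t θ) (x y : ℤ) (h1 : y ≤ 0) (h2 : x < y) :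
    t (axis y) ≤ t (axis x) := by
  have key : ∀ s : Site 1, t s ≠ ⊤ → (∀ x : ℤ, s = axis x → x < y → t (axis y) ≤ t s) := by
    intro s hs
    refine parent_induction hreg h
      (fun s => ∀ x : ℤ, s = axis x → x < y → t (axis y) ≤ t s) ?_ s hs
    intro s hs ih x hsx hyx
    subst hsx
    obtain ⟨u, hu, _, he⟩ := h.parent (axis x) (fun h0 => by
      have := line_axis_eq_zero h0; omega) (fun h0 => by
      have := line_axis_inj h0; omega) hs
    have hlt := time_lt hreg hβ0 h u (axis x) hu hs he
    by_cases huy : y ≤ u 0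
    · have h3 := h.le u (axis y)
      refine h3.trans ?_
      rw [he]
      gcongr
      rw [eq_axis u]
      exact travel_mono_left ω hreg _ _ _ huy hyx.le
    · exact (ih u hlt (u 0) (eq_axis u) (not_le.1 huy)).trans hlt.le
  by_cases hx : t (axis x) = ⊤
  · rw [hx]; exact le_top
  · exact key _ hx x rfl h2

end Frog81
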