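import Pool.Agent.H.MP_53e2a7_pr.h81.Shape
import Pool.Agent.H.MP_53e2a7_pr.h81.Disc

/-!
Module LogM: a bounded shape in dimension one forces `E log⁺ η < ∞`.

Proof.  `c, C` from `shape_global` (`‖axis k‖ = |k|`); choose a natural `R` with `c (1 + R) > C + 1`.
For `n ≥ 0` let `F n` be the event that some particle `j < (ω (axis n)).1` makes its first `R n` steps
all equal to `+1` and `clock (R n) ≤ n`.  On `F n`: `T 0 (axis ((1 + R) n)) ≤ T 0 (axis n) + n`, so
a.s. on `{1 ≤ (ω 0).1}`: `c (1 + R) n - K ≤ C n + K + n`, i.e. `F n` happens only for finitely many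
`n`.  The events `F n` are independent.  If `∑ P(F n) = ∞`, then a.s. infinitely many happen, which
contradicts `P(1 ≤ (ω 0).1) > 0`.  For one walk the probability of its part is `≥ q^n`; with
`N ≥ q^(-n)` particles the probability that none succeeds is `≤ (1 - q^n)^N ≤ exp (-1) ≤ 1/2`; so
with `I = log (1/q) > 0`: `P(F n) ≥ (1/2) ν {m | exp (I n) ≤ m}`.
-/

namespace Frog81

open MeasureTheory ProbabilityTheory Filter
open scoped ENNReal NNReal

private theorem logM_pos (w : Walk 1) (k : ℕ) (h : ∀ i < k, (w i).2 = (0, true)) :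
    pos 0 w k = axis (k : ℤ) := by
  unfold pos
  rw [zero_add, Finset.sum_congr rfl fun i hi => by rw [h i (Finset.mem_range.1 hi)],
    Finset.sum_const, Finset.card_range]
  funext i
  have hi : i = 0 := Subsingleton.elim _ _
  subst hi
  simp [unit, axis]

private theorem logM_exp (a : ℝ) (ha : 0 < a) : expMeasure 1 (Set.Iic a) ≠ 0 := by
  rw [← ofReal_cdf, cdf_expMeasure_eq one_pos, if_pos ha.le]
  have h1 : Real.exp (-(1 * a)) < 1 := Real.exp_lt_one_iff.2 (by linarith)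
  have h2 : 0 < 1 - Real.exp (-(1 * a)) := by linarith
  exact (ENNReal.ofReal_pos.2 h2).ne'

private theorem logM_step (a : Dir 1) : stepLaw 1 {a} ≠ 0 := by
  unfold stepLaw
  rw [uniformOn_univ, Measure.count_singleton]
  simp

/-- One walk runs `R n` steps to the right within time `n`. -/
theorem fast_walk (R : ℕ) (hR : 1 ≤ R) : ∃ q : ℝ, 0 < q ∧ q < 1 ∧ ∀ n : ℕ,
    ENNReal.ofReal (q ^ n) ≤
      walkLaw 1 {w | pos 0 w (R * n) = axis (R * n : ℕ) ∧ clock w (R * n) ≤ n} := by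
  have hR0 : (0 : ℝ) < R := by exact_mod_cast hR
  obtain ⟨B, hB⟩ : ∃ B : Set (ℝ × Dir 1), B = Set.Iic ((1 : ℝ) / R) ×ˢ {((0 : Fin 1), true)} :=
    ⟨_, rfl⟩
  have hBm : MeasurableSet B := by
    rw [hB]
    exact measurableSet_Iic.prod (measurableSet_singleton _)
  obtain ⟨b, hb⟩ : ∃ b : ℝ≥0∞, b = ((expMeasure 1).prod (stepLaw 1)) B := ⟨_, rfl⟩
  have hb0 : b ≠ 0 := by
    rw [hb, hB, Measure.prod_prod]
    exact mul_ne_zero (logM_exp _ (by positivity)) (logM_step _)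
  have hb1 : b ≤ 1 := by
    rw [hb]
    exact prob_le_one
  have hbt : b ≠ ⊤ := ne_top_of_le_ne_top ENNReal.one_ne_top hb1
  have hr0 : 0 < b.toReal := ENNReal.toReal_pos hb0 hbt
  have hr1 : b.toReal ≤ 1 := by
    have := ENNReal.toReal_mono ENNReal.one_ne_top hb1
    simpa using this
  refine ⟨(b.toReal / 2) ^ R, by positivity, pow_lt_one₀ (by positivity) (by linarith) (by omega),
    fun n => ?_⟩
  have h1 : ((b.toReal / 2) ^ R) ^ n ≤ b.toReal ^ (R * n) := by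
    rw [← pow_mul]
    exact pow_le_pow_left₀ (by positivity) (by linarith) _
  have h2 : ENNReal.ofReal (b.toReal ^ (R * n)) = b ^ (R * n) := by
    rw [ENNReal.ofReal_pow hr0.le, ENNReal.ofReal_toReal hbt]
  have h3 : walkLaw 1 (Set.pi (Finset.range (R * n) : Set ℕ) fun _ => B) = b ^ (R * n) := by
    unfold walkLaw
    rw [Measure.infinitePi_pi _ fun _ _ => hBm, Finset.prod_const, Finset.card_range, hb]
  refine (ENNReal.ofReal_le_ofReal h1).trans ?_
  rw [h2, ← h3]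
  refine measure_mono fun w hw => ?_
  have hw' : ∀ i < R * n, (w i).1 ≤ 1 / R ∧ (w i).2 = (0, true) := by
    intro i hi
    have h4 := hw i (by simpa using hi)
    rw [hB] at h4
    exact ⟨h4.1, h4.2⟩
  refine ⟨logM_pos w _ fun i hi => (hw' i hi).2, ?_⟩
  unfold clock
  calc ∑ i ∈ Finset.range (R * n), (w i).1 ≤ ∑ i ∈ Finset.range (R * n), (1 / R : ℝ) :=
        Finset.sum_le_sum fun i hi => (hw' i (Finset.mem_range.1 hi)).1
    _ = n := by
        rw [Finset.sum_const, Finset.card_range, nsmul_eq_mul]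
        push_cast
        field_simp

private theorem logM_prod (p : ℝ≥0∞) (S : Set (Walk 1)) (hSm : MeasurableSet S) (N : ℕ) (x : ℝ)
    (hx0 : 0 ≤ x) (hx1 : x ≤ 1) (hN : 1 ≤ x * N) (hp : p = walkLaw 1 S)
    (hxp : ENNReal.ofReal x ≤ p) :
    ENNReal.ofReal (1 / 2) ≤
      (Measure.infinitePi fun _ : ℕ => walkLaw 1) {ws : ℕ → Walk 1 | ∃ j < N, ws j ∈ S} := by
  have hc : {ws : ℕ → Walk 1 | ∃ j < N, ws j ∈ S}ᶜ =
      Set.pi (Finset.range N : Set ℕ) fun _ => Sᶜ := by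
    ext ws
    simp [Set.mem_pi]
  have hcm : MeasurableSet (Set.pi (Finset.range N : Set ℕ) fun _ => Sᶜ : Set (ℕ → Walk 1)) :=
    MeasurableSet.pi (Finset.countable_toSet _) fun _ _ => hSm.compl
  have hHm : MeasurableSet {ws : ℕ → Walk 1 | ∃ j < N, ws j ∈ S} := by
    rw [← MeasurableSet.compl_iff, hc]
    exact hcm
  have h1 : (Measure.infinitePi fun _ : ℕ => walkLaw 1)
      (Set.pi (Finset.range N : Set ℕ) fun _ => Sᶜ) = (walkLaw 1 Sᶜ) ^ N := by
    rw [Measure.infinitePi_pi _ fun _ _ => hSm.compl, Finset.prod_const, Finset.card_range]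
  have h2 : walkLaw 1 Sᶜ ≤ ENNReal.ofReal (1 - x) := by
    rw [prob_compl_eq_one_sub hSm, ← hp, ENNReal.ofReal_sub _ hx0, ENNReal.ofReal_one]
    exact tsub_le_tsub_left hxp 1
  have h3 : (1 - x) ^ N ≤ 1 / 2 := by
    have h4 : (1 - x) ^ N ≤ Real.exp (-x) ^ N :=
      pow_le_pow_left₀ (by linarith) (Real.one_sub_le_exp_neg x) N
    have h5 : Real.exp (-x) ^ N = Real.exp (-(x * N)) := by
      rw [← Real.exp_nat_mul]
      congr 1
      ring
    have h6 : Real.exp (-(x * N)) ≤ Real.exp (-1) := Real.exp_le_exp.2 (by linarith)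
    have h7 : Real.exp (-1) ≤ 1 / 2 := by
      rw [Real.exp_neg, ← one_div]
      exact one_div_le_one_div_of_le (by norm_num) (by linarith [Real.exp_one_gt_d9])
    linarith
  have h4 : (Measure.infinitePi fun _ : ℕ => walkLaw 1)
      {ws : ℕ → Walk 1 | ∃ j < N, ws j ∈ S}ᶜ ≤ ENNReal.ofReal (1 / 2) := by
    rw [hc, h1]
    calc (walkLaw 1 Sᶜ) ^ N ≤ (ENNReal.ofReal (1 - x)) ^ N := by gcongr
      _ = ENNReal.ofReal ((1 - x) ^ N) := (ENNReal.ofReal_pow (by linarith) _).symm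
      _ ≤ ENNReal.ofReal (1 / 2) := ENNReal.ofReal_le_ofReal h3
  have h5 := prob_compl_eq_one_sub (μ := Measure.infinitePi fun _ : ℕ => walkLaw 1) hHm.compl
  rw [compl_compl] at h5
  rw [h5]
  have h6 : ENNReal.ofReal (1 / 2) = 1 - ENNReal.ofReal (1 / 2) := by
    rw [← ENNReal.ofReal_one, ← ENNReal.ofReal_sub _ (by norm_num)]
    norm_num
  rw [h6]
  exact tsub_le_tsub_left h4 1

private theorem logM_axis_injective : Function.Injective (fun n : ℕ => (axis (n : ℤ) : Site 1)) := by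
  intro n m h
  have h1 := congrFun h 0
  unfold axis at h1
  simp only [if_true] at h1
  exact_mod_cast h1

private theorem logM_norm (k : ℕ) : ‖(axis (k : ℤ) : Site 1)‖ = k := by
  have h1 : (axis (k : ℤ) : Site 1) = fun _ => (k : ℤ) := by
    funext i
    have hi : i = 0 := Subsingleton.elim _ _
    subst hi
    simp [axis]
  rw [h1, pi_norm_const]
  simp

private theorem logM_indep (ν : Measure ℕ) [IsProbabilityMeasure ν] (G : ℕ → Set (SiteData 1))
    (hGm : ∀ n, MeasurableSet (G n)) :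
    iIndepSet (fun n : ℕ => (fun ω : Env 1 => ω (axis (n : ℤ))) ⁻¹' (G n)) (envLaw 1 ν) := by
  have hind := (iIndepFun_sites (d := 1) ν).precomp logM_axis_injective
  have hm : ∀ n : ℕ, MeasurableSet ((fun ω : Env 1 => ω (axis (n : ℤ))) ⁻¹' (G n)) :=
    fun n => (measurable_pi_apply (axis (n : ℤ))) (hGm n)
  rw [iIndepSet_iff_meas_biInter hm]
  intro I
  exact (iIndepFun_iff_measure_inter_preimage_eq_mul.1 hind) I (sets := G) fun n _ => hGm n

/-- The deterministic part: if the event with number `n` happens then `n` is bounded. -/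
private theorem logM_det {ω : Env 1} {c C K : ℝ} {R n : ℕ} (hK0 : 0 ≤ K) (hC : 0 < C)
    (hK : ∀ y : Site 1, T ω 0 y ≤ ENNReal.ofReal (C * ‖y‖ + K) ∧
      ENNReal.ofReal (c * ‖y‖ - K) ≤ T ω 0 y)
    (hn : ∃ j < (ω (axis (n : ℤ))).1, pos 0 ((ω (axis (n : ℤ))).2 j) (R * n) = axis (R * n : ℕ) ∧
      clock ((ω (axis (n : ℤ))).2 j) (R * n) ≤ n) :
    (c * (1 + R) - (C + 1)) * n ≤ 2 * K := by
  obtain ⟨j, hj, h1, h2⟩ := hn
  have h3 : travel ω (axis (n : ℤ)) (axis ((n + R * n : ℕ) : ℤ)) ≤ ENNReal.ofReal n := by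
    unfold travel
    refine (iInf₂_le j hj).trans ?_
    unfold hit
    refine (iInf₂_le (R * n) ?_).trans (ENNReal.ofReal_le_ofReal h2)
    have h4 : pos (axis (n : ℤ)) ((ω (axis (n : ℤ))).2 j) (R * n) =
        axis (n : ℤ) + pos 0 ((ω (axis (n : ℤ))).2 j) (R * n) := by
      unfold pos
      rw [zero_add]
    rw [h4, h1]
    funext i
    have hi : i = 0 := Subsingleton.elim _ _
    subst hi
    simp [axis]
  have h4 := (hK (axis ((n + R * n : ℕ) : ℤ))).2
  have h5 := T_triangle ω 0 (axis (n : ℤ)) (axis ((n + R * n : ℕ) : ℤ))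
  have h6 := (hK (axis (n : ℤ))).1
  have h7 := T_le_travel ω (axis (n : ℤ)) (axis ((n + R * n : ℕ) : ℤ))
  rw [logM_norm] at h4 h6
  have h8 : ENNReal.ofReal (c * ((n + R * n : ℕ) : ℝ) - K) ≤ ENNReal.ofReal (C * n + K + n) := by
    rw [ENNReal.ofReal_add (by positivity) (by positivity)]
    exact h4.trans (h5.trans (add_le_add h6 (h7.trans h3)))
  rw [ENNReal.ofReal_le_ofReal_iff (by positivity)] at h8
  push_cast at h8
  linarith

theorem logMoment_of_shape (ν : Measure ℕ) [IsProbabilityMeasure ν] (h : HasBoundedShape 1 ν) :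
    LogMoment ν := by
  obtain ⟨c, C, hc, hC, hae⟩ := shape_global (d := 1) ν h
  obtain ⟨R, hR1, hR⟩ : ∃ R : ℕ, 1 ≤ R ∧ C + 1 < c * (1 + R) := by
    obtain ⟨r, hr⟩ := exists_nat_gt ((C + 1) / c)
    refine ⟨r + 1, by omega, ?_⟩
    rw [div_lt_iff₀ hc] at hr
    push_cast
    nlinarith
  obtain ⟨q, hq0, hq1, hq⟩ := fast_walk R hR1
  obtain ⟨S, hS⟩ : ∃ S : ℕ → Set (Walk 1), S = fun n =>
      {w | pos 0 w (R * n) = axis (R * n : ℕ) ∧ clock w (R * n) ≤ n} := ⟨_, rfl⟩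
  have hSm : ∀ n, MeasurableSet (S n) := by
    intro n
    rw [hS]
    exact ((measurable_pos 0 (R * n)) (measurableSet_singleton _)).inter
      (measurableSet_le (measurable_clock _) measurable_const)
  obtain ⟨G, hG⟩ : ∃ G : ℕ → Set (SiteData 1), G = fun n => {s | ∃ j < s.1, s.2 j ∈ S n} := ⟨_, rfl⟩
  have hGm : ∀ n, MeasurableSet (G n) := by
    intro n
    have h1 : G n = ⋃ j : ℕ, (Prod.fst ⁻¹' {m : ℕ | j < m}) ∩
        ((fun s : SiteData 1 => s.2 j) ⁻¹' (S n)) := by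
      rw [hG]
      ext s
      simp
    rw [h1]
    refine MeasurableSet.iUnion fun j => (measurable_fst MeasurableSet.of_discrete).inter ?_
    exact ((measurable_pi_apply j).comp measurable_snd) (hSm n)
  obtain ⟨F, hF⟩ : ∃ F : ℕ → Set (Env 1), F = fun n : ℕ =>
      (fun ω : Env 1 => ω (axis (n : ℤ))) ⁻¹' (G n) := ⟨_, rfl⟩
  have hFm : ∀ n, MeasurableSet (F n) := by
    intro n
    rw [hF]
    exact (measurable_pi_apply _) (hGm n)
  have hFi : iIndepSet F (envLaw 1 ν) := by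
    rw [hF]
    exact logM_indep ν G hGm
  -- almost surely on `1 ≤ (ω 0).1` finitely many of them happen
  have hfin : ∀ᵐ ω ∂ envLaw 1 ν, 1 ≤ (ω 0).1 → ω ∉ limsup F atTop := by
    filter_upwards [hae] with ω hω h0 hlim
    obtain ⟨K, hK0, hK⟩ := hω h0
    rw [mem_limsup_iff_frequently_mem] at hlim
    obtain ⟨N, hN⟩ := exists_nat_gt (2 * K / (c * (1 + R) - (C + 1)))
    obtain ⟨n, hn, hnF⟩ := (frequently_atTop.1 hlim) N
    have h1 : (c * (1 + R) - (C + 1)) * n ≤ 2 * K := by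
      refine logM_det hK0 hC hK ?_
      rw [hF, hG, hS] at hnF
      exact hnF
    rw [div_lt_iff₀ (by linarith)] at hN
    have h2 : (N : ℝ) ≤ n := by exact_mod_cast hn
    nlinarith
  -- the sum of the probabilities is finite
  have hsum : ∑' n, envLaw 1 ν (F n) ≠ ⊤ := by
    intro htop
    have hlim := measure_limsup_eq_one hFm hFi htop
    have hae2 : ∀ᵐ ω ∂ envLaw 1 ν, ω ∈ limsup F atTop := by
      rw [← prob_compl_eq_zero_iff (MeasurableSet.measurableSet_limsup hFm)] at hlim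
      exact hlim
    have hae3 : ∀ᵐ ω ∂ envLaw 1 ν, ¬ 1 ≤ (ω 0).1 := by
      filter_upwards [hfin, hae2] with ω h1 h2 h3
      exact h1 h3 h2
    have h4 : envLaw 1 ν {ω | 1 ≤ (ω 0).1} = 0 := by
      have h5 := measure_mono_null (s := {ω : Env 1 | 1 ≤ (ω 0).1})
        (t := {ω : Env 1 | ¬ 1 ≤ (ω 0).1}ᶜ) (fun ω hω h' => h' hω) (mem_ae_iff.1 hae3)
      exact h5
    have h6 : envLaw 1 ν {ω | 1 ≤ (ω 0).1} = ν {0}ᶜ := by
      have h7 : {ω : Env 1 | 1 ≤ (ω 0).1} = (fun ω : Env 1 => ω 0) ⁻¹'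
          (Prod.fst ⁻¹' ({0}ᶜ : Set ℕ)) := by
        ext ω
        show 1 ≤ (ω 0).1 ↔ (ω 0).1 ≠ 0
        exact Nat.one_le_iff_ne_zero
      have hm : MeasurableSet (Prod.fst ⁻¹' ({0}ᶜ : Set ℕ) : Set (SiteData 1)) :=
        measurable_fst MeasurableSet.of_discrete
      rw [h7, (measurePreserving_site ν (0 : Site 1)).measure_preimage hm.nullMeasurableSet]
      exact (measurePreserving_fst (μ := ν)
        (ν := Measure.infinitePi fun _ : ℕ => walkLaw 1)).measure_preimage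
        (MeasurableSet.of_discrete).nullMeasurableSet
    exact h.1 (h6.symm.trans h4)
  -- lower bound for the probabilities
  obtain ⟨I, hI⟩ : ∃ I : ℝ, I = -Real.log q := ⟨_, rfl⟩
  have hI0 : 0 < I := by
    rw [hI]
    linarith [Real.log_neg hq0 hq1]
  have hIq : ∀ n : ℕ, q ^ n * Real.exp (I * n) = 1 := by
    intro n
    have h1 : q ^ n = Real.exp (-(I * n)) := by
      rw [hI]
      rw [show -(-Real.log q * (n : ℝ)) = n * Real.log q by ring, Real.exp_nat_mul,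
        Real.exp_log hq0]
    rw [h1, ← Real.exp_add]
    simp
  have hlow : ∀ n : ℕ, ν {m : ℕ | Real.exp (I * n) ≤ m} * ENNReal.ofReal (1 / 2) ≤
      envLaw 1 ν (F n) := by
    intro n
    have h1 : envLaw 1 ν (F n) = siteLaw 1 ν (G n) := by
      rw [hF]
      exact (measurePreserving_site ν (axis (n : ℤ))).measure_preimage (hGm n).nullMeasurableSet
    obtain ⟨N, hN⟩ : ∃ N : ℕ, N = ⌈Real.exp (I * n)⌉₊ := ⟨_, rfl⟩
    have h2 : ({m : ℕ | Real.exp (I * n) ≤ m} ×ˢ {ws : ℕ → Walk 1 | ∃ j < N, ws j ∈ S n} :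
        Set (SiteData 1)) ⊆ G n := by
      rintro ⟨m, ws⟩ ⟨hm, j, hj, hjS⟩
      rw [hG]
      refine ⟨j, lt_of_lt_of_le hj ?_, hjS⟩
      rw [hN]
      exact Nat.ceil_le.2 hm
    have hpow0 : 0 ≤ q ^ n := by positivity
    have hN1 : 1 ≤ q ^ n * N := by
      rw [← hIq n]
      refine mul_le_mul_of_nonneg_left ?_ hpow0
      rw [hN]
      exact Nat.le_ceil _
    have h3 := logM_prod (walkLaw 1 (S n)) (S n) (hSm n) N (q ^ n) hpow0
      (pow_le_one₀ hq0.le hq1.le) hN1 rfl (by rw [hS]; exact hq n)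
    rw [h1]
    refine le_trans ?_ (measure_mono h2)
    unfold siteLaw
    rw [Measure.prod_prod]
    exact mul_le_mul_right h3 _
  have hsum2 : ∑' n : ℕ, ν {m : ℕ | Real.exp (I * n) ≤ m} ≠ ⊤ := by
    intro htop
    apply hsum
    rw [eq_top_iff]
    calc (⊤ : ℝ≥0∞) = (∑' n : ℕ, ν {m : ℕ | Real.exp (I * n) ≤ m}) * ENNReal.ofReal (1 / 2) := by
          rw [htop, ENNReal.top_mul]
          exact (ENNReal.ofReal_pos.2 (by norm_num)).ne'
      _ = ∑' n : ℕ, ν {m : ℕ | Real.exp (I * n) ≤ m} * ENNReal.ofReal (1 / 2) :=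
          ENNReal.tsum_mul_right.symm
      _ ≤ ∑' n, envLaw 1 ν (F n) := ENNReal.tsum_le_tsum hlow
  -- general `δ`
  intro δ hδ
  obtain ⟨r, hr⟩ := exists_nat_gt (I / δ)
  rw [div_lt_iff₀ hδ] at hr
  have hr0 : 0 < r := by
    rcases Nat.eq_zero_or_pos r with h0 | h0
    · rw [h0] at hr
      push_cast at hr
      linarith
    · exact h0
  have : NeZero r := ⟨hr0.ne'⟩
  have hle : ∀ n : ℕ, ν {m : ℕ | Real.exp (δ * n) ≤ m} ≤
      ν {m : ℕ | Real.exp (I * ((n / r : ℕ) : ℝ)) ≤ m} := by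
    intro n
    refine measure_mono fun m hm => le_trans (Real.exp_le_exp.2 ?_) hm
    have h1 : ((r * (n / r) : ℕ) : ℝ) ≤ n := by exact_mod_cast Nat.mul_div_le n r
    push_cast at h1
    have h2 : (0 : ℝ) ≤ ((n / r : ℕ) : ℝ) := by positivity
    calc I * ((n / r : ℕ) : ℝ) ≤ r * δ * ((n / r : ℕ) : ℝ) :=
          mul_le_mul_of_nonneg_right hr.le h2
      _ = δ * (r * ((n / r : ℕ) : ℝ)) := by ring
      _ ≤ δ * n := mul_le_mul_of_nonneg_left h1 hδ.le
  have hfinal : ∑' n : ℕ, ν {m : ℕ | Real.exp (I * ((n / r : ℕ) : ℝ)) ≤ m} =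
      r * ∑' k : ℕ, ν {m : ℕ | Real.exp (I * k) ≤ m} := by
    have h1 : ∑' n : ℕ, ν {m : ℕ | Real.exp (I * ((n / r : ℕ) : ℝ)) ≤ m} =
        ∑' p : ℕ × Fin r, ν {m : ℕ | Real.exp (I * (p.1 : ℝ)) ≤ m} := by
      rw [← (Nat.divModEquiv r).tsum_eq]
      rfl
    rw [h1, ENNReal.tsum_prod (f := fun (k : ℕ) (_ : Fin r) =>
      ν {m : ℕ | Real.exp (I * (k : ℝ)) ≤ m})]
    have h2 : ∀ k : ℕ, ∑' _ : Fin r, ν {m : ℕ | Real.exp (I * (k : ℝ)) ≤ m} =
        r * ν {m : ℕ | Real.exp (I * (k : ℝ)) ≤ m} := by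
      intro k
      rw [tsum_fintype, Finset.sum_const, Finset.card_univ, Fintype.card_fin, nsmul_eq_mul]
    simp only [h2]
    exact ENNReal.tsum_mul_left
  refine ne_top_of_le_ne_top ?_ (ENNReal.tsum_le_tsum hle)
  rw [hfinal]
  exact ENNReal.mul_ne_top (ENNReal.natCast_ne_top r) hsum2

end Frog81
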