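import Pool.Agent.H.MP_53e2a7_pr.h81.Defs

/-!
Module Meas: measurability.  `Dir d` is finite with measurable singletons, so `unit (w i).2` is a
measurable function of `w` (`measurable_of_countable`/`Measurable.of_discrete` composed with
coordinate projections), `pos x w k` and `clock w k` are finite sums, `hit` is a countable infimum of
`if pos x w k = y then ofReal (clock w k) else ⊤`, `travel` is a countable infimum over `j` of
`if j < (ω x).1 then hit x y ((ω x).2 j) else ⊤`, `cost` is a finite sum (induction on the list), `T`
an infimum over the countable type of lists.  `measurableSet_infinite`: with an encoding of the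
countable type of sites, a set of sites is infinite iff for all `n` it contains a site with code
`≥ n`.
-/

namespace Frog81

open MeasureTheory ProbabilityTheory Filter
open scoped ENNReal NNReal

theorem measurable_clock {d : ℕ} (k : ℕ) : Measurable (fun w : Walk d => clock w k) := by
  unfold clock
  exact Finset.measurable_sum _ fun i _ => measurable_fst.comp (measurable_pi_apply i)

theorem measurable_pos {d : ℕ} (x : Site d) (k : ℕ) : Measurable (fun w : Walk d => pos x w k) := by
  have hu : Measurable (unit : Dir d → Site d) := measurable_of_countable _
  unfold pos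
  exact (Finset.measurable_sum _ fun i _ =>
    hu.comp (measurable_snd.comp (measurable_pi_apply i))).const_add x

theorem measurable_hit {d : ℕ} (x y : Site d) : Measurable (fun w : Walk d => hit x y w) := by
  classical
  unfold hit
  refine Measurable.iInf fun k => ?_
  have h : (fun w : Walk d => ⨅ (_ : pos x w k = y), ENNReal.ofReal (clock w k)) =
      fun w => if pos x w k = y then ENNReal.ofReal (clock w k) else ⊤ := by
    funext w
    exact iInf_eq_if _
  rw [h]
  exact Measurable.ite (measurable_pos x k (measurableSet_singleton y))
    (measurable_clock k).ennreal_ofReal measurable_const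

theorem measurable_count {d : ℕ} (x : Site d) : Measurable (fun ω : Env d => (ω x).1) :=
  measurable_fst.comp (measurable_pi_apply x)

theorem measurable_travel {d : ℕ} (x y : Site d) : Measurable (fun ω : Env d => travel ω x y) := by
  classical
  unfold travel
  refine Measurable.iInf fun j => ?_
  have h : (fun ω : Env d => ⨅ (_ : j < (ω x).1), hit x y ((ω x).2 j)) =
      fun ω => if j < (ω x).1 then hit x y ((ω x).2 j) else ⊤ := by
    funext w
    exact iInf_eq_if _
  rw [h]
  refine Measurable.ite ?_ ?_ measurable_const
  · exact measurable_count x (measurableSet_Ioi (a := j))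
  · exact (measurable_hit x y).comp
      ((measurable_pi_apply j).comp (measurable_snd.comp (measurable_pi_apply x)))

/-- The cost of a list of sites is measurable. -/
theorem Meas_cost {d : ℕ} (x : Site d) (l : List (Site d)) :
    Measurable (fun ω : Env d => cost ω x l) := by
  induction l generalizing x with
  | nil => exact measurable_const
  | cons a l ih => exact (measurable_travel x a).add (ih a)

theorem measurable_T {d : ℕ} (x y : Site d) : Measurable (fun ω : Env d => T ω x y) := by
  unfold T
  exact Measurable.iInf fun l => Meas_cost x (l ++ [y])

theorem measurable_Tp (x : ℤ) (n : ℕ) : Measurable (fun ω : Env 1 => Tp ω x n) := by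
  induction n using Nat.strong_induction_on with
  | _ n ih =>
    cases n with
    | zero =>
      have h : (fun ω : Env 1 => Tp ω x 0) = fun _ => 0 := by
        funext ω
        rw [Tp]
      rw [h]
      exact measurable_const
    | succ n =>
      have h : (fun ω : Env 1 => Tp ω x (n + 1)) = fun ω => ⨅ i : Fin (n + 1), Tp ω x i.1 +
          travel ω (axis (x + i.1)) (axis (x + (n + 1))) := by
        funext ω
        rw [Tp]
      rw [h]
      exact Measurable.iInf fun i => (ih i.1 i.2).add (measurable_travel _ _)

theorem measurableSet_infinite {d : ℕ} {Ω : Type*} [MeasurableSpace Ω] (p : Ω → Site d → Prop)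
    (hp : ∀ y, MeasurableSet {ω | p ω y}) : MeasurableSet {ω | {y | p ω y}.Infinite} := by
  obtain ⟨f, hf⟩ := exists_injective_nat (Site d)
  have h : {ω | {y | p ω y}.Infinite} = ⋂ n : ℕ, ⋃ y : {y : Site d // n ≤ f y}, {ω | p ω y} := by
    ext ω
    simp only [Set.mem_ofPred_eq, Set.mem_iInter, Set.mem_iUnion]
    constructor
    · intro hi n
      by_contra hcon
      push Not at hcon
      refine hi ((Set.Finite.preimage hf.injOn (Set.finite_Iio n)).subset fun y hy => ?_)
      by_contra hy'
      exact hcon ⟨y, not_lt.1 hy'⟩ hy
    · intro hall hfin
      obtain ⟨N, hN⟩ := (hfin.image f).bddAbove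
      obtain ⟨⟨y, hy⟩, hpy⟩ := hall (N + 1)
      have h1 : f y ≤ N := hN (Set.mem_image_of_mem f hpy)
      omega
  rw [h]
  exact MeasurableSet.iInter fun n => MeasurableSet.iUnion fun y => hp y

end Frog81
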