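import Pool.Agent.H.MP_53e2a7_pr.h81.Full
import Pool.Agent.H.MP_53e2a7_pr.h81.Front
import Pool.Agent.H.MP_53e2a7_pr.h81.Catch
import Pool.Agent.H.MP_53e2a7_pr.h81.LogM
import Pool.Agent.H.MP_53e2a7_pr.h81.IfHalf

/-!
Module OneDim: the one-dimensional theorem.

`half_bound`: `C` from `shape_global` (norm of `axis n` is `n`), `logMoment_of_shape`, `ae_finite`,
`half_of_full`: a.s. on `{1 ≤ (ω 0).1}` there is a natural `D` with `Tp ω 0 n ≤ C n + D` for all `n`;
the measurable sets `{1 ≤ (ω 0).1, ¬ ∀ n, Tp ω 0 n ≤ C n + D}` decrease in `D` to a null set.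
`lower_bound`: the same from the lower bound of `shape_global`.

`measurable_catch`: countable unions.

`one_dim`.  `p = ν {0}ᶜ > 0` (as a real number), `C`, `c` from the two bounds, `δ = p^2 / 16`, `D` and
`K` natural numbers for this `δ`.  For `M ≥ 1` let `S M` be the set of `ω` with: `0` and `axis M`
occupied; `Tp ω M n ≤ C n + D` and `Tp (reflect ω) 0 n ≤ C n + D` for all `n`;
`c |x| - K ≤ T ω 0 (axis x)` and `c |x - M| - K ≤ T ω (axis M) (axis x)` for all `x`; not
`CatchRight (C / β) (β c / C) ((β K + D) / C) M ω`; not `CatchLeft C (c / C) ((K + D) / C) M ω`.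
Each of the first four conditions fails with `0` resp. `axis M` occupied with probability `≤ δ`
(`measurePreserving_shift` with `Tp_shift`, `T_shift`; `measurePreserving_reflect`), the last two
fail with probability tending to zero (`catch_right`, `catch_left`), and both sites are occupied with
probability `p^2` (independence).  So `S M` has positive probability for a large `M`.

On `S M`, up to a null set: `Regular`, `ae_finite`, so the process exists (`exists_twoType`).  Let
`(t, θ)` be a two-type process.  `right_front` with `b n = ofReal (C n + D)`: if for some `x < M`,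
`n ≥ 1` we had `T ω 0 (axis x) + travel (axis x) (axis (M + n)) ≤ b n / ofReal β =
ofReal ((C n + D) / β)`, then by `travel_attained` there are `j < (ω (axis x)).1` and `k` with
`pos 0 w k 0 = M + n - x` and `clock w k ≤ (C n + D) / β - (c |x| - K)` (real numbers; if
`c |x| - K < 0` the first summand is only `≥ 0`, but then use `0 ≤ T` and... note
`T ω 0 (axis x) ≥ ofReal (c |x| - K)`, whose real value is `≥ c |x| - K` in all cases), so
`n ≥ (β / C) (clock w k + c |x| - K) - D / C` and
`pos 0 w k 0 ≥ (M - x) + (β c / C) |x| - (β K + D) / C + clock w k / (C / β)`: this is `CatchRight`,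
contradiction.  Similarly `left_front` with `CatchLeft`.  So all `axis (M + n)` are of type two and all
`axis (-n)` of type one, and infinitely many of each are occupied (`ae_occupied`); hence both types
activate infinitely many particles.  Conclude with `coexistence_of_ae`.
-/

namespace Frog81

open MeasureTheory ProbabilityTheory Filter
open scoped ENNReal NNReal

variable (ν : Measure ℕ) [IsProbabilityMeasure ν]

private theorem exists_small (occ : Set (Env 1)) (A : ℕ → Env 1 → Prop) (hocc : MeasurableSet occ)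
    (hA : ∀ D, MeasurableSet {ω | A D ω}) (hmono : ∀ D D' ω, D ≤ D' → A D ω → A D' ω)
    (h : ∀ᵐ ω ∂ envLaw 1 ν, ω ∈ occ → ∃ D, A D ω) (δ : ℝ) (hδ : 0 < δ) :
    ∃ D, envLaw 1 ν {ω | ω ∈ occ ∧ ¬ A D ω} ≤ ENNReal.ofReal δ := by
  have hm : ∀ D, MeasurableSet {ω | ω ∈ occ ∧ ¬ A D ω} := fun D => hocc.inter (hA D).compl
  have hanti : Antitone (fun D => {ω | ω ∈ occ ∧ ¬ A D ω}) := by
    intro D D' hD ω hω
    exact ⟨hω.1, fun hc => hω.2 (hmono D D' ω hD hc)⟩
  have hlim := tendsto_measure_iInter_atTop (μ := envLaw 1 ν)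
    (fun D => (hm D).nullMeasurableSet) hanti ⟨0, measure_ne_top _ _⟩
  have hnull : envLaw 1 ν (⋂ D, {ω | ω ∈ occ ∧ ¬ A D ω}) = 0 := by
    refine measure_mono_null ?_ (ae_iff.mp h)
    intro ω hω
    rw [Set.mem_iInter] at hω
    intro hc
    obtain ⟨D, hD⟩ := hc (hω 0).1
    exact (hω D).2 hD
  rw [hnull] at hlim
  have hev := (tendsto_order.1 hlim).2 (ENNReal.ofReal δ) (ENNReal.ofReal_pos.mpr hδ)
  obtain ⟨D, hD⟩ := hev.exists
  exact ⟨D, hD.le⟩

theorem norm_axis_one (k : ℤ) : ‖(axis k : Site 1)‖ = |(k : ℝ)| := by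
  rw [Pi.norm_def]
  simp [axis, Int.norm_eq_abs]

private theorem measurableSet_occ (x : Site 1) : MeasurableSet {ω : Env 1 | 1 ≤ (ω x).1} :=
  measurableSet_le measurable_const (measurable_count x)

private theorem measurableSet_Tp_le (x : ℤ) (b : ℕ → ℝ≥0∞) :
    MeasurableSet {ω : Env 1 | ∀ n : ℕ, Tp ω x n ≤ b n} := by
  refine measurableSet_setOfPred.2 (Measurable.forall fun n => measurableSet_setOfPred.1 ?_)
  exact measurableSet_le (measurable_Tp x n) measurable_const

private theorem measurableSet_le_T (a : Site 1) (b : ℤ → ℝ≥0∞) :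
    MeasurableSet {ω : Env 1 | ∀ x : ℤ, b x ≤ T ω a (axis x)} := by
  refine measurableSet_setOfPred.2 (Measurable.forall fun n => measurableSet_setOfPred.1 ?_)
  exact measurableSet_le measurable_const (measurable_T a (axis n))

theorem half_bound (h : HasBoundedShape 1 ν) : ∃ C : ℝ, 0 < C ∧ ∀ δ : ℝ, 0 < δ → ∃ D : ℕ,
    envLaw 1 ν {ω | 1 ≤ (ω 0).1 ∧ ¬ ∀ n : ℕ, Tp ω 0 n ≤ ENNReal.ofReal (C * n + D)} ≤
      ENNReal.ofReal δ := by
  obtain ⟨c, C, hc, hC, hsh⟩ := shape_global ν h
  refine ⟨C, hC, fun δ hδ => ?_⟩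
  refine exists_small ν {ω | 1 ≤ (ω 0).1} (fun D ω => ∀ n : ℕ, Tp ω 0 n ≤ ENNReal.ofReal (C * n + D))
    (measurableSet_occ 0) (fun D => measurableSet_Tp_le 0 _) ?_ ?_ δ hδ
  · intro D D' ω hD hω n
    refine (hω n).trans (ENNReal.ofReal_le_ofReal ?_)
    have : (D : ℝ) ≤ D' := by exact_mod_cast hD
    linarith
  · filter_upwards [hsh, half_of_full ν (logMoment_of_shape ν h), ae_finite ν h] with ω h1 h2 h3 hocc
    obtain ⟨K, hK0, hK⟩ := h1 hocc
    have hT : ∀ n : ℕ, T ω 0 (axis n) ≤ ENNReal.ofReal (C * n + K) := by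
      intro n
      have := (hK (axis n)).1
      rw [norm_axis_one] at this
      simpa using this
    obtain ⟨D, hD0, hD⟩ := h2 hocc (h3 0 hocc).2 ⟨C, K, hT⟩
    obtain ⟨D', hD'⟩ := exists_nat_ge (K + D)
    refine ⟨D', fun n => ?_⟩
    refine (hD n).trans ?_
    refine (add_le_add_left (hT n) _).trans ?_
    rw [← ENNReal.ofReal_add (by positivity) hD0]
    exact ENNReal.ofReal_le_ofReal (by linarith)

theorem lower_bound (h : HasBoundedShape 1 ν) : ∃ c : ℝ, 0 < c ∧ ∀ δ : ℝ, 0 < δ → ∃ K : ℕ,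
    envLaw 1 ν {ω | 1 ≤ (ω 0).1 ∧
      ¬ ∀ x : ℤ, ENNReal.ofReal (c * |(x : ℝ)| - K) ≤ T ω 0 (axis x)} ≤ ENNReal.ofReal δ := by
  obtain ⟨c, C, hc, hC, hsh⟩ := shape_global ν h
  refine ⟨c, hc, fun δ hδ => ?_⟩
  refine exists_small ν {ω | 1 ≤ (ω 0).1}
    (fun K ω => ∀ x : ℤ, ENNReal.ofReal (c * |(x : ℝ)| - K) ≤ T ω 0 (axis x))
    (measurableSet_occ 0) (fun K => measurableSet_le_T 0 _) ?_ ?_ δ hδ
  · intro D D' ω hD hω n
    refine (ENNReal.ofReal_le_ofReal ?_).trans (hω n)
    have : (D : ℝ) ≤ D' := by exact_mod_cast hD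
    linarith
  · filter_upwards [hsh] with ω h1 hocc
    obtain ⟨K, hK0, hK⟩ := h1 hocc
    obtain ⟨K', hK'⟩ := exists_nat_ge K
    refine ⟨K', fun x => ?_⟩
    have := (hK (axis x)).2
    rw [norm_axis_one] at this
    exact (ENNReal.ofReal_le_ofReal (by linarith)).trans this

private theorem measurable_particle (x : Site 1) (j : ℕ) :
    Measurable (fun ω : Env 1 => (ω x).2 j) :=
  (measurable_pi_apply j).comp (measurable_snd.comp (measurable_pi_apply x))

private theorem measurable_S (k : ℕ) : Measurable (fun w : Walk 1 => ((pos 0 w k 0 : ℤ) : ℝ)) :=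
  (measurable_of_countable (fun z : ℤ => (z : ℝ))).comp
    ((measurable_pi_apply 0).comp (measurable_pos 0 k))

theorem measurable_catch (C κ K : ℝ) (M : ℕ) :
    MeasurableSet {ω : Env 1 | CatchRight C κ K M ω} ∧
    MeasurableSet {ω : Env 1 | CatchLeft C κ K M ω} := by
  constructor
  · refine measurableSet_setOfPred.2 (Measurable.exists fun x => ?_)
    refine Measurable.and measurable_const (Measurable.exists fun j => Measurable.and ?_
      (Measurable.exists fun k => ?_))
    · exact measurableSet_setOfPred.1 (measurableSet_lt measurable_const (measurable_count (axis x)))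
    · refine measurableSet_setOfPred.1 (measurableSet_le ?_ ?_)
      · exact measurable_const.add
          (((measurable_clock k).comp (measurable_particle (axis x) j)).div_const C)
      · exact (measurable_S k).comp (measurable_particle (axis x) j)
  · refine measurableSet_setOfPred.2 (Measurable.exists fun x => ?_)
    refine Measurable.and measurable_const (Measurable.exists fun j => Measurable.and ?_
      (Measurable.exists fun k => ?_))
    · exact measurableSet_setOfPred.1 (measurableSet_lt measurable_const (measurable_count (axis x)))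
    · refine measurableSet_setOfPred.1 (measurableSet_le ?_ ?_)
      · exact measurable_const.add
          (((measurable_clock k).comp (measurable_particle (axis x) j)).div_const C)
      · exact ((measurable_S k).comp (measurable_particle (axis x) j)).neg

private theorem occ_law (x : Site 1) : envLaw 1 ν {ω | 1 ≤ (ω x).1} = ν {0}ᶜ := by
  have h1 := (measurePreserving_site (d := 1) ν x).measure_preimage
    (s := {s : SiteData 1 | 1 ≤ s.1}) (measurableSet_le measurable_const measurable_fst).nullMeasurableSet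
  have h2 : (fun ω : Env 1 => ω x) ⁻¹' {s : SiteData 1 | 1 ≤ s.1} = {ω | 1 ≤ (ω x).1} := rfl
  rw [h2] at h1
  rw [h1, siteLaw]
  have h3 : {s : SiteData 1 | 1 ≤ s.1} = ({0}ᶜ : Set ℕ) ×ˢ Set.univ := by
    ext s
    simp [Nat.one_le_iff_ne_zero]
  rw [h3, Measure.prod_prod, measure_univ, mul_one]

private theorem occ_two (x y : Site 1) (hxy : x ≠ y) :
    envLaw 1 ν ({ω | 1 ≤ (ω x).1} ∩ {ω | 1 ≤ (ω y).1}) = ν {0}ᶜ * ν {0}ᶜ := by
  have h1 := (iIndepFun_sites (d := 1) ν).indepFun hxy
  have h2 := h1.measure_inter_preimage_eq_mul {s : SiteData 1 | 1 ≤ s.1}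
    {s : SiteData 1 | 1 ≤ s.1} (measurableSet_le measurable_const measurable_fst)
    (measurableSet_le measurable_const measurable_fst)
  have h3 : (fun ω : Env 1 => ω x) ⁻¹' {s : SiteData 1 | 1 ≤ s.1} = {ω | 1 ≤ (ω x).1} := rfl
  have h4 : (fun ω : Env 1 => ω y) ⁻¹' {s : SiteData 1 | 1 ≤ s.1} = {ω | 1 ≤ (ω y).1} := rfl
  rw [h3, h4, occ_law, occ_law] at h2
  exact h2

private theorem axis_zero : (axis 0 : Site 1) = 0 := by
  funext i; simp [axis]

private theorem axis_add (a b : ℤ) : (axis (a + b) : Site 1) = axis a + axis b := by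
  funext i; simp only [axis, Pi.add_apply]; split_ifs <;> simp

private theorem axis_ne {a b : ℤ} (h : a ≠ b) : (axis a : Site 1) ≠ axis b := by
  intro hc
  have := congrFun hc 0
  simp [axis] at this
  exact h this

private theorem pos_zero_eq (x y : ℤ) (w : Walk 1) (k : ℕ) (h : pos (axis x) w k = axis y) :
    pos 0 w k 0 = y - x := by
  have h1 := congrFun h 0
  simp only [pos, Pi.add_apply, axis, if_true] at h1
  simp only [pos, Pi.add_apply, Pi.zero_apply, zero_add]
  linarith

private theorem real_of_sum {a b r : ℝ} (_hb : 0 ≤ b) (hr : 0 ≤ r) {A : ℝ≥0∞}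
    (hA : ENNReal.ofReal a ≤ A) (h : A + ENNReal.ofReal b ≤ ENNReal.ofReal r) : a + b ≤ r := by
  have h1 : ENNReal.ofReal (a + b) ≤ ENNReal.ofReal r := by
    refine ENNReal.ofReal_add_le.trans ?_
    exact (add_le_add_left hA _).trans h
  exact (ENNReal.ofReal_le_ofReal_iff hr).1 h1

private theorem clock_nonneg (w : Walk 1) (hw : ∀ i, 0 < (w i).1) (k : ℕ) : 0 ≤ clock w k :=
  Finset.sum_nonneg fun i _ => (hw i).le

private theorem inf_kind (ω : Env 1) (t : Site 1 → ℝ≥0∞) (θ : Site 1 → Kind) (i : Kind) (a s : ℤ)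
    (hs : s ≠ 0) (hocc : {n : ℕ | 1 ≤ (ω (axis (a + s * n))).1}.Infinite)
    (h : ∀ n : ℕ, θ (axis (a + s * n)) = i ∧ t (axis (a + s * n)) ≠ ⊤) : Activates ω t θ i := by
  have hinj : Function.Injective (fun n : ℕ => (axis (a + s * n) : Site 1)) := by
    intro n m hnm
    have := congrFun hnm 0
    simp [axis] at this
    rcases this with h1 | h1
    · exact h1
    · exact absurd h1 hs
  refine (hocc.image hinj.injOn).mono ?_
  rintro y ⟨n, hn, rfl⟩
  exact ⟨(h n).1, (h n).2, hn⟩

theorem one_dim (h : HasBoundedShape 1 ν) (β : ℝ) (hβ0 : 0 < β) (hβ1 : β ≤ 1) :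
    CoexistencePossible 1 ν β := by
  obtain ⟨C, hC, hhalf⟩ := half_bound ν h
  obtain ⟨c, hc, hlow⟩ := lower_bound ν h
  have hlog := logMoment_of_shape ν h
  have hν : ν {0}ᶜ ≠ 0 := h.1
  set p : ℝ := (ν {0}ᶜ).toReal with hp
  have hp0 : 0 < p := ENNReal.toReal_pos hν (measure_ne_top _ _)
  have hpν : ν {0}ᶜ = ENNReal.ofReal p := (ENNReal.ofReal_toReal (measure_ne_top _ _)).symm
  set δ : ℝ := p ^ 2 / 16 with hδdef
  have hδ : 0 < δ := by positivity
  obtain ⟨D, hD⟩ := hhalf δ hδ
  obtain ⟨K, hK⟩ := hlow δ hδ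
  have hCβ : 0 < C / β := div_pos hC hβ0
  have hcr := catch_right ν hlog (C / β) (β * c / C) ((β * K + D) / C) hCβ (by positivity)
  have hcl := catch_left ν hlog C (c / C) ((K + D) / C) hC (by positivity)
  have he1 := (tendsto_order.1 hcr).2 (ENNReal.ofReal δ) (ENNReal.ofReal_pos.mpr hδ)
  have he2 := (tendsto_order.1 hcl).2 (ENNReal.ofReal δ) (ENNReal.ofReal_pos.mpr hδ)
  obtain ⟨M, hM1, hM2, hM3⟩ := (he1.and (he2.and (eventually_ge_atTop 1))).exists
  have hMpos : (0 : ℤ) < M := by exact_mod_cast hM3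
  set O0 : Set (Env 1) := {ω | 1 ≤ (ω 0).1} with hO0
  set OM : Set (Env 1) := {ω | 1 ≤ (ω (axis M)).1} with hOM
  set B1 : Set (Env 1) := {ω | 1 ≤ (ω (axis M)).1 ∧
    ¬ ∀ n : ℕ, Tp ω M n ≤ ENNReal.ofReal (C * n + D)} with hB1
  set B2 : Set (Env 1) := {ω | 1 ≤ (ω 0).1 ∧
    ¬ ∀ n : ℕ, Tp (reflect ω) 0 n ≤ ENNReal.ofReal (C * n + D)} with hB2
  set B3 : Set (Env 1) := {ω | 1 ≤ (ω 0).1 ∧
    ¬ ∀ x : ℤ, ENNReal.ofReal (c * |(x : ℝ)| - K) ≤ T ω 0 (axis x)} with hB3
  set B4 : Set (Env 1) := {ω | 1 ≤ (ω (axis M)).1 ∧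
    ¬ ∀ x : ℤ, ENNReal.ofReal (c * |(x : ℝ) - M| - K) ≤ T ω (axis M) (axis x)} with hB4
  have base1 : MeasurableSet {ω : Env 1 | 1 ≤ (ω 0).1 ∧
      ¬ ∀ n : ℕ, Tp ω 0 n ≤ ENNReal.ofReal (C * n + D)} :=
    (measurableSet_occ 0).inter (measurableSet_Tp_le 0 _).compl
  have base3 : MeasurableSet B3 := (measurableSet_occ 0).inter (measurableSet_le_T 0 _).compl
  have pB1 : envLaw 1 ν B1 ≤ ENNReal.ofReal δ := by
    have h1 := (measurePreserving_shift ν (axis M : Site 1)).measure_preimage base1.nullMeasurableSet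
    rw [← h1] at hD
    refine le_trans (le_of_eq ?_) hD
    congr 1
    ext ω
    simp only [hB1, Set.mem_ofPred_eq, Set.mem_preimage]
    have h2 : (shift (axis M) ω 0).1 = (ω (axis M)).1 := by simp [shift]
    rw [h2]
    simp only [Tp_shift, zero_add]
  have mB1 : MeasurableSet B1 :=
    (measurableSet_occ _).inter (measurableSet_Tp_le M _).compl
  have pB2 : envLaw 1 ν B2 ≤ ENNReal.ofReal δ := by
    have h1 := (measurePreserving_reflect (d := 1) ν).measure_preimage base1.nullMeasurableSet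
    rw [← h1] at hD
    refine le_trans (le_of_eq ?_) hD
    congr 1
  have mB2 : MeasurableSet B2 := by
    have h1 := (measurePreserving_reflect (d := 1) ν).measurable base1
    refine (congrArg MeasurableSet ?_).mp h1
    ext ω
    simp only [hB2, Set.mem_ofPred_eq, Set.mem_preimage]
    have h2 : (reflect ω 0).1 = (ω 0).1 := by simp [reflect]
    rw [h2]
  have pB4 : envLaw 1 ν B4 ≤ ENNReal.ofReal δ := by
    have h1 := (measurePreserving_shift ν (axis M : Site 1)).measure_preimage base3.nullMeasurableSet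
    rw [← h1] at hK
    refine le_trans (le_of_eq ?_) hK
    congr 1
    ext ω
    simp only [hB4, hB3, Set.mem_ofPred_eq, Set.mem_preimage]
    have h2 : (shift (axis M) ω 0).1 = (ω (axis M)).1 := by simp [shift]
    rw [h2]
    have h3 : (∀ x : ℤ, ENNReal.ofReal (c * |(x : ℝ) - M| - K) ≤ T ω (axis M) (axis x)) ↔
        ∀ x : ℤ, ENNReal.ofReal (c * |(x : ℝ)| - K) ≤ T (shift (axis M) ω) 0 (axis x) := by
      constructor
      · intro hx x
        have := hx (x + M)
        rw [T_shift, zero_add, ← axis_add]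
        simpa using this
      · intro hx x
        have := hx (x - M)
        rw [T_shift, zero_add, ← axis_add] at this
        simpa using this
    rw [h3]
  have mB4 : MeasurableSet B4 :=
    (measurableSet_occ _).inter (measurableSet_le_T (axis M) _).compl
  have mcr := (measurable_catch (C / β) (β * c / C) ((β * K + D) / C) M).1
  have mcl := (measurable_catch C (c / C) ((K + D) / C) M).2
  set CR : Set (Env 1) := {ω | CatchRight (C / β) (β * c / C) ((β * K + D) / C) M ω} with hCR
  set CL : Set (Env 1) := {ω | CatchLeft C (c / C) ((K + D) / C) M ω} with hCL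
  set S : Set (Env 1) := (O0 ∩ OM) \ (B1 ∪ B2 ∪ B3 ∪ B4 ∪ CR ∪ CL) with hS
  have hSm : MeasurableSet S := ((measurableSet_occ 0).inter (measurableSet_occ _)).diff
    (((((mB1.union mB2).union base3).union mB4).union mcr).union mcl)
  have hz : (axis M : Site 1) ≠ 0 := by
    rw [← axis_zero]; exact axis_ne hMpos.ne'
  have hpos : envLaw 1 ν S ≠ 0 := by
    intro h0
    have h1 : envLaw 1 ν (O0 ∩ OM) ≤ envLaw 1 ν (B1 ∪ B2 ∪ B3 ∪ B4 ∪ CR ∪ CL) := by
      have h2 : O0 ∩ OM ⊆ S ∪ (B1 ∪ B2 ∪ B3 ∪ B4 ∪ CR ∪ CL) := by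
        intro ω hω
        by_cases h3 : ω ∈ (B1 ∪ B2 ∪ B3 ∪ B4 ∪ CR ∪ CL)
        · exact Or.inr h3
        · exact Or.inl ⟨hω, h3⟩
      refine (measure_mono h2).trans ((measure_union_le _ _).trans ?_)
      rw [h0, zero_add]
    have h2 : envLaw 1 ν (B1 ∪ B2 ∪ B3 ∪ B4 ∪ CR ∪ CL) ≤ ENNReal.ofReal (6 * δ) := by
      have e : ENNReal.ofReal (6 * δ) = ENNReal.ofReal δ + ENNReal.ofReal δ + ENNReal.ofReal δ +
          ENNReal.ofReal δ + ENNReal.ofReal δ + ENNReal.ofReal δ := by
        rw [← ENNReal.ofReal_add (by positivity) hδ.le, ← ENNReal.ofReal_add (by positivity) hδ.le,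
          ← ENNReal.ofReal_add (by positivity) hδ.le, ← ENNReal.ofReal_add (by positivity) hδ.le,
          ← ENNReal.ofReal_add (by positivity) hδ.le]
        congr 1; ring
      rw [e]
      refine (measure_union_le _ _).trans (add_le_add ?_ hM2.le)
      refine (measure_union_le _ _).trans (add_le_add ?_ hM1.le)
      refine (measure_union_le _ _).trans (add_le_add ?_ pB4)
      refine (measure_union_le _ _).trans (add_le_add ?_ hK)
      exact (measure_union_le _ _).trans (add_le_add pB1 pB2)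
    have h3 : envLaw 1 ν (O0 ∩ OM) = ENNReal.ofReal (p * p) := by
      rw [hO0, hOM, occ_two ν 0 (axis M) hz.symm, hpν, ENNReal.ofReal_mul hp0.le]
    rw [h3] at h1
    have h4 := (ENNReal.ofReal_le_ofReal_iff (by positivity)).1 (h1.trans h2)
    rw [hδdef] at h4
    nlinarith
  refine coexistence_of_ae ν β (axis M) hz S hSm hpos ?_
  filter_upwards [ae_regular (d := 1) ν, ae_finite ν h, ae_occupied (d := 1) ν hν M 1 one_ne_zero,
    ae_occupied (d := 1) ν hν 0 (-1) (by norm_num)] with ω hreg hfin hocc1 hocc2 hωS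
  obtain ⟨⟨h0, hM0⟩, hnot⟩ := hωS
  simp only [Set.mem_union, not_or] at hnot
  obtain ⟨⟨⟨⟨⟨n1, n2⟩, n3⟩, n4⟩, ncr⟩, ncl⟩ := hnot
  have h0' : 1 ≤ (ω 0).1 := h0
  have hM0' : 1 ≤ (ω (axis M)).1 := hM0
  have e1 : ∀ n : ℕ, Tp ω M n ≤ ENNReal.ofReal (C * n + D) := by
    by_contra hcon; exact n1 ⟨hM0', hcon⟩
  have e2 : ∀ n : ℕ, Tp (reflect ω) 0 n ≤ ENNReal.ofReal (C * n + D) := by
    by_contra hcon; exact n2 ⟨h0', hcon⟩
  have e3 : ∀ x : ℤ, ENNReal.ofReal (c * |(x : ℝ)| - K) ≤ T ω 0 (axis x) := by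
    by_contra hcon; exact n3 ⟨h0', hcon⟩
  have e4 : ∀ x : ℤ, ENNReal.ofReal (c * |(x : ℝ) - M| - K) ≤ T ω (axis M) (axis x) := by
    by_contra hcon; exact n4 ⟨hM0', hcon⟩
  obtain ⟨ht0, hf0⟩ := hfin 0 h0'
  obtain ⟨ht1, hf1⟩ := hfin (axis M) hM0'
  refine ⟨exists_twoType ω hreg β hβ0 hβ1 (axis M) hz h0' hM0' (fun s => (hf0 s).union (hf1 s)) ht0,
    fun t θ htt => ?_⟩
  have hright := right_front hreg hβ0 hβ1 hMpos h0' htt (fun n => ENNReal.ofReal (C * n + D))
    (fun n => ENNReal.ofReal_ne_top) e1 (by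
      intro x hx n hn
      by_contra hcon
      rw [not_lt, ← ENNReal.ofReal_div_of_pos hβ0] at hcon
      have htop : travel ω (axis x) (axis (M + n)) ≠ ⊤ := by
        refine ne_top_of_le_ne_top ENNReal.ofReal_ne_top (le_trans le_add_self hcon)
      obtain ⟨j, hj, k, hpk, htk, -⟩ := travel_attained ω hreg _ _ htop
      rw [htk] at hcon
      have hcl := clock_nonneg _ (hreg (axis x) j).1 k
      have hr : 0 ≤ (C * n + D) / β := by positivity
      have hre := real_of_sum hcl hr (e3 x) hcon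
      have hps := pos_zero_eq _ _ _ _ hpk
      apply ncr
      refine ⟨x, by exact_mod_cast hx, j, hj, k, ?_⟩
      rw [hps]
      push_cast
      rw [le_div_iff₀ hβ0] at hre
      have h5 : β * c / C * |(x : ℝ)| - (β * K + D) / C + clock ((ω (axis x)).2 j) k / (C / β) ≤ n := by
        have e5 : β * c / C * |(x : ℝ)| - (β * K + D) / C + clock ((ω (axis x)).2 j) k / (C / β) =
            (β * (c * |(x : ℝ)| - K + clock ((ω (axis x)).2 j) k) - D) / C := by
          field_simp
          ring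
        rw [e5, div_le_iff₀ hC]
        nlinarith
      linarith)
  have hleft := left_front hreg hβ0 hβ1 hMpos hM0' htt (fun n => ENNReal.ofReal (C * n + D))
    (fun n => ENNReal.ofReal_ne_top) e2 (by
      intro x hx n hn
      by_contra hcon
      rw [not_lt] at hcon
      have htop : travel ω (axis x) (axis (-(n : ℤ))) ≠ ⊤ := by
        refine ne_top_of_le_ne_top ENNReal.ofReal_ne_top (le_trans le_add_self hcon)
      obtain ⟨j, hj, k, hpk, htk, -⟩ := travel_attained ω hreg _ _ htop
      rw [htk] at hcon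
      have hcl := clock_nonneg _ (hreg (axis x) j).1 k
      have hr : 0 ≤ C * n + D := by positivity
      have hre := real_of_sum hcl hr (e4 x) hcon
      have hps := pos_zero_eq _ _ _ _ hpk
      apply ncl
      refine ⟨x, hx, j, hj, k, ?_⟩
      rw [hps]
      push_cast
      have h5 : c / C * |(x : ℝ) - M| - (K + D) / C + clock ((ω (axis x)).2 j) k / C ≤ n := by
        have e5 : c / C * |(x : ℝ) - M| - (K + D) / C + clock ((ω (axis x)).2 j) k / C =
            ((c * |(x : ℝ) - M| - K + clock ((ω (axis x)).2 j) k) - D) / C := by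
          field_simp
          ring
        rw [e5, div_le_iff₀ hC]
        nlinarith
      linarith)
  constructor
  · refine inf_kind ω t θ Kind.one 0 (-1) (by norm_num) hocc2 fun n => ?_
    have := hleft n
    rw [show (0 : ℤ) + -1 * n = -(n : ℤ) by ring]
    exact this
  · refine inf_kind ω t θ Kind.two M 1 one_ne_zero hocc1 fun n => ?_
    have := hright n
    rw [one_mul]
    exact this

end Frog81
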