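import Pool.Agent.H.MP_53e2a7_pr.h81.Shape

/-!
Module Prob: probabilities of bad and undecided blocks.

`bad_block`.  Let `p = ν {0}ᶜ > 0`.  `(1 - p)^R₀ ≤ δ/2` for a suitable `R₀ ≥ 1`: the probability that
the `R₀` sites `i R, ..., i R + R₀ - 1` are all empty is `(ν {0})^R₀` (independence of the sites,
`iIndepFun_sites`, or directly `infinitePi_pi`).  By `ae_startsWell` the measurable sets
`{1 ≤ (ω 0).1, ¬ StartsWell m ε L ω 0}` (decreasing in `L ∈ ℕ`) have null intersection, so for a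
suitable `L` this has probability `≤ δ / (2 R₀)`; the same for every site by `T_shift` and
`measurePreserving_shift`.  A bad block has all its sites empty or an occupied site that does not
start well.

`undecided_block`.  By the shift by `axis (i R)` the probability does not depend on `i`; take
`i = 0`.  The measurable sets `{Undecided R₀ R K ω 0}` decrease in `K`.  If `ω` is in all of them,
then (finitely many pairs `r, r'`, pigeonhole and monotonicity in `K`) there is one pair `r, r' < R₀`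
for which, for all `K`, both existence statements hold; then both sets in `Decided ω (axis r)
(axis (R + r'))` are infinite (the sites `axis j`, `|j| ≥ K`, for all `K`).  By the hypothesis, shifted
by `axis r` (`T_shift`, `axis (R + r') ≠ axis r` because `R₀ ≤ R`, `1 ≤ R`), this has probability
zero.  So the probability tends to `0` as `K → ∞`.

`measurable_good`, `measurable_undecided`: countable unions and intersections, `measurable_T`.
-/

namespace Frog81

open MeasureTheory ProbabilityTheory Filter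
open scoped ENNReal NNReal

variable {d : ℕ} [NeZero d] (ν : Measure ℕ) [IsProbabilityMeasure ν]

omit [NeZero d] in
private theorem prob_occ (x : Site d) : MeasurableSet {ω : Env d | 1 ≤ (ω x).1} :=
  (measurable_count x) (MeasurableSet.of_discrete (s := {m : ℕ | 1 ≤ m}))

private theorem prob_starts (m ε L : ℝ) (a : ℤ) :
    MeasurableSet {ω : Env d | StartsWell m ε L ω a} := by
  have h1 : {ω : Env d | StartsWell m ε L ω a} = {ω : Env d | 1 ≤ (ω (axis a)).1} ∩
      ⋂ k : ℤ, ({ω : Env d | T ω (axis a) (axis (a + k)) ≤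
          ENNReal.ofReal ((1 + ε) * m * |(k : ℝ)| + L)} ∩
        {ω : Env d | ENNReal.ofReal ((1 - ε) * m * |(k : ℝ)| - L) ≤
          T ω (axis a) (axis (a + k))}) := by
    ext ω
    simp only [StartsWell, Set.mem_setOf_eq, Set.mem_inter_iff, Set.mem_iInter]
  rw [h1]
  exact (prob_occ _).inter (MeasurableSet.iInter fun k =>
    (measurableSet_le (measurable_T _ _) measurable_const).inter
      (measurableSet_le measurable_const (measurable_T _ _)))

theorem measurable_good (m ε L : ℝ) (R₀ R i : ℕ) :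
    MeasurableSet {ω : Env d | GoodBlock m ε L R₀ R ω i} := by
  have h1 : {ω : Env d | GoodBlock m ε L R₀ R ω i} =
      ⋃ r ∈ Finset.range R₀, {ω : Env d | StartsWell m ε L ω ((i * R + r : ℕ) : ℤ)} := by
    ext ω
    simp only [GoodBlock, Set.mem_setOf_eq, Set.mem_iUnion, Finset.mem_range, exists_prop]
  rw [h1]
  exact Finset.measurableSet_biUnion _ fun r _ => prob_starts m ε L _

/-- One half of the definition of an undecided block. -/
private def ProbFar (K : ℕ) (s : ℤ) (a b : Site d) (ω : Env d) : Prop :=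
  ∃ j : ℤ, (K : ℤ) ≤ |j - s| ∧ 1 ≤ (ω (axis j)).1 ∧ T ω a (axis j) < T ω b (axis j)

private theorem prob_far (K : ℕ) (s : ℤ) (a b : Site d) :
    MeasurableSet {ω : Env d | ProbFar K s a b ω} := by
  have h1 : {ω : Env d | ProbFar K s a b ω} = ⋃ j ∈ {j : ℤ | (K : ℤ) ≤ |j - s|},
      ({ω : Env d | 1 ≤ (ω (axis j)).1} ∩ {ω : Env d | T ω a (axis j) < T ω b (axis j)}) := by
    ext ω
    simp only [ProbFar, Set.mem_setOf_eq, Set.mem_iUnion, Set.mem_inter_iff, exists_prop]
  rw [h1]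
  exact MeasurableSet.biUnion (Set.to_countable _) fun j _ =>
    (prob_occ _).inter (measurableSet_lt (measurable_T _ _) (measurable_T _ _))

private theorem prob_undecided_eq (R₀ R K i : ℕ) (ω : Env d) : Undecided R₀ R K ω i ↔
    ∃ r < R₀, ∃ r' < R₀, 1 ≤ (ω (axis ((i * R + r : ℕ) : ℤ))).1 ∧
      1 ≤ (ω (axis (((i + 1) * R + r' : ℕ) : ℤ))).1 ∧
      ProbFar K ((i * R : ℕ) : ℤ) (axis (((i + 1) * R + r' : ℕ) : ℤ))
        (axis ((i * R + r : ℕ) : ℤ)) ω ∧
      ProbFar K ((i * R : ℕ) : ℤ) (axis ((i * R + r : ℕ) : ℤ))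
        (axis (((i + 1) * R + r' : ℕ) : ℤ)) ω := Iff.rfl

theorem measurable_undecided (R₀ R K i : ℕ) :
    MeasurableSet {ω : Env d | Undecided R₀ R K ω i} := by
  have h1 : {ω : Env d | Undecided R₀ R K ω i} =
      ⋃ r ∈ Finset.range R₀, ⋃ r' ∈ Finset.range R₀,
        ({ω : Env d | 1 ≤ (ω (axis ((i * R + r : ℕ) : ℤ))).1} ∩
        ({ω : Env d | 1 ≤ (ω (axis (((i + 1) * R + r' : ℕ) : ℤ))).1} ∩
        ({ω : Env d | ProbFar K ((i * R : ℕ) : ℤ) (axis (((i + 1) * R + r' : ℕ) : ℤ))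
          (axis ((i * R + r : ℕ) : ℤ)) ω} ∩
        {ω : Env d | ProbFar K ((i * R : ℕ) : ℤ) (axis ((i * R + r : ℕ) : ℤ))
          (axis (((i + 1) * R + r' : ℕ) : ℤ)) ω}))) := by
    ext ω
    simp only [prob_undecided_eq, Set.mem_setOf_eq, Set.mem_iUnion, Finset.mem_range, exists_prop,
      Set.mem_inter_iff]
  rw [h1]
  exact Finset.measurableSet_biUnion _ fun r _ => Finset.measurableSet_biUnion _ fun r' _ =>
    (prob_occ _).inter ((prob_occ _).inter ((prob_far _ _ _ _).inter (prob_far _ _ _ _)))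

private theorem prob_axis_add (a b : ℤ) : (axis a : Site d) + axis b = axis (a + b) := by
  funext i
  unfold axis
  by_cases h : i = 0
  · simp [h]
  · simp [h]

private theorem prob_axis_injective : Function.Injective (axis : ℤ → Site d) := by
  intro a b h
  have h1 := congrFun h 0
  unfold axis at h1
  simpa using h1

/-- The probability that finitely many given sites are empty. -/
private theorem prob_empty (R₀ : ℕ) (s : ℕ → Site d) (hs : Function.Injective s) :
    envLaw d ν {ω | ∀ r < R₀, (ω (s r)).1 = 0} = (ν {0}) ^ R₀ := by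
  classical
  have hm : MeasurableSet (Prod.fst ⁻¹' ({0} : Set ℕ) : Set (SiteData d)) :=
    measurable_fst MeasurableSet.of_discrete
  have h1 : {ω : Env d | ∀ r < R₀, (ω (s r)).1 = 0} =
      Set.pi ((Finset.range R₀).image s : Set (Site d))
        fun _ => (Prod.fst ⁻¹' ({0} : Set ℕ) : Set (SiteData d)) := by
    ext ω
    simp [Set.mem_pi]
  have h2 : siteLaw d ν (Prod.fst ⁻¹' ({0} : Set ℕ)) = ν {0} :=
    (measurePreserving_fst (μ := ν)
      (ν := Measure.infinitePi fun _ : ℕ => walkLaw d)).measure_preimage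
      (MeasurableSet.of_discrete).nullMeasurableSet
  rw [h1]
  unfold envLaw
  rw [Measure.infinitePi_pi _ fun _ _ => hm, Finset.prod_const, h2,
    Finset.card_image_of_injective _ hs, Finset.card_range]

/-- A decreasing sequence of sets with null intersection contains sets of small measure. -/
private theorem prob_small {Ω : Type*} [MeasurableSpace Ω] (P : Measure Ω) [IsProbabilityMeasure P]
    (U : ℕ → Set Ω) (hU : ∀ n, MeasurableSet (U n)) (hmono : Antitone U)
    (h0 : P (⋂ n, U n) = 0) {δ : ℝ} (hδ : 0 < δ) : ∃ n, P (U n) ≤ ENNReal.ofReal δ := by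
  have h1 := tendsto_measure_iInter_atTop (μ := P) (fun n => (hU n).nullMeasurableSet) hmono
    ⟨0, measure_ne_top _ _⟩
  rw [h0] at h1
  have h2 := h1.eventually (gt_mem_nhds (ENNReal.ofReal_pos.2 hδ))
  obtain ⟨n, hn⟩ := h2.exists
  exact ⟨n, hn.le⟩

theorem bad_block (h : HasBoundedShape d ν) (m : ℝ) (ε : ℝ)
    (hm : ∀ᵐ ω ∂ envLaw d ν, ∀ a : ℤ, 1 ≤ (ω (axis a)).1 → ∃ L : ℕ, StartsWell m ε L ω a)
    (δ : ℝ) (hδ : 0 < δ) : ∃ R₀ : ℕ, 1 ≤ R₀ ∧ ∃ L : ℕ, ∀ R i : ℕ,
      envLaw d ν {ω | ¬ GoodBlock m ε L R₀ R ω i} ≤ ENNReal.ofReal δ := by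
  -- the number of sites
  have hν0 : ν {0} < 1 := by
    have h1 : ν {0} ≤ 1 := prob_le_one
    rcases lt_or_eq_of_le h1 with h2 | h2
    · exact h2
    · exact absurd ((prob_compl_eq_zero_iff MeasurableSet.of_discrete).2 h2) h.1
  have hpow : Tendsto (fun n : ℕ => (ν {0}) ^ n) atTop (nhds 0) :=
    ENNReal.tendsto_pow_atTop_nhds_zero_of_lt_one hν0
  have hev := hpow.eventually (gt_mem_nhds (ENNReal.ofReal_pos.2 (show 0 < δ / 2 by linarith)))
  obtain ⟨R₀, hR₀, hR₀1⟩ := (hev.and (eventually_ge_atTop 1)).exists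
  -- the constant
  obtain ⟨B, hB⟩ : ∃ B : ℕ → Set (Env d), B = fun L : ℕ =>
      {ω | 1 ≤ (ω (axis 0)).1} ∩ {ω | StartsWell m ε L ω 0}ᶜ := ⟨_, rfl⟩
  have hBm : ∀ L, MeasurableSet (B L) := by
    intro L
    rw [hB]
    exact (prob_occ _).inter (prob_starts _ _ _ _).compl
  have hBa : Antitone B := by
    intro L L' hL ω hω
    rw [hB] at hω ⊢
    refine ⟨hω.1, fun hw => hω.2 ⟨hw.1, fun k => ?_⟩⟩
    have hL' : (L : ℝ) ≤ L' := by exact_mod_cast hL
    exact ⟨(hw.2 k).1.trans (ENNReal.ofReal_le_ofReal (by linarith)),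
      (ENNReal.ofReal_le_ofReal (by linarith)).trans (hw.2 k).2⟩
  have hB0 : envLaw d ν (⋂ L, B L) = 0 := by
    refine measure_mono_null ?_ (mem_ae_iff.1 hm)
    intro ω hω hall
    rw [Set.mem_iInter] at hω
    have h1 := hω 0
    rw [hB] at h1
    obtain ⟨L, hL⟩ := hall 0 h1.1
    have h2 := hω L
    rw [hB] at h2
    exact h2.2 hL
  have hR₀0 : (0 : ℝ) < R₀ := by exact_mod_cast hR₀1
  obtain ⟨L, hL⟩ := prob_small (envLaw d ν) B hBm hBa hB0
    (show 0 < δ / (2 * R₀) by positivity)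
  refine ⟨R₀, hR₀1, L, fun R i => ?_⟩
  obtain ⟨s, hs⟩ : ∃ s : ℕ → ℤ, s = fun r => ((i * R + r : ℕ) : ℤ) := ⟨_, rfl⟩
  have hsi : Function.Injective (fun r => (axis (s r) : Site d)) := by
    intro r r' hrr
    have h1 := prob_axis_injective hrr
    rw [hs] at h1
    have h2 : ((i * R + r : ℕ) : ℤ) = ((i * R + r' : ℕ) : ℤ) := h1
    have h3 : i * R + r = i * R + r' := by exact_mod_cast h2
    omega
  have hsub : {ω : Env d | ¬ GoodBlock m ε L R₀ R ω i} ⊆
      {ω | ∀ r < R₀, (ω (axis (s r))).1 = 0} ∪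
        ⋃ r ∈ Finset.range R₀, (shift (axis (s r)) ⁻¹' (B L)) := by
    intro ω hω
    by_cases h1 : ∀ r < R₀, (ω (axis (s r))).1 = 0
    · exact Or.inl h1
    · push Not at h1
      obtain ⟨r, hr, hr1⟩ := h1
      refine Or.inr ?_
      rw [Set.mem_iUnion₂]
      refine ⟨r, Finset.mem_range.2 hr, ?_⟩
      have hocc : 1 ≤ (ω (axis (s r))).1 := Nat.one_le_iff_ne_zero.2 hr1
      have hnot : ¬ StartsWell m ε L ω (s r) := by
        intro hw
        apply hω
        refine ⟨r, hr, ?_⟩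
        rw [hs] at hw
        exact hw
      rw [hB]
      have e0 : ∀ x : ℤ, (axis x : Site d) + axis (s r) = axis (s r + x) := by
        intro x
        rw [prob_axis_add, add_comm]
      have e1 : (axis 0 : Site d) + axis (s r) = axis (s r) := by
        rw [e0, add_zero]
      refine ⟨?_, fun hw => hnot ⟨hocc, fun k => ?_⟩⟩
      · show 1 ≤ (ω (axis 0 + axis (s r))).1
        rw [e1]
        exact hocc
      · have h2 := hw.2 k
        rw [T_shift, e1, zero_add, e0] at h2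
        exact h2
  have hshift : ∀ r, envLaw d ν (shift (axis (s r)) ⁻¹' (B L)) ≤
      ENNReal.ofReal (δ / (2 * R₀)) := by
    intro r
    rw [(measurePreserving_shift ν (axis (s r))).measure_preimage (hBm L).nullMeasurableSet]
    exact hL
  calc envLaw d ν {ω | ¬ GoodBlock m ε L R₀ R ω i}
      ≤ envLaw d ν ({ω | ∀ r < R₀, (ω (axis (s r))).1 = 0} ∪
        ⋃ r ∈ Finset.range R₀, (shift (axis (s r)) ⁻¹' (B L))) := measure_mono hsub
    _ ≤ envLaw d ν {ω | ∀ r < R₀, (ω (axis (s r))).1 = 0} +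
        envLaw d ν (⋃ r ∈ Finset.range R₀, (shift (axis (s r)) ⁻¹' (B L))) :=
        measure_union_le _ _
    _ ≤ ENNReal.ofReal (δ / 2) + ∑ r ∈ Finset.range R₀, ENNReal.ofReal (δ / (2 * R₀)) := by
        refine add_le_add ?_ ((measure_biUnion_finset_le _ _).trans
          (Finset.sum_le_sum fun r _ => hshift r))
        rw [prob_empty ν R₀ (fun r => axis (s r)) hsi]
        exact hR₀.le
    _ = ENNReal.ofReal δ := by
        rw [Finset.sum_const, Finset.card_range, nsmul_eq_mul, ← ENNReal.ofReal_natCast,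
          ← ENNReal.ofReal_mul (by positivity), ← ENNReal.ofReal_add (by positivity) (by positivity)]
        congr 1
        field_simp
        ring

/-- The decision for two different occupied sites. -/
private theorem prob_decided
    (hdec : ∀ z : Site d, z ≠ 0 → ∀ᵐ ω ∂ envLaw d ν, 1 ≤ (ω 0).1 → 1 ≤ (ω z).1 → Decided ω 0 z)
    (a b : Site d) (hab : b ≠ a) :
    ∀ᵐ ω ∂ envLaw d ν, 1 ≤ (ω a).1 → 1 ≤ (ω b).1 → Decided ω a b := by
  have h1 := (measurePreserving_shift ν a).quasiMeasurePreserving.ae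
    (hdec (b - a) (sub_ne_zero.2 hab))
  filter_upwards [h1] with ω hω ha hb
  have e1 : (0 : Site d) + a = a := zero_add a
  have e2 : b - a + a = b := sub_add_cancel b a
  have h2 : Decided (shift a ω) 0 (b - a) := by
    refine hω ?_ ?_
    · show 1 ≤ (ω (0 + a)).1
      rw [e1]
      exact ha
    · show 1 ≤ (ω (b - a + a)).1
      rw [e2]
      exact hb
  have key : ∀ x y x' y' : Site d, x + a = x' → y + a = y' →
      {z | 1 ≤ (shift a ω z).1 ∧ T (shift a ω) x z < T (shift a ω) y z}.Finite →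
      {z | 1 ≤ (ω z).1 ∧ T ω x' z < T ω y' z}.Finite := by
    intro x y x' y' hx hy hf
    refine (hf.image (fun z => z + a)).subset ?_
    rintro z ⟨hz1, hz2⟩
    refine ⟨z - a, ⟨?_, ?_⟩, sub_add_cancel z a⟩
    · show 1 ≤ (ω (z - a + a)).1
      rw [sub_add_cancel]
      exact hz1
    · rw [T_shift, T_shift, sub_add_cancel, hx, hy]
      exact hz2
  rcases h2 with h2 | h2
  · exact Or.inl (key 0 (b - a) a b e1 e2 h2)
  · exact Or.inr (key (b - a) 0 b a e2 e1 h2)

omit [NeZero d] in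
private theorem prob_far_anti {K K' : ℕ} (h : K ≤ K') [NeZero d] {s : ℤ} {a b : Site d} {ω : Env d}
    (hf : ProbFar K' s a b ω) : ProbFar K s a b ω := by
  obtain ⟨j, h1, h2, h3⟩ := hf
  exact ⟨j, le_trans (by exact_mod_cast h) h1, h2, h3⟩

private theorem prob_infinite {s : ℤ} {a b : Site d} {ω : Env d}
    (h : ∀ K : ℕ, ProbFar K s a b ω) : ¬ {y | 1 ≤ (ω y).1 ∧ T ω a y < T ω b y}.Finite := by
  intro hf
  obtain ⟨M, hM⟩ := (hf.image (fun y : Site d => |y 0 - s|)).bddAbove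
  obtain ⟨j, h1, h2, h3⟩ := h (M.toNat + 1)
  have h4 := hM ⟨axis j, ⟨h2, h3⟩, rfl⟩
  have h5 : (axis j : Site d) 0 = j := by simp [axis]
  simp only [h5] at h4
  have h6 : M ≤ (M.toNat : ℤ) := Int.self_le_toNat M
  push_cast at h1
  linarith

theorem undecided_block
    (hdec : ∀ z : Site d, z ≠ 0 → ∀ᵐ ω ∂ envLaw d ν, 1 ≤ (ω 0).1 → 1 ≤ (ω z).1 → Decided ω 0 z)
    (R₀ R : ℕ) (hR : R₀ ≤ R) (hR1 : 1 ≤ R) (δ : ℝ) (hδ : 0 < δ) :
    ∃ K : ℕ, ∀ i : ℕ, envLaw d ν {ω | Undecided R₀ R K ω i} ≤ ENNReal.ofReal δ := by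
  obtain ⟨U, hU⟩ : ∃ U : ℕ → Set (Env d), U = fun K => {ω | Undecided R₀ R K ω 0} := ⟨_, rfl⟩
  have hUm : ∀ K, MeasurableSet (U K) := by
    intro K
    rw [hU]
    exact measurable_undecided R₀ R K 0
  have hUa : Antitone U := by
    intro K K' hK ω hω
    rw [hU] at hω ⊢
    obtain ⟨r, hr, r', hr', h1, h2, h3, h4⟩ := (prob_undecided_eq R₀ R K' 0 ω).1 hω
    exact (prob_undecided_eq R₀ R K 0 ω).2
      ⟨r, hr, r', hr', h1, h2, prob_far_anti hK h3, prob_far_anti hK h4⟩
  have hae : ∀ᵐ ω ∂ envLaw d ν, ∀ r r' : ℕ, r < R₀ →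
      1 ≤ (ω (axis ((0 * R + r : ℕ) : ℤ))).1 → 1 ≤ (ω (axis (((0 + 1) * R + r' : ℕ) : ℤ))).1 →
      Decided ω (axis ((0 * R + r : ℕ) : ℤ)) (axis (((0 + 1) * R + r' : ℕ) : ℤ)) := by
    rw [ae_all_iff]
    intro r
    rw [ae_all_iff]
    intro r'
    by_cases hr : r < R₀
    · have hne : (axis (((0 + 1) * R + r' : ℕ) : ℤ) : Site d) ≠ axis ((0 * R + r : ℕ) : ℤ) := by
        intro heq
        have h1 := prob_axis_injective heq
        have h2 : (0 + 1) * R + r' = 0 * R + r := by exact_mod_cast h1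
        omega
      filter_upwards [prob_decided ν hdec _ _ hne] with ω hω _ h1 h2
      exact hω h1 h2
    · filter_upwards with ω h1
      exact absurd h1 hr
  have hU0 : envLaw d ν (⋂ K, U K) = 0 := by
    refine measure_mono_null ?_ (mem_ae_iff.1 hae)
    intro ω hω hall
    rw [Set.mem_iInter] at hω
    -- one pair for all `K`
    have hpair : ∃ r < R₀, ∃ r' < R₀, ∀ K : ℕ,
        1 ≤ (ω (axis ((0 * R + r : ℕ) : ℤ))).1 ∧
        1 ≤ (ω (axis (((0 + 1) * R + r' : ℕ) : ℤ))).1 ∧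
        ProbFar K ((0 * R : ℕ) : ℤ) (axis (((0 + 1) * R + r' : ℕ) : ℤ))
          (axis ((0 * R + r : ℕ) : ℤ)) ω ∧
        ProbFar K ((0 * R : ℕ) : ℤ) (axis ((0 * R + r : ℕ) : ℤ))
          (axis (((0 + 1) * R + r' : ℕ) : ℤ)) ω := by
      by_contra hcon
      push Not at hcon
      have hcon' : ∀ r r' : ℕ, ∃ K : ℕ, r < R₀ → r' < R₀ →
          ¬ (1 ≤ (ω (axis ((0 * R + r : ℕ) : ℤ))).1 ∧
          1 ≤ (ω (axis (((0 + 1) * R + r' : ℕ) : ℤ))).1 ∧
          ProbFar K ((0 * R : ℕ) : ℤ) (axis (((0 + 1) * R + r' : ℕ) : ℤ))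
            (axis ((0 * R + r : ℕ) : ℤ)) ω ∧
          ProbFar K ((0 * R : ℕ) : ℤ) (axis ((0 * R + r : ℕ) : ℤ))
            (axis (((0 + 1) * R + r' : ℕ) : ℤ)) ω) := by
        intro r r'
        by_cases hr : r < R₀
        · by_cases hr' : r' < R₀
          · obtain ⟨K, hK⟩ := hcon r hr r' hr'
            exact ⟨K, fun _ _ hh => hK hh.1 hh.2.1 hh.2.2.1 hh.2.2.2⟩
          · exact ⟨0, fun _ h' => absurd h' hr'⟩
        · exact ⟨0, fun h' => absurd h' hr⟩
      choose f hf using hcon'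
      obtain ⟨K, hK⟩ : ∃ K, K = ∑ r ∈ Finset.range R₀, ∑ r' ∈ Finset.range R₀, f r r' := ⟨_, rfl⟩
      have h1 := hω K
      rw [hU] at h1
      obtain ⟨r, hr, r', hr', h2, h3, h4, h5⟩ := (prob_undecided_eq R₀ R K 0 ω).1 h1
      have h6 : f r r' ≤ K := by
        rw [hK]
        have h7 : f r r' ≤ ∑ r' ∈ Finset.range R₀, f r r' :=
          Finset.single_le_sum (f := fun r' => f r r') (fun _ _ => Nat.zero_le _)
            (Finset.mem_range.2 hr')
        exact h7.trans (Finset.single_le_sum (f := fun r => ∑ r' ∈ Finset.range R₀, f r r')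
          (fun _ _ => Nat.zero_le _) (Finset.mem_range.2 hr))
      exact hf r r' hr hr' ⟨h2, h3, prob_far_anti h6 h4, prob_far_anti h6 h5⟩
    obtain ⟨r, hr, r', hr', hK⟩ := hpair
    rcases hall r r' hr (hK 0).1 (hK 0).2.1 with h1 | h1
    · exact prob_infinite (fun K => (hK K).2.2.2) h1
    · exact prob_infinite (fun K => (hK K).2.2.1) h1
  obtain ⟨K, hK⟩ := prob_small (envLaw d ν) U hUm hUa hU0 hδ
  refine ⟨K, fun i => ?_⟩
  have hsub : {ω : Env d | Undecided R₀ R K ω i} ⊆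
      shift (axis ((i * R : ℕ) : ℤ)) ⁻¹' (U K) := by
    intro ω hω
    rw [hU]
    obtain ⟨r, hr, r', hr', h1, h2, h3, h4⟩ := (prob_undecided_eq R₀ R K i ω).1 hω
    have e1 : (axis ((0 * R + r : ℕ) : ℤ) : Site d) + axis ((i * R : ℕ) : ℤ) =
        axis ((i * R + r : ℕ) : ℤ) := by
      rw [prob_axis_add]
      congr 1
      push_cast
      ring
    have e2 : (axis (((0 + 1) * R + r' : ℕ) : ℤ) : Site d) + axis ((i * R : ℕ) : ℤ) =
        axis (((i + 1) * R + r' : ℕ) : ℤ) := by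
      rw [prob_axis_add]
      congr 1
      push_cast
      ring
    have key : ∀ a b a' b' : Site d, a' + axis ((i * R : ℕ) : ℤ) = a →
        b' + axis ((i * R : ℕ) : ℤ) = b → ProbFar K ((i * R : ℕ) : ℤ) a b ω →
        ProbFar K ((0 * R : ℕ) : ℤ) a' b' (shift (axis ((i * R : ℕ) : ℤ)) ω) := by
      rintro a b a' b' ha hb ⟨j, h5, h6, h7⟩
      have e3 : (axis (j - ((i * R : ℕ) : ℤ)) : Site d) + axis ((i * R : ℕ) : ℤ) = axis j := by
        rw [prob_axis_add, sub_add_cancel]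
      refine ⟨j - ((i * R : ℕ) : ℤ), ?_, ?_, ?_⟩
      · rw [zero_mul, Nat.cast_zero, sub_zero]
        exact h5
      · show 1 ≤ (ω (axis (j - ((i * R : ℕ) : ℤ)) + axis ((i * R : ℕ) : ℤ))).1
        rw [e3]
        exact h6
      · rw [T_shift, T_shift, e3, ha, hb]
        exact h7
    refine (prob_undecided_eq R₀ R K 0 _).2 ⟨r, hr, r', hr', ?_, ?_, key _ _ _ _ e2 e1 h3,
      key _ _ _ _ e1 e2 h4⟩
    · show 1 ≤ (ω (axis ((0 * R + r : ℕ) : ℤ) + axis ((i * R : ℕ) : ℤ))).1
      rw [e1]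
      exact h1
    · show 1 ≤ (ω (axis (((0 + 1) * R + r' : ℕ) : ℤ) + axis ((i * R : ℕ) : ℤ))).1
      rw [e2]
      exact h2
  refine (measure_mono hsub).trans ?_
  rw [(measurePreserving_shift ν _).measure_preimage (hUm K).nullMeasurableSet]
  exact hK

end Frog81
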