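import Pool.Agent.H.MP_53e2a7_pr.h81.Center
import Pool.Agent.H.MP_53e2a7_pr.h81.Meas

/-!
Module Shape: consequences of the shape hypothesis.

`shape_det`.  Let `g` be the gauge of `A` at the real vector of the site `y`.  If the inclusions hold
for `ε` and all `t ≥ t₀ ≥ 1`, then `g / (1 + ε) - t₀ ≤ T ω 0 y ≤ g / (1 - ε) + t₀`: for
`t = g / (1 - ε) + t₀` the vector `t⁻¹ y` has gauge less than `1 - ε`, so it is in `(1 - ε) A`, hence `y`
is in `filled ω t`, and the only site whose half-open cube contains `y` is `y`; conversely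
`T ω 0 y ≤ t` implies `t⁻¹ y ∈ (1 + ε) A`.

`shape_global`: `ε = 1/2`; the gauge is between two multiples of the norm.

`shape_line`: `m` is the gauge at the real vector of `axis 1`, and `ε' = ε / 4`.  For negative `k`
reflect.

`ae_startsWell`: translate `shape_line` (`T_shift`, `measurePreserving_shift`), take `L` a natural
number.
-/

namespace Frog81

open MeasureTheory ProbabilityTheory Filter
open scoped ENNReal NNReal Pointwise

variable {d : ℕ} [NeZero d] (ν : Measure ℕ) [IsProbabilityMeasure ν]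

/-- The real vector of a site. -/
private def shapeR {d : ℕ} (y : Site d) : Fin d → ℝ := fun i => (y i : ℝ)

omit [NeZero d] in
private theorem shape_filled (ω : Env d) (t : ℝ) (y : Site d) :
    shapeR y ∈ filled ω t ↔ T ω 0 y ≤ ENNReal.ofReal t := by
  constructor
  · rintro ⟨y', hy', h⟩
    have e : y = y' := by
      funext i
      have h1 := h i
      have h2 : ((y i - y' i : ℤ) : ℝ) ∈ Set.Ioc (-1 / 2 : ℝ) (1 / 2) := by
        push_cast
        exact h1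
      have h3 : (-1 : ℝ) < ((y i - y' i : ℤ) : ℝ) := by linarith [h2.1]
      have h4 : ((y i - y' i : ℤ) : ℝ) < 1 := by linarith [h2.2]
      have h5 : -1 < y i - y' i := by exact_mod_cast h3
      have h6 : y i - y' i < 1 := by exact_mod_cast h4
      omega
    rw [e]
    exact hy'
  · intro h
    refine ⟨y, h, fun i => ?_⟩
    show (y i : ℝ) - (y i : ℝ) ∈ Set.Ioc (-1 / 2 : ℝ) (1 / 2)
    rw [sub_self]
    constructor <;> norm_num

omit [NeZero d] in
private theorem shape_det (ω : Env d) (A : Set (Fin d → ℝ)) (hconv : Convex ℝ A)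
    (h0 : A ∈ nhds (0 : Fin d → ℝ)) {ε t₀ : ℝ} (hε0 : 0 < ε) (hε1 : ε < 1) (ht₀ : 1 ≤ t₀)
    (h : ∀ t, t₀ ≤ t → (1 - ε) • A ⊆ t⁻¹ • filled ω t ∧ t⁻¹ • filled ω t ⊆ (1 + ε) • A)
    (y : Site d) : T ω 0 y ≤ ENNReal.ofReal (gauge A (shapeR y) / (1 - ε) + t₀) ∧
      ENNReal.ofReal (gauge A (shapeR y) / (1 + ε) - t₀) ≤ T ω 0 y := by
  have habs : Absorbent ℝ A := absorbent_nhds_zero h0
  have h0A : (0 : Fin d → ℝ) ∈ A := mem_of_mem_nhds h0
  have hg : 0 ≤ gauge A (shapeR y) := gauge_nonneg _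
  have hε2 : 0 < 1 - ε := by linarith
  have hε3 : 0 < 1 + ε := by linarith
  constructor
  · set t : ℝ := gauge A (shapeR y) / (1 - ε) + t₀ with ht
    have h1 : 0 ≤ gauge A (shapeR y) / (1 - ε) := div_nonneg hg hε2.le
    have ht0 : 0 < t := by linarith
    rw [← shape_filled]
    have h2 : t⁻¹ • shapeR y ∈ (1 - ε) • A := by
      rw [Set.mem_smul_set_iff_inv_smul_mem₀ hε2.ne']
      apply setOfPred_gauge_lt_one_subset_self hconv h0A habs
      show gauge A ((1 - ε)⁻¹ • t⁻¹ • shapeR y) < 1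
      rw [gauge_smul_of_nonneg (inv_nonneg.2 hε2.le), gauge_smul_of_nonneg (inv_nonneg.2 ht0.le),
        smul_eq_mul, smul_eq_mul]
      have h3 : gauge A (shapeR y) < (1 - ε) * t := by
        have h4 : (1 - ε) * t = gauge A (shapeR y) + (1 - ε) * t₀ := by
          rw [ht]
          field_simp
        rw [h4]
        have : 0 < (1 - ε) * t₀ := mul_pos hε2 (by linarith)
        linarith
      rw [← mul_assoc, ← mul_inv, inv_mul_lt_iff₀ (mul_pos hε2 ht0), mul_one]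
      exact h3
    obtain ⟨q, hq, e⟩ := (h t (by linarith)).1 h2
    have e' : q = shapeR y := smul_right_injective _ (inv_ne_zero ht0.ne') e
    rw [← e']
    exact hq
  · by_contra hlt
    rw [not_le] at hlt
    have htop : T ω 0 y ≠ ⊤ := ne_top_of_lt hlt
    have h1 : (T ω 0 y).toReal < gauge A (shapeR y) / (1 + ε) - t₀ := by
      have h2 := (ENNReal.lt_ofReal_iff_toReal_lt htop).1 hlt
      exact h2
    set t : ℝ := max t₀ (T ω 0 y).toReal with ht
    have ht1 : t₀ ≤ t := le_max_left _ _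
    have ht0 : 0 < t := by linarith
    have h2 : T ω 0 y ≤ ENNReal.ofReal t := by
      rw [← ENNReal.ofReal_toReal htop]
      exact ENNReal.ofReal_le_ofReal (le_max_right _ _)
    rw [← shape_filled] at h2
    have h3 : t⁻¹ • shapeR y ∈ (1 + ε) • A := (h t ht1).2 ⟨_, h2, rfl⟩
    have h4 := gauge_le_of_mem hε3.le h3
    rw [gauge_smul_of_nonneg (inv_nonneg.2 ht0.le), smul_eq_mul, inv_mul_le_iff₀ ht0] at h4
    have h5 : gauge A (shapeR y) / (1 + ε) ≤ t := by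
      rw [div_le_iff₀ hε3]
      exact h4
    have h6 : t ≤ t₀ + (T ω 0 y).toReal := by
      refine max_le ?_ ?_
      · have := ENNReal.toReal_nonneg (a := T ω 0 y)
        linarith
      · linarith
    linarith

omit [NeZero d] in
private theorem shape_norm (y : Site d) : ‖shapeR y‖ = ‖y‖ := by
  rw [Pi.norm_def, Pi.norm_def]
  congr 2

omit [NeZero d] in
private theorem shape_ev {A : Set (Fin d → ℝ)} {ω : Env d} {ε : ℝ}
    (h : ∀ᶠ t : ℝ in atTop, (1 - ε) • A ⊆ t⁻¹ • filled ω t ∧ t⁻¹ • filled ω t ⊆ (1 + ε) • A) :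
    ∃ t₀ : ℝ, 1 ≤ t₀ ∧ ∀ t, t₀ ≤ t →
      (1 - ε) • A ⊆ t⁻¹ • filled ω t ∧ t⁻¹ • filled ω t ⊆ (1 + ε) • A := by
  obtain ⟨t₁, ht₁⟩ := eventually_atTop.1 h
  exact ⟨max 1 t₁, le_max_left _ _, fun t ht => ht₁ t ((le_max_right _ _).trans ht)⟩

theorem shape_global (h : HasBoundedShape d ν) : ∃ c C : ℝ, 0 < c ∧ 0 < C ∧
    ∀ᵐ ω ∂ envLaw d ν, 1 ≤ (ω 0).1 → ∃ K : ℝ, 0 ≤ K ∧ ∀ y : Site d,
      T ω 0 y ≤ ENNReal.ofReal (C * ‖y‖ + K) ∧ ENNReal.ofReal (c * ‖y‖ - K) ≤ T ω 0 y := by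
  obtain ⟨hν, A, hA, hconv, hint, hA2⟩ := h
  have h0 : A ∈ nhds (0 : Fin d → ℝ) :=
    mem_interior_iff_mem_nhds.1 (zero_mem_interior ν hν A hA hconv hint hA2)
  obtain ⟨r, hr, hrA⟩ := Metric.mem_nhds_iff.1 h0
  obtain ⟨ρ, hρ0, hρ⟩ : ∃ ρ : ℝ, 0 < ρ ∧ A ⊆ Metric.closedBall 0 ρ := by
    obtain ⟨ρ, hρ⟩ := hA.subset_closedBall (0 : Fin d → ℝ)
    exact ⟨max ρ 1, lt_max_of_lt_right one_pos,
      hρ.trans (Metric.closedBall_subset_closedBall (le_max_left _ _))⟩
  refine ⟨2 / 3 / ρ, 2 / r, by positivity, by positivity, ?_⟩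
  filter_upwards [hA2 (1 / 2) ⟨by norm_num, by norm_num⟩] with ω hω h1
  obtain ⟨t₀, ht₀, ht⟩ := shape_ev (hω h1)
  refine ⟨t₀, by linarith, fun y => ?_⟩
  obtain ⟨h2, h3⟩ := shape_det ω A hconv h0 (by norm_num) (by norm_num) ht₀ ht y
  have h4 : r * gauge A (shapeR y) ≤ ‖y‖ := by
    rw [← shape_norm]
    exact mul_gauge_le_norm hrA
  have h5 : ‖y‖ / ρ ≤ gauge A (shapeR y) := by
    rw [← shape_norm]
    exact le_gauge_of_subset_closedBall (absorbent_nhds_zero h0) hρ0.le hρ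
  constructor
  · refine h2.trans (ENNReal.ofReal_le_ofReal ?_)
    have h6 : gauge A (shapeR y) ≤ ‖y‖ / r := by
      rw [le_div_iff₀ hr]
      linarith
    have h7 : gauge A (shapeR y) / (1 - 1 / 2) = 2 * gauge A (shapeR y) := by ring
    have h8 : 2 / r * ‖y‖ = 2 * (‖y‖ / r) := by ring
    rw [h7, h8]
    linarith
  · refine le_trans (ENNReal.ofReal_le_ofReal ?_) h3
    have h7 : gauge A (shapeR y) / (1 + 1 / 2) = 2 / 3 * gauge A (shapeR y) := by ring
    have h8 : 2 / 3 / ρ * ‖y‖ = 2 / 3 * (‖y‖ / ρ) := by ring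
    rw [h7, h8]
    linarith

theorem shape_line (h : HasBoundedShape d ν) : ∃ m : ℝ, 0 < m ∧ ∀ ε ∈ Set.Ioo (0 : ℝ) 1,
    ∀ᵐ ω ∂ envLaw d ν, 1 ≤ (ω 0).1 → ∃ K : ℝ, 0 ≤ K ∧ ∀ k : ℤ,
      T ω 0 (axis k) ≤ ENNReal.ofReal ((1 + ε) * m * |(k : ℝ)| + K) ∧
      ENNReal.ofReal ((1 - ε) * m * |(k : ℝ)| - K) ≤ T ω 0 (axis k) := by
  obtain ⟨hν, A, hA, hconv, hint, hA2⟩ := h
  have h0 : A ∈ nhds (0 : Fin d → ℝ) :=
    mem_interior_iff_mem_nhds.1 (zero_mem_interior ν hν A hA hconv hint hA2)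
  have habs : Absorbent ℝ A := absorbent_nhds_zero h0
  have hne : shapeR (axis 1 : Site d) ≠ 0 := by
    intro h1
    have h2 := congrFun h1 0
    simp [shapeR, axis] at h2
  have hm : 0 < gauge A (shapeR (axis 1 : Site d)) :=
    (gauge_pos habs (NormedSpace.isVonNBounded_of_isBounded ℝ hA)).2 hne
  refine ⟨gauge A (shapeR (axis 1 : Site d)), hm, fun ε hε => ?_⟩
  set m := gauge A (shapeR (axis 1 : Site d)) with hmd
  have hgk : ∀ k : ℤ, 0 ≤ k → gauge A (shapeR (axis k : Site d)) = (k : ℝ) * m := by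
    intro k hk
    have e : shapeR (axis k : Site d) = (k : ℝ) • shapeR (axis 1 : Site d) := by
      funext i
      simp only [shapeR, axis, Pi.smul_apply, smul_eq_mul]
      split_ifs <;> simp
    rw [e, gauge_smul_of_nonneg (by exact_mod_cast hk), smul_eq_mul]
  have hpos : ∀ᵐ ω ∂ envLaw d ν, 1 ≤ (ω 0).1 → ∃ K : ℝ, 0 ≤ K ∧ ∀ k : ℤ, 0 ≤ k →
      T ω 0 (axis k) ≤ ENNReal.ofReal ((1 + ε) * m * |(k : ℝ)| + K) ∧
      ENNReal.ofReal ((1 - ε) * m * |(k : ℝ)| - K) ≤ T ω 0 (axis k) := by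
    filter_upwards [hA2 (ε / 4) ⟨by linarith [hε.1], by linarith [hε.2]⟩] with ω hω h1
    obtain ⟨t₀, ht₀, ht⟩ := shape_ev (hω h1)
    refine ⟨t₀, by linarith, fun k hk => ?_⟩
    obtain ⟨h2, h3⟩ := shape_det ω A hconv h0 (by linarith [hε.1]) (by linarith [hε.2]) ht₀ ht
      (axis k)
    rw [hgk k hk] at h2 h3
    have hk' : (0 : ℝ) ≤ k := by exact_mod_cast hk
    have hkm : 0 ≤ (k : ℝ) * m := mul_nonneg hk' hm.le
    rw [abs_of_nonneg hk']
    obtain ⟨hε0, hε1⟩ := hε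
    constructor
    · refine h2.trans (ENNReal.ofReal_le_ofReal ?_)
      have h4 : (k : ℝ) * m / (1 - ε / 4) ≤ (1 + ε) * m * k := by
        rw [div_le_iff₀ (by linarith)]
        have h5 : 1 ≤ (1 + ε) * (1 - ε / 4) := by nlinarith
        nlinarith [mul_le_mul_of_nonneg_left h5 hkm]
      linarith
    · refine le_trans (ENNReal.ofReal_le_ofReal ?_) h3
      have h4 : (1 - ε) * m * k ≤ (k : ℝ) * m / (1 + ε / 4) := by
        rw [le_div_iff₀ (by linarith)]
        have h5 : (1 - ε) * (1 + ε / 4) ≤ 1 := by nlinarith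
        nlinarith [mul_le_mul_of_nonneg_left h5 hkm]
      linarith
  have hneg := (measurePreserving_reflect ν (d := d)).quasiMeasurePreserving.ae hpos
  filter_upwards [hpos, hneg] with ω h1 h2 h3
  obtain ⟨K₁, hK₁, h4⟩ := h1 h3
  obtain ⟨K₂, hK₂, h5⟩ := h2 (by
    show 1 ≤ (ω (-0)).1
    rw [neg_zero]
    exact h3)
  refine ⟨K₁ + K₂, by linarith, fun k => ?_⟩
  rcases le_total 0 k with hk | hk
  · obtain ⟨h6, h7⟩ := h4 k hk
    exact ⟨h6.trans (ENNReal.ofReal_le_ofReal (by linarith)),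
      (ENNReal.ofReal_le_ofReal (by linarith)).trans h7⟩
  · obtain ⟨h6, h7⟩ := h5 (-k) (by omega)
    have e : -(axis (-k) : Site d) = axis k := by
      funext i
      simp only [axis, Pi.neg_apply]
      split_ifs <;> simp
    rw [T_reflect, neg_zero, e] at h6 h7
    rw [Int.cast_neg, abs_neg] at h6 h7
    exact ⟨h6.trans (ENNReal.ofReal_le_ofReal (by linarith)),
      (ENNReal.ofReal_le_ofReal (by linarith)).trans h7⟩

/-- The one-type processes from all occupied sites visit every site, and finitely many in finite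
time. -/
theorem ae_finite (h : HasBoundedShape d ν) : ∀ᵐ ω ∂ envLaw d ν, ∀ a : Site d, 1 ≤ (ω a).1 →
    (∀ y, T ω a y ≠ ⊤) ∧ ∀ s : ℝ≥0, {y | T ω a y ≤ (s : ℝ≥0∞)}.Finite := by
  obtain ⟨c, C, hc, hC, hcC⟩ := shape_global ν h
  rw [ae_all_iff]
  intro a
  have h1 := (measurePreserving_shift ν a).quasiMeasurePreserving.ae hcC
  filter_upwards [h1] with ω h2 h3
  obtain ⟨K, hK, h4⟩ := h2 (by
    show 1 ≤ (ω (0 + a)).1
    rw [zero_add]
    exact h3)
  have h5 : ∀ y, T ω a y = T (shift a ω) 0 (y - a) := by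
    intro y
    rw [T_shift, zero_add, sub_add_cancel]
  refine ⟨fun y => ?_, fun s => ?_⟩
  · rw [h5]
    exact ne_top_of_le_ne_top ENNReal.ofReal_ne_top (h4 (y - a)).1
  · refine ((isCompact_closedBall a (((s : ℝ) + K) / c)).finite_of_discrete).subset ?_
    intro y hy
    have hy' : T ω a y ≤ (s : ℝ≥0∞) := hy
    rw [h5] at hy'
    have h6 := (h4 (y - a)).2.trans hy'
    have h7 : c * ‖y - a‖ - K ≤ s := by
      have h8 := (ENNReal.ofReal_le_iff_le_toReal ENNReal.coe_ne_top).1 h6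
      simpa using h8
    rw [Metric.mem_closedBall, dist_eq_norm, le_div_iff₀ hc]
    linarith

theorem ae_startsWell (h : HasBoundedShape d ν) : ∃ m : ℝ, 0 < m ∧ ∀ ε ∈ Set.Ioo (0 : ℝ) 1,
    ∀ᵐ ω ∂ envLaw d ν, ∀ a : ℤ, 1 ≤ (ω (axis a)).1 → ∃ L : ℕ, StartsWell m ε L ω a := by
  obtain ⟨m, hm, h1⟩ := shape_line ν h
  refine ⟨m, hm, fun ε hε => ?_⟩
  rw [ae_all_iff]
  intro a
  have h2 := (measurePreserving_shift ν (axis a : Site d)).quasiMeasurePreserving.ae (h1 ε hε)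
  filter_upwards [h2] with ω h3 h4
  obtain ⟨K, hK, h5⟩ := h3 (by
    show 1 ≤ (ω (0 + axis a)).1
    rw [zero_add]
    exact h4)
  refine ⟨⌈K⌉₊, h4, fun k => ?_⟩
  have e : (axis k : Site d) + axis a = axis (a + k) := by
    funext i
    simp only [axis, Pi.add_apply]
    split_ifs <;> simp [add_comm]
  obtain ⟨h6, h7⟩ := h5 k
  rw [T_shift, zero_add, e] at h6 h7
  have hL := Nat.le_ceil K
  exact ⟨h6.trans (ENNReal.ofReal_le_ofReal (by linarith)),
    (ENNReal.ofReal_le_ofReal (by linarith)).trans h7⟩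

end Frog81
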